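import Pool.Agent.Work.MP_b30479_gt.TBS.TB.HW
import Pool.Agent.Work.MP_b30479_gt.TBS.TwoBridgeGrowth

/-!
# The mirror image of a two-bridge link

`mirrorRev w` is the word `w` read backwards, with the generators exchanged and all crossings
changed: its `(1,1)`-tangle is the mirror image of the one of `w`, rotated by the angle `π`.  The
invariants of the mirror image at roots of unity are the complex conjugates.
-/

namespace Pool.Agent.Work.MP_b30479_gtS.TB

open Finset Filter Topology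

section
variable {s : ℕ} {u : ℂˣ} (h : IsPrimitiveRoot (u : ℂ) (2 * s + 1))
include h

lemma tangleValue_mirrorRev (w : List (Fin 2 × Bool)) :
    tangleValue s (mirrorRev w) u = star (tangleValue s w u) := by
  have e1 := tangleValue_mirror h w []
  have e2 := tangleValue_mirror h [] w
  rw [List.append_nil] at e1
  have e3 : mirrorRev ([] : List (Fin 2 × Bool)) ++ w = w := rfl
  rw [e3] at e2
  rw [e1, e2, HH_star]

lemma star_zpow_u (k : ℤ) : star (((u ^ k : ℂˣ) : ℂ)) = ((u ^ (-k) : ℂˣ) : ℂ) := by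
  have h1 : ‖(u : ℂ)‖ = 1 := h.norm'_eq_one (by omega)
  have h2 : star (u : ℂ) = (u : ℂ)⁻¹ := (Complex.inv_eq_conj h1).symm
  rw [Units.val_zpow_eq_zpow_val, Units.val_zpow_eq_zpow_val, star_zpow₀, h2, inv_zpow, zpow_neg]

end

lemma perm_mirror : ∀ π : Equiv.Perm (Fin 3), ∀ δ : ℤ, (δ = 1 ∨ δ = -1) →
    (![1, δ, -δ] : Fin 3 → ℤ) (π 2) = 1 →
    (∀ l, (![1, δ, -δ] : Fin 3 → ℤ) (π (Fin.rev l)) = (![1, 1, -1] : Fin 3 → ℤ) l) ∨
    (∀ l, (![1, δ, -δ] : Fin 3 → ℤ) (π (Fin.rev l)) = (![1, -1, - -1] : Fin 3 → ℤ) l) := by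
  intro π δ hδ
  rcases hδ with rfl | rfl
  · revert π
    decide
  · revert π
    decide

/-- orientations of the mirror image are orientations of the link; the writhe changes its sign -/
lemma mirror_orientation (w : List (Fin 2 × Bool)) {δ' : ℤ} (h' : IsOrientation (mirrorRev w) δ') :
    ∃ δ, IsOrientation w δ ∧
      orientedWrithe (mirrorRev w) ![1, δ', -δ'] = -orientedWrithe w ![1, δ, -δ] := by
  obtain ⟨h1, h2⟩ := mirror_orient w ![1, δ', -δ']
  obtain ⟨π, hπ⟩ := orientAfter_perm (mirrorRev w)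
  have h3 := h'.2
  rw [hπ] at h3
  have top : orientAfter w (rv (orientAfter (mirrorRev w) ![1, δ', -δ'])) 2 = 1 := by
    rw [h1]; rfl
  have e : rv (orientAfter (mirrorRev w) ![1, δ', -δ']) =
      fun l => (![1, δ', -δ'] : Fin 3 → ℤ) (π (Fin.rev l)) := by
    rw [hπ]; rfl
  rcases perm_mirror π δ' h'.1 h3 with h4 | h4
  · have e' : rv (orientAfter (mirrorRev w) ![1, δ', -δ']) = ![1, 1, -1] := by
      rw [e]; funext l; exact h4 l
    rw [e'] at h2 top
    exact ⟨1, ⟨Or.inl rfl, top⟩, h2⟩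
  · have e' : rv (orientAfter (mirrorRev w) ![1, δ', -δ']) = ![1, -1, - -1] := by
      rw [e]; funext l; exact h4 l
    rw [e'] at h2 top
    exact ⟨-1, ⟨Or.inr rfl, top⟩, h2⟩

/-- the invariants of the mirror image are the complex conjugates -/
theorem kashaev_mirror (w : List (Fin 2 × Bool)) {δ' : ℤ} (h' : IsOrientation (mirrorRev w) δ') :
    ∃ δ, IsOrientation w δ ∧ ∀ s : ℕ, twoBridgeKashaev (mirrorRev w) δ' (2 * s + 1) =
      star (twoBridgeKashaev w δ (2 * s + 1)) := by
  obtain ⟨δ, hδ, hw⟩ := mirror_orientation w h'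
  refine ⟨δ, hδ, fun s => ?_⟩
  unfold twoBridgeKashaev
  have e1 : (2 * s + 1 - 1) / 2 = s := by omega
  rw [e1]
  set u : ℂˣ := Units.mk0 (Complex.exp (2 * Real.pi * Complex.I / ((2 * s + 1 : ℕ) : ℂ)))
    (Complex.exp_ne_zero _) with hu
  have hp : IsPrimitiveRoot (u : ℂ) (2 * s + 1) :=
    Complex.isPrimitiveRoot_exp (2 * s + 1) (by omega)
  unfold twoBridgeJones
  rw [star_mul', star_zpow_u hp, tangleValue_mirrorRev hp, hw]
  congr 4
  ring

/-- the complex growth statement passes to the mirror image -/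
theorem complexGrowth_mirror {w : List (Fin 2 × Bool)} {V : ℂ} (H : ComplexGrowth w V) :
    ComplexGrowth (mirrorRev w) ((starRingEnd ℂ) V) := by
  refine ⟨exists_orientation _, fun δ' h' => ?_⟩
  obtain ⟨δ, hδ, hk⟩ := kashaev_mirror w h'
  obtain ⟨h1, h2, h3⟩ := H.2 δ hδ
  have hk3 : ∀ s : ℕ, twoBridgeKashaev (mirrorRev w) δ' (2 * s + 3) =
      star (twoBridgeKashaev w δ (2 * s + 3)) := fun s => hk (s + 1)
  refine ⟨?_, ?_, ?_⟩
  · filter_upwards [h1] with s hs
    rw [hk]
    exact star_ne_zero.mpr hs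
  · have e : Complex.exp ((starRingEnd ℂ) V / Real.pi) = star (Complex.exp (V / Real.pi)) := by
      show _ = (starRingEnd ℂ) _
      rw [← Complex.exp_conj, map_div₀, Complex.conj_ofReal]
    rw [e]
    have h4 := (continuous_star (R := ℂ)).continuousAt.tendsto.comp h2
    refine h4.congr fun s => ?_
    rw [hk3, hk]
    show star (_ / _) = _
    rw [star_div₀]
  · rw [Complex.conj_re]
    refine h3.congr fun s => ?_
    rw [hk3, hk, ← star_div₀, norm_star]

end Pool.Agent.Work.MP_b30479_gtS.TB
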