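import Mathlib

section

/-!
# Real and complex functions for the volume conjecture of the double twist links `C(a,a)`

Notation of `DT/HINTS.md`: `n = 2s+1`, `0 ≤ k ≤ 2s`, `η = (k-s)/n`, `z = n (ς + iρ)`, `u = ς + iρ`.
-/

namespace Pool.Agent.Work.MP_b30479_gtS.TB

end Pool.Agent.Work.MP_b30479_gtS.TB

namespace Pool.Agent.Work.MP_b30479_gtS.AX

end Pool.Agent.Work.MP_b30479_gtS.AX

namespace Pool.Agent.Work.MP_b30479_gtS.DT

open Finset TB AX


/-! ### real functions -/

/-- `log |2 sin π(v + iρ)|` -/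
noncomputable def el (ρ v : ℝ) : ℝ :=
  Real.log (2 * Real.cosh (2 * Real.pi * ρ) - 2 * Real.cos (2 * Real.pi * v)) / 2

/-- `∫_0^x log |2 sin π(v + iρ)| dv` -/
noncomputable def Lr (ρ x : ℝ) : ℝ := ∫ v in (0 : ℝ)..x, el ρ v

/-- the derivative of `Lr ρ x` with respect to `ρ` -/
noncomputable def Tr (ρ x : ℝ) : ℝ :=
  Real.pi * x - (1 - Complex.exp (2 * Real.pi * Complex.I * (x + ρ * Complex.I))).arg

/-- the derivative of `el ρ v` with respect to `v` is `π (rr ρ v)`, the derivative of `Tr ρ x` with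
respect to `ρ` is `-π (rr ρ x)` -/
noncomputable def rr (ρ v : ℝ) : ℝ :=
  Real.sin (2 * Real.pi * v) / (Real.cosh (2 * Real.pi * ρ) - Real.cos (2 * Real.pi * v))

/-- the exponent -/
noncomputable def H (a : ℕ) (η ς ρ : ℝ) : ℝ :=
  2 * Lr 0 (1 / 2 + η) - Lr ρ (η + ς) - Lr ρ (η - ς) - Real.pi * ρ * (1 + 2 * a * ς)

/-- the domain on which `H` is concave in `(η, ς)` -/
def KK : Set (ℝ × ℝ) := {p | 0 ≤ p.1 ∧ p.1 ≤ 1 / 2 ∧ |p.2| ≤ p.1 ∧ |p.2| ≤ 1 / 4}

/-- the part of the rectangle `|η| ≤ 1/2, |ς| ≤ 1/2` where the path runs near the real axis -/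
def Low (η ς : ℝ) : Prop :=
  |ς| ≤ 1 / 2 ∧ ((0 ≤ η ∧ η ≤ 1 / 2 ∧ min η (1 / 4) ≤ |ς|) ∨ (-(1 / 2) ≤ η ∧ η ≤ 0))

/-- the saddle point -/
structure IsSad (a : ℕ) (η₀ ς₀ ρ₀ : ℝ) : Prop where
  ρpos : 0 < ρ₀
  h1 : |ς₀| < η₀
  h2 : |ς₀| < 1 / 4
  h3 : η₀ < 1 / 2
  max : ∀ η ς, (η, ς) ∈ KK → H a η ς ρ₀ ≤ H a η₀ ς₀ ρ₀
  min : ∀ ρ, 0 ≤ ρ → H a η₀ ς₀ ρ₀ ≤ H a η₀ ς₀ ρ
  low : ∀ η ς, Low η ς → H a η ς 0 < H a η₀ ς₀ ρ₀
  pos : 0 < H a η₀ ς₀ ρ₀

/-! ### the integrand -/

/-- `2 cos (2π z / n)` -/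
noncomputable def cc (n : ℕ) (z : ℂ) : ℂ := 2 * Complex.cos (2 * Real.pi * z / n)

/-- `∏_{l=k+1}^{2s} (2 cos (2πz/n) - 2 cos (2π(l-s)/n))`, `n = 2s+1` -/
noncomputable def Qk (s k : ℕ) (z : ℂ) : ℂ :=
  ∏ l ∈ Ioc k (2 * s), (cc (2 * s + 1) z - cc (2 * s + 1) ((l : ℂ) - s))

/-- the integrand -/
noncomputable def Gk (a s k : ℕ) (z : ℂ) : ℂ :=
  Complex.exp (Real.pi * Complex.I * a * z ^ 2 / ((2 * s + 1 : ℕ) : ℂ)) *
    Complex.sin (2 * Real.pi * z / ((2 * s + 1 : ℕ) : ℂ)) * Qk s k z / Complex.sin (Real.pi * z) ^ 2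

/-- integral of `F` along `n/2 → n/2 + i h₁ → x₁ + i h₁ → x₁ + i h₂ → -n/2 + i h₂ → -n/2`
(`n/2 = b`) -/
noncomputable def pathInt (F : ℂ → ℂ) (b x₁ h₁ h₂ : ℝ) : ℂ :=
  Complex.I * (∫ y in (0 : ℝ)..h₁, F ((b : ℂ) + y * Complex.I)) -
    (∫ x in x₁..b, F ((x : ℂ) + h₁ * Complex.I)) -
    Complex.I * (∫ y in h₂..h₁, F ((x₁ : ℂ) + y * Complex.I)) -
    (∫ x in (-b)..x₁, F ((x : ℂ) + h₂ * Complex.I)) -
    Complex.I * (∫ y in (0 : ℝ)..h₂, F (((-b : ℝ) : ℂ) + y * Complex.I))

/-- half of `n = 2s+1` -/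
noncomputable def hn (s : ℕ) : ℝ := ((2 * s + 1 : ℕ) : ℝ) / 2

/-- `η` as a function of `k` -/
noncomputable def et (s k : ℕ) : ℝ := ((k : ℝ) - s) / ((2 * s + 1 : ℕ) : ℝ)

/-- the left end of the high part of the path (for `k ≥ s`) -/
noncomputable def xk (s k : ℕ) : ℝ := -(((2 * s + 1 : ℕ) : ℝ) * min (et s k) (1 / 4))

/-- the main integral -/
noncomputable def Mk (a : ℕ) (ρ₀ : ℝ) (s k : ℕ) : ℂ :=
  if s ≤ k then ∫ x in (xk s k)..(hn s),
    Gk a s k ((x : ℂ) + ((((2 * s + 1 : ℕ) : ℝ) * ρ₀ : ℝ) : ℂ) * Complex.I) else 0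

/-! ### the summand near the saddle point -/

/-- the central index -/
noncomputable def k0 (η₀ : ℝ) (s : ℕ) : ℕ := s + ⌊η₀ * ((2 * s + 1 : ℕ) : ℝ)⌋₊

/-- the derivative of `log (1 - e^{2πiw})` -/
noncomputable def lp (w : ℂ) : ℂ :=
  -(2 * Real.pi * Complex.I * Complex.exp (2 * Real.pi * Complex.I * w) /
    (1 - Complex.exp (2 * Real.pi * Complex.I * w)))

/-- `log (1 - e^{2πiw})` -/
noncomputable def ll (w : ℂ) : ℂ := Complex.log (1 - Complex.exp (2 * Real.pi * Complex.I * w))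

/-- coefficient of `X²` -/
noncomputable def cA (η₀ : ℝ) (u : ℂ) : ℂ :=
  -(Real.pi * Real.tan (Real.pi * η₀)) - (lp (u + η₀) - lp (u - η₀)) / 2

/-- coefficient of `XY` -/
noncomputable def cB (η₀ : ℝ) (u : ℂ) : ℂ := 2 * Real.pi * Complex.I - lp (u + η₀) - lp (u - η₀)

/-- coefficient of `Y²` -/
noncomputable def cC (a : ℕ) (η₀ : ℝ) (u : ℂ) : ℂ :=
  Real.pi * Complex.I * a - (lp (u + η₀) - lp (u - η₀)) / 2

/-- the limit of `‖Uk‖` -/
noncomputable def gg (a : ℕ) (η₀ : ℝ) (u : ℂ) (X : ℝ) : ℝ :=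
  ‖∫ Y : ℝ, Complex.exp (cA η₀ u * X ^ 2 + cB η₀ u * X * Y + cC a η₀ u * Y ^ 2)‖

end Pool.Agent.Work.MP_b30479_gtS.DT

end

section

/-!
# The Lobachevsky function and Riemann sums of `log (2 sin)`
-/

namespace Pool.Agent.Work.MP_b30479_gtS.Lob

open Real MeasureTheory intervalIntegral Set

/-- `log (2 sin x)` -/
noncomputable def ff (x : ℝ) : ℝ := Real.log (2 * Real.sin x)

/-- minus the Lobachevsky function -/
noncomputable def LF (x : ℝ) : ℝ := ∫ u in (0 : ℝ)..x, ff u

lemma ii (a b : ℝ) : IntervalIntegrable ff volume a b := by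
  have h : MeromorphicOn (fun x : ℝ => 2 * Real.sin x) (uIcc a b) :=
    (analyticOnNhd_const.mul analyticOnNhd_sin).meromorphicOn
  exact h.intervalIntegrable_log

lemma LF_sub (a b : ℝ) : LF b - LF a = ∫ u in a..b, ff u := by
  unfold LF
  rw [integral_interval_sub_left (ii 0 b) (ii 0 a)]

lemma LF_zero : LF 0 = 0 := by simp [LF]

lemma ff_le (x : ℝ) : ff x ≤ Real.log 2 := by
  unfold ff
  rcases eq_or_ne (2 * Real.sin x) 0 with h0 | h0
  · rw [h0, Real.log_zero]
    exact Real.log_nonneg (by norm_num)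
  · rw [← Real.log_abs]
    apply Real.log_le_log (abs_pos.mpr h0)
    rw [abs_mul, abs_two]
    have := Real.abs_sin_le_one x
    linarith only [this]

lemma ff_sub (x : ℝ) : ff (π - x) = ff x := by
  unfold ff
  rw [Real.sin_pi_sub]

/-- `∫ log (2 sin) = (b - a) log 2 + ∫ log sin` -/
lemma integral_ff (a b : ℝ) : ∫ u in a..b, ff u = (b - a) * Real.log 2 +
    ∫ u in a..b, Real.log (Real.sin u) := by
  have e1 : ∫ u in a..b, ff u = ∫ u in a..b, (Real.log 2 + Real.log (Real.sin u)) := by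
    apply intervalIntegral.integral_congr_codiscreteWithin
    apply Filter.codiscreteWithin_mono (Set.subset_univ _)
    have t₀ : Real.sin ⁻¹' {0}ᶜ ∈ Filter.codiscrete ℝ := by
      apply analyticOnNhd_sin.preimage_zero_mem_codiscrete (x := π / 2)
      simp
    filter_upwards [t₀] with y hy
    unfold ff
    rw [Real.log_mul (by norm_num) (by simpa using hy)]
  have hi : IntervalIntegrable (fun u => Real.log (Real.sin u)) volume a b :=
    intervalIntegrable_log_sin
  rw [e1, integral_add intervalIntegrable_const hi]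
  simp

lemma LF_pi : LF π = 0 := by
  unfold LF
  rw [integral_ff, integral_log_sin_zero_pi]
  ring

lemma LF_pi_half : LF (π / 2) = 0 := by
  unfold LF
  rw [integral_ff, integral_log_sin_zero_pi_div_two]
  ring

lemma LF_reflect (x : ℝ) : LF (π - x) = -LF x := by
  have h1 := LF_sub (π - x) π
  have h2 : ∫ u in (π - x)..π, ff u = ∫ u in (0 : ℝ)..x, ff (π - u) := by
    rw [intervalIntegral.integral_comp_sub_left (fun u => ff u) π]
    simp
  simp only [ff_sub] at h2
  rw [h2, LF_pi] at h1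
  have : LF x = ∫ u in (0 : ℝ)..x, ff u := rfl
  rw [← this] at h1
  linarith only [h1]

lemma sin_pi_six_le {x : ℝ} (h1 : π / 6 ≤ x) (h2 : x ≤ 5 * π / 6) : 1 / 2 ≤ Real.sin x := by
  have hpi := Real.pi_pos
  rcases le_total x (π / 2) with h3 | h3
  · rw [← Real.sin_pi_div_six]
    exact Real.sin_le_sin_of_le_of_le_pi_div_two (by linarith only [hpi]) h3 h1
  · rw [← Real.sin_pi_div_six, ← Real.sin_pi_sub x]
    exact Real.sin_le_sin_of_le_of_le_pi_div_two (by linarith only [hpi]) (by linarith only [h3]) (by linarith only [h2])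

lemma ff_nonneg {x : ℝ} (h1 : π / 6 ≤ x) (h2 : x ≤ 5 * π / 6) : 0 ≤ ff x := by
  unfold ff
  apply Real.log_nonneg
  have := sin_pi_six_le h1 h2
  linarith only [this]

lemma ff_nonpos {x : ℝ} (h1 : 0 ≤ x) (h2 : x ≤ π / 6) : ff x ≤ 0 := by
  have hpi := Real.pi_pos
  unfold ff
  apply Real.log_nonpos
  · have := Real.sin_nonneg_of_nonneg_of_le_pi h1 (by linarith only [h2, hpi])
    linarith only [this]
  · have : Real.sin x ≤ 1 / 2 := by
      rw [← Real.sin_pi_div_six]
      exact Real.sin_le_sin_of_le_of_le_pi_div_two (by linarith only [h1, hpi]) (by linarith only [hpi]) h2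
    linarith only [this]

lemma LF_antitone_small {x y : ℝ} (h0 : 0 ≤ x) (hxy : x ≤ y) (hy : y ≤ π / 6) : LF y ≤ LF x := by
  have h1 := LF_sub x y
  have h2 : ∫ u in x..y, ff u ≤ ∫ u in x..y, (0 : ℝ) := by
    apply integral_mono_on_of_le_Ioo hxy (ii x y) intervalIntegrable_const
    intro u hu
    exact ff_nonpos (by linarith only [h0, hu, hu.1]) (by linarith only [hy, hu, hu.2])
  rw [intervalIntegral.integral_zero] at h2
  linarith only [h1, h2]

lemma LF_monotone_mid {x y : ℝ} (h0 : π / 6 ≤ x) (hxy : x ≤ y) (hy : y ≤ 5 * π / 6) :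
    LF x ≤ LF y := by
  have h1 := LF_sub x y
  have h2 : ∫ u in x..y, (0 : ℝ) ≤ ∫ u in x..y, ff u := by
    apply integral_mono_on_of_le_Ioo hxy intervalIntegrable_const (ii x y)
    intro u hu
    exact ff_nonneg (by linarith only [h0, hu, hu.1]) (by linarith only [hy, hu, hu.2])
  rw [intervalIntegral.integral_zero] at h2
  linarith only [h1, h2]

/-- the minimum of `LF` on `[0, π/2]` is at `π/6` -/
lemma LF_ge {y : ℝ} (h0 : 0 ≤ y) (h1 : y ≤ π / 2) : LF (π / 6) ≤ LF y := by
  have hpi := Real.pi_pos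
  rcases le_total y (π / 6) with h2 | h2
  · exact LF_antitone_small h0 h2 le_rfl
  · exact LF_monotone_mid le_rfl h2 (by linarith only [h1, hpi])

lemma LF_pi_six_nonpos : LF (π / 6) ≤ 0 := by
  have := LF_antitone_small (x := 0) (y := π / 6) le_rfl (by positivity) le_rfl
  rwa [LF_zero] at this

/-- the maximum of `LF` on `[0, π]` is at `5π/6` -/
lemma LF_le {x : ℝ} (h0 : 0 ≤ x) (h1 : x ≤ π) : LF x ≤ -LF (π / 6) := by
  have hpi := Real.pi_pos
  have e : -LF (π / 6) = LF (5 * π / 6) := by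
    rw [← LF_reflect]; congr 1; ring
  rcases le_total x (π / 2) with h2 | h2
  · rcases le_total x (π / 6) with h3 | h3
    · have h4 := LF_antitone_small le_rfl h0 h3
      rw [LF_zero] at h4
      have := LF_pi_six_nonpos
      linarith only [h4, this]
    · rw [e]
      exact LF_monotone_mid h3 (by linarith only [hpi, h2]) le_rfl
  · have h3 := LF_reflect (π - x)
    rw [sub_sub_cancel] at h3
    have h4 := LF_ge (y := π - x) (by linarith only [h1]) (by linarith only [h2])
    linarith only [h3, h4]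

/-- duplication formula -/
lemma LF_dup {x : ℝ} : LF x = 2 * LF (x / 2) - 2 * LF (π / 2 - x / 2) := by
  have e1 : LF x = 2 * ∫ v in (0 : ℝ)..(x / 2), ff (2 * v) := by
    rw [intervalIntegral.integral_comp_mul_left (fun u => ff u) two_ne_zero]
    unfold LF
    rw [mul_zero, show 2 * (x / 2) = x by ring, smul_eq_mul]
    ring
  have e2 : ∫ v in (0 : ℝ)..(x / 2), ff (2 * v) =
      ∫ v in (0 : ℝ)..(x / 2), (ff v + ff (π / 2 - v)) := by
    apply intervalIntegral.integral_congr_codiscreteWithin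
    apply Filter.codiscreteWithin_mono (Set.subset_univ _)
    have t₀ : Real.sin ⁻¹' {0}ᶜ ∈ Filter.codiscrete ℝ := by
      apply analyticOnNhd_sin.preimage_zero_mem_codiscrete (x := π / 2)
      simp
    have t₁ : Real.cos ⁻¹' {0}ᶜ ∈ Filter.codiscrete ℝ := by
      apply analyticOnNhd_cos.preimage_zero_mem_codiscrete (x := 0)
      simp
    filter_upwards [t₀, t₁] with y h1y h2y
    have h1 : Real.sin y ≠ 0 := by simpa using h1y
    have h2 : Real.cos y ≠ 0 := by simpa using h2y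
    unfold ff
    rw [Real.sin_two_mul, Real.sin_pi_div_two_sub,
      ← Real.log_mul (by positivity) (by positivity)]
    congr 1
    ring
  have hi : IntervalIntegrable (fun v => ff (π / 2 - v)) volume 0 (x / 2) := by
    have := (ii (π / 2 - 0) (π / 2 - x / 2)).comp_sub_left (π / 2)
    simpa using this
  rw [e1, e2, integral_add (ii _ _) hi, intervalIntegral.integral_comp_sub_left (fun u => ff u),
    sub_zero, ← LF_sub (π / 2 - x / 2) (π / 2), LF_pi_half]
  have : LF (x / 2) = ∫ u in (0 : ℝ)..(x / 2), ff u := rfl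
  rw [← this]
  ring

lemma LF_three : 3 * LF (π / 3) = 2 * LF (π / 6) := by
  have h := LF_dup (x := π / 3)
  rw [show π / 3 / 2 = π / 6 by ring, show π / 2 - π / 6 = π / 3 by ring] at h
  linarith only [h]

/-- symmetrisation -/
lemma LF_sym {y z : ℝ} (hy : 0 ≤ y) (hyz : y ≤ z) (hs : y + z ≤ π) :
    2 * LF ((y + z) / 2) ≤ LF y + LF z := by
  have h1 := LF_sub y ((y + z) / 2)
  have h2 := LF_sub ((y + z) / 2) z
  have h3 : ∫ u in y..((y + z) / 2), ff u ≤ ∫ u in y..((y + z) / 2), ff (y + z - u) := by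
    have hi : IntervalIntegrable (fun u => ff (y + z - u)) volume y ((y + z) / 2) := by
      have := (ii (y + z - y) (y + z - (y + z) / 2)).comp_sub_left (y + z)
      simpa using this
    apply integral_mono_on_of_le_Ioo (by linarith only [hyz]) (ii _ _) hi
    intro u hu
    have hu0 : 0 < u := lt_of_le_of_lt hy hu.1
    have hu1 : u < (y + z) / 2 := hu.2
    have hsin : 0 < Real.sin u := Real.sin_pos_of_pos_of_lt_pi hu0 (by linarith only [hs, hu0, hu1])
    unfold ff
    apply Real.log_le_log (by linarith only [hsin])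
    have e1 : Real.sin (y + z - u) - Real.sin u =
        2 * Real.sin ((y + z - u - u) / 2) * Real.cos ((y + z - u + u) / 2) :=
      Real.sin_sub_sin _ _
    have e2 : 0 ≤ Real.sin ((y + z - u - u) / 2) :=
      Real.sin_nonneg_of_nonneg_of_le_pi (by linarith only [hu1]) (by linarith only [hs, hu0, hu1])
    have e3 : 0 ≤ Real.cos ((y + z - u + u) / 2) :=
      Real.cos_nonneg_of_mem_Icc ⟨by linarith only [hs, hu0, hu1], by linarith only [hs]⟩
    have e4 := mul_nonneg e2 e3
    nlinarith only [e1, e4]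
  rw [intervalIntegral.integral_comp_sub_left (fun u => ff u)] at h3
  rw [show y + z - (y + z) / 2 = (y + z) / 2 by ring, show y + z - y = z by ring] at h3
  linarith only [h1, h2, h3]

/-- the regular ideal tetrahedron maximises the volume -/
lemma LF_tetra {y z : ℝ} (hy : 0 ≤ y) (hz : 0 ≤ z) (hs : y + z ≤ π) :
    LF (y + z) - LF y - LF z ≤ -2 * LF (π / 6) := by
  have h1 : 2 * LF ((y + z) / 2) ≤ LF y + LF z := by
    rcases le_total y z with h | h
    · exact LF_sym hy h hs
    · have := LF_sym hz h (by linarith only [hs])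
      rw [add_comm z y] at this
      linarith only [this]
  have h2 := LF_dup (x := y + z)
  have h3 := LF_ge (y := π / 2 - (y + z) / 2) (by linarith only [hs]) (by linarith only [hy, hz])
  linarith only [h1, h2, h3]

/-! ### Riemann sums -/

lemma midpoint {a δ : ℝ} (hδ : 0 ≤ δ) (h1 : δ ≤ a) (h2 : a + δ ≤ π) :
    ∫ u in (a - δ)..(a + δ), ff u ≤ 2 * δ * ff a := by
  rw [← integral_add_adjacent_intervals (ii (a - δ) a) (ii a (a + δ))]
  have e1 : ∫ u in (a - δ)..a, ff u = ∫ x in (0 : ℝ)..δ, ff (a - x) := by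
    rw [intervalIntegral.integral_comp_sub_left (fun u => ff u), sub_zero]
  have e2 : ∫ u in a..(a + δ), ff u = ∫ x in (0 : ℝ)..δ, ff (a + x) := by
    rw [intervalIntegral.integral_comp_add_left (fun u => ff u), add_zero]
  have i1 : IntervalIntegrable (fun x => ff (a - x)) volume 0 δ := by
    have := (ii (a - 0) (a - δ)).comp_sub_left a
    simpa using this
  have i2 : IntervalIntegrable (fun x => ff (a + x)) volume 0 δ := by
    have := (ii (a + 0) (a + δ)).comp_add_left a
    simpa using this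
  rw [e1, e2, ← integral_add i1 i2]
  have h3 : ∫ x in (0 : ℝ)..δ, (ff (a - x) + ff (a + x)) ≤ ∫ x in (0 : ℝ)..δ, 2 * ff a := by
    apply integral_mono_on_of_le_Ioo hδ (i1.add i2) intervalIntegrable_const
    intro x hx
    have s1 : 0 < Real.sin (a - x) :=
      Real.sin_pos_of_pos_of_lt_pi (by linarith only [h1, hx, hx.2]) (by linarith only [hδ, h2, hx, hx.1])
    have s2 : 0 < Real.sin (a + x) :=
      Real.sin_pos_of_pos_of_lt_pi (by linarith only [hδ, h1, hx, hx.1]) (by linarith only [h2, hx, hx.2])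
    have s3 : 0 < Real.sin a :=
      Real.sin_pos_of_pos_of_lt_pi (by linarith only [h1, hx, hx.1, hx.2]) (by linarith only [h2, hx, hx.1, hx.2])
    unfold ff
    rw [← Real.log_mul (by positivity) (by positivity), two_mul (Real.log _),
      ← Real.log_mul (by positivity) (by positivity)]
    apply Real.log_le_log (by positivity)
    have e3 : Real.sin (a - x) * Real.sin (a + x) = Real.sin a ^ 2 - Real.sin x ^ 2 := by
      rw [Real.sin_sub, Real.sin_add]
      have c1 := Real.sin_sq_add_cos_sq a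
      have c2 := Real.sin_sq_add_cos_sq x
      have c3 : Real.cos x ^ 2 = 1 - Real.sin x ^ 2 := by linarith only [c2]
      have c4 : Real.cos a ^ 2 = 1 - Real.sin a ^ 2 := by linarith only [c1]
      ring_nf
      rw [c3, c4]
      ring
    nlinarith only [e3, sq_nonneg (Real.sin x)]
  refine h3.trans (le_of_eq ?_)
  rw [intervalIntegral.integral_const, smul_eq_mul]
  ring

lemma trapezoid {a b : ℝ} (h0 : 0 < a) (hab : a ≤ b) (hb : b < π) :
    (b - a) * (ff a + ff b) ≤ 2 * ∫ u in a..b, ff u := by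
  have e1 : ∫ u in a..b, ff u = ∫ u in a..b, ff (a + b - u) := by
    rw [intervalIntegral.integral_comp_sub_left (fun u => ff u)]
    congr 1 <;> ring
  have i1 : IntervalIntegrable (fun u => ff (a + b - u)) volume a b := by
    have := (ii (a + b - a) (a + b - b)).comp_sub_left (a + b)
    simpa using this
  have e2 : 2 * ∫ u in a..b, ff u = ∫ u in a..b, (ff u + ff (a + b - u)) := by
    rw [integral_add (ii a b) i1, ← e1]
    ring
  rw [e2]
  have h3 : ∫ u in a..b, (ff a + ff b) ≤ ∫ u in a..b, (ff u + ff (a + b - u)) := by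
    apply integral_mono_on_of_le_Ioo hab intervalIntegrable_const ((ii a b).add i1)
    intro u hu
    have s1 : 0 < Real.sin u :=
      Real.sin_pos_of_pos_of_lt_pi (by linarith only [h0, hu, hu.1]) (by linarith only [hb, hu, hu.2])
    have s2 : 0 < Real.sin (a + b - u) :=
      Real.sin_pos_of_pos_of_lt_pi (by linarith only [h0, hu, hu.2]) (by linarith only [hb, hu, hu.1])
    have s3 : 0 < Real.sin a := Real.sin_pos_of_pos_of_lt_pi h0 (by linarith only [hab, hb])
    have s4 : 0 < Real.sin b := Real.sin_pos_of_pos_of_lt_pi (by linarith only [h0, hab]) hb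
    unfold ff
    rw [← Real.log_mul (by positivity) (by positivity),
      ← Real.log_mul (by positivity) (by positivity)]
    apply Real.log_le_log (by positivity)
    have p1 : Real.sin u * Real.sin (a + b - u) =
        (Real.cos (2 * u - (a + b)) - Real.cos (a + b)) / 2 := by
      have q1 : Real.cos (2 * u - (a + b)) = Real.cos (u - (a + b - u)) := by congr 1; ring
      have q2 : Real.cos (a + b) = Real.cos (u + (a + b - u)) := by congr 1; ring
      rw [q1, q2, Real.cos_sub, Real.cos_add]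
      ring
    have p2 : Real.sin a * Real.sin b = (Real.cos (b - a) - Real.cos (a + b)) / 2 := by
      rw [Real.cos_sub, Real.cos_add]
      ring
    have p3 : Real.cos (b - a) ≤ Real.cos (2 * u - (a + b)) := by
      rw [← Real.cos_abs (2 * u - (a + b))]
      apply Real.cos_le_cos_of_nonneg_of_le_pi (abs_nonneg _) (by linarith only [h0, hb])
      rw [abs_le]
      constructor <;> linarith only [hu, hu.1, hu.2]
    nlinarith only [p1, p2, p3]
  refine le_trans (le_of_eq ?_) h3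
  rw [intervalIntegral.integral_const, smul_eq_mul]

/-- `∑_{j=1}^m log (2 sin (j h))` -/
noncomputable def SS (h : ℝ) (m : ℕ) : ℝ := ∑ j ∈ Finset.range m, ff ((j + 1) * h)

lemma SS_succ (h : ℝ) (m : ℕ) : SS h (m + 1) = SS h m + ff ((m + 1) * h) := by
  unfold SS; rw [Finset.sum_range_succ]

lemma SS_lower {h : ℝ} (h0 : 0 < h) (m : ℕ) (hm : (m + 1 / 2) * h ≤ π) :
    LF ((m + 1 / 2) * h) - LF (h / 2) ≤ h * SS h m := by
  induction m with
  | zero =>
    unfold SS
    simp only [Nat.cast_zero, zero_add, Finset.range_zero, Finset.sum_empty, mul_zero]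
    rw [show (1 / 2 : ℝ) * h = h / 2 by ring]
    linarith only []
  | succ m ih =>
    push_cast at hm ⊢
    have ih := ih (by nlinarith only [h0, hm])
    have h1 := midpoint (a := (m + 1) * h) (δ := h / 2) (by linarith only [h0])
      (by nlinarith only [h0, Nat.cast_nonneg (α := ℝ) m]) (by linarith only [hm])
    rw [← LF_sub, show (m + 1) * h - h / 2 = (m + 1 / 2) * h by ring,
      show (m + 1) * h + h / 2 = (m + 1 + 1 / 2) * h by ring] at h1
    rw [SS_succ]
    linarith only [ih, h1]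

lemma SS_upper {h : ℝ} (h0 : 0 < h) (m : ℕ) (hm : (m + 1) * h < π) :
    2 * (h * SS h (m + 1)) ≤ 2 * (LF ((m + 1) * h) - LF h) + h * (ff h + ff ((m + 1) * h)) := by
  induction m with
  | zero =>
    unfold SS
    simp only [Nat.cast_zero, zero_add, Finset.range_one, Finset.sum_singleton, one_mul]
    linarith only []
  | succ m ih =>
    push_cast at hm ⊢
    have ih := ih (by nlinarith only [h0, hm])
    have hm0 : (0 : ℝ) ≤ m := Nat.cast_nonneg m
    have h1 := trapezoid (a := (m + 1) * h) (b := (m + 1 + 1) * h) (by positivity)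
      (by nlinarith only [h0]) hm
    rw [← LF_sub] at h1
    rw [SS_succ]
    push_cast
    linarith only [ih, h1]

/-- lower bound of `LF` near `0` -/
lemma LF_small {h : ℝ} (h0 : 0 < h) (h1 : h ≤ π / 2) : h * Real.log h - h ≤ LF h := by
  have hpi := Real.pi_pos
  have e1 : ∫ u in (0 : ℝ)..h, Real.log u = h * Real.log h - h := by
    rw [integral_log]
    simp
  rw [← e1]
  unfold LF
  apply integral_mono_on_of_le_Ioo h0.le intervalIntegral.intervalIntegrable_log' (ii 0 h)
  intro u hu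
  unfold ff
  apply Real.log_le_log hu.1
  have h2 := Real.mul_le_sin hu.1.le (by linarith only [h1, hu, hu.2])
  have h3 : u ≤ 2 * (2 / π * u) := by
    have : (1 : ℝ) ≤ 2 * (2 / π) := by
      rw [show 2 * (2 / π) = 4 / π by ring, le_div_iff₀ hpi]
      linarith only [Real.pi_le_four]
    nlinarith only [this, hu, hu.1]
  linarith only [h2, h3]

end Pool.Agent.Work.MP_b30479_gtS.Lob

end

section

/-!
# The function `el` and its integral `Lr`
-/

namespace Pool.Agent.Work.MP_b30479_gtS.DT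

open Finset TB AX

theorem norm_two_sin (ρ v : ℝ) :
    ‖2 * Complex.sin (Real.pi * (v + ρ * Complex.I))‖ ^ 2 =
      2 * Real.cosh (2 * Real.pi * ρ) - 2 * Real.cos (2 * Real.pi * v) := by
  have h1 : (Real.pi : ℂ) * (v + ρ * Complex.I) =
      ((Real.pi * v : ℝ) : ℂ) + ((Real.pi * ρ : ℝ) : ℂ) * Complex.I := by
    push_cast
    ring
  have h2 : 2 * Complex.sin (Real.pi * (v + ρ * Complex.I)) =
      ((2 * (Real.sin (Real.pi * v) * Real.cosh (Real.pi * ρ)) : ℝ) : ℂ) +
      ((2 * (Real.cos (Real.pi * v) * Real.sinh (Real.pi * ρ)) : ℝ) : ℂ) * Complex.I := by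
    rw [h1, Complex.sin_add_mul_I, ← Complex.ofReal_sin, ← Complex.ofReal_cos,
      ← Complex.ofReal_cosh, ← Complex.ofReal_sinh]
    push_cast
    ring
  rw [h2, ← Complex.normSq_eq_norm_sq, Complex.normSq_add_mul_I]
  have h3 := Real.sin_sq_add_cos_sq (Real.pi * v)
  have h4 := Real.cosh_sq (Real.pi * ρ)
  have h5 : Real.cosh (2 * Real.pi * ρ) = Real.cosh (Real.pi * ρ) ^ 2 + Real.sinh (Real.pi * ρ) ^ 2 := by
    rw [mul_assoc, Real.cosh_two_mul]
  have h6 : Real.cos (2 * Real.pi * v) = 2 * Real.cos (Real.pi * v) ^ 2 - 1 := by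
    rw [mul_assoc, Real.cos_two_mul]
  rw [h5, h6, h4]
  have h7 : Real.sin (Real.pi * v) ^ 2 = 1 - Real.cos (Real.pi * v) ^ 2 := by linarith only [h3]
  calc _ = 4 * (Real.sin (Real.pi * v) ^ 2 * Real.cosh (Real.pi * ρ) ^ 2 +
      Real.cos (Real.pi * v) ^ 2 * Real.sinh (Real.pi * ρ) ^ 2) := by ring
    _ = _ := by rw [h4, h7]; ring

theorem el_eq (ρ v : ℝ) : el ρ v = Real.log ‖2 * Complex.sin (Real.pi * (v + ρ * Complex.I))‖ := by
  rw [el, ← norm_two_sin, Real.log_pow]
  push_cast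
  ring

theorem el_arg_pos {ρ v : ℝ} (hρ : ρ ≠ 0) :
    0 < 2 * Real.cosh (2 * Real.pi * ρ) - 2 * Real.cos (2 * Real.pi * v) := by
  have h1 := Real.cos_le_one (2 * Real.pi * v)
  have h2 : 1 < Real.cosh (2 * Real.pi * ρ) := by
    rw [Real.one_lt_cosh]
    exact mul_ne_zero (mul_ne_zero two_ne_zero Real.pi_ne_zero) hρ
  linarith only [h1, h2]

theorem el_arg_pos' {ρ v : ℝ} (h : ρ = 0 → Real.sin (Real.pi * v) ≠ 0) :
    0 < 2 * Real.cosh (2 * Real.pi * ρ) - 2 * Real.cos (2 * Real.pi * v) := by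
  by_cases hρ : ρ = 0
  · have h1 := h hρ
    have h2 : Real.cos (2 * Real.pi * v) = 1 - 2 * Real.sin (Real.pi * v) ^ 2 := by
      rw [mul_assoc, Real.cos_two_mul, Real.cos_sq']
      ring
    rw [hρ, mul_zero, Real.cosh_zero, h2]
    have h3 : 0 < Real.sin (Real.pi * v) ^ 2 := by positivity
    linarith only [h3]
  · exact el_arg_pos hρ

theorem exp_el {ρ v : ℝ} (hρ : ρ ≠ 0) :
    Real.exp (el ρ v) = ‖2 * Complex.sin (Real.pi * (v + ρ * Complex.I))‖ := by
  rw [el_eq, Real.exp_log]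
  have h1 := norm_two_sin ρ v
  have h2 := el_arg_pos (v := v) hρ
  rw [← h1] at h2
  by_contra h3
  have h4 : ‖2 * Complex.sin (Real.pi * (v + ρ * Complex.I))‖ = 0 :=
    le_antisymm (not_lt.mp h3) (norm_nonneg _)
  rw [h4] at h2
  norm_num at h2

theorem norm_two_sin_eq (ρ v : ℝ) : ‖2 * Complex.sin (Real.pi * (v + ρ * Complex.I))‖ =
    Real.exp (Real.pi * ρ) * ‖1 - Complex.exp (2 * Real.pi * Complex.I * (v + ρ * Complex.I))‖ := by
  set w : ℂ := v + ρ * Complex.I with hw
  have h1 : 2 * Complex.sin (Real.pi * w) = Complex.I * Complex.exp (-(Real.pi * w * Complex.I)) *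
      (1 - Complex.exp (2 * Real.pi * Complex.I * w)) := by
    have h2 : Complex.exp (-(Real.pi * w * Complex.I)) *
        Complex.exp (2 * Real.pi * Complex.I * w) = Complex.exp (Real.pi * w * Complex.I) := by
      rw [← Complex.exp_add]
      congr 1
      ring
    rw [Complex.sin, mul_sub, mul_one, mul_assoc Complex.I, h2,
      show -(Real.pi * w) * Complex.I = -(Real.pi * w * Complex.I) by ring]
    ring
  rw [h1, norm_mul, norm_mul, Complex.norm_I, one_mul, Complex.norm_exp]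
  congr 2
  rw [hw]
  simp

/-- `|2 sin π(v+iρ)| = e^{πρ} |1 - e^{2πi(v+iρ)}|` -/
theorem el_eq_exp' (ρ v : ℝ) (h : ρ = 0 → Real.sin (Real.pi * v) ≠ 0) : el ρ v = Real.pi * ρ +
    Real.log ‖1 - Complex.exp (2 * Real.pi * Complex.I * (v + ρ * Complex.I))‖ := by
  rw [el_eq, norm_two_sin_eq, Real.log_mul (Real.exp_ne_zero _), Real.log_exp]
  intro h0
  have h1 := el_arg_pos' h
  rw [← norm_two_sin, norm_two_sin_eq, h0, mul_zero] at h1
  norm_num at h1

/-- `|2 sin π(v+iρ)| = e^{πρ} |1 - e^{2πi(v+iρ)}|` -/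
theorem el_eq_exp {ρ v : ℝ} (hρ : ρ ≠ 0) : el ρ v = Real.pi * ρ +
    Real.log ‖1 - Complex.exp (2 * Real.pi * Complex.I * (v + ρ * Complex.I))‖ :=
  el_eq_exp' ρ v fun h => absurd h hρ

theorem el_neg (ρ v : ℝ) : el ρ (-v) = el ρ v := by
  rw [el, el, mul_neg, Real.cos_neg]

theorem el_neg_left (ρ v : ℝ) : el (-ρ) v = el ρ v := by
  rw [el, el, mul_neg, Real.cosh_neg]

theorem el_add_one (ρ v : ℝ) : el ρ (v + 1) = el ρ v := by
  rw [el, el, mul_add, mul_one, Real.cos_add_two_pi]

theorem el_one_sub (ρ v : ℝ) : el ρ (1 - v) = el ρ v := by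
  rw [sub_eq_neg_add, el_add_one, el_neg]

/-- `el` increases with `ρ` -/
theorem el_mono {ρ ρ' v : ℝ} (h0 : 0 ≤ ρ) (h : ρ ≤ ρ') (hv : ρ = 0 → Real.sin (Real.pi * v) ≠ 0) :
    el ρ v ≤ el ρ' v := by
  have h1 := el_arg_pos' hv
  have hpi := Real.pi_pos
  have h2 : Real.cosh (2 * Real.pi * ρ) ≤ Real.cosh (2 * Real.pi * ρ') := by
    have h3 : 0 ≤ ρ' := h0.trans h
    rw [Real.cosh_le_cosh, abs_of_nonneg (by positivity), abs_of_nonneg (by positivity)]
    exact mul_le_mul_of_nonneg_left h (by positivity)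
  rw [el, el]
  apply div_le_div_of_nonneg_right _ (by norm_num)
  apply Real.log_le_log h1
  linarith only [h2]

/-- comparison of the values at the same height -/
theorem el_le_el {ρ v w : ℝ} (hv : ρ = 0 → Real.sin (Real.pi * v) ≠ 0)
    (h : Real.cos (2 * Real.pi * w) ≤ Real.cos (2 * Real.pi * v)) : el ρ v ≤ el ρ w := by
  have h1 := el_arg_pos' hv
  rw [el, el]
  apply div_le_div_of_nonneg_right _ (by norm_num)
  apply Real.log_le_log h1
  linarith only [h]

theorem el_zero (v : ℝ) : el 0 v = Lob.ff (Real.pi * v) := by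
  have h2 : Real.cos (2 * Real.pi * v) = 1 - 2 * Real.sin (Real.pi * v) ^ 2 := by
    rw [mul_assoc, Real.cos_two_mul, Real.cos_sq']
    ring
  rw [el, Lob.ff, mul_zero, Real.cosh_zero, h2,
    show (2 : ℝ) * 1 - 2 * (1 - 2 * Real.sin (Real.pi * v) ^ 2) = (2 * Real.sin (Real.pi * v)) ^ 2 by
      ring, Real.log_pow]
  push_cast
  ring

theorem continuous_el {ρ : ℝ} (hρ : ρ ≠ 0) : Continuous (el ρ) := by
  unfold el
  refine Continuous.div_const (Continuous.log ?_ fun v => (el_arg_pos hρ).ne') 2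
  fun_prop

theorem el_intble (ρ a b : ℝ) : IntervalIntegrable (el ρ) MeasureTheory.volume a b := by
  by_cases hρ : ρ = 0
  · have h1 := (Lob.ii (Real.pi * a) (Real.pi * b)).comp_mul_left (c := Real.pi)
    rw [mul_div_cancel_left₀ _ Real.pi_ne_zero, mul_div_cancel_left₀ _ Real.pi_ne_zero] at h1
    refine h1.congr ?_
    intro v _
    rw [hρ, el_zero]
  · exact (continuous_el hρ).intervalIntegrable a b

theorem Lr_zero_left (x : ℝ) : Lr 0 x = Lob.LF (Real.pi * x) / Real.pi := by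
  unfold Lr Lob.LF
  simp_rw [el_zero]
  rw [intervalIntegral.integral_comp_mul_left (fun u => Lob.ff u) Real.pi_ne_zero]
  rw [mul_zero, smul_eq_mul]
  ring

theorem Lr_zero_right (ρ : ℝ) : Lr ρ 0 = 0 := by
  unfold Lr
  exact intervalIntegral.integral_same

theorem Lr_sub (ρ x y : ℝ) : Lr ρ y - Lr ρ x = ∫ v in x..y, el ρ v := by
  unfold Lr
  rw [intervalIntegral.integral_interval_sub_left (el_intble ρ 0 y) (el_intble ρ 0 x)]

theorem Lr_neg (ρ x : ℝ) : Lr ρ (-x) = -Lr ρ x := by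
  unfold Lr
  have h1 : ∫ v in (0 : ℝ)..(-x), el ρ v = ∫ v in (0 : ℝ)..(-x), el ρ (-v) := by
    simp only [el_neg]
  rw [h1, intervalIntegral.integral_comp_neg (fun v => el ρ v), neg_neg, neg_zero,
    intervalIntegral.integral_symm]

/-- mean value of `log |2 sin π(v+iρ)|` -/
theorem Lr_one {ρ : ℝ} (hρ : 0 ≤ ρ) : Lr ρ 1 = Real.pi * ρ := by
  rcases hρ.eq_or_lt with h0 | h0
  · rw [← h0, Lr_zero_left, mul_one, Lob.LF_pi, zero_div, mul_zero]
  set r : ℝ := Real.exp (-(2 * Real.pi * ρ)) with hr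
  have hr0 : 0 < r := Real.exp_pos _
  have hr1 : r ≤ 1 := by
    rw [hr]
    apply Real.exp_le_one_iff.mpr
    have := Real.pi_pos
    have : 0 ≤ 2 * Real.pi * ρ := by positivity
    linarith only [this]
  have h1 : ∀ v : ℝ, el ρ v = Real.pi * ρ + Real.log ‖circleMap 0 r (2 * Real.pi * v) - 1‖ := by
    intro v
    have e : Complex.exp (2 * Real.pi * Complex.I * (v + ρ * Complex.I)) =
        circleMap 0 r (2 * Real.pi * v) := by
      rw [circleMap, zero_add, hr, Complex.ofReal_exp, ← Complex.exp_add]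
      congr 1
      push_cast
      linear_combination (2 * Real.pi * ρ : ℂ) * Complex.I_sq
    rw [el_eq_exp h0.ne', norm_sub_rev, e]
  have h2 : ∀ v : ℝ, Real.log ‖circleMap 0 r (2 * Real.pi * v) - 1‖ = el ρ v - Real.pi * ρ := by
    intro v
    rw [h1 v]
    ring
  have h3 := circleAverage_log_norm_sub_const_eq_log_radius_add_posLog (a := (1 : ℂ)) (c := 0)
    (R := r) hr0.ne'
  have h4 : Real.log r + Real.posLog (r⁻¹ * ‖(0 : ℂ) - 1‖) = 0 := by
    rw [zero_sub, norm_neg, norm_one, mul_one, Real.posLog_eq_log, Real.log_inv]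
    · ring
    · rw [abs_of_pos (inv_pos.mpr hr0)]
      exact (one_le_inv₀ hr0).mpr hr1
  rw [h4, Real.circleAverage_def] at h3
  have h5 : ∫ v in (0 : ℝ)..1, Real.log ‖circleMap 0 r (2 * Real.pi * v) - 1‖ = 0 := by
    have h6 := intervalIntegral.integral_comp_mul_left (a := 0) (b := 1)
      (fun θ => Real.log ‖circleMap 0 r θ - 1‖) (c := 2 * Real.pi) (by positivity)
    rw [mul_zero, mul_one] at h6
    rw [h6]
    exact h3
  have h7 : Lr ρ 1 = ∫ v in (0 : ℝ)..1, el ρ v := rfl
  have h8 : ∫ v in (0 : ℝ)..1, (el ρ v - Real.pi * ρ) = 0 := by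
    refine Eq.trans ?_ h5
    exact intervalIntegral.integral_congr fun v _ => (h2 v).symm
  rw [intervalIntegral.integral_sub (el_intble ρ 0 1) intervalIntegrable_const,
    intervalIntegral.integral_const] at h8
  rw [h7]
  simp only [sub_zero, one_smul] at h8
  linarith only [h8]

theorem Lr_add_one {ρ : ℝ} (hρ : 0 ≤ ρ) (x : ℝ) : Lr ρ (x + 1) = Lr ρ x + Real.pi * ρ := by
  have h1 := Lr_sub ρ 1 (x + 1)
  have h2 := intervalIntegral.integral_comp_add_right (a := 0) (b := x) (fun v => el ρ v) 1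
  rw [zero_add] at h2
  rw [← h2] at h1
  simp only [el_add_one] at h1
  rw [Lr_one hρ] at h1
  have h3 : Lr ρ x = ∫ v in (0 : ℝ)..x, el ρ v := rfl
  rw [← h3] at h1
  linarith only [h1]

theorem Lr_one_sub {ρ : ℝ} (hρ : 0 ≤ ρ) (x : ℝ) : Lr ρ (1 - x) = Real.pi * ρ - Lr ρ x := by
  rw [sub_eq_neg_add, Lr_add_one hρ, Lr_neg]
  ring

theorem Lr_half {ρ : ℝ} (hρ : 0 ≤ ρ) : Lr ρ (1 / 2) = Real.pi * ρ / 2 := by
  have h1 := Lr_one_sub hρ (1 / 2)
  rw [show (1 : ℝ) - 1 / 2 = 1 / 2 by norm_num] at h1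
  linarith only [h1]

theorem Lr_half_add {ρ : ℝ} (hρ : 0 ≤ ρ) (x : ℝ) :
    Lr ρ (1 / 2 + x) + Lr ρ (1 / 2 - x) = Real.pi * ρ := by
  have h1 := Lr_one_sub hρ (1 / 2 + x)
  rw [show (1 : ℝ) - (1 / 2 + x) = 1 / 2 - x by ring] at h1
  linarith only [h1]

end Pool.Agent.Work.MP_b30479_gtS.DT

end

section

/-!
# Continuity of `Lr` and `H`
-/

namespace Pool.Agent.Work.MP_b30479_gtS.DT

open Finset TB AX

namespace LrCont

theorem measurable_el_cont (ρ : ℝ) : Measurable (el ρ) := by
  unfold el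
  fun_prop

theorem ae_sin_ne : ∀ᵐ v : ℝ, Real.sin (Real.pi * v) ≠ 0 := by
  have h1 : (Set.range fun k : ℤ => (k : ℝ)).Countable := Set.countable_range _
  have h2 : MeasureTheory.volume (Set.range fun k : ℤ => (k : ℝ)) = 0 := h1.measure_zero _
  rw [MeasureTheory.ae_iff]
  refine MeasureTheory.measure_mono_null ?_ h2
  intro v hv
  simp only [ne_eq, not_not, Set.mem_ofPred_eq] at hv
  rw [Real.sin_eq_zero_iff] at hv
  obtain ⟨k, hk⟩ := hv
  refine ⟨k, ?_⟩
  have hpi := Real.pi_ne_zero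
  have : Real.pi * (k - v) = 0 := by linarith only [hk]
  rcases mul_eq_zero.mp this with h | h
  · exact absurd h hpi
  · simp only
    linarith only [h]

/-- the upper bound of `el` for heights up to `B` -/
noncomputable def bb (B : ℝ) : ℝ := Real.log (2 * Real.cosh (2 * Real.pi * B) + 2) / 2

theorem bb_nonneg (B : ℝ) : 0 ≤ bb B := by
  unfold bb
  have h := Real.one_le_cosh (2 * Real.pi * B)
  have := Real.log_nonneg (show (1 : ℝ) ≤ 2 * Real.cosh (2 * Real.pi * B) + 2 by linarith only [h])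
  linarith only [this]

theorem abs_el_le {B ρ v : ℝ} (hρ : |ρ| ≤ B) (hv : Real.sin (Real.pi * v) ≠ 0) :
    ‖el ρ v‖ ≤ |el 0 v| + bb B := by
  have h1 : el ρ v = el |ρ| v := by
    rcases abs_choice ρ with h | h
    · rw [h]
    · rw [h, el_neg_left]
  rw [h1]
  have h2 : el 0 v ≤ el |ρ| v := el_mono le_rfl (abs_nonneg ρ) fun _ => hv
  have h3 : el |ρ| v ≤ bb B := by
    unfold el bb
    have h4 := el_arg_pos' (ρ := |ρ|) (v := v) fun _ => hv
    have h5 : Real.cosh (2 * Real.pi * |ρ|) ≤ Real.cosh (2 * Real.pi * B) := by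
      rw [Real.cosh_le_cosh, abs_mul, abs_mul (2 * Real.pi) B, abs_abs]
      exact mul_le_mul_of_nonneg_left (hρ.trans (le_abs_self B)) (abs_nonneg _)
    have h6 := Real.neg_one_le_cos (2 * Real.pi * v)
    have := Real.log_le_log h4 (show 2 * Real.cosh (2 * Real.pi * |ρ|) -
      2 * Real.cos (2 * Real.pi * v) ≤ 2 * Real.cosh (2 * Real.pi * B) + 2 by linarith only [h5, h6])
    linarith only [this]
  rw [Real.norm_eq_abs, abs_le]
  have h4 := neg_abs_le (el 0 v)
  have h5 := abs_nonneg (el 0 v)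
  have h6 := bb_nonneg B
  constructor <;> linarith only [h2, h4, h6, h3, h5]

theorem bound_intble (B a b : ℝ) :
    IntervalIntegrable (fun v => |el 0 v| + bb B) MeasureTheory.volume a b :=
  (el_intble 0 a b).abs.add (continuous_const.intervalIntegrable _ _)

theorem continuousAt_el_left {ρ v : ℝ} (hv : Real.sin (Real.pi * v) ≠ 0) :
    ContinuousAt (fun ρ => el ρ v) ρ := by
  unfold el
  refine ContinuousAt.div_const (ContinuousAt.log (by fun_prop) ?_) 2
  exact (el_arg_pos' (ρ := ρ) (v := v) fun _ => hv).ne'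

theorem continuous_Lr_left (x : ℝ) : Continuous fun ρ => Lr ρ x := by
  rw [continuous_iff_continuousAt]
  intro ρ
  unfold Lr
  refine intervalIntegral.continuousAt_of_dominated_interval
    (bound := fun v => |el 0 v| + bb (|ρ| + 1))
    (Filter.Eventually.of_forall fun r => (measurable_el_cont r).aestronglyMeasurable) ?_
    (bound_intble _ _ _) ?_
  · have h1 : ∀ᶠ r in nhds ρ, |r| < |ρ| + 1 :=
      (continuous_abs.tendsto ρ).eventually_lt_const (by linarith only [])
    filter_upwards [h1] with r hr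
    filter_upwards [ae_sin_ne] with v hv _
    exact abs_el_le hr.le hv
  · filter_upwards [ae_sin_ne] with v hv _
    exact continuousAt_el_left hv

theorem tail_tendsto (p : ℝ × ℝ) :
    Filter.Tendsto (fun q : ℝ × ℝ => ∫ v in p.2..q.2, el q.1 v) (nhds p) (nhds 0) := by
  have h1 : ∀ᶠ q : ℝ × ℝ in nhds p, |q.1| < |p.1| + 1 :=
    ((continuous_abs.comp continuous_fst).tendsto p).eventually_lt_const (by simp)
  have h2 : Filter.Tendsto (fun q : ℝ × ℝ => |∫ v in p.2..q.2, (|el 0 v| + bb (|p.1| + 1))|)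
      (nhds p) (nhds 0) := by
    have h3 := (intervalIntegral.continuous_primitive
      (fun a b => bound_intble (|p.1| + 1) a b) p.2)
    have h4 := (h3.comp continuous_snd).abs.tendsto p
    simpa using h4
  refine squeeze_zero_norm' ?_ h2
  filter_upwards [h1] with q hq
  refine intervalIntegral.norm_integral_le_abs_of_norm_le ?_ (bound_intble _ _ _)
  exact MeasureTheory.ae_restrict_of_ae (by
    filter_upwards [ae_sin_ne] with v hv
    exact abs_el_le hq.le hv)

end LrCont

open LrCont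

theorem continuous_Lr : Continuous fun p : ℝ × ℝ => Lr p.1 p.2 := by
  rw [continuous_iff_continuousAt]
  intro p
  have h1 : (fun q : ℝ × ℝ => Lr q.1 q.2) =
      fun q : ℝ × ℝ => Lr q.1 p.2 + ∫ v in p.2..q.2, el q.1 v := by
    funext q
    rw [← Lr_sub]
    ring
  have h2 : Filter.Tendsto (fun q : ℝ × ℝ => Lr q.1 p.2) (nhds p) (nhds (Lr p.1 p.2)) :=
    ((continuous_Lr_left p.2).comp continuous_fst).tendsto p
  have h3 := h2.add (tail_tendsto p)
  rw [add_zero] at h3
  unfold ContinuousAt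
  rw [h1]
  simpa using h3

theorem continuous_H (a : ℕ) : Continuous fun p : ℝ × ℝ × ℝ => H a p.1 p.2.1 p.2.2 := by
  unfold H
  have h1 : Continuous fun p : ℝ × ℝ × ℝ => Lr 0 (1 / 2 + p.1) :=
    continuous_Lr.comp (f := fun p : ℝ × ℝ × ℝ => ((0 : ℝ), 1 / 2 + p.1)) (by fun_prop)
  have h2 : Continuous fun p : ℝ × ℝ × ℝ => Lr p.2.2 (p.1 + p.2.1) :=
    continuous_Lr.comp (f := fun p : ℝ × ℝ × ℝ => (p.2.2, p.1 + p.2.1)) (by fun_prop)
  have h3 : Continuous fun p : ℝ × ℝ × ℝ => Lr p.2.2 (p.1 - p.2.1) :=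
    continuous_Lr.comp (f := fun p : ℝ × ℝ × ℝ => (p.2.2, p.1 - p.2.1)) (by fun_prop)
  fun_prop

end Pool.Agent.Work.MP_b30479_gtS.DT

end

section

/-!
# Derivatives of `el`, `Lr`, `Tr`
-/

namespace Pool.Agent.Work.MP_b30479_gtS.DT

open Finset TB AX

namespace LrDer

theorem cosh_gt_cos {ρ v : ℝ} (hρ : 0 < ρ) :
    Real.cos (2 * Real.pi * v) < Real.cosh (2 * Real.pi * ρ) := by
  have h1 : 1 < Real.cosh (2 * Real.pi * ρ) := by
    rw [Real.one_lt_cosh]
    have := Real.pi_pos
    positivity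
  exact lt_of_le_of_lt (Real.cos_le_one _) h1

theorem measurable_el (ρ : ℝ) : Measurable (el ρ) := by
  unfold el
  fun_prop

/-- `1 - e^{2πi(x+iρ)}` -/
noncomputable def qq (ρ x : ℝ) : ℂ :=
  Complex.exp (2 * Real.pi * Complex.I * (x + ρ * Complex.I))

theorem norm_qq (ρ x : ℝ) : ‖qq ρ x‖ = Real.exp (-(2 * Real.pi * ρ)) := by
  unfold qq
  rw [Complex.norm_exp]
  congr 1
  simp

theorem one_sub_qq_mem {ρ x : ℝ} (hρ : 0 < ρ) : 1 - qq ρ x ∈ Complex.slitPlane := by
  left
  have h1 : ‖qq ρ x‖ < 1 := by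
    rw [norm_qq, Real.exp_lt_one_iff]
    have := Real.pi_pos
    have : 0 < 2 * Real.pi * ρ := by positivity
    linarith only [this]
  have h2 := Complex.re_le_norm (qq ρ x)
  simp only [Complex.sub_re, Complex.one_re]
  linarith only [h1, h2]

theorem qq_re (ρ x : ℝ) :
    (qq ρ x).re = Real.exp (-(2 * Real.pi * ρ)) * Real.cos (2 * Real.pi * x) := by
  unfold qq
  rw [Complex.exp_re]
  congr 2 <;> simp

theorem qq_im (ρ x : ℝ) :
    (qq ρ x).im = Real.exp (-(2 * Real.pi * ρ)) * Real.sin (2 * Real.pi * x) := by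
  unfold qq
  rw [Complex.exp_im]
  congr 2 <;> simp

theorem hasDerivAt_qq_right (ρ x : ℝ) :
    HasDerivAt (fun x => qq ρ x) (qq ρ x * (2 * Real.pi * Complex.I)) x := by
  unfold qq
  have h1 : HasDerivAt (fun x : ℝ => 2 * (Real.pi : ℂ) * Complex.I * (x + ρ * Complex.I))
      (2 * (Real.pi : ℂ) * Complex.I) x := by
    simpa using ((Complex.ofRealCLM.hasDerivAt (x := x)).add_const (ρ * Complex.I : ℂ)).const_mul
      (2 * (Real.pi : ℂ) * Complex.I)
  exact h1.cexp

theorem hasDerivAt_qq_left (ρ x : ℝ) :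
    HasDerivAt (fun ρ => qq ρ x) (qq ρ x * (-(2 * Real.pi))) ρ := by
  unfold qq
  have h1 : HasDerivAt (fun ρ : ℝ => 2 * (Real.pi : ℂ) * Complex.I * (x + ρ * Complex.I))
      (-(2 * (Real.pi : ℂ))) ρ := by
    have := (((Complex.ofRealCLM.hasDerivAt (x := ρ)).mul_const Complex.I).const_add
      (x : ℂ)).const_mul (2 * (Real.pi : ℂ) * Complex.I)
    refine this.congr_deriv ?_
    simp only [Complex.ofRealCLM_apply, Complex.ofReal_one, one_mul]
    linear_combination (2 * (Real.pi : ℂ)) * Complex.I_sq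
  exact h1.cexp

theorem Tr_eq (ρ x : ℝ) : Tr ρ x = Real.pi * x - (Complex.log (1 - qq ρ x)).im := by
  unfold Tr qq
  rw [Complex.log_im]

theorem normSq_one_sub_qq (ρ x : ℝ) :
    Complex.normSq (1 - qq ρ x) = Real.exp (-(2 * Real.pi * ρ)) *
      (2 * (Real.cosh (2 * Real.pi * ρ) - Real.cos (2 * Real.pi * x))) := by
  rw [Complex.normSq_apply]
  simp only [Complex.sub_re, Complex.one_re, Complex.sub_im, Complex.one_im, qq_re, qq_im]
  rw [Real.cosh_eq]
  have h1 : Real.exp (-(2 * Real.pi * ρ)) * Real.exp (2 * Real.pi * ρ) = 1 := by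
    rw [← Real.exp_add]
    simp
  have h2 := Real.sin_sq_add_cos_sq (2 * Real.pi * x)
  generalize Real.exp (-(2 * Real.pi * ρ)) = E at *
  generalize Real.exp (2 * Real.pi * ρ) = F at *
  generalize Real.cos (2 * Real.pi * x) = c at *
  generalize Real.sin (2 * Real.pi * x) = s at *
  linear_combination (-1) * h1 + E ^ 2 * h2

/-- the derivative of `el` with respect to the height -/
theorem hasDerivAt_el_left {ρ v : ℝ} (hρ : 0 < ρ) :
    HasDerivAt (fun ρ => el ρ v) (Real.pi * Real.sinh (2 * Real.pi * ρ) /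
      (Real.cosh (2 * Real.pi * ρ) - Real.cos (2 * Real.pi * v))) ρ := by
  have h0 := cosh_gt_cos (v := v) hρ
  have h1 : 2 * Real.cosh (2 * Real.pi * ρ) - 2 * Real.cos (2 * Real.pi * v) ≠ 0 := by
    intro h
    linarith only [h0, h]
  have hc : HasDerivAt (fun ρ : ℝ => Real.cosh (2 * Real.pi * ρ))
      (Real.sinh (2 * Real.pi * ρ) * (2 * Real.pi)) ρ := by
    simpa using ((hasDerivAt_id ρ).const_mul (2 * Real.pi)).cosh
  have h2 := (((hc.const_mul 2).sub_const (2 * Real.cos (2 * Real.pi * v))).log h1).div_const 2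
  unfold el
  refine h2.congr_deriv ?_
  have h3 : Real.cosh (2 * Real.pi * ρ) - Real.cos (2 * Real.pi * v) ≠ 0 := by
    intro h
    linarith only [h0, h]
  rw [show 2 * Real.cosh (2 * Real.pi * ρ) - 2 * Real.cos (2 * Real.pi * v) =
    2 * (Real.cosh (2 * Real.pi * ρ) - Real.cos (2 * Real.pi * v)) by ring]
  field_simp

theorem continuous_dl {ρ : ℝ} (hρ : 0 < ρ) : Continuous fun v => Real.pi * Real.sinh (2 * Real.pi * ρ) /
      (Real.cosh (2 * Real.pi * ρ) - Real.cos (2 * Real.pi * v)) := by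
  refine Continuous.div (by fun_prop) (by fun_prop) ?_
  intro v
  have := cosh_gt_cos (v := v) hρ
  intro h
  linarith only [this, h]

theorem Tr_zero_right (ρ : ℝ) (hρ : 0 < ρ) : Tr ρ 0 = 0 := by
  unfold Tr
  have h1 : (2 * Real.pi * Complex.I * ((0 : ℝ) + ρ * Complex.I) : ℂ) =
      ((-(2 * Real.pi * ρ) : ℝ) : ℂ) := by
    push_cast
    linear_combination (2 * (Real.pi : ℂ) * ρ) * Complex.I_sq
  rw [h1, ← Complex.ofReal_exp, ← Complex.ofReal_one, ← Complex.ofReal_sub,
    Complex.arg_ofReal_of_nonneg]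
  · simp
  · have : Real.exp (-(2 * Real.pi * ρ)) < 1 := by
      rw [Real.exp_lt_one_iff]
      have := Real.pi_pos
      have : 0 < 2 * Real.pi * ρ := by positivity
      linarith only [this]
    linarith only [this]

/-- bound for the derivative of `el` with respect to the height -/
theorem dl_le {ρ r v : ℝ} (hρ : 0 < ρ) (hr : r ∈ Metric.ball ρ (ρ / 2)) :
    ‖Real.pi * Real.sinh (2 * Real.pi * r) /
      (Real.cosh (2 * Real.pi * r) - Real.cos (2 * Real.pi * v))‖ ≤
    Real.pi * Real.sinh (2 * Real.pi * (2 * ρ)) / (Real.cosh (Real.pi * ρ) - 1) := by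
  rw [Metric.mem_ball, Real.dist_eq, abs_lt] at hr
  have hpi := Real.pi_pos
  have hr0 : ρ / 2 < r := by linarith only [hr, hr.1]
  have hr1 : r < 2 * ρ := by linarith only [hρ, hr, hr.2]
  have h1 : 1 < Real.cosh (Real.pi * ρ) := by
    rw [Real.one_lt_cosh]
    positivity
  have h2 : Real.cosh (Real.pi * ρ) ≤ Real.cosh (2 * Real.pi * r) := by
    rw [Real.cosh_le_cosh, abs_of_pos (by positivity), abs_of_pos (by nlinarith only [hρ, hpi, hr])]
    nlinarith only [hr, hpi]
  have h3 := Real.cos_le_one (2 * Real.pi * v)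
  have h4 : 0 < Real.sinh (2 * Real.pi * r) := by
    rw [Real.sinh_pos_iff]
    nlinarith only [hρ, hpi, hr]
  have h5 : Real.sinh (2 * Real.pi * r) ≤ Real.sinh (2 * Real.pi * (2 * ρ)) := by
    rw [Real.sinh_le_sinh]
    nlinarith only [hρ, hpi, hr]
  have h6 : 0 < Real.cosh (2 * Real.pi * r) - Real.cos (2 * Real.pi * v) := by linarith only [h1, h2, h3]
  rw [Real.norm_of_nonneg (by positivity)]
  apply div_le_div₀
  · have : 0 < Real.sinh (2 * Real.pi * (2 * ρ)) := lt_of_lt_of_le h4 h5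
    positivity
  · exact mul_le_mul_of_nonneg_left h5 hpi.le
  · linarith only [h1]
  · linarith only [h2, h3]

end LrDer

open LrDer

theorem hasDerivAt_el {ρ v : ℝ} (hρ : 0 < ρ) :
    HasDerivAt (fun v => el ρ v) (Real.pi * rr ρ v) v := by
  have h0 := cosh_gt_cos (v := v) hρ
  have h1 : 2 * Real.cosh (2 * Real.pi * ρ) - 2 * Real.cos (2 * Real.pi * v) ≠ 0 := by
    intro h
    linarith only [h0, h]
  have hc : HasDerivAt (fun v : ℝ => Real.cos (2 * Real.pi * v))
      (-Real.sin (2 * Real.pi * v) * (2 * Real.pi)) v := by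
    simpa using ((hasDerivAt_id v).const_mul (2 * Real.pi)).cos
  have h2 := (((hc.const_mul 2).const_sub (2 * Real.cosh (2 * Real.pi * ρ))).log h1).div_const 2
  unfold el rr
  refine h2.congr_deriv ?_
  have h3 : Real.cosh (2 * Real.pi * ρ) - Real.cos (2 * Real.pi * v) ≠ 0 := by
    intro h
    linarith only [h0, h]
  rw [show 2 * Real.cosh (2 * Real.pi * ρ) - 2 * Real.cos (2 * Real.pi * v) =
    2 * (Real.cosh (2 * Real.pi * ρ) - Real.cos (2 * Real.pi * v)) by ring]
  field_simp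

theorem hasDerivAt_Lr {ρ x : ℝ} (hρ : 0 < ρ) : HasDerivAt (fun x => Lr ρ x) (el ρ x) x := by
  unfold Lr
  exact (continuous_el hρ.ne').integral_hasStrictDerivAt 0 x |>.hasDerivAt

theorem hasDerivAt_el_zero {x : ℝ} (hx : Real.sin (Real.pi * x) ≠ 0) :
    HasDerivAt (fun x => el 0 x) (Real.pi * Real.cos (Real.pi * x) / Real.sin (Real.pi * x)) x := by
  have hc2 : ∀ y : ℝ, Real.cos (2 * Real.pi * y) = 1 - 2 * Real.sin (Real.pi * y) ^ 2 := by
    intro y
    rw [mul_assoc, Real.cos_two_mul, Real.cos_sq']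
    ring
  have h1 : 2 * Real.cosh (2 * Real.pi * 0) - 2 * Real.cos (2 * Real.pi * x) ≠ 0 := by
    rw [mul_zero, Real.cosh_zero, hc2]
    have : 0 < Real.sin (Real.pi * x) ^ 2 := by positivity
    intro h
    linarith only [this, h]
  have hc : HasDerivAt (fun v : ℝ => Real.cos (2 * Real.pi * v))
      (-Real.sin (2 * Real.pi * x) * (2 * Real.pi)) x := by
    simpa using ((hasDerivAt_id x).const_mul (2 * Real.pi)).cos
  have h2 := (((hc.const_mul 2).const_sub (2 * Real.cosh (2 * Real.pi * 0))).log h1).div_const 2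
  unfold el
  refine h2.congr_deriv ?_
  rw [mul_zero, Real.cosh_zero, hc2, mul_assoc 2 Real.pi x, Real.sin_two_mul]
  rw [show 2 * (1 : ℝ) - 2 * (1 - 2 * Real.sin (Real.pi * x) ^ 2) =
    4 * Real.sin (Real.pi * x) ^ 2 by ring]
  field_simp
  ring

theorem hasDerivAt_Lr_zero {x : ℝ} (hx : Real.sin (Real.pi * x) ≠ 0) :
    HasDerivAt (fun x => Lr 0 x) (el 0 x) x := by
  unfold Lr
  refine intervalIntegral.integral_hasDerivAt_right (el_intble 0 0 x) ?_ ?_
  · exact (measurable_el 0).stronglyMeasurable.stronglyMeasurableAtFilter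
  · exact (hasDerivAt_el_zero hx).continuousAt

theorem hasDerivAt_Tr_right {ρ x : ℝ} (hρ : 0 < ρ) :
    HasDerivAt (fun x => Tr ρ x) (Real.pi * Real.sinh (2 * Real.pi * ρ) /
      (Real.cosh (2 * Real.pi * ρ) - Real.cos (2 * Real.pi * x))) x := by
  have h1 := ((hasDerivAt_qq_right ρ x).const_sub 1).clog_real (one_sub_qq_mem hρ)
  have h2 := Complex.imCLM.hasFDerivAt.comp_hasDerivAt x h1
  have h3 := ((hasDerivAt_id x).const_mul Real.pi).sub h2
  have h0 := cosh_gt_cos (v := x) hρ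
  have h4 : (fun x => Tr ρ x) = fun x => Real.pi * id x - (Complex.log (1 - qq ρ x)).im := by
    funext y
    rw [Tr_eq]
    rfl
  rw [h4]
  refine h3.congr_deriv ?_
  rw [Complex.imCLM_apply, Complex.div_im, normSq_one_sub_qq]
  simp only [Complex.neg_re, Complex.neg_im, Complex.mul_re, Complex.mul_im, Complex.sub_re,
    Complex.sub_im, Complex.one_re, Complex.one_im, qq_re, qq_im, Complex.I_re, Complex.I_im,
    Complex.re_ofNat, Complex.im_ofNat, Complex.ofReal_re, Complex.ofReal_im]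
  rw [Real.sinh_eq]
  have hE : Real.exp (-(2 * Real.pi * ρ)) * Real.exp (2 * Real.pi * ρ) = 1 := by
    rw [← Real.exp_add]
    simp
  have h5 := Real.sin_sq_add_cos_sq (2 * Real.pi * x)
  have h6 : Real.cosh (2 * Real.pi * ρ) - Real.cos (2 * Real.pi * x) ≠ 0 := by
    intro h
    linarith only [h0, h]
  have h7 := Real.exp_pos (-(2 * Real.pi * ρ))
  have h8 : Real.cosh (2 * Real.pi * ρ) =
    (Real.exp (2 * Real.pi * ρ) + Real.exp (-(2 * Real.pi * ρ))) / 2 := Real.cosh_eq _
  generalize Real.cosh (2 * Real.pi * ρ) = C at *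
  generalize Real.exp (-(2 * Real.pi * ρ)) = E at *
  generalize Real.exp (2 * Real.pi * ρ) = F at *
  generalize Real.cos (2 * Real.pi * x) = c at *
  generalize Real.sin (2 * Real.pi * x) = s at *
  have h9 : E ≠ 0 := h7.ne'
  field_simp
  rw [h8]
  ring_nf
  linear_combination (-(2 * Real.pi * E)) * h5

theorem hasDerivAt_Lr_left {ρ x : ℝ} (hρ : 0 < ρ) :
    HasDerivAt (fun ρ => Lr ρ x) (Tr ρ x) ρ := by
  have h := (intervalIntegral.hasDerivAt_integral_of_dominated_loc_of_deriv_le (𝕜 := ℝ)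
    (μ := MeasureTheory.volume) (a := 0) (b := x) (F := fun ρ v => el ρ v)
    (F' := fun ρ v => Real.pi * Real.sinh (2 * Real.pi * ρ) /
      (Real.cosh (2 * Real.pi * ρ) - Real.cos (2 * Real.pi * v))) (x₀ := ρ)
    (s := Metric.ball ρ (ρ / 2)) (bound := fun _ =>
      Real.pi * Real.sinh (2 * Real.pi * (2 * ρ)) / (Real.cosh (Real.pi * ρ) - 1))
    (Metric.ball_mem_nhds ρ (by positivity))
    (Filter.Eventually.of_forall fun r => (measurable_el r).aestronglyMeasurable)
    (el_intble ρ 0 x) (continuous_dl hρ).aestronglyMeasurable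
    (Filter.Eventually.of_forall fun v _ r hr => dl_le hρ hr)
    (continuous_const.intervalIntegrable _ _)
    (Filter.Eventually.of_forall fun v _ r hr => hasDerivAt_el_left (by
      rw [Metric.mem_ball, Real.dist_eq, abs_lt] at hr
      linarith only [hρ, hr, hr.1]))).2
  unfold Lr
  refine h.congr_deriv ?_
  rw [intervalIntegral.integral_eq_sub_of_hasDerivAt
    (fun v _ => hasDerivAt_Tr_right hρ) ((continuous_dl hρ).intervalIntegrable _ _),
    Tr_zero_right ρ hρ, sub_zero]

theorem hasDerivAt_Tr_left {ρ x : ℝ} (hρ : 0 < ρ) :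
    HasDerivAt (fun ρ => Tr ρ x) (-(Real.pi * rr ρ x)) ρ := by
  have h1 := ((hasDerivAt_qq_left ρ x).const_sub 1).clog_real (one_sub_qq_mem hρ)
  have h2 := Complex.imCLM.hasFDerivAt.comp_hasDerivAt ρ h1
  have h3 := h2.const_sub (Real.pi * x)
  have h0 := cosh_gt_cos (v := x) hρ
  have h4 : (fun ρ => Tr ρ x) = fun ρ => Real.pi * x - (Complex.log (1 - qq ρ x)).im := by
    funext y
    rw [Tr_eq]
  rw [h4]
  refine h3.congr_deriv ?_
  rw [Complex.imCLM_apply, Complex.div_im, normSq_one_sub_qq]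
  simp only [Complex.neg_re, Complex.neg_im, Complex.mul_re, Complex.mul_im, Complex.sub_re,
    Complex.sub_im, Complex.one_re, Complex.one_im, qq_re, qq_im,
    Complex.re_ofNat, Complex.im_ofNat, Complex.ofReal_re, Complex.ofReal_im]
  unfold rr
  have h6 : Real.cosh (2 * Real.pi * ρ) - Real.cos (2 * Real.pi * x) ≠ 0 := by
    intro h
    linarith only [h0, h]
  have h7 := Real.exp_pos (-(2 * Real.pi * ρ))
  generalize Real.cosh (2 * Real.pi * ρ) = C at *
  generalize Real.exp (-(2 * Real.pi * ρ)) = E at *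
  generalize Real.cos (2 * Real.pi * x) = c at *
  generalize Real.sin (2 * Real.pi * x) = s at *
  have h9 : E ≠ 0 := h7.ne'
  field_simp
  ring

end Pool.Agent.Work.MP_b30479_gtS.DT

end

section

/-!
# More inequalities for the Lobachevsky function
-/

namespace Pool.Agent.Work.MP_b30479_gtS.Lob

open Real MeasureTheory intervalIntegral Set

lemma ff_add_pi (x : ℝ) : ff (x + π) = ff x := by
  unfold ff
  rw [Real.sin_add_pi, mul_neg, Real.log_neg_eq_log]

lemma ff_neg (x : ℝ) : ff (-x) = ff x := by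
  unfold ff
  rw [Real.sin_neg, mul_neg, Real.log_neg_eq_log]

lemma LF_neg (x : ℝ) : LF (-x) = -LF x := by
  unfold LF
  have h1 : ∫ u in (0 : ℝ)..(-x), ff u = ∫ u in (0 : ℝ)..(-x), ff (-u) := by
    simp only [ff_neg]
  rw [h1, intervalIntegral.integral_comp_neg (fun u => ff u), neg_neg, neg_zero,
    intervalIntegral.integral_symm]

lemma LF_add_pi (x : ℝ) : LF (x + π) = LF x := by
  have h1 := LF_reflect (-x)
  rw [sub_neg_eq_add, add_comm, LF_neg, neg_neg] at h1
  exact h1

lemma LF_nonpos {y : ℝ} (h0 : 0 ≤ y) (h1 : y ≤ π / 2) : LF y ≤ 0 := by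
  have hpi := Real.pi_pos
  rcases le_total y (π / 6) with h2 | h2
  · have := LF_antitone_small le_rfl h0 h2
    rwa [LF_zero] at this
  · have := LF_monotone_mid h2 h1 (by linarith only [hpi])
    rwa [LF_pi_half] at this

/-- pointwise comparison -/
lemma ff_cmp {v j : ℝ} (hne : Real.sin (v - j) ≠ 0)
    (hs : 0 ≤ Real.sin (2 * v) * Real.sin (2 * j)) : ff (v - j) ≤ ff (v + j) := by
  unfold ff
  rw [← Real.log_abs, ← Real.log_abs (2 * Real.sin (v + j))]
  apply Real.log_le_log
  · apply abs_pos.mpr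
    exact mul_ne_zero two_ne_zero hne
  · rw [abs_mul, abs_mul]
    apply mul_le_mul_of_nonneg_left _ (abs_nonneg _)
    apply abs_le_abs_of_sq_le_sq'
    have e1 : Real.sin (v + j) ^ 2 - Real.sin (v - j) ^ 2 = Real.sin (2 * v) * Real.sin (2 * j) := by
      rw [Real.sin_add, Real.sin_sub, Real.sin_two_mul, Real.sin_two_mul]
      ring
    linarith only [hs, e1]
where
  abs_le_abs_of_sq_le_sq' {a b : ℝ} (hab : a ^ 2 ≤ b ^ 2) : |a| ≤ |b| := sq_le_sq.mp hab

lemma sin_ne_ae (j : ℝ) : ∀ᵐ v ∂(volume : Measure ℝ), Real.sin (v - j) ≠ 0 := by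
  have h1 : Set.Countable {v : ℝ | Real.sin (v - j) = 0} := by
    have : {v : ℝ | Real.sin (v - j) = 0} ⊆ Set.range (fun n : ℤ => (n : ℝ) * π + j) := by
      intro v hv
      simp only [Set.mem_setOf_eq] at hv
      rw [Real.sin_eq_zero_iff] at hv
      obtain ⟨n, hn⟩ := hv
      exact ⟨n, by simp only; rw [hn]; ring⟩
    exact (Set.countable_range _).mono this
  have h2 := h1.measure_zero volume
  rw [MeasureTheory.measure_eq_zero_iff_ae_notMem] at h2
  filter_upwards [h2] with v hv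
  simpa using hv

lemma ii_add (a b j : ℝ) : IntervalIntegrable (fun v => ff (v + j)) volume a b := by
  have := (ii (a + j) (b + j)).comp_add_right j
  simpa using this

lemma ii_sub (a b j : ℝ) : IntervalIntegrable (fun v => ff (v - j)) volume a b := by
  have := (ii (a - j) (b - j)).comp_sub_right j
  simpa using this

lemma int_add (a b j : ℝ) : ∫ v in a..b, ff (v + j) = LF (b + j) - LF (a + j) := by
  rw [LF_sub, intervalIntegral.integral_comp_add_right (fun u => ff u)]

lemma int_sub (a b j : ℝ) : ∫ v in a..b, ff (v - j) = LF (b - j) - LF (a - j) := by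
  rw [LF_sub, intervalIntegral.integral_comp_sub_right (fun u => ff u)]

/-- monotonicity of `i ↦ LF (i + j) - LF (i - j)` -/
lemma Q_mono {a b j : ℝ} (hab : a ≤ b)
    (hs : ∀ v, a ≤ v → v ≤ b → 0 ≤ Real.sin (2 * v) * Real.sin (2 * j)) :
    LF (a + j) - LF (a - j) ≤ LF (b + j) - LF (b - j) := by
  have h1 : ∫ v in a..b, ff (v - j) ≤ ∫ v in a..b, ff (v + j) := by
    apply intervalIntegral.integral_mono_ae_restrict hab (ii_sub a b j) (ii_add a b j)
    have h2 := ae_restrict_of_ae (s := Icc a b) (sin_ne_ae j)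
    filter_upwards [h2, ae_restrict_mem measurableSet_Icc] with v hv hm
    exact ff_cmp hv (hs v hm.1 hm.2)
  rw [int_sub, int_add] at h1
  linarith only [h1]

lemma Q_anti {a b j : ℝ} (hab : a ≤ b)
    (hs : ∀ v, a ≤ v → v ≤ b → Real.sin (2 * v) * Real.sin (2 * j) ≤ 0) :
    LF (b + j) - LF (b - j) ≤ LF (a + j) - LF (a - j) := by
  have h1 := Q_mono (a := a) (b := b) (j := -j) hab (fun v h1 h2 => by
    have := hs v h1 h2
    rw [show 2 * -j = -(2 * j) by ring, Real.sin_neg]
    linarith only [this])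
  rw [sub_neg_eq_add, sub_neg_eq_add, ← sub_eq_add_neg, ← sub_eq_add_neg] at h1
  linarith only [h1]

/-- half of the regular ideal octahedron -/
lemma Q_le {i j : ℝ} (hi0 : 0 ≤ i) (hi1 : i ≤ π) (hj0 : 0 ≤ j) (hj1 : j ≤ π) :
    LF (i + j) - LF (i - j) - 2 * LF j ≤ -4 * LF (π / 4) := by
  have hpi := Real.pi_pos
  have h4 : LF (π / 4) ≤ 0 := LF_nonpos (by linarith only [hpi]) (by linarith only [hpi])
  have sinpos : ∀ x, 0 ≤ x → x ≤ π → 0 ≤ Real.sin x := fun x h1 h2 =>
    Real.sin_nonneg_of_nonneg_of_le_pi h1 h2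
  have sinneg : ∀ x, π ≤ x → x ≤ 2 * π → Real.sin x ≤ 0 := fun x h1 h2 => by
    have h3 := Real.sin_sub_pi x
    have h4 := sinpos (x - π) (by linarith only [h1]) (by linarith only [h2])
    linarith only [h3, h4]
  rcases le_total j (π / 2) with hj2 | hj2
  · have sj : 0 ≤ Real.sin (2 * j) := sinpos _ (by linarith only [hj0]) (by linarith only [hj2])
    have key : LF (i + j) - LF (i - j) ≤ LF (π / 2 + j) - LF (π / 2 - j) := by
      rcases le_total i (π / 2) with hi2 | hi2
      · exact Q_mono hi2 (fun v h1 h2 => mul_nonneg (sinpos _ (by linarith only [hi0, h1]) (by linarith only [h2])) sj)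
      · exact Q_anti hi2 (fun v h1 h2 =>
          mul_nonpos_of_nonpos_of_nonneg (sinneg _ (by linarith only [h1]) (by linarith only [hi1, h2])) sj)
    have h5 : LF (π / 2 + j) = -LF (π / 2 - j) := by
      rw [← LF_reflect]; congr 1; ring
    have h6 : 2 * LF (π / 4) ≤ LF j + LF (π / 2 - j) := by
      rcases le_total j (π / 2 - j) with h7 | h7
      · have := LF_sym hj0 h7 (by linarith only [hpi])
        rwa [show (j + (π / 2 - j)) / 2 = π / 4 by ring] at this
      · have := LF_sym (y := π / 2 - j) (z := j) (by linarith only [hj2]) h7 (by linarith only [hpi])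
        rw [show (π / 2 - j + j) / 2 = π / 4 by ring] at this
        linarith only [this]
    linarith only [key, h5, h6]
  · have sj : Real.sin (2 * j) ≤ 0 := sinneg _ (by linarith only [hj2]) (by linarith only [hj1])
    rcases le_total i (π / 2) with hi2 | hi2
    · have h5 := Q_anti (a := 0) (b := i) (j := j) hi0 (fun v h1 h2 =>
        mul_nonpos_of_nonneg_of_nonpos (sinpos _ (by linarith only [h1]) (by linarith only [hi2, h2])) sj)
      rw [zero_add, zero_sub, LF_neg] at h5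
      linarith only [h4, h5]
    · have h5 := Q_mono (a := i) (b := π) (j := j) hi1 (fun v h1 h2 =>
        mul_nonneg_of_nonpos_of_nonpos (sinneg _ (by linarith only [hi2, h1]) (by linarith only [h2])) sj)
      rw [add_comm π j, LF_add_pi, LF_reflect] at h5
      linarith only [h4, h5]

lemma P_le {i k : ℝ} (hi0 : 0 ≤ i) (hi1 : i ≤ π) (hk0 : 0 ≤ k) (hk1 : k ≤ π) :
    2 * LF k - LF (k - i) - LF (k + i) ≤ -4 * LF (π / 4) := by
  have h1 := Q_le hi0 hi1 (j := π - k) (by linarith only [hk1]) (by linarith only [hk0])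
  have e1 : LF (π - k) = -LF k := LF_reflect k
  have e2 : LF (i + (π - k)) = -LF (k - i) := by
    rw [← LF_reflect]; congr 1; ring
  have e3 : LF (i - (π - k)) = LF (k + i) := by
    rw [← LF_add_pi]; congr 1; ring
  rw [e1, e2, e3] at h1
  linarith only [h1]

end Pool.Agent.Work.MP_b30479_gtS.Lob

end

section

/-!
# Inequalities on the real axis
-/

namespace Pool.Agent.Work.MP_b30479_gtS.DT

open Finset TB AX

lemma realAx_LF_deriv {x : ℝ} (h0 : 0 < x) (h1 : x < Real.pi) :
    HasDerivAt Lob.LF (Lob.ff x) x := by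
  have hs : 0 < Real.sin x := Real.sin_pos_of_pos_of_lt_pi h0 h1
  have hd : HasDerivAt Lob.ff (2 * Real.cos x / (2 * Real.sin x)) x :=
    ((Real.hasDerivAt_sin x).const_mul 2).log (by positivity)
  have hm : Measurable Lob.ff := by
    unfold Lob.ff
    fun_prop
  exact intervalIntegral.integral_hasDerivAt_right (Lob.ii 0 x)
    (hm.stronglyMeasurable.stronglyMeasurableAtFilter) hd.continuousAt

theorem realAx_H (a : ℕ) (η ς : ℝ) : H a η ς 0 =
    (2 * Lob.LF (Real.pi * (1 / 2 + η)) -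
      (Lob.LF (Real.pi * ς + Real.pi * η) - Lob.LF (Real.pi * ς - Real.pi * η))) / Real.pi := by
  unfold H
  rw [Lr_zero_left, Lr_zero_left, Lr_zero_left]
  have e1 : Lob.LF (Real.pi * (η - ς)) = -Lob.LF (Real.pi * ς - Real.pi * η) := by
    rw [← Lob.LF_neg]
    congr 1
    ring
  have e2 : Real.pi * (η + ς) = Real.pi * ς + Real.pi * η := by ring
  rw [e1, e2]
  ring

theorem realAx_even (a : ℕ) (η ς : ℝ) : H a η ς 0 = H a η |ς| 0 := by
  rcases abs_choice ς with h | h
  · rw [h]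
  · rw [h]
    unfold H
    rw [sub_neg_eq_add, ← sub_eq_add_neg]
    ring

/-- `H(η, ς, 0)` is even in `ς` and decreases with `|ς|` for `0 ≤ η ≤ 1/2` -/
theorem H_zero_anti (a : ℕ) {η ς ς' : ℝ} (h0 : 0 ≤ η) (h1 : η ≤ 1 / 2) (h2 : |ς| ≤ |ς'|)
    (h3 : |ς'| ≤ 1 / 2) : H a η ς' 0 ≤ H a η ς 0 := by
  have hpi := Real.pi_pos
  rw [realAx_even a η ς, realAx_even a η ς', realAx_H, realAx_H]
  apply div_le_div_of_nonneg_right _ hpi.le
  have h := Lob.Q_mono (a := Real.pi * |ς|) (b := Real.pi * |ς'|) (j := Real.pi * η)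
    (mul_le_mul_of_nonneg_left h2 hpi.le) (fun v hv1 hv2 => by
      have hv3 : 0 ≤ v := le_trans (by positivity) hv1
      have hv4 : v ≤ Real.pi / 2 := hv2.trans (by nlinarith only [h3, hpi])
      apply mul_nonneg
      · exact Real.sin_nonneg_of_nonneg_of_le_pi (by linarith only [hv3]) (by linarith only [hv4])
      · exact Real.sin_nonneg_of_nonneg_of_le_pi (by positivity) (by nlinarith only [h1, hpi]))
  linarith only [h]

theorem realAx_mono (a : ℕ) {η ς ς' : ℝ} (h0 : -(1 / 2) ≤ η) (h1 : η ≤ 0) (h2 : |ς| ≤ |ς'|)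
    (h3 : |ς'| ≤ 1 / 2) : H a η ς 0 ≤ H a η ς' 0 := by
  have hpi := Real.pi_pos
  rw [realAx_even a η ς, realAx_even a η ς', realAx_H, realAx_H]
  apply div_le_div_of_nonneg_right _ hpi.le
  have h := Lob.Q_anti (a := Real.pi * |ς|) (b := Real.pi * |ς'|) (j := Real.pi * η)
    (mul_le_mul_of_nonneg_left h2 hpi.le) (fun v hv1 hv2 => by
      have hv3 : 0 ≤ v := le_trans (by positivity) hv1
      have hv4 : v ≤ Real.pi / 2 := hv2.trans (by nlinarith only [h3, hpi])
      apply mul_nonpos_of_nonneg_of_nonpos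
      · exact Real.sin_nonneg_of_nonneg_of_le_pi (by linarith only [hv3]) (by linarith only [hv4])
      · have h4 := Real.sin_nonneg_of_nonneg_of_le_pi (x := -(2 * (Real.pi * η)))
          (by nlinarith only [h1, hpi]) (by nlinarith only [h0, hpi])
        rw [Real.sin_neg] at h4
        linarith only [h4])
  linarith only [h]

theorem realAx_dup (x : ℝ) : Lr 0 (2 * x) = 2 * Lr 0 x + 2 * Lr 0 (1 / 2 + x) := by
  have h1 := Lob.LF_dup (x := Real.pi * (2 * x))
  have h2 := Lr_half_add le_rfl x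
  rw [Lr_zero_left, Lr_zero_left] at h2
  rw [Lr_zero_left, Lr_zero_left, Lr_zero_left, h1]
  have e1 : Real.pi * (2 * x) / 2 = Real.pi * x := by ring
  have e2 : Real.pi / 2 - Real.pi * x = Real.pi * (1 / 2 - x) := by ring
  rw [e1, e2]
  rw [mul_zero, ← add_div, div_eq_zero_iff] at h2
  have h3 := h2.resolve_right Real.pi_ne_zero
  have h4 : Lob.LF (Real.pi * (1 / 2 - x)) = -Lob.LF (Real.pi * (1 / 2 + x)) := by linarith only [h3]
  rw [h4]
  ring

theorem realAx_six : Lr 0 (1 / 6) < 0 := by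
  have hpi := Real.pi_pos
  rw [Lr_zero_left]
  apply div_neg_of_neg_of_pos _ hpi
  have hc : Continuous Lob.LF := by
    unfold Lob.LF
    exact intervalIntegral.continuous_primitive (fun a b => Lob.ii a b) 0
  have h : StrictAntiOn Lob.LF (Set.Icc 0 (Real.pi / 6)) := by
    apply strictAntiOn_of_deriv_neg (convex_Icc _ _) hc.continuousOn
    rw [interior_Icc]
    intro x hx
    rw [(realAx_LF_deriv hx.1 (by linarith only [hpi, hx, hx.2])).deriv]
    unfold Lob.ff
    have h1 : 0 < Real.sin x := Real.sin_pos_of_pos_of_lt_pi hx.1 (by linarith only [hpi, hx, hx.2])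
    have h2 : Real.sin x < 1 / 2 := by
      rw [← Real.sin_pi_div_six]
      exact Real.sin_lt_sin_of_lt_of_le_pi_div_two (by linarith only [hpi, hx, hx.1]) (by linarith only [hpi]) hx.2
    exact Real.log_neg (by linarith only [h1]) (by linarith only [h2])
  have h1 := h (a := 0) (b := Real.pi / 6) ⟨le_rfl, by positivity⟩ ⟨by positivity, le_rfl⟩
    (by positivity)
  rw [Lob.LF_zero] at h1
  rw [show Real.pi * (1 / 6) = Real.pi / 6 by ring]
  exact h1

theorem H_zero_low (a : ℕ) : ∃ η₁ : ℝ, 1 / 4 ≤ η₁ ∧ η₁ < 1 / 2 ∧ 0 < H a η₁ (1 / 4) 0 ∧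
    (∀ η ς, Low η ς → H a η ς 0 ≤ H a η₁ (1 / 4) 0) ∧
    (∀ ς, |ς| ≤ 1 / 4 → H a (1 / 2) ς 0 ≤ H a η₁ (1 / 4) 0) := by
  have hc : Continuous fun η : ℝ => H a η (1 / 4) 0 :=
    (continuous_H a).comp (by fun_prop : Continuous fun η : ℝ => ((η, (1 / 4 : ℝ), (0 : ℝ)) :
      ℝ × ℝ × ℝ))
  obtain ⟨η₁, h1, h2⟩ := isCompact_Icc.exists_isMaxOn (s := Set.Icc (1 / 4 : ℝ) (1 / 2))
    ⟨1 / 4, le_rfl, by norm_num⟩ hc.continuousOn
  have hmax : ∀ η : ℝ, 1 / 4 ≤ η → η ≤ 1 / 2 → H a η (1 / 4) 0 ≤ H a η₁ (1 / 4) 0 :=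
    fun η ha hb => h2 ⟨ha, hb⟩
  have h6 := realAx_six
  -- the value at `1/3`
  have hthird : H a (1 / 3) (1 / 4) 0 = -(5 / 2) * Lr 0 (1 / 6) := by
    have d := realAx_dup (1 / 12)
    have r := Lr_one_sub le_rfl (1 / 6)
    unfold H
    rw [show (2 : ℝ) * (1 / 12) = 1 / 6 by norm_num,
      show (1 / 2 : ℝ) + 1 / 12 = 7 / 12 by norm_num] at d
    rw [show (1 : ℝ) - 1 / 6 = 5 / 6 by norm_num] at r
    rw [show (1 / 2 : ℝ) + 1 / 3 = 5 / 6 by norm_num, show (1 / 3 : ℝ) + 1 / 4 = 7 / 12 by norm_num,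
      show (1 / 3 : ℝ) - 1 / 4 = 1 / 12 by norm_num, r]
    linarith only [d]
  have hthird2 := hmax (1 / 3) (by norm_num) (by norm_num)
  have hpos : 0 < H a η₁ (1 / 4) 0 := by
    rw [hthird] at hthird2
    linarith only [h6, hthird2]
  -- the value at `1/2`
  have hhalf : ∀ ς : ℝ, H a (1 / 2) ς 0 = 0 := by
    intro ς
    have d := Lr_half_add le_rfl ς
    have e := Lr_one le_rfl
    unfold H
    rw [show (1 / 2 : ℝ) + 1 / 2 = 1 by norm_num, e]
    linarith only [d]
  refine ⟨η₁, h1.1, ?_, hpos, ?_, ?_⟩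
  · rcases h1.2.lt_or_eq with h | h
    · exact h
    · rw [h, hhalf] at hpos
      exact absurd hpos (lt_irrefl _)
  · rintro η ς ⟨hς, ⟨h0, h1', hm⟩ | ⟨h0, h1'⟩⟩
    · rcases le_total (1 / 4) η with h4 | h4
      · rw [min_eq_right h4] at hm
        refine le_trans (H_zero_anti a h0 h1' (ς := 1 / 4) (ς' := ς) ?_ hς) (hmax η h4 h1')
        rw [abs_of_pos (by norm_num : (0 : ℝ) < 1 / 4)]
        exact hm
      · rw [min_eq_left h4] at hm
        refine le_trans (H_zero_anti a h0 h1' (ς := η) (ς' := ς) ?_ hς) ?_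
        · rw [abs_of_nonneg h0]
          exact hm
        · have d := realAx_dup η
          have e : H a η η 0 = -(2 * Lr 0 η) := by
            unfold H
            rw [sub_self, Lr_zero_right, ← two_mul, d]
            ring
          rw [e]
          have h5 : Lr 0 (1 / 6) ≤ Lr 0 η := by
            have hpi := Real.pi_pos
            rw [Lr_zero_left, Lr_zero_left, show Real.pi * (1 / 6) = Real.pi / 6 by ring]
            exact div_le_div_of_nonneg_right (Lob.LF_ge (by positivity) (by nlinarith only [h1', hpi])) hpi.le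
          rw [hthird] at hthird2
          linarith only [h6, hthird2, h5]
    · refine le_trans (realAx_mono a h0 h1' (ς := ς) (ς' := 1 / 2) ?_ ?_) ?_
      · rw [abs_of_pos (by norm_num : (0 : ℝ) < 1 / 2)]
        exact hς
      · rw [abs_of_pos (by norm_num : (0 : ℝ) < 1 / 2)]
      · have e : H a η (1 / 2) 0 = 0 := by
          have d := Lr_add_one le_rfl (η - 1 / 2)
          rw [show η - 1 / 2 + 1 = η + 1 / 2 by ring] at d
          unfold H
          rw [add_comm (1 / 2) η, d]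
          ring
        rw [e]
        exact hpos.le
  · intro ς _
    rw [hhalf]
    exact hpos.le

theorem realAx_lt {ρ v : ℝ} (hρ : 0 < ρ) (hv : Real.sin (Real.pi * v) ≠ 0) :
    el 0 v < el ρ v := by
  have h1 := el_arg_pos' (ρ := 0) (v := v) fun _ => hv
  have hpi := Real.pi_pos
  have h2 : Real.cosh (2 * Real.pi * 0) < Real.cosh (2 * Real.pi * ρ) := by
    rw [Real.cosh_lt_cosh, mul_zero, abs_zero, abs_of_pos (by positivity)]
    positivity
  rw [el, el]
  apply div_lt_div_of_pos_right _ (by norm_num)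
  apply Real.log_lt_log h1
  linarith only [h2]

/-- `Lr ρ - Lr 0` is strictly increasing on `[0,1]` -/
theorem realAx_D {ρ x y : ℝ} (hρ : 0 < ρ) (hx : 0 ≤ x) (hxy : x < y) (hy : y ≤ 1) :
    Lr ρ x - Lr 0 x < Lr ρ y - Lr 0 y := by
  have hpi := Real.pi_pos
  have h := intervalIntegral.intervalIntegral_pos_of_pos_on
    (f := fun v => el ρ v - el 0 v) (a := x) (b := y)
    ((el_intble ρ x y).sub (el_intble 0 x y)) (fun v hv => by
      have h1 : 0 < Real.sin (Real.pi * v) := by
        apply Real.sin_pos_of_pos_of_lt_pi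
        · have : 0 < v := lt_of_le_of_lt hx hv.1
          positivity
        · have : v < 1 := lt_of_lt_of_le hv.2 hy
          nlinarith only [hpi, this]
      exact sub_pos.mpr (realAx_lt hρ h1.ne')) hxy
  rw [intervalIntegral.integral_sub (el_intble ρ x y) (el_intble 0 x y), ← Lr_sub, ← Lr_sub] at h
  linarith only [h]

theorem gap1 {a : ℕ} (ha : 4 ≤ a) {η ρ : ℝ} (h1 : 1 / 4 ≤ η) (h2 : η < 1 / 2) (hρ : 0 < ρ) :
    H a η (1 / 4) 0 < H a η (-(1 / a)) ρ := by
  have ha' : (4 : ℝ) ≤ a := by exact_mod_cast ha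
  have ha0 : (0 : ℝ) < a := by linarith only [h1, h2, ha']
  have hia : (1 : ℝ) / a ≤ 1 / 4 := one_div_le_one_div_of_le (by norm_num) ha'
  have hia0 : (0 : ℝ) < 1 / a := by positivity
  have h3 : H a η (1 / 4) 0 ≤ H a η (-(1 / a)) 0 := by
    apply H_zero_anti a (by linarith only [h1, hia, hia0]) h2.le
    · rw [abs_neg, abs_of_pos hia0, abs_of_pos (by norm_num : (0 : ℝ) < 1 / 4)]
      exact hia
    · rw [abs_of_pos (by norm_num : (0 : ℝ) < 1 / 4)]
      norm_num
  refine lt_of_le_of_lt h3 ?_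
  have hD := realAx_D hρ (x := η - 1 / a) (y := 1 - (η + 1 / a)) (by linarith only [h1, hia]) (by linarith only [h2])
    (by linarith only [h1, hia, hia0])
  rw [Lr_one_sub hρ.le, Lr_one_sub le_rfl] at hD
  unfold H
  rw [← sub_eq_add_neg, sub_neg_eq_add]
  have e : 2 * (a : ℝ) * -(1 / a) = -2 := by
    field_simp
  rw [e]
  linarith only [hD]

theorem gap2 (a : ℕ) {ρ : ℝ} (hρ : 0 < ρ) : H a (1 / 4) 0 ρ < H a (1 / 4) 0 0 := by
  have hD := realAx_D hρ (x := 0) (y := 1 / 4) le_rfl (by norm_num) (by norm_num)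
  rw [Lr_zero_right, Lr_zero_right] at hD
  have h1 : 0 < Real.pi * ρ := mul_pos Real.pi_pos hρ
  unfold H
  rw [add_zero, sub_zero]
  linarith only [hD, h1]

theorem realAx_cmp {v w : ℝ} (h0 : 0 < Real.sin (Real.pi * v))
    (h : Real.sin (Real.pi * v) < Real.sin (Real.pi * w)) : el 0 v < el 0 w := by
  rw [el_zero, el_zero]
  unfold Lob.ff
  apply Real.log_lt_log (by positivity)
  linarith only [h]

theorem gap3 (a : ℕ) {η ς : ℝ} (h : (η, ς) ∈ KK) (hne : (η, ς) ≠ (1 / 4, 0)) :
    H a η ς 0 < H a (1 / 4) 0 0 := by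
  have hpi := Real.pi_pos
  obtain ⟨h0, h1, h2, h3⟩ := h
  simp only at h0 h1 h2 h3
  have hcos : ∀ v : ℝ, Real.sin (Real.pi * (1 / 2 + v)) = Real.cos (Real.pi * v) := by
    intro v
    rw [← Real.sin_add_pi_div_two]
    congr 1
    ring
  have hii : ∀ x y : ℝ, IntervalIntegrable (fun v => el 0 (1 / 2 + v)) MeasureTheory.volume x y := by
    intro x y
    have h := (el_intble 0 (x + 1 / 2) (y + 1 / 2)).comp_add_right (1 / 2)
    simp only [add_sub_cancel_right] at h
    refine h.congr ?_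
    intro v _
    show el 0 (v + 1 / 2) = el 0 (1 / 2 + v)
    rw [add_comm]
  have hint : ∀ x y : ℝ, ∫ v in x..y, el 0 (1 / 2 + v) = Lr 0 (1 / 2 + y) - Lr 0 (1 / 2 + x) := by
    intro x y
    rw [Lr_sub, intervalIntegral.integral_comp_add_left (fun v => el 0 v)]
  by_cases hη : η = 1 / 4
  · have hς : ς ≠ 0 := fun h => hne (by rw [hη, h])
    have hς0 : 0 < |ς| := abs_pos.mpr hς
    rw [realAx_even a η ς, hη]
    have hi1 : IntervalIntegrable (fun v => el 0 (1 / 4 + v)) MeasureTheory.volume 0 |ς| := by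
      have h := (el_intble 0 (0 + 1 / 4) (|ς| + 1 / 4)).comp_add_right (1 / 4)
      simp only [add_sub_cancel_right] at h
      refine h.congr ?_
      intro v _
      show el 0 (v + 1 / 4) = el 0 (1 / 4 + v)
      rw [add_comm]
    have hi2 : IntervalIntegrable (fun v => el 0 (1 / 4 - v)) MeasureTheory.volume 0 |ς| := by
      have h := (el_intble 0 (1 / 4 - 0) (1 / 4 - |ς|)).comp_sub_left (1 / 4)
      simpa using h
    have hp := intervalIntegral.intervalIntegral_pos_of_pos_on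
      (f := fun v => el 0 (1 / 4 + v) - el 0 (1 / 4 - v)) (a := 0) (b := |ς|)
      (hi1.sub hi2) (fun v hv => by
        have hv1 := hv.1
        have hv2 := hv.2
        apply sub_pos.mpr
        apply realAx_cmp
        · apply Real.sin_pos_of_pos_of_lt_pi
          · have : 0 < 1 / 4 - v := by linarith only [h3, hv2]
            positivity
          · nlinarith only [hpi, hv1]
        · apply Real.sin_lt_sin_of_lt_of_le_pi_div_two
          · nlinarith only [hpi, h1, h2, hv2]
          · nlinarith only [hpi, h3, hv2]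
          · nlinarith only [hpi, hv1]) hς0
    rw [intervalIntegral.integral_sub hi1 hi2,
      intervalIntegral.integral_comp_add_left (fun v => el 0 v),
      intervalIntegral.integral_comp_sub_left (fun v => el 0 v), ← Lr_sub, ← Lr_sub] at hp
    unfold H
    rw [add_zero, sub_zero] at hp
    rw [add_zero, sub_zero]
    linarith only [hp]
  · have hle : H a η ς 0 ≤ H a η 0 0 := by
      apply H_zero_anti a h0 h1
      · rw [abs_zero]
        exact abs_nonneg _
      · linarith only [h1, h2]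
    refine lt_of_le_of_lt hle ?_
    rcases lt_or_gt_of_ne hη with h4 | h4
    · have hp := intervalIntegral.intervalIntegral_pos_of_pos_on
        (f := fun v => el 0 (1 / 2 + v) - el 0 v) (a := η) (b := 1 / 4)
        ((hii _ _).sub (el_intble 0 _ _)) (fun v hv => by
          have hv1 := hv.1
          have hv2 := hv.2
          apply sub_pos.mpr
          apply realAx_cmp
          · apply Real.sin_pos_of_pos_of_lt_pi
            · have : 0 < v := by linarith only [h0, hv1]
              positivity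
            · nlinarith only [hpi, hv2]
          · rw [hcos, ← Real.sin_pi_div_two_sub]
            apply Real.sin_lt_sin_of_lt_of_le_pi_div_two
            · nlinarith only [hpi, h0, hv1]
            · nlinarith only [hpi, h0, hv1]
            · nlinarith only [hpi, hv2]) h4
      rw [intervalIntegral.integral_sub (hii _ _) (el_intble 0 _ _), hint, ← Lr_sub] at hp
      unfold H
      rw [add_zero, sub_zero, add_zero, sub_zero]
      linarith only [hp]
    · have hp := intervalIntegral.intervalIntegral_pos_of_pos_on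
        (f := fun v => el 0 v - el 0 (1 / 2 + v)) (a := 1 / 4) (b := η)
        ((el_intble 0 _ _).sub (hii _ _)) (fun v hv => by
          have hv1 := hv.1
          have hv2 := hv.2
          apply sub_pos.mpr
          apply realAx_cmp
          · rw [hcos]
            apply Real.cos_pos_of_mem_Ioo
            constructor
            · nlinarith only [hpi, hv1]
            · nlinarith only [hpi, h1, hv2]
          · rw [hcos, ← Real.sin_pi_div_two_sub]
            apply Real.sin_lt_sin_of_lt_of_le_pi_div_two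
            · nlinarith only [hpi, h1, hv2]
            · nlinarith only [hpi, h1, hv2]
            · nlinarith only [hpi, hv1]) h4
      rw [intervalIntegral.integral_sub (el_intble 0 _ _) (hii _ _), hint, ← Lr_sub] at hp
      unfold H
      rw [add_zero, sub_zero, add_zero, sub_zero]
      linarith only [hp]

theorem gap4 {a : ℕ} (ha : 4 ≤ a) :
    ∃ B : ℝ, 0 < B ∧ ∀ ρ, B ≤ ρ → H a (1 / 4) 0 0 < H a (1 / 4) (-(1 / 4)) ρ := by
  have hpi := Real.pi_pos
  have ha' : (4 : ℝ) ≤ a := by exact_mod_cast ha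
  refine ⟨1 + 4 * |Lr 0 (1 / 4)| / Real.pi, by positivity, fun ρ hρ => ?_⟩
  have hρ0 : 0 < ρ := lt_of_lt_of_le (by positivity) hρ
  have h1 : Real.pi * (1 + 4 * |Lr 0 (1 / 4)| / Real.pi) ≤ Real.pi * ρ :=
    mul_le_mul_of_nonneg_left hρ hpi.le
  have e1 : Real.pi * (1 + 4 * |Lr 0 (1 / 4)| / Real.pi) = Real.pi + 4 * |Lr 0 (1 / 4)| := by
    field_simp
  rw [e1] at h1
  have h2 := neg_abs_le (Lr 0 (1 / 4))
  have h3 := Lr_half hρ0.le
  unfold H
  rw [add_zero, sub_zero, ← sub_eq_add_neg, sub_self, Lr_zero_right, sub_neg_eq_add,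
    show (1 / 4 : ℝ) + 1 / 4 = 1 / 2 by norm_num, h3]
  have h4 : 0 ≤ Real.pi * ρ * ((a : ℝ) - 4) := by
    have : 0 ≤ (a : ℝ) - 4 := by linarith only [ha']
    positivity
  have e2 : Real.pi * ρ * (1 + 2 * a * -(1 / 4)) = Real.pi * ρ - Real.pi * ρ * a / 2 := by ring
  rw [e2]
  nlinarith only [hpi, h1, h2, h4]

end Pool.Agent.Work.MP_b30479_gtS.DT

end

section

/-!
# Part of `PnBd`
-/
namespace Pool.Agent.Work.MP_b30479_gtS.G2

open Finset AX Complex MeasureTheory

/-- the real part of `∫_0^w log 2 sin π t dt`, continued quasi-periodically -/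
noncomputable def UU (w : ℂ) : ℝ := DT.Lr |w.im| w.re - Real.pi * |w.im| / 2

end Pool.Agent.Work.MP_b30479_gtS.G2

end
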