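import Mathlib

section

/-!
# The root of unity
-/

namespace Pool.Agent.Work.MP_b30479_gtS.TB

/-- `t = e^{2πi/n}` -/
noncomputable def tt (s : ℕ) : ℂ := Complex.exp (2 * Real.pi * Complex.I / ((2 * s + 1 : ℕ) : ℂ))

lemma tt_prim (s : ℕ) : IsPrimitiveRoot (tt s) (2 * s + 1) :=
  Complex.isPrimitiveRoot_exp (2 * s + 1) (by omega)

end Pool.Agent.Work.MP_b30479_gtS.TB

end

section

/-!
# Definitions for the asymptotic analysis
-/

namespace Pool.Agent.Work.MP_b30479_gtS.AX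

open Finset TB

/-- `f(m) = ∏_{l=1}^{m} 2 sin(π l/n)` -/
noncomputable def fS (n m : ℕ) : ℝ := ∏ l ∈ range m, 2 * Real.sin (Real.pi * (l + 1) / n)

/-- `f(k)/(f(j) f(k-j))` for `0 ≤ j ≤ k < n`, zero otherwise -/
noncomputable def bS (n : ℕ) (k j : ℤ) : ℝ :=
  if 0 ≤ j ∧ j ≤ k ∧ k < n then fS n k.toNat / (fS n j.toNat * fS n (k - j).toNat) else 0

/-- the (nearly) maximal value of `bS` -/
noncomputable def b0 (n : ℕ) : ℝ := bS n ((n : ℤ) - (n / 3 : ℕ)) (n / 3 : ℕ)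

/-- `bS` centred at the maximum and normalised -/
noncomputable def beta (n : ℕ) (x y : ℤ) : ℝ :=
  bS n ((n : ℤ) - (n / 3 : ℕ) + x) ((n / 3 : ℕ) + y) / b0 n

/-- the kernel -/
noncomputable def mS (n : ℕ) (v x y : ℤ) : ℂ :=
  ((√(beta n (x - v) (y - v) * beta n (x + v) (y + v)) : ℝ) : ℂ) *
    Complex.exp (((Real.pi * x * y / n : ℝ) : ℂ) * Complex.I)

/-- lattice points `((v, x), y)` -/
abbrev ZK (K : ℕ) := (ℤ × (Fin K → ℤ)) × (Fin K → ℤ)

/-- points `((V, X), Y)` -/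
abbrev EK (K : ℕ) := (ℝ × (Fin K → ℝ)) × (Fin K → ℝ)

/-- the summand (cyclic product of kernels) -/
noncomputable def FS (K : ℕ) [NeZero K] (n : ℕ) (z : ZK K) : ℂ :=
  ∏ i, mS n z.1.1 (z.1.2 i) (z.2 i) * star (mS n z.1.1 (z.1.2 (i + 1)) (z.2 i))

/-- the limit kernel -/
noncomputable def gam (V X Y : ℝ) : ℂ :=
  ((Real.exp (-(Real.pi / √3) * (X ^ 2 - X * Y + Y ^ 2 + V ^ 2)) : ℝ) : ℂ) *
    Complex.exp (((Real.pi * X * Y : ℝ) : ℂ) * Complex.I)

/-- the limit integrand -/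
noncomputable def GK (K : ℕ) [NeZero K] (Z : EK K) : ℂ :=
  ∏ i, gam Z.1.1 (Z.1.2 i) (Z.2 i) * star (gam Z.1.1 (Z.1.2 (i + 1)) (Z.2 i))

/-- squared norm of a lattice point -/
noncomputable def sqn {K : ℕ} (z : ZK K) : ℝ :=
  (z.1.1 : ℝ) ^ 2 + ∑ i, (z.1.2 i : ℝ) ^ 2 + ∑ i, (z.2 i : ℝ) ^ 2

/-- the lattice point below `√n Z` -/
noncomputable def flK {K : ℕ} (n : ℕ) (Z : EK K) : ZK K :=
  ((⌊√(n : ℝ) * Z.1.1⌋, fun i => ⌊√(n : ℝ) * Z.1.2 i⌋), fun i => ⌊√(n : ℝ) * Z.2 i⌋)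

/-- first index after the main block of level `N` -/
def cN (s N : ℕ) : ℤ := 2 * N + 1 - 2 * s

/-- the main block of level `N` (in a symmetrised basis) -/
noncomputable def Am (s N : ℕ) : Matrix (Fin (N + 1)) (Fin (N + 1)) ℂ := fun k j =>
  if ((k : ℕ) : ℤ) < cN s N ∧ ((j : ℕ) : ℤ) < cN s N then
    ((√(bS (2 * s + 1) (k : ℕ) (j : ℕ) *
      bS (2 * s + 1) ((k : ℕ) + 2 * (2 * s - N)) ((j : ℕ) + 2 * (2 * s - N))) : ℝ) : ℂ) *
      Complex.exp (((Real.pi * (k : ℕ) * (j : ℕ) / ((2 * s + 1 : ℕ) : ℝ) : ℝ) : ℂ) * Complex.I)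
  else 0

/-- absolute values of the rest of level `N` (in a symmetrised basis) -/
noncomputable def Br (s N : ℕ) : Matrix (Fin (N + 1)) (Fin (N + 1)) ℝ := fun k j =>
  if cN s N ≤ ((k : ℕ) : ℤ) ∧ cN s N ≤ ((j : ℕ) : ℤ) then
    √(bS (2 * s + 1) (k : ℕ) (j : ℕ) *
      bS (2 * s + 1) (2 * N + 1 - (j : ℕ)) ((k : ℕ) - (j : ℕ)))
  else 0

end Pool.Agent.Work.MP_b30479_gtS.AX

end

section

/-!
# Products of sines (the part that does not use the braiding)
-/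

namespace Pool.Agent.Work.MP_b30479_gtS.AX

open Finset TB

theorem fS_succ (n m : ℕ) :
    fS n (m + 1) = fS n m * (2 * Real.sin (Real.pi * ((m : ℝ) + 1) / n)) := by
  unfold fS
  rw [prod_range_succ]

lemma sinF_pos {n l : ℕ} (h : l + 1 < n) : 0 < Real.sin (Real.pi * ((l : ℝ) + 1) / n) := by
  have hn : (0 : ℝ) < n := by
    have : 0 < n := by omega
    exact_mod_cast this
  have hpi := Real.pi_pos
  apply Real.sin_pos_of_pos_of_lt_pi
  · positivity
  · rw [div_lt_iff₀ hn]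
    apply mul_lt_mul_of_pos_left _ hpi
    exact_mod_cast h

theorem fS_pos {n m : ℕ} (h : m < n) : 0 < fS n m := by
  unfold fS
  apply Finset.prod_pos
  intro l hl
  rw [mem_range] at hl
  have := sinF_pos (n := n) (l := l) (by omega)
  linarith

lemma sinF_norm {n l : ℕ} (h : l + 1 < n) :
    ‖1 - Complex.exp (2 * Real.pi * Complex.I / (n : ℂ)) ^ (l + 1)‖ =
      2 * Real.sin (Real.pi * ((l : ℝ) + 1) / n) := by
  have hn : (n : ℂ) ≠ 0 := by
    have : n ≠ 0 := by omega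
    exact_mod_cast this
  have hn' : (n : ℝ) ≠ 0 := by
    have : n ≠ 0 := by omega
    exact_mod_cast this
  have e1 : Complex.exp (2 * Real.pi * Complex.I / (n : ℂ)) ^ (l + 1) =
      Complex.exp (Complex.I * ((2 * (Real.pi * ((l : ℝ) + 1) / n) : ℝ) : ℂ)) := by
    rw [← Complex.exp_nat_mul]
    congr 1
    push_cast
    field_simp
  rw [e1, norm_sub_rev, Complex.norm_exp_I_mul_ofReal_sub_one,
    show 2 * (Real.pi * ((l : ℝ) + 1) / n) / 2 = Real.pi * ((l : ℝ) + 1) / n by ring,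
    Real.norm_of_nonneg]
  have := sinF_pos h
  linarith

lemma sinF_full_succ (m : ℕ) :
    ∏ l ∈ range m, 2 * Real.sin (Real.pi * ((l : ℝ) + 1) / ((m + 1 : ℕ) : ℝ)) =
      ((m + 1 : ℕ) : ℝ) := by
  have hp : IsPrimitiveRoot (Complex.exp (2 * Real.pi * Complex.I / ((m + 1 : ℕ) : ℂ))) (m + 1) :=
    Complex.isPrimitiveRoot_exp (m + 1) (Nat.succ_ne_zero m)
  have e := hp.prod_one_sub_pow_eq_order
  have e2 := congrArg norm e
  rw [norm_prod] at e2
  have e3 : ‖(m : ℂ) + 1‖ = ((m + 1 : ℕ) : ℝ) := by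
    have : (m : ℂ) + 1 = ((m + 1 : ℕ) : ℂ) := by push_cast; ring
    rw [this, Complex.norm_natCast]
  rw [e3] at e2
  refine Eq.trans ?_ e2
  apply Finset.prod_congr rfl
  intro l hl
  rw [mem_range] at hl
  exact (sinF_norm (n := m + 1) (l := l) (by omega)).symm

lemma sinF_full {n : ℕ} (h : 0 < n) :
    ∏ l ∈ range (n - 1), 2 * Real.sin (Real.pi * ((l : ℝ) + 1) / n) = n := by
  have := sinF_full_succ (n - 1)
  rw [Nat.sub_add_cancel h] at this
  exact this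

theorem fS_refl {n m : ℕ} (h : m < n) : fS n m * fS n (n - 1 - m) = n := by
  have hn : (n : ℝ) ≠ 0 := by
    have : n ≠ 0 := by omega
    exact_mod_cast this
  have e1 : fS n (n - 1 - m) =
      ∏ x ∈ range (n - 1 - m), 2 * Real.sin (Real.pi * (((m + x : ℕ) : ℝ) + 1) / n) := by
    unfold fS
    rw [← Finset.prod_range_reflect]
    apply Finset.prod_congr rfl
    intro x hx
    rw [mem_range] at hx
    congr 1
    rw [← Real.sin_pi_sub]
    congr 1
    have e2 : ((n - 1 - m - 1 - x : ℕ) : ℝ) = (n : ℝ) - 1 - m - 1 - x := by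
      rw [Nat.cast_sub (by omega), Nat.cast_sub (by omega), Nat.cast_sub (by omega),
        Nat.cast_sub (by omega)]
      push_cast
      ring
    rw [e2]
    push_cast
    field_simp
    ring
  rw [e1]
  unfold fS
  rw [← Finset.prod_range_add (fun l : ℕ => 2 * Real.sin (Real.pi * ((l : ℝ) + 1) / n)) m
    (n - 1 - m), show m + (n - 1 - m) = n - 1 by omega]
  exact sinF_full (by omega)

end Pool.Agent.Work.MP_b30479_gtS.AX

end
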