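import Pool.Agent.Work.MP_b30479_gt.TBS.Gauss
import Pool.Agent.Work.MP_b30479_gt.TBS.TwoBridge
import Pool.Agent.Work.MP_b30479_gt.TBS.LT.Defs
import Pool.Agent.Work.MP_b30479_gt.TBS.TwoBridgeAlt
import Pool.Agent.Work.MP_b30479_gt.TBS.Defs
import Pool.Agent.Work.MP_b30479_gt.TBS.TB.Lob
import Pool.Agent.Work.MP_b30479_gt.TBS.TB.Tt

section

/-!
# Part of `Alg`
-/
namespace Pool.Agent.Work.MP_b30479_gtS.DT

open Finset TB AX

lemma norm_qf_fS {s k : ℕ} (hk : k ≤ 2 * s) : ‖qf (tt s) k‖ = fS (2 * s + 1) k := by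
  rw [qf_tt hk, norm_mul, norm_mul, norm_pow, norm_neg, Complex.norm_I, one_pow,
    Complex.norm_exp_ofReal_mul_I, mul_one, mul_one, Complex.norm_real, Real.norm_of_nonneg
    (fS_pos (by omega)).le]

end Pool.Agent.Work.MP_b30479_gtS.DT

end

section

/-!
# Highest weight vectors
-/

namespace Pool.Agent.Work.MP_b30479_gtS.TB

open Finset

/-- the action of `E` on `V ⊗ V ⊗ V` -/
noncomputable def EE (s : ℕ) (t : ℂ) (X : Arr) : Arr := fun i j k =>
  (1 - t⁻¹ ^ (i + 1)) * t ^ ((s : ℤ) - j) * t ^ ((s : ℤ) - k) * X (i + 1) j k +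
  (1 - t⁻¹ ^ (j + 1)) * t ^ ((s : ℤ) - k) * X i (j + 1) k +
  (1 - t⁻¹ ^ (k + 1)) * X i j (k + 1)

/-- highest weight vectors (of weight index `2s`) -/
def HW (s : ℕ) (t : ℂ) (X : Arr) : Prop := ∀ i j k : ℕ, i + j + k + 1 = 2 * s → EE s t X i j k = 0

lemma M_comm {s : ℕ} {t : ℂ} {e : Ent} (hc : CommC s t e) (Z : ℕ → ℕ → ℂ) {a b : ℕ}
    (hab : a + b + 1 ≤ 2 * s) :
    (1 - t⁻¹ ^ (a + 1)) * t ^ ((s : ℤ) - b) * M e Z (a + 1) b +
      (1 - t⁻¹ ^ (b + 1)) * M e Z a (b + 1) =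
    ∑ p ∈ AD (a + b), e p.1 p.2 a b * ((1 - t⁻¹ ^ (p.1 + 1)) * t ^ ((s : ℤ) - p.2) *
      Z (p.1 + 1) p.2 + (1 - t⁻¹ ^ (p.2 + 1)) * Z p.1 (p.2 + 1)) := by
  have e1 : (1 - t⁻¹ ^ (a + 1)) * t ^ ((s : ℤ) - b) * M e Z (a + 1) b +
      (1 - t⁻¹ ^ (b + 1)) * M e Z a (b + 1) =
      ∑ p ∈ AD (a + b + 1), ((1 - t⁻¹ ^ p.1) * t ^ ((s : ℤ) - p.2) * e (p.1 - 1) p.2 a b *
        Z p.1 p.2 + (1 - t⁻¹ ^ p.2) * e p.1 (p.2 - 1) a b * Z p.1 p.2) := by
    unfold M
    rw [show a + 1 + b = a + b + 1 by ring, show a + (b + 1) = a + b + 1 by ring,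
      Finset.mul_sum, Finset.mul_sum, ← Finset.sum_add_distrib]
    apply Finset.sum_congr rfl
    intro p hp
    rw [mem_AD] at hp
    have := hc p.1 p.2 a b hp (by omega)
    linear_combination Z p.1 p.2 * this
  rw [e1, Finset.sum_add_distrib]
  have e2 := Finset.Nat.sum_antidiagonal_succ (n := a + b)
    (f := fun p => (1 - t⁻¹ ^ p.1) * t ^ ((s : ℤ) - p.2) * e (p.1 - 1) p.2 a b * Z p.1 p.2)
  have e3 := Finset.Nat.sum_antidiagonal_succ' (n := a + b)
    (f := fun p => (1 - t⁻¹ ^ p.2) * e p.1 (p.2 - 1) a b * Z p.1 p.2)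
  rw [e2, e3]
  simp only [pow_zero, sub_self, zero_mul, zero_add, Nat.add_sub_cancel, add_zero]
  rw [← Finset.sum_add_distrib]
  apply Finset.sum_congr rfl
  intro p hp
  ring

lemma HW_L1 {s : ℕ} {t : ℂ} {e : Ent} (hc : CommC s t e) {X : Arr} (hX : HW s t X) :
    HW s t (L1 e X) := by
  intro i j k hs
  have h1 := M_comm hc (fun a b => X a b k) (a := i) (b := j) (by omega)
  have e1 : EE s t (L1 e X) i j k =
      t ^ ((s : ℤ) - k) * ((1 - t⁻¹ ^ (i + 1)) * t ^ ((s : ℤ) - j) *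
        M e (fun a b => X a b k) (i + 1) j + (1 - t⁻¹ ^ (j + 1)) *
        M e (fun a b => X a b k) i (j + 1)) + (1 - t⁻¹ ^ (k + 1)) *
        M e (fun a b => X a b (k + 1)) i j := by
    unfold EE L1
    ring
  rw [e1, h1]
  unfold M
  rw [Finset.mul_sum, Finset.mul_sum, ← Finset.sum_add_distrib]
  apply Finset.sum_eq_zero
  intro p hp
  rw [mem_AD] at hp
  have := hX p.1 p.2 k (by omega)
  unfold EE at this
  linear_combination e p.1 p.2 i j * this

lemma HW_L2 {s : ℕ} {t : ℂ} (ht : t ≠ 0) {e : Ent} (hc : CommC s t e) {X : Arr} (hX : HW s t X) :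
    HW s t (L2 e X) := by
  intro i j k hs
  have h1 := M_comm hc (fun a b => X i a b) (a := j) (b := k) (by omega)
  have e1 : EE s t (L2 e X) i j k = (1 - t⁻¹ ^ (i + 1)) * (t ^ ((s : ℤ) - j) * t ^ ((s : ℤ) - k)) *
        M e (fun a b => X (i + 1) a b) j k + ((1 - t⁻¹ ^ (j + 1)) * t ^ ((s : ℤ) - k) *
        M e (fun a b => X i a b) (j + 1) k + (1 - t⁻¹ ^ (k + 1)) *
        M e (fun a b => X i a b) j (k + 1)) := by
    unfold EE L2
    ring
  rw [e1, h1]
  unfold M
  rw [Finset.mul_sum, ← Finset.sum_add_distrib]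
  apply Finset.sum_eq_zero
  intro p hp
  rw [mem_AD] at hp
  have := hX i p.1 p.2 (by omega)
  unfold EE at this
  have e2 : t ^ ((s : ℤ) - j) * t ^ ((s : ℤ) - k) = t ^ ((s : ℤ) - p.1) * t ^ ((s : ℤ) - p.2) := by
    rw [← zpow_add₀ ht, ← zpow_add₀ ht]
    congr 1
    have : (p.1 : ℤ) + p.2 = j + k := by exact_mod_cast hp
    linarith
  rw [e2]
  linear_combination e p.1 p.2 j k * this

lemma HW_lin {s : ℕ} {t : ℂ} {X Y : Arr} (hX : HW s t X) (hY : HW s t Y) (a : ℂ) :
    HW s t (fun i j k => X i j k + a * Y i j k) := by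
  intro i j k hs
  have h1 := hX i j k hs
  have h2 := hY i j k hs
  unfold EE at h1 h2 ⊢
  linear_combination h1 + a * h2

/-- the highest weight vector `e_0 ⊗ (cup)` -/
noncomputable def eta (s : ℕ) (t : ℂ) : Arr := fun i j _ => if i = 0 then t ^ (s * j) else 0

lemma HW_eta {s : ℕ} {t : ℂ} (h : IsPrimitiveRoot t (2 * s + 1)) : HW s t (eta s t) := by
  intro i j k hs
  have h0 : t ≠ 0 := h.ne_zero (by omega)
  unfold EE eta
  rcases Nat.eq_zero_or_pos i with hi | hi
  · subst hi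
    simp only [if_true, Nat.zero_add, one_ne_zero, if_false, mul_zero, zero_add]
    have e2s : t ^ (2 * (s : ℤ) + 1) = 1 := by
      have := h.pow_eq_one
      rw [← zpow_natCast] at this
      push_cast at this
      exact this
    have e1 : t ^ ((s : ℤ) - k) * t ^ (s * (j + 1)) = t ^ (j + 1) * t ^ (s * j) := by
      rw [← zpow_natCast, ← zpow_natCast, ← zpow_natCast, ← zpow_add₀ h0, ← zpow_add₀ h0]
      congr 1
      have : (k : ℤ) = 2 * s - 1 - j := by omega
      rw [this]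
      push_cast
      ring
    have e2 : t⁻¹ ^ (k + 1) = t ^ (j + 1) := by
      rw [inv_pow]
      symm
      apply eq_inv_of_mul_eq_one_left
      rw [← pow_add, show j + 1 + (k + 1) = 2 * s + 1 by omega, h.pow_eq_one]
    have e3 : t⁻¹ ^ (j + 1) * t ^ (j + 1) = 1 := by
      rw [← mul_pow, inv_mul_cancel₀ h0, one_pow]
    rw [e2]
    linear_combination (1 - t⁻¹ ^ (j + 1)) * e1 - t ^ (s * j) * e3
  · rw [if_neg (by omega), if_neg (by omega), if_neg (by omega)]
    ring

/-- a highest weight vector is determined by its coordinates `X i (2s-i) 0` -/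
lemma HW_inj {s : ℕ} {t : ℂ} (h : IsPrimitiveRoot t (2 * s + 1)) {X : Arr} (hX : HW s t X)
    (h0 : ∀ i, i ≤ 2 * s → X i (2 * s - i) 0 = 0) :
    ∀ k i j : ℕ, i + j + k = 2 * s → X i j k = 0 := by
  intro k
  induction k with
  | zero =>
    intro i j hij
    have := h0 i (by omega)
    rwa [show 2 * s - i = j by omega] at this
  | succ k ih =>
    intro i j hij
    have h1 := hX i j k (by omega)
    unfold EE at h1
    rw [ih (i + 1) j (by omega), ih i (j + 1) (by omega), mul_zero, mul_zero, zero_add,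
      zero_add] at h1
    rcases mul_eq_zero.mp h1 with h2 | h2
    · exact absurd h2 (one_sub_pow_ne h.inv (by omega) (by omega))
    · exact h2

end Pool.Agent.Work.MP_b30479_gtS.TB

end

section

/-!
# Orthogonal basis of highest weight vectors
-/

namespace Pool.Agent.Work.MP_b30479_gtS.TB

open Finset

lemma sum_AD_fst (m c : ℕ) (f : ℕ × ℕ → ℂ) :
    ∑ p ∈ AD m, (if p.1 = c then f p else 0) = if c ≤ m then f (c, m - c) else 0 := by
  unfold AD
  rw [Finset.Nat.sum_antidiagonal_eq_sum_range_succ_mk]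
  simp only [Finset.sum_ite_eq', mem_range]
  by_cases hc : c ≤ m
  · rw [if_pos (by omega), if_pos hc]
  · rw [if_neg (by omega), if_neg hc]

lemma M_cas (s : ℕ) (t : ℂ) (Z : ℕ → ℕ → ℂ) (a b : ℕ) :
    M (cas s t) Z a b = dg s t a b * Z a b +
      (if 1 ≤ a then (1 - t ^ a) * (1 - t⁻¹ ^ (b + 1)) * Z (a - 1) (b + 1) else 0) +
      (if 1 ≤ b then (1 - t⁻¹ ^ (a + 1)) * (1 - t ^ b) * (t ^ (a + 1) * t⁻¹ ^ b) *
        Z (a + 1) (b - 1) else 0) := by
  have e0 : M (cas s t) Z a b = ∑ p ∈ AD (a + b),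
      ((if p.1 = a then dg s t a b * Z p.1 p.2 else 0) +
        (if p.1 = a - 1 then (if 1 ≤ a then (1 - t ^ a) * (1 - t⁻¹ ^ (b + 1)) * Z p.1 p.2 else 0)
          else 0) +
        (if p.1 = a + 1 then (if 1 ≤ b then (1 - t⁻¹ ^ (a + 1)) * (1 - t ^ b) *
          (t ^ (a + 1) * t⁻¹ ^ b) * Z p.1 p.2 else 0) else 0)) := by
    unfold M
    apply Finset.sum_congr rfl
    rintro ⟨i, j⟩ hp
    rw [mem_AD] at hp
    simp only at hp ⊢
    by_cases h1 : i = a
    · subst h1
      have hj : j = b := by omega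
      subst hj
      rw [cas_diag, if_pos rfl, if_neg (by omega : ¬ i = i + 1)]
      by_cases hi : 1 ≤ i
      · rw [if_neg (by omega)]; ring
      · rw [if_neg hi, ite_self]; ring
    · by_cases h2 : 1 ≤ a ∧ i = a - 1
      · obtain ⟨h2a, h2b⟩ := h2
        obtain ⟨a', rfl⟩ : ∃ a', a = a' + 1 := ⟨a - 1, by omega⟩
        have hi : i = a' := by omega
        subst hi
        have hj : j = b + 1 := by omega
        subst hj
        rw [cas_up, if_neg (by omega), if_pos (by omega), if_pos h2a, if_neg (by omega)]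
        ring
      · by_cases h3 : i = a + 1
        · subst h3
          obtain ⟨b', rfl⟩ : ∃ b', b = b' + 1 := ⟨b - 1, by omega⟩
          have hj : j = b' := by omega
          subst hj
          rw [cas_dn, if_neg (by omega), if_neg (by omega), if_pos rfl, if_pos (by omega)]
          ring
        · rw [cas_zero _ _ _ _ _ _ (by omega) (by omega) (by omega), if_neg h1, if_neg h3]
          by_cases h4 : i = a - 1
          · rw [if_pos h4, if_neg (by omega)]; ring
          · rw [if_neg h4]; ring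
  rw [e0, Finset.sum_add_distrib, Finset.sum_add_distrib, sum_AD_fst, sum_AD_fst, sum_AD_fst]
  simp only [if_pos (show a ≤ a + b by omega), if_pos (show a - 1 ≤ a + b by omega),
    Nat.add_sub_cancel_left]
  congr 1
  · congr 1
    by_cases ha : 1 ≤ a
    · rw [if_pos ha, if_pos ha, show a + b - (a - 1) = b + 1 by omega]
    · rw [if_neg ha, if_neg ha]
  · by_cases hb : 1 ≤ b
    · rw [if_pos (by omega), if_pos hb, if_pos hb, show a + b - (a + 1) = b - 1 by omega]
    · rw [if_neg hb, if_neg hb, ite_self]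

/-- eigenvalues of the Casimir operator -/
noncomputable def cc (s : ℕ) (t : ℂ) (k : ℕ) : ℂ := t ^ s * t⁻¹ ^ k + t ^ (s + 1) * t ^ k

/-- the orthogonal basis -/
noncomputable def uu (s : ℕ) (t : ℂ) : ℕ → Arr
  | 0 => eta s t
  | k + 1 => fun a b c => L1 (cas s t) (uu s t k) a b c + (-cc s t k) * uu s t k a b c

section
variable {s : ℕ} {t : ℂ} (h : IsPrimitiveRoot t (2 * s + 1))
include h

lemma inv_pow_eq {a b : ℕ} (hab : a + b = 2 * s + 1) : t⁻¹ ^ a = t ^ b := by
  rw [inv_pow]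
  symm
  apply eq_inv_of_mul_eq_one_left
  rw [← pow_add, Nat.add_comm, hab, h.pow_eq_one]

lemma star_cc (k : ℕ) : star (cc s t k) = cc s t k := by
  have h0 : t ≠ 0 := h.ne_zero (by omega)
  have hV := sq_mul h
  unfold cc
  rw [star_add, star_mul', star_mul', star_pow, star_pow, star_pow, star_pow, star_inv₀,
    star_root h, inv_inv]
  simp only [pow_succ, inv_pow]
  have nx : t ^ k ≠ 0 := pow_ne_zero _ h0
  generalize t ^ s = V at *
  generalize t ^ k = x at *
  obtain ⟨ht, hV0⟩ := eq_inv_sq hV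
  rw [ht]
  field_simp
  ring

lemma HW_uu (k : ℕ) : HW s t (uu s t k) := by
  induction k with
  | zero => exact HW_eta h
  | succ k ih => exact HW_lin (HW_L1 (commC_cas h) ih) ih _

lemma L2_cas_coord {X : Arr} (hX : HW s t X) {i : ℕ} (hi : i ≤ 2 * s) :
    L2 (cas s t) X i (2 * s - i) 0 = cc s t i * X i (2 * s - i) 0 +
      (if i < 2 * s then (1 - t ^ (i + 1)) * (1 - t⁻¹ ^ (i + 1)) *
        X (i + 1) (2 * s - (i + 1)) 0 else 0) := by
  have h0 : t ≠ 0 := h.ne_zero (by omega)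
  have hV := sq_mul h
  unfold L2
  rw [M_cas]
  simp only [show ¬ (1 ≤ 0) by omega, if_false, add_zero, zero_add]
  rcases Nat.lt_or_ge i (2 * s) with hlt | hge
  · rw [if_pos (by omega), if_pos hlt]
    have h1 := hX i (2 * s - (i + 1)) 0 (by omega)
    unfold EE at h1
    rw [zp h0, show ((s : ℤ) - ((0 : ℕ) : ℤ)) = s by simp, zpow_natCast, zero_add] at h1
    rw [show 2 * s - i - 1 = 2 * s - (i + 1) by omega]
    rw [show 2 * s - (i + 1) + 1 = 2 * s - i by omega] at h1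
    have e1 : t⁻¹ ^ (2 * s - i) = t ^ (i + 1) := inv_pow_eq h (by omega)
    have e2 : t ^ (2 * s - i) = t⁻¹ ^ (i + 1) := (inv_pow_eq h (by omega)).symm
    have e3 : t⁻¹ ^ (2 * s - (i + 1)) = t ^ (i + 2) := inv_pow_eq h (by omega)
    rw [e1, e3] at h1
    unfold cc dg
    rw [e2]
    have nx : t ^ i ≠ 0 := pow_ne_zero _ h0
    simp only [pow_succ, inv_pow, pow_zero] at h1 ⊢
    generalize t ^ s = V at *
    generalize t ^ i = x at *
    obtain ⟨ht, hV0⟩ := eq_inv_sq hV
    generalize X (i + 1) (2 * s - (i + 1)) 0 = P at *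
    generalize X i (2 * s - i) 0 = Q at *
    generalize X i (2 * s - (i + 1)) 1 = R at *
    have h2 : (1 - 1 * t⁻¹) * R = -((1 - x⁻¹ * t⁻¹) * (V * (x * t * t)) * V * P +
      (1 - x * t) * V * Q) := by linear_combination h1
    have h3 : (1 - x⁻¹ * t⁻¹) * (1 - 1 * t⁻¹) * R = (1 - x⁻¹ * t⁻¹) *
      (-((1 - x⁻¹ * t⁻¹) * (V * (x * t * t)) * V * P + (1 - x * t) * V * Q)) := by
      rw [mul_assoc, h2]
    rw [h3]
    rw [ht]
    field_simp
    ring
  · have hi' : i = 2 * s := by omega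
    subst hi'
    rw [if_neg (by omega), if_neg (by omega), Nat.sub_self]
    unfold cc dg
    have e1 : t ^ (2 * s) = t⁻¹ ^ 1 := (inv_pow_eq h (by omega)).symm
    have e2 : t⁻¹ ^ (2 * s) = t ^ 1 := inv_pow_eq h (by omega)
    rw [e1, e2]
    simp only [pow_succ, pow_zero, one_mul, mul_one, add_zero]
    generalize t ^ s = V at *
    generalize X (2 * s) 0 0 = P
    field_simp
    ring

omit h in
lemma uu_coord_zero (k : ℕ) : ∀ i, k < i → i ≤ 2 * s → uu s t k i (2 * s - i) 0 = 0 := by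
  induction k with
  | zero =>
    intro i hi _
    show eta s t i (2 * s - i) 0 = 0
    unfold eta
    rw [if_neg (by omega)]
  | succ k ih =>
    intro i hi hi2
    show L1 (cas s t) (uu s t k) i (2 * s - i) 0 + (-cc s t k) * uu s t k i (2 * s - i) 0 = 0
    unfold L1
    rw [M_cas, ih i (by omega) hi2, mul_zero, mul_zero, if_pos (by omega : 1 ≤ i)]
    rw [show 2 * s - i + 1 = 2 * s - (i - 1) by omega, ih (i - 1) (by omega) (by omega)]
    by_cases hb : 1 ≤ 2 * s - i
    · rw [if_pos hb, show 2 * s - i - 1 = 2 * s - (i + 1) by omega,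
        ih (i + 1) (by omega) (by omega)]
      ring
    · rw [if_neg hb]; ring

lemma uu_coord_succ {k : ℕ} (hk : k + 1 ≤ 2 * s) :
    uu s t (k + 1) (k + 1) (2 * s - (k + 1)) 0 = (1 - t ^ (k + 1)) ^ 2 *
      uu s t k k (2 * s - k) 0 := by
  show L1 (cas s t) (uu s t k) (k + 1) (2 * s - (k + 1)) 0 +
    (-cc s t k) * uu s t k (k + 1) (2 * s - (k + 1)) 0 = _
  unfold L1
  rw [M_cas, uu_coord_zero k (k + 1) (by omega) hk, mul_zero, mul_zero,
    if_pos (by omega : 1 ≤ k + 1), Nat.add_sub_cancel,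
    show 2 * s - (k + 1) + 1 = 2 * s - k by omega]
  have e1 : t⁻¹ ^ (2 * s - k) = t ^ (k + 1) := inv_pow_eq h (by omega)
  rw [e1]
  by_cases hb : 1 ≤ 2 * s - (k + 1)
  · rw [if_pos hb, show 2 * s - (k + 1) - 1 = 2 * s - (k + 1 + 1) by omega,
      uu_coord_zero k (k + 1 + 1) (by omega) (by omega)]
    ring
  · rw [if_neg hb]; ring

lemma uu_coord_ne {k : ℕ} (hk : k ≤ 2 * s) : uu s t k k (2 * s - k) 0 ≠ 0 := by
  have h0 : t ≠ 0 := h.ne_zero (by omega)
  induction k with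
  | zero =>
    show eta s t 0 (2 * s - 0) 0 ≠ 0
    unfold eta
    rw [if_pos rfl]
    exact pow_ne_zero _ h0
  | succ k ih =>
    rw [uu_coord_succ h hk]
    exact mul_ne_zero (pow_ne_zero _ (one_sub_pow_ne h (by omega) hk)) (ih (by omega))

lemma uu_coord_sub {k : ℕ} (hk : k + 1 ≤ 2 * s) :
    (1 - t) * uu s t (k + 1) k (2 * s - k) 0 =
      -(t ^ (s + 1) * t⁻¹ ^ (k + 1) * (1 - t ^ (k + 1))) *
        uu s t (k + 1) (k + 1) (2 * s - (k + 1)) 0 := by
  have h0 : t ≠ 0 := h.ne_zero (by omega)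
  have hV := sq_mul h
  induction k with
  | zero =>
    rw [uu_coord_succ h hk]
    have e0 : uu s t (0 + 1) 0 (2 * s - 0) 0 = L1 (cas s t) (uu s t 0) 0 (2 * s - 0) 0 +
      (-cc s t 0) * uu s t 0 0 (2 * s - 0) 0 := rfl
    rw [e0]
    unfold L1
    rw [M_cas, if_neg (by omega), if_pos (by omega),
      show 2 * s - 0 - 1 = 2 * s - (0 + 1) by omega, uu_coord_zero 0 (0 + 1) (by omega) hk]
    unfold cc dg
    have e1 : t⁻¹ ^ (2 * s - 0) = t ^ 1 := inv_pow_eq h (by omega)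
    rw [e1]
    simp only [pow_succ, pow_zero, one_mul, mul_one, add_zero, zero_add, mul_zero]
    generalize uu s t 0 0 (2 * s - 0) 0 = P
    generalize t ^ s = V at *
    obtain ⟨ht, hV0⟩ := eq_inv_sq hV
    rw [ht]
    field_simp
    ring
  | succ k ih =>
    have ih' := ih (by omega)
    rw [uu_coord_succ h hk]
    have e0 : uu s t (k + 1 + 1) (k + 1) (2 * s - (k + 1)) 0 =
      L1 (cas s t) (uu s t (k + 1)) (k + 1) (2 * s - (k + 1)) 0 +
      (-cc s t (k + 1)) * uu s t (k + 1) (k + 1) (2 * s - (k + 1)) 0 := rfl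
    rw [e0]
    unfold L1
    rw [M_cas, if_pos (by omega), if_pos (by omega),
      show 2 * s - (k + 1) - 1 = 2 * s - (k + 1 + 1) by omega,
      uu_coord_zero (k + 1) (k + 1 + 1) (by omega) hk, Nat.add_sub_cancel,
      show 2 * s - (k + 1) + 1 = 2 * s - k by omega]
    unfold cc dg
    have e1 : t⁻¹ ^ (2 * s - (k + 1)) = t ^ (k + 2) := inv_pow_eq h (by omega)
    have e2 : t⁻¹ ^ (2 * s - k) = t ^ (k + 1) := inv_pow_eq h (by omega)
    rw [e1, e2]
    have nx : t ^ k ≠ 0 := pow_ne_zero _ h0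
    simp only [pow_succ, mul_zero, add_zero, inv_pow, pow_zero, one_mul] at ih' ⊢
    generalize uu s t (k + 1) (k + 1) (2 * s - (k + 1)) 0 = P at *
    generalize uu s t (k + 1) k (2 * s - k) 0 = Q at *
    generalize t ^ s = V at *
    generalize t ^ k = x at *
    obtain ⟨ht, hV0⟩ := eq_inv_sq hV
    have h3 : (1 - t) * ((1 - x * t) * (1 - x * t) * Q) = (1 - x * t) * (1 - x * t) *
      (-(V * t * (x⁻¹ * t⁻¹) * (1 - x * t)) * P) := by rw [← ih']; ring
    have h4 : ∀ A B : ℂ, (1 - t) * (A + (1 - x * t) * (1 - x * t) * Q + B) =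
      (1 - t) * (A + B) + (1 - x * t) * (1 - x * t) *
      (-(V * t * (x⁻¹ * t⁻¹) * (1 - x * t)) * P) := by
      intro A B; rw [← h3]; ring
    rw [h4]
    rw [ht]
    field_simp
    ring

end

end Pool.Agent.Work.MP_b30479_gtS.TB

end

section

/-!
# Positivity of the reflected Hermitian form on highest weight vectors
-/

namespace Pool.Agent.Work.MP_b30479_gtS.TB

open Finset

section
variable {s : ℕ} {t : ℂ} (h : IsPrimitiveRoot t (2 * s + 1))
include h

lemma HH_uu_step (k : ℕ) (X : Arr) :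
    HH (2 * s) (uu s t (k + 1)) X =
      HH (2 * s) (uu s t k) (fun a b c => L2 (cas s t) X a b c + (-cc s t k) * X a b c) := by
  have e1 : HH (2 * s) (uu s t (k + 1)) X = HH (2 * s) (L1 (cas s t) (uu s t k)) X +
      star (-cc s t k) * HH (2 * s) (uu s t k) X := by
    rw [← HH_smul_left, ← HH_add_left]
    rfl
  rw [e1, HH_L1 (isDag_cas h _), star_neg, star_cc h, HH_add_right, HH_smul_right]

lemma shift_coord {X : Arr} (hX : HW s t X) (k : ℕ) {i : ℕ} (hi : i ≤ 2 * s) :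
    L2 (cas s t) X i (2 * s - i) 0 + (-cc s t k) * X i (2 * s - i) 0 =
      (cc s t i - cc s t k) * X i (2 * s - i) 0 +
      (if i < 2 * s then (1 - t ^ (i + 1)) * (1 - t⁻¹ ^ (i + 1)) *
        X (i + 1) (2 * s - (i + 1)) 0 else 0) := by
  rw [L2_cas_coord h hX hi]
  ring

lemma HH_uu_zero (k : ℕ) : ∀ X : Arr, HW s t X →
    (∀ i, k ≤ i → i ≤ 2 * s → X i (2 * s - i) 0 = 0) → HH (2 * s) (uu s t k) X = 0 := by
  have h0 : t ≠ 0 := h.ne_zero (by omega)
  induction k with
  | zero =>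
    intro X hX hz
    apply HH_zero_right
    intro i j l hijl
    exact HW_inj h hX (fun i hi => hz i (by omega) hi) l i j hijl
  | succ k ih =>
    intro X hX hz
    rw [HH_uu_step h]
    apply ih
    · exact HW_lin (HW_L2 h0 (commC_cas h) hX) hX _
    · intro i hki hi
      rw [shift_coord h hX k hi]
      have e2 : (if i < 2 * s then (1 - t ^ (i + 1)) * (1 - t⁻¹ ^ (i + 1)) *
        X (i + 1) (2 * s - (i + 1)) 0 else 0) = 0 := by
        by_cases h3 : i < 2 * s
        · rw [if_pos h3, hz (i + 1) (by omega) (by omega), mul_zero]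
        · rw [if_neg h3]
      rw [e2, add_zero]
      rcases Nat.eq_or_lt_of_le hki with h4 | h4
      · rw [h4]; ring
      · rw [hz i (by omega) hi, mul_zero]

lemma phi_identity {k : ℕ} (hk : k + 1 ≤ 2 * s) :
    (cc s t k - cc s t (k + 1)) * uu s t (k + 1) k (2 * s - k) 0 +
      (1 - t ^ (k + 1)) * (1 - t⁻¹ ^ (k + 1)) * uu s t (k + 1) (k + 1) (2 * s - (k + 1)) 0 =
      ((1 - t ^ (k + 1)) * (1 - t⁻¹ ^ (k + 1))) ^ 2 * uu s t k k (2 * s - k) 0 := by
  have h0 : t ≠ 0 := h.ne_zero (by omega)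
  have hV := sq_mul h
  have h1 : 1 - t ≠ 0 := by
    have := one_sub_pow_ne h (k := 1) (by omega) (by omega)
    rwa [pow_one] at this
  have e1 := uu_coord_sub h hk
  have e2 := uu_coord_succ h hk
  apply mul_left_cancel₀ h1
  have e3 : (1 - t) * ((cc s t k - cc s t (k + 1)) * uu s t (k + 1) k (2 * s - k) 0 +
      (1 - t ^ (k + 1)) * (1 - t⁻¹ ^ (k + 1)) * uu s t (k + 1) (k + 1) (2 * s - (k + 1)) 0) =
      (cc s t k - cc s t (k + 1)) * (-(t ^ (s + 1) * t⁻¹ ^ (k + 1) * (1 - t ^ (k + 1))) *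
        uu s t (k + 1) (k + 1) (2 * s - (k + 1)) 0) + (1 - t) * ((1 - t ^ (k + 1)) *
        (1 - t⁻¹ ^ (k + 1)) * uu s t (k + 1) (k + 1) (2 * s - (k + 1)) 0) := by
    rw [← e1]; ring
  rw [e3, e2]
  unfold cc
  have nx : t ^ k ≠ 0 := pow_ne_zero _ h0
  simp only [pow_succ, inv_pow, pow_zero, one_mul]
  generalize uu s t k k (2 * s - k) 0 = P at *
  generalize t ^ s = V at *
  generalize t ^ k = x at *
  clear e1 e2 e3
  obtain ⟨ht, hV0⟩ := eq_inv_sq hV
  rw [ht]
  field_simp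
  ring

lemma HH_uu_succ {k : ℕ} (hk : k + 1 ≤ 2 * s) :
    HH (2 * s) (uu s t (k + 1)) (uu s t (k + 1)) =
      ((1 - t ^ (k + 1)) * (1 - t⁻¹ ^ (k + 1))) ^ 2 * HH (2 * s) (uu s t k) (uu s t k) := by
  have h0 : t ≠ 0 := h.ne_zero (by omega)
  have hW1 := HW_uu h (k + 1)
  have hW := HW_uu h k
  have o1 : HH (2 * s) (uu s t k) (uu s t (k + 1)) = 0 := by
    rw [← HH_star, HH_uu_zero h (k + 1) _ hW (fun i hi hi2 => uu_coord_zero k i (by omega) hi2),
      star_zero]
  have e1 : HH (2 * s) (uu s t (k + 1)) (uu s t (k + 1)) = HH (2 * s) (uu s t k)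
      (fun a b c => L2 (cas s t) (uu s t (k + 1)) a b c +
        (-cc s t (k + 1)) * uu s t (k + 1) a b c) := by
    rw [HH_uu_step h, HH_add_right, HH_add_right, HH_smul_right, HH_smul_right, o1]
    ring
  rw [e1]
  have hW2 : HW s t (fun a b c => L2 (cas s t) (uu s t (k + 1)) a b c +
        (-cc s t (k + 1)) * uu s t (k + 1) a b c) :=
    HW_lin (HW_L2 h0 (commC_cas h) hW1) hW1 _
  have key := HH_uu_zero h k (fun a b c => (fun a b c => L2 (cas s t) (uu s t (k + 1)) a b c +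
        (-cc s t (k + 1)) * uu s t (k + 1) a b c) a b c +
        (-((1 - t ^ (k + 1)) * (1 - t⁻¹ ^ (k + 1))) ^ 2) * uu s t k a b c)
        (HW_lin hW2 hW _) (by
    intro i hki hi
    simp only
    rw [shift_coord h hW1 (k + 1) hi]
    rcases Nat.eq_or_lt_of_le hki with h4 | h4
    · subst h4
      rw [if_pos (by omega), phi_identity h hk]
      ring
    · rw [uu_coord_zero k i (by omega) hi]
      have e2 : (if i < 2 * s then (1 - t ^ (i + 1)) * (1 - t⁻¹ ^ (i + 1)) *
        uu s t (k + 1) (i + 1) (2 * s - (i + 1)) 0 else 0) = 0 := by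
        by_cases h3 : i < 2 * s
        · rw [if_pos h3, uu_coord_zero (k + 1) (i + 1) (by omega) (by omega), mul_zero]
        · rw [if_neg h3]
      rw [e2]
      rcases Nat.eq_or_lt_of_le (Nat.succ_le_of_lt h4) with h5 | h5
      · rw [← h5]; ring
      · rw [uu_coord_zero (k + 1) i (by omega) hi]; ring)
  rw [HH_add_right, HH_smul_right] at key
  linear_combination key

omit h in
lemma HH_self_add (S : ℕ) (Y U : Arr) (ξ : ℂ) :
    HH S (fun a b c => Y a b c + ξ * U a b c) (fun a b c => Y a b c + ξ * U a b c) =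
      HH S Y Y + ξ * HH S Y U + star ξ * HH S U Y + ξ * star ξ * HH S U U := by
  rw [HH_add_right, HH_smul_right, HH_add_left, HH_add_left, HH_smul_left, HH_smul_left]
  ring

lemma norm_sq_one_sub (k : ℕ) :
    (1 - t ^ k) * (1 - t⁻¹ ^ k) = ((‖1 - t ^ k‖ ^ 2 : ℝ) : ℂ) := by
  have e1 : star (1 - t ^ k) = 1 - t⁻¹ ^ k := by
    rw [star_sub, star_one, star_pow, star_root h]
  rw [← e1, ← Complex.normSq_eq_norm_sq]
  exact Complex.mul_conj _

lemma HH_eta : HH (2 * s) (eta s t) (eta s t) = 1 := by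
  have h0 : t ≠ 0 := h.ne_zero (by omega)
  unfold HH
  rw [Finset.sum_eq_single (0, 2 * s), Finset.sum_eq_single (2 * s, 0)]
  · unfold eta
    simp only [if_true]
    rw [star_pow, star_root h, ← mul_pow, inv_mul_cancel₀ h0, one_pow]
  · rintro ⟨a, b⟩ hq hne
    rw [mem_AD] at hq
    have hb : b ≠ 0 := by
      rintro rfl
      apply hne
      simp only [add_zero] at hq
      rw [hq]
    unfold eta
    rw [if_neg hb, star_zero, zero_mul]
  · intro hc
    exact absurd (mem_AD.mpr rfl) hc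
  · rintro ⟨a, b⟩ hp hne
    rw [mem_AD] at hp
    have ha : a ≠ 0 := by
      rintro rfl
      apply hne
      simp only [zero_add] at hp
      rw [hp]
    apply Finset.sum_eq_zero
    intro q _
    unfold eta
    rw [if_neg ha, mul_zero]
  · intro hc
    exact absurd (mem_AD.mpr (by simp)) hc

lemma HH_uu_self {k : ℕ} (hk : k ≤ 2 * s) :
    HH (2 * s) (uu s t k) (uu s t k) = ((‖qf t k‖ ^ 4 : ℝ) : ℂ) := by
  induction k with
  | zero =>
    simp only [qf_zero, norm_one, one_pow, Complex.ofReal_one]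
    exact HH_eta h
  | succ k ih =>
    rw [HH_uu_succ h hk, ih (by omega), norm_sq_one_sub h, qf_succ, norm_mul]
    push_cast
    ring

/-- positivity of the form on highest weight vectors -/
lemma HH_pos_aux (k : ℕ) (hk : k ≤ 2 * s + 1) : ∀ X : Arr, HW s t X →
    (∀ i, k ≤ i → i ≤ 2 * s → X i (2 * s - i) 0 = 0) →
    ∃ r : ℝ, HH (2 * s) X X = r ∧ 0 ≤ r ∧ (r = 0 → ∀ i j l, i + j + l = 2 * s → X i j l = 0) := by
  induction k with
  | zero =>
    intro X hX hz
    have hv : ∀ i j l, i + j + l = 2 * s → X i j l = 0 := fun i j l hijl =>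
      HW_inj h hX (fun i hi => hz i (by omega) hi) l i j hijl
    refine ⟨0, ?_, le_refl _, fun _ => hv⟩
    rw [HH_zero_right hv]
    simp
  | succ k ih =>
    intro X hX hz
    have hk' : k ≤ 2 * s := by omega
    have hne := uu_coord_ne h hk'
    set ξ : ℂ := X k (2 * s - k) 0 / uu s t k k (2 * s - k) 0 with hξ
    obtain ⟨r, hr, hr0, hr1⟩ := ih (by omega) (fun a b c => X a b c + (-ξ) * uu s t k a b c)
      (HW_lin hX (HW_uu h k) _) (by
        intro i hki hi
        rcases Nat.eq_or_lt_of_le hki with h4 | h4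
        · rw [← h4, hξ]
          field_simp
          ring
        · rw [hz i (by omega) hi, uu_coord_zero k i (by omega) hi]
          ring)
    set Y : Arr := fun a b c => X a b c + (-ξ) * uu s t k a b c with hY
    have hYW : HW s t Y := HW_lin hX (HW_uu h k) _
    have hYz : ∀ i, k ≤ i → i ≤ 2 * s → Y i (2 * s - i) 0 = 0 := by
      intro i hki hi
      simp only [hY]
      rcases Nat.eq_or_lt_of_le hki with h4 | h4
      · rw [← h4, hξ]
        field_simp
        ring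
      · rw [hz i (by omega) hi, uu_coord_zero k i (by omega) hi]
        ring
    have o1 : HH (2 * s) (uu s t k) Y = 0 := HH_uu_zero h k Y hYW hYz
    have o2 : HH (2 * s) Y (uu s t k) = 0 := by rw [← HH_star, o1, star_zero]
    have hXY : X = fun a b c => Y a b c + ξ * uu s t k a b c := by
      funext a b c
      simp only [hY]
      ring
    have hXX : HH (2 * s) X X = HH (2 * s) Y Y + (ξ * star ξ) * HH (2 * s) (uu s t k) (uu s t k) := by
      have e1 : HH (2 * s) X X = HH (2 * s) (fun a b c => Y a b c + ξ * uu s t k a b c)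
          (fun a b c => Y a b c + ξ * uu s t k a b c) := by rw [← hXY]
      rw [e1, HH_self_add, o1, o2]
      ring
    rw [hr, HH_uu_self h hk'] at hXX
    have hq : 0 < ‖qf t k‖ := norm_pos_iff.mpr (qf_ne_zero h hk')
    refine ⟨r + ‖ξ‖ ^ 2 * ‖qf t k‖ ^ 4, ?_, by positivity, ?_⟩
    · rw [hXX]
      have : ξ * star ξ = ((‖ξ‖ ^ 2 : ℝ) : ℂ) := by
        rw [← Complex.normSq_eq_norm_sq]
        exact Complex.mul_conj _
      rw [this]
      push_cast
      ring
    · intro h5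
      have h6 : 0 ≤ ‖ξ‖ ^ 2 * ‖qf t k‖ ^ 4 := by positivity
      have h7 : r = 0 := by linarith
      have h8 : ‖ξ‖ ^ 2 * ‖qf t k‖ ^ 4 = 0 := by linarith
      have h9 : ξ = 0 := by
        rcases mul_eq_zero.mp h8 with h10 | h10
        · exact norm_eq_zero.mp (pow_eq_zero_iff (by norm_num) |>.mp h10)
        · exact absurd h10 (by positivity)
      intro i j l hijl
      have := hr1 h7 i j l hijl
      rw [h9] at this
      simpa using this

/-- the form is positive definite on highest weight vectors -/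
theorem HH_pos {X : Arr} (hX : HW s t X) :
    ∃ r : ℝ, HH (2 * s) X X = r ∧ 0 ≤ r ∧ (r = 0 → ∀ i j l, i + j + l = 2 * s → X i j l = 0) :=
  HH_pos_aux h (2 * s + 1) le_rfl X hX (fun i h1 h2 => by omega)

end

end Pool.Agent.Work.MP_b30479_gtS.TB

end

section

/-!
# Coordinates in the orthogonal basis
-/

namespace Pool.Agent.Work.MP_b30479_gtS.TB

open Finset

/-- linear combination of the basis vectors -/
noncomputable def lc (s : ℕ) (t : ℂ) (c : ℕ → ℂ) (n : ℕ) : Arr := fun i j k =>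
  ∑ m ∈ range n, c m * uu s t m i j k

/-- squared norm of the basis vector `uu k` -/
noncomputable def NN (t : ℂ) (k : ℕ) : ℂ := ((‖qf t k‖ ^ 4 : ℝ) : ℂ)

/-- coordinates -/
noncomputable def xi (s : ℕ) (t : ℂ) (k : ℕ) (X : Arr) : ℂ := HH (2 * s) (uu s t k) X

section
variable {s : ℕ} {t : ℂ} (h : IsPrimitiveRoot t (2 * s + 1))
include h

lemma NN_ne {k : ℕ} (hk : k ≤ 2 * s) : NN t k ≠ 0 := by
  unfold NN
  have := norm_ne_zero_iff.mpr (qf_ne_zero h hk)
  exact_mod_cast pow_ne_zero 4 this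

omit h in
lemma HW_zero : HW s t (fun _ _ _ => 0) := by
  intro i j k _
  unfold EE
  ring

lemma HW_lc (c : ℕ → ℂ) (n : ℕ) : HW s t (lc s t c n) := by
  induction n with
  | zero =>
    have : lc s t c 0 = fun _ _ _ => 0 := by
      funext i j k
      unfold lc
      simp
    rw [this]
    exact HW_zero
  | succ n ih =>
    have : lc s t c (n + 1) = fun i j k => lc s t c n i j k + c n * uu s t n i j k := by
      funext i j k
      unfold lc
      rw [Finset.sum_range_succ]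
    rw [this]
    exact HW_lin ih (HW_uu h n) _

omit h in
lemma HH_lc_right (X : Arr) (c : ℕ → ℂ) (n : ℕ) :
    HH (2 * s) X (lc s t c n) = ∑ m ∈ range n, c m * HH (2 * s) X (uu s t m) := by
  induction n with
  | zero =>
    rw [Finset.sum_range_zero]
    apply HH_zero_right
    intro i j k _
    unfold lc
    simp
  | succ n ih =>
    have : lc s t c (n + 1) = fun i j k => lc s t c n i j k + c n * uu s t n i j k := by
      funext i j k
      unfold lc
      rw [Finset.sum_range_succ]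
    rw [this, HH_add_right, HH_smul_right, ih, Finset.sum_range_succ]

lemma HH_uu_orth {i k : ℕ} (hik : i ≠ k) (_hi : i ≤ 2 * s) (_hk : k ≤ 2 * s) :
    HH (2 * s) (uu s t i) (uu s t k) = 0 := by
  have key : ∀ i k, k < i → HH (2 * s) (uu s t i) (uu s t k) = 0 := by
    intro i k hlt
    exact HH_uu_zero h i _ (HW_uu h k) (fun m h1 h2 => uu_coord_zero k m (by omega) h2)
  rcases lt_or_gt_of_ne hik with hlt | hgt
  · rw [← HH_star, key k i hlt, star_zero]
  · exact key i k hgt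

lemma HH_uu_top {X : Arr} (hX : HW s t X) : HH (2 * s) (uu s t (2 * s + 1)) X = 0 :=
  HH_uu_zero h _ X hX (fun i h1 h2 => by omega)

lemma HH_uu_self' {k : ℕ} (hk : k ≤ 2 * s) : HH (2 * s) (uu s t k) (uu s t k) = NN t k :=
  HH_uu_self h hk

/-- a highest weight vector orthogonal to all basis vectors vanishes -/
lemma eq_zero_of_orth {X : Arr} (hX : HW s t X) (ho : ∀ k, k ≤ 2 * s → xi s t k X = 0) :
    ∀ k i j, i + j + k = 2 * s → X i j k = 0 := by
  apply HW_inj h hX
  -- coordinates vanish from the top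
  have key : ∀ d m, 2 * s + 1 ≤ m + d → m ≤ 2 * s → X m (2 * s - m) 0 = 0 := by
    intro d
    induction d with
    | zero => intro i h1 h2; omega
    | succ d ih =>
      intro m h1 h2
      by_cases h7 : 2 * s + 1 ≤ m + d
      · exact ih m h7 h2
      · -- subtract a multiple of `uu m`
        have hne := uu_coord_ne h h2
        set c : ℂ := X m (2 * s - m) 0 / uu s t m m (2 * s - m) 0 with hc
        have hY : HW s t (fun i j k => X i j k + (-c) * uu s t m i j k) :=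
          HW_lin hX (HW_uu h m) _
        have h3 := HH_uu_zero h m _ hY (fun i h4 h5 => by
          show X i (2 * s - i) 0 + (-c) * uu s t m i (2 * s - i) 0 = 0
          rcases Nat.eq_or_lt_of_le h4 with rfl | h6
          · rw [hc]
            field_simp
            ring
          · rw [ih i (by omega) h5, uu_coord_zero m i h6 h5]
            ring)
        rw [HH_add_right, HH_smul_right, HH_uu_self' h h2] at h3
        have h4 : HH (2 * s) (uu s t m) X = 0 := ho m h2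
        rw [h4, zero_add] at h3
        have h5 : c = 0 := by
          rcases mul_eq_zero.mp h3 with h6 | h6
          · exact neg_eq_zero.mp h6
          · exact absurd h6 (NN_ne h h2)
        rw [hc, div_eq_zero_iff] at h5
        rcases h5 with h6 | h6
        · exact h6
        · exact absurd h6 hne
  intro i hi
  exact key (2 * s + 1) i (by omega) hi

/-- expansion in the orthogonal basis -/
lemma expand {X : Arr} (hX : HW s t X) : ∀ i j k, i + j + k = 2 * s →
    X i j k = lc s t (fun m => xi s t m X / NN t m) (2 * s + 1) i j k := by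
  have hY : HW s t (fun i j k => X i j k +
      (-1) * lc s t (fun m => xi s t m X / NN t m) (2 * s + 1) i j k) :=
    HW_lin hX (HW_lc h _ _) _
  have h1 := eq_zero_of_orth h hY (fun k hk => by
    show HH (2 * s) (uu s t k) _ = 0
    rw [HH_add_right, HH_smul_right, HH_lc_right, Finset.sum_eq_single k]
    · rw [HH_uu_self' h hk, div_mul_cancel₀ _ (NN_ne h hk)]
      show HH (2 * s) (uu s t k) X + -1 * HH (2 * s) (uu s t k) X = 0
      ring
    · intro m hm hne
      rw [mem_range] at hm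
      rw [HH_uu_orth h (Ne.symm hne) hk (by omega), mul_zero]
    · intro hc
      exact absurd (mem_range.mpr (by omega)) hc)
  intro i j k hijk
  have := h1 k i j hijk
  linear_combination this

/-- Parseval identity -/
lemma parseval {X Y : Arr} (hY : HW s t Y) :
    HH (2 * s) X Y = ∑ m ∈ range (2 * s + 1), star (xi s t m X) * xi s t m Y / NN t m := by
  rw [HH_congr (fun i j k _ => rfl) (expand h hY), HH_lc_right]
  apply Finset.sum_congr rfl
  intro m _
  rw [← HH_star]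
  show _ / _ * star (xi s t m X) = _
  ring

lemma xi_L2_cas (k : ℕ) (X : Arr) :
    xi s t k (L2 (cas s t) X) = xi s t (k + 1) X + cc s t k * xi s t k X := by
  unfold xi
  rw [HH_uu_step h, HH_add_right, HH_smul_right]
  ring

lemma NN_succ {k : ℕ} : NN t (k + 1) = ((1 - t ^ (k + 1)) * (1 - t⁻¹ ^ (k + 1))) ^ 2 * NN t k := by
  unfold NN
  rw [qf_succ, norm_sq_one_sub h, norm_mul]
  push_cast
  ring

/-- `C_{23}` on the basis -/
lemma cas_uu {k : ℕ} (hk : k + 1 ≤ 2 * s) : ∀ i j l, i + j + l = 2 * s →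
    L2 (cas s t) (uu s t (k + 1)) i j l = cc s t (k + 1) * uu s t (k + 1) i j l +
      ((1 - t ^ (k + 1)) * (1 - t⁻¹ ^ (k + 1))) ^ 2 * uu s t k i j l := by
  have h0 : t ≠ 0 := h.ne_zero (by omega)
  have h1 : HW s t (L2 (cas s t) (uu s t (k + 1))) := HW_L2 h0 (commC_cas h) (HW_uu h _)
  intro i j l hs
  rw [expand h h1 i j l hs]
  simp only [lc]
  rw [← Finset.sum_subset (s₁ := {k, k + 1})]
  · rw [Finset.sum_pair (by omega), xi_L2_cas h, xi_L2_cas h]
    have e1 : xi s t (k + 1) (uu s t (k + 1)) = NN t (k + 1) := HH_uu_self' h hk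
    have e2 : xi s t k (uu s t (k + 1)) = 0 := HH_uu_orth h (by omega) (by omega) hk
    have e3 : xi s t (k + 1 + 1) (uu s t (k + 1)) = 0 := by
      by_cases hk2 : k + 1 + 1 ≤ 2 * s
      · exact HH_uu_orth h (by omega) hk2 hk
      · have : k + 1 + 1 = 2 * s + 1 := by omega
        rw [this]
        exact HH_uu_top h (HW_uu h _)
    rw [e1, e2, e3, mul_zero, add_zero, zero_add, NN_succ h]
    have n1 := NN_ne h (show k ≤ 2 * s by omega)
    have n2 := NN_ne h hk
    rw [NN_succ h] at n2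
    generalize ((1 - t ^ (k + 1)) * (1 - t⁻¹ ^ (k + 1))) ^ 2 = φ at *
    have n3 : φ ≠ 0 := left_ne_zero_of_mul n2
    rw [mul_div_assoc, div_self n1, mul_one, mul_div_assoc, div_self n2, mul_one]
    ring
  · intro x hx
    rw [Finset.mem_insert, Finset.mem_singleton] at hx
    rw [mem_range]
    omega
  · intro x hx hx2
    rw [mem_range] at hx
    rw [Finset.mem_insert, Finset.mem_singleton] at hx2
    push Not at hx2
    rw [xi_L2_cas h]
    have e1 : xi s t x (uu s t (k + 1)) = 0 := HH_uu_orth h (by omega) (by omega) hk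
    have e2 : xi s t (x + 1) (uu s t (k + 1)) = 0 := by
      by_cases hk2 : x + 1 ≤ 2 * s
      · exact HH_uu_orth h (by omega) hk2 hk
      · have : x + 1 = 2 * s + 1 := by omega
        rw [this]
        exact HH_uu_top h (HW_uu h _)
    rw [e1, e2]
    simp

lemma cas_uu_zero : ∀ i j l, i + j + l = 2 * s →
    L2 (cas s t) (uu s t 0) i j l = cc s t 0 * uu s t 0 i j l := by
  have h0 : t ≠ 0 := h.ne_zero (by omega)
  have h1 : HW s t (L2 (cas s t) (uu s t 0)) := HW_L2 h0 (commC_cas h) (HW_uu h _)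
  intro i j l hs
  rw [expand h h1 i j l hs]
  simp only [lc]
  rw [Finset.sum_eq_single 0]
  · rw [xi_L2_cas h]
    have e1 : xi s t 0 (uu s t 0) = NN t 0 := HH_uu_self' h (by omega)
    have e3 : xi s t (0 + 1) (uu s t 0) = 0 := by
      by_cases hk2 : 0 + 1 ≤ 2 * s
      · exact HH_uu_orth h (by omega) hk2 (by omega)
      · have : 0 + 1 = 2 * s + 1 := by omega
        rw [this]
        exact HH_uu_top h (HW_uu h _)
    rw [e1, e3, zero_add, mul_div_assoc, div_self (NN_ne h (by omega)), mul_one]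
  · intro x hx hx2
    rw [mem_range] at hx
    rw [xi_L2_cas h]
    have e1 : xi s t x (uu s t 0) = 0 := HH_uu_orth h (by omega) (by omega) (by omega)
    have e2 : xi s t (x + 1) (uu s t 0) = 0 := by
      by_cases hk2 : x + 1 ≤ 2 * s
      · exact HH_uu_orth h (by omega) hk2 (by omega)
      · have : x + 1 = 2 * s + 1 := by omega
        rw [this]
        exact HH_uu_top h (HW_uu h _)
    rw [e1, e2]
    simp
  · intro hc
    exact absurd (mem_range.mpr (by omega)) hc

/-- `C_{12}` in coordinates -/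
lemma xi_L1_cas {k : ℕ} (hk : k ≤ 2 * s) (X : Arr) :
    xi s t k (L1 (cas s t) X) = cc s t k * xi s t k X +
      ((1 - t ^ k) * (1 - t⁻¹ ^ k)) ^ 2 * xi s t (k - 1) X := by
  unfold xi
  rw [← HH_L2 (isDag_cas h (2 * s))]
  rcases Nat.eq_zero_or_pos k with rfl | hk0
  · rw [HH_congr (cas_uu_zero h) (fun i j l _ => rfl), HH_smul_left, star_cc h]
    simp
  · obtain ⟨k, rfl⟩ : ∃ k', k = k' + 1 := ⟨k - 1, by omega⟩
    rw [HH_congr (cas_uu h hk) (fun i j l _ => rfl), HH_add_left, HH_smul_left, HH_smul_left,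
      star_cc h, Nat.add_sub_cancel]
    congr 2
    rw [norm_sq_one_sub h]
    rw [star_pow]
    congr 1
    exact Complex.conj_ofReal _

end

end Pool.Agent.Work.MP_b30479_gtS.TB

end

section

/-!
# The Casimir operator commutes with the braiding on highest weight vectors
-/

namespace Pool.Agent.Work.MP_b30479_gtS.TB

open Finset

/-- matrix entries of the braiding in the middle weight space -/
noncomputable def E1 (s : ℕ) (t : ℂ) (j k : ℕ) : ℂ :=
  (-1) ^ k * t ^ ((k.choose 2 : ℤ) - s * k - ((j : ℤ) + k - s) ^ 2) *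
    ((qf t (j + k)) ^ 2 / ((qf t j) ^ 2 * qf t k))

section
variable {s : ℕ} {t : ℂ} (h : IsPrimitiveRoot t (2 * s + 1))
include h

lemma qf_inv_mul (i : ℕ) (hi : i ≤ 2 * s) : qf t⁻¹ i * qf t (2 * s - i) = qf t (2 * s) := by
  induction i with
  | zero => simp
  | succ i ih =>
    rw [← ih (by omega), qf_succ, show 2 * s - i = (2 * s - (i + 1)) + 1 by omega, qf_succ,
      inv_pow_eq h (show i + 1 + (2 * s - (i + 1) + 1) = 2 * s + 1 by omega)]
    ring

lemma qf_inv_eq (j : ℕ) (hj : j ≤ 2 * s) : qf t⁻¹ (2 * s - j) = qf t (2 * s) / qf t j := by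
  rw [eq_div_iff (qf_ne_zero h hj)]
  have := qf_inv_mul h (2 * s - j) (by omega)
  rwa [show 2 * s - (2 * s - j) = j by omega] at this

/-- `E_{a,j} (1 - t^{k+1}) = - W t^k (1-t^{j+1})^2 E_{a,j+1}` -/
lemma E1_rel1 (j k : ℕ) (hjk : j + k + 1 ≤ 2 * s) :
    E1 s t j (k + 1) * (1 - t ^ (k + 1)) =
      -(t ^ (s + 1) * t ^ k * (1 - t ^ (j + 1)) ^ 2) * E1 s t (j + 1) k := by
  have h0 : t ≠ 0 := h.ne_zero (by omega)
  have nj : qf t j ≠ 0 := qf_ne_zero h (by omega)
  have nk : qf t k ≠ 0 := qf_ne_zero h (by omega)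
  have nj1 : 1 - t ^ (j + 1) ≠ 0 := one_sub_pow_ne h (by omega) (by omega)
  have nk1 : 1 - t ^ (k + 1) ≠ 0 := one_sub_pow_ne h (by omega) (by omega)
  unfold E1
  rw [qf_succ t k, qf_succ t j, show j + 1 + k = j + (k + 1) by ring]
  have e1 : t ^ (((k + 1).choose 2 : ℤ) - s * ((k + 1 : ℕ) : ℤ) -
      ((j : ℤ) + ((k + 1 : ℕ) : ℤ) - s) ^ 2) =
      t ^ (s + 1) * t ^ k * t ^ ((k.choose 2 : ℤ) - s * k - (((j + 1 : ℕ) : ℤ) + k - s) ^ 2) := by
    have e2 : t ^ (s + 1) * t ^ k * t ^ ((k.choose 2 : ℤ) - s * k -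
        (((j + 1 : ℕ) : ℤ) + k - s) ^ 2) = t ^ (-(2 * (s : ℤ) + 1)) *
        (t ^ (s + 1) * t ^ k * t ^ ((k.choose 2 : ℤ) - s * k -
        (((j + 1 : ℕ) : ℤ) + k - s) ^ 2)) := by
      have : t ^ (-(2 * (s : ℤ) + 1)) = 1 := by
        rw [zpow_neg, inv_eq_one]
        exact_mod_cast h.pow_eq_one
      rw [this, one_mul]
    rw [e2, ← zpow_natCast, ← zpow_natCast, ← zpow_add₀ h0, ← zpow_add₀ h0, ← zpow_add₀ h0]
    congr 1
    rw [Nat.choose_succ_succ' k 1, Nat.choose_one_right]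
    push_cast
    ring
  rw [e1]
  field_simp
  ring

/-- `E_{a+1,j} (1 - t^{k+1}) = - W t^{k-2a-2} (1-t^{a+1})^2 E_{a,j}` -/
lemma E1_rel2 (j k : ℕ) (hjk : j + k + 1 ≤ 2 * s) :
    E1 s t j (k + 1) * (1 - t ^ (k + 1)) =
      -(t ^ (s + 1) * t ^ k * (t⁻¹ ^ (j + k + 1)) ^ 2 * (1 - t ^ (j + k + 1)) ^ 2) * E1 s t j k := by
  have h0 : t ≠ 0 := h.ne_zero (by omega)
  have nj : qf t j ≠ 0 := qf_ne_zero h (by omega)
  have nk : qf t k ≠ 0 := qf_ne_zero h (by omega)
  have nk1 : 1 - t ^ (k + 1) ≠ 0 := one_sub_pow_ne h (by omega) (by omega)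
  unfold E1
  rw [qf_succ t k, show j + (k + 1) = j + k + 1 by ring, qf_succ t (j + k)]
  have e1 : t ^ (((k + 1).choose 2 : ℤ) - s * ((k + 1 : ℕ) : ℤ) -
      ((j : ℤ) + ((k + 1 : ℕ) : ℤ) - s) ^ 2) =
      t ^ (s + 1) * t ^ k * (t⁻¹ ^ (j + k + 1)) ^ 2 *
        t ^ ((k.choose 2 : ℤ) - s * k - ((j : ℤ) + k - s) ^ 2) := by
    rw [inv_pow, ← inv_pow, ← zpow_natCast (t⁻¹), inv_zpow', ← zpow_natCast (t ^ _) 2, ← zpow_mul,
      ← zpow_natCast t, ← zpow_natCast t, ← zpow_add₀ h0, ← zpow_add₀ h0, ← zpow_add₀ h0]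
    congr 1
    rw [Nat.choose_succ_succ' k 1, Nat.choose_one_right]
    push_cast
    ring
  rw [e1]
  field_simp
  ring

end

section
variable {s : ℕ} {u : ℂˣ} (h : IsPrimitiveRoot (u : ℂ) (2 * s + 1))
include h

lemma entry_E1 (j k : ℕ) (hjk : j + k ≤ 2 * s) :
    entry s u true (2 * s - j) j (j + k) (2 * s - (j + k)) = E1 s u j k := by
  have h0 : (u : ℂ) ≠ 0 := u.ne_zero
  rw [entry_true s u (2 * s - j) j k (2 * s - (j + k)) (by omega),
    coeffPos_closed h (by omega) (by omega) (by omega), show 2 * s - j - k = 2 * s - (j + k) by omega,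
    qf_inv_eq h j (by omega), qf_inv_eq h (j + k) hjk]
  have nj : qf (u : ℂ) j ≠ 0 := qf_ne_zero h (by omega)
  have nk : qf (u : ℂ) k ≠ 0 := qf_ne_zero h (by omega)
  have njk : qf (u : ℂ) (j + k) ≠ 0 := qf_ne_zero h (by omega)
  have n2 : qf (u : ℂ) (2 * s) ≠ 0 := qf_ne_zero h (by omega)
  unfold E1
  have e1 : ((k.choose 2 : ℤ) - s * k + ((s : ℤ) - ((2 * s - j : ℕ) : ℤ) + k) * ((s : ℤ) - j - k)) =
      ((k.choose 2 : ℤ) - s * k - ((j : ℤ) + k - s) ^ 2) := by
    rw [Nat.cast_sub (by omega)]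
    push_cast
    ring
  rw [e1]
  field_simp

end

/-- matrix entries of the braiding in the middle weight space -/
noncomputable def Ef (s : ℕ) (t : ℂ) (a j : ℕ) : ℂ := if j ≤ a then E1 s t j (a - j) else 0

lemma Ef_add (s : ℕ) (t : ℂ) (j k : ℕ) : Ef s t (j + k) j = E1 s t j k := by
  unfold Ef
  rw [if_pos (by omega), Nat.add_sub_cancel_left]

lemma Ef_lt {s : ℕ} {t : ℂ} {a j : ℕ} (h : a < j) : Ef s t a j = 0 := by
  unfold Ef
  rw [if_neg (by omega)]

section
variable {s : ℕ} {t : ℂ} (h : IsPrimitiveRoot t (2 * s + 1))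
include h

lemma T1 (j k : ℕ) (hjk : j + k ≤ 2 * s) :
    (if 1 ≤ j then Ef s t (j + k) (j - 1) * (1 - t⁻¹ ^ j) ^ 2 else 0) * (1 - t ^ (k + 1)) =
      -(t ^ (s + 1) * t ^ k * (1 - t ^ j) ^ 2 * (1 - t⁻¹ ^ j) ^ 2) * E1 s t j k := by
  rcases Nat.eq_zero_or_pos j with rfl | hj
  · simp
  · obtain ⟨j, rfl⟩ : ∃ j', j = j' + 1 := ⟨j - 1, by omega⟩
    rw [if_pos (by omega), Nat.add_sub_cancel, show j + 1 + k = j + (k + 1) by ring, Ef_add]
    have := E1_rel1 h j k (by omega)
    linear_combination (1 - t⁻¹ ^ (j + 1)) ^ 2 * this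

lemma T2 (j k : ℕ) (hjk : j + k ≤ 2 * s) :
    (if j < 2 * s then Ef s t (j + k) (j + 1) * (1 - t⁻¹ ^ (j + 1)) ^ 2 else 0) =
      -(t ^ s * t⁻¹ * t⁻¹ ^ k * (t⁻¹ ^ j) ^ 2 * (1 - t ^ k)) * E1 s t j k := by
  have h0 : t ≠ 0 := h.ne_zero (by omega)
  have hV := sq_mul h
  rcases Nat.eq_zero_or_pos k with rfl | hk
  · rw [Nat.add_zero, Ef_lt (by omega)]
    simp
  · obtain ⟨k, rfl⟩ : ∃ k', k = k' + 1 := ⟨k - 1, by omega⟩
    rw [if_pos (by omega), show j + (k + 1) = (j + 1) + k by ring, Ef_add]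
    have := E1_rel1 h j k (by omega)
    have nk1 : 1 - t ^ (k + 1) ≠ 0 := one_sub_pow_ne h (by omega) (by omega)
    have e1 : -(t ^ s * t⁻¹ * t⁻¹ ^ (k + 1) * (t⁻¹ ^ j) ^ 2 * (1 - t ^ (k + 1))) * E1 s t j (k + 1) =
        -(t ^ s * t⁻¹ * t⁻¹ ^ (k + 1) * (t⁻¹ ^ j) ^ 2) * (E1 s t j (k + 1) * (1 - t ^ (k + 1))) := by
      ring
    rw [e1, this]
    have e2 : (t ^ s * t⁻¹ * t⁻¹ ^ (k + 1) * (t⁻¹ ^ j) ^ 2) * (t ^ (s + 1) * t ^ k) =
        (t⁻¹ ^ (j + 1)) ^ 2 := by
      have n1 : t ^ j ≠ 0 := pow_ne_zero _ h0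
      have n2 : t ^ k ≠ 0 := pow_ne_zero _ h0
      simp only [pow_succ, inv_pow]
      field_simp
      linear_combination hV
    have e3 : (1 - t⁻¹ ^ (j + 1)) ^ 2 = (t⁻¹ ^ (j + 1)) ^ 2 * (1 - t ^ (j + 1)) ^ 2 := by
      have n1 : t ^ (j + 1) ≠ 0 := pow_ne_zero _ h0
      simp only [inv_pow]
      field_simp
      ring
    rw [e3, ← e2]
    ring

lemma T3 (j k : ℕ) (hjk : j + k ≤ 2 * s) :
    (if 1 ≤ j + k then (1 - t ^ (j + k)) ^ 2 * Ef s t (j + k - 1) j else 0) =
      -(t ^ (s + 1) * t⁻¹ ^ k * (t ^ (j + k)) ^ 2 * (1 - t ^ k)) * E1 s t j k := by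
  have h0 : t ≠ 0 := h.ne_zero (by omega)
  have hV := sq_mul h
  rcases Nat.eq_zero_or_pos k with rfl | hk
  · rw [Nat.add_zero]
    by_cases hj : 1 ≤ j
    · rw [Ef_lt (by omega)]
      simp
    · rw [if_neg hj]
      simp
  · obtain ⟨k, rfl⟩ : ∃ k', k = k' + 1 := ⟨k - 1, by omega⟩
    rw [if_pos (by omega), show j + (k + 1) - 1 = j + k by omega, Ef_add]
    have := E1_rel2 h j k (by omega)
    have e1 : -(t ^ (s + 1) * t⁻¹ ^ (k + 1) * (t ^ (j + (k + 1))) ^ 2 * (1 - t ^ (k + 1))) *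
        E1 s t j (k + 1) = -(t ^ (s + 1) * t⁻¹ ^ (k + 1) * (t ^ (j + (k + 1))) ^ 2) *
          (E1 s t j (k + 1) * (1 - t ^ (k + 1))) := by
      ring
    rw [e1, this, ← Nat.add_assoc]
    have e2 : (t ^ (s + 1) * t⁻¹ ^ (k + 1) * (t ^ (j + k + 1)) ^ 2) *
        (t ^ (s + 1) * t ^ k * (t⁻¹ ^ (j + k + 1)) ^ 2) = 1 := by
      have n1 : t ^ (j + k + 1) ≠ 0 := pow_ne_zero _ h0
      have n2 : t ^ k ≠ 0 := pow_ne_zero _ h0
      rw [pow_succ t s, pow_succ t⁻¹ k, inv_pow, inv_pow]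
      generalize t ^ (j + k + 1) = x at *
      field_simp
      linear_combination hV
    linear_combination -((1 - t ^ (j + k + 1)) ^ 2 * E1 s t j k) * e2

lemma T4 (j k : ℕ) (hjk : j + k ≤ 2 * s) :
    (if j + k < 2 * s then (1 - t ^ (j + k + 1)) ^ 2 * Ef s t (j + k + 1) j else 0) *
      (1 - t ^ (k + 1)) =
      -(t ^ (s + 1) * t ^ k * (t⁻¹ ^ (j + k + 1)) ^ 2 * (1 - t ^ (j + k + 1)) ^ 4) *
        E1 s t j k := by
  by_cases hlt : j + k < 2 * s
  · rw [if_pos hlt, Nat.add_assoc j k 1, Ef_add]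
    have := E1_rel2 h j k (by omega)
    rw [Nat.add_assoc j k 1] at this
    linear_combination (1 - t ^ (j + (k + 1))) ^ 2 * this
  · rw [if_neg hlt, show j + k + 1 = 2 * s + 1 by omega, h.pow_eq_one]
    simp

lemma cas_comm_entry {a j : ℕ} (ha : a ≤ 2 * s) (hj : j ≤ 2 * s) :
    Ef s t a j * dg s t (2 * s - j) j +
      (if 1 ≤ j then Ef s t a (j - 1) * (1 - t⁻¹ ^ j) ^ 2 else 0) +
      (if j < 2 * s then Ef s t a (j + 1) * (1 - t⁻¹ ^ (j + 1)) ^ 2 else 0) =
    dg s t a (2 * s - a) * Ef s t a j +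
      (if 1 ≤ a then (1 - t ^ a) ^ 2 * Ef s t (a - 1) j else 0) +
      (if a < 2 * s then (1 - t ^ (a + 1)) ^ 2 * Ef s t (a + 1) j else 0) := by
  have h0 : t ≠ 0 := h.ne_zero (by omega)
  have hV := sq_mul h
  rcases lt_trichotomy j (a + 1) with hlt | heq | hgt
  · obtain ⟨k, rfl⟩ : ∃ k, a = j + k := ⟨a - j, by omega⟩
    have t1 := T1 h j k ha
    have t2 := T2 h j k ha
    have t3 := T3 h j k ha
    have t4 := T4 h j k ha
    rw [t2, t3, Ef_add]
    have d1 : dg s t (2 * s - j) j = t ^ s * (4 * t⁻¹ ^ j - t⁻¹ * (t⁻¹ ^ j) ^ 2 - (t⁻¹ ^ j) ^ 2) := by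
      unfold dg
      rw [← inv_pow_eq h (show j + 1 + (2 * s - j) = 2 * s + 1 by omega)]
      have n1 : t ^ j ≠ 0 := pow_ne_zero _ h0
      simp only [pow_succ, inv_pow]
      field_simp
      ring
    have d2 : dg s t (j + k) (2 * s - (j + k)) =
        t ^ s * (4 * t * t ^ (j + k) - t * (t ^ (j + k)) ^ 2 - t ^ 2 * (t ^ (j + k)) ^ 2) := by
      unfold dg
      rw [inv_pow_eq h (show 2 * s - (j + k) + (j + k + 1) = 2 * s + 1 by omega)]
      simp only [pow_succ]
      ring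
    rw [d1, d2]
    by_cases hk : 1 - t ^ (k + 1) = 0
    · have hk1 : k = 2 * s := by
        by_contra hne
        exact one_sub_pow_ne h (k := k + 1) (by omega) (by omega) hk
      have hj0 : j = 0 := by omega
      subst hj0
      rw [if_neg (by omega), if_neg (by omega)]
      have hx : t ^ k = t⁻¹ := by
        apply eq_inv_of_mul_eq_one_left
        rw [← pow_succ]
        exact (sub_eq_zero.mp hk).symm
      rw [Nat.zero_add, inv_pow, hx, pow_zero, pow_succ t s]
      have nV : t ^ s ≠ 0 := pow_ne_zero _ h0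
      field_simp
      ring
    · apply mul_right_cancel₀ hk
      rw [add_mul, add_mul, add_mul, add_mul, t1, t4]
      have n1 : t ^ j ≠ 0 := pow_ne_zero _ h0
      have n2 : t ^ k ≠ 0 := pow_ne_zero _ h0
      have nV : t ^ s ≠ 0 := pow_ne_zero _ h0
      simp only [pow_succ t, pow_add t, inv_pow, pow_zero, one_mul]
      generalize E1 s t j k = X
      clear t1 t2 t3 t4 hk d1 d2
      generalize t ^ j = J at *
      generalize t ^ k = K at *
      generalize t ^ s = V at *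
      field_simp
      ring
  · subst heq
    have hlt : a < 2 * s := by omega
    rw [Ef_lt (by omega), if_pos (by omega), Nat.add_sub_cancel, if_pos hlt]
    have e1 : (if a + 1 < 2 * s then Ef s t a (a + 1 + 1) * (1 - t⁻¹ ^ (a + 1 + 1)) ^ 2 else 0) = 0 := by
      rw [Ef_lt (by omega), zero_mul, ite_self]
    have e2 : (if 1 ≤ a then (1 - t ^ a) ^ 2 * Ef s t (a - 1) (a + 1) else 0) = 0 := by
      rw [Ef_lt (by omega), mul_zero, ite_self]
    rw [e1, e2]
    have e3 : Ef s t a a = E1 s t a 0 := Ef_add s t a 0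
    have e4 : Ef s t (a + 1) (a + 1) = E1 s t (a + 1) 0 := Ef_add s t (a + 1) 0
    rw [e3, e4]
    unfold E1
    have na : qf t a ≠ 0 := qf_ne_zero h (by omega)
    have na1 : qf t (a + 1) ≠ 0 := qf_ne_zero h (by omega)
    have e5 : t ^ (((0 : ℕ).choose 2 : ℤ) - s * ((0 : ℕ) : ℤ) - ((a : ℤ) + ((0 : ℕ) : ℤ) - s) ^ 2) =
        t ^ (((0 : ℕ).choose 2 : ℤ) - s * ((0 : ℕ) : ℤ) -
          (((a + 1 : ℕ) : ℤ) + ((0 : ℕ) : ℤ) - s) ^ 2) * (t ^ (a + 1)) ^ 2 := by
      have e6 : t ^ (((0 : ℕ).choose 2 : ℤ) - s * ((0 : ℕ) : ℤ) -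
          (((a + 1 : ℕ) : ℤ) + ((0 : ℕ) : ℤ) - s) ^ 2) * (t ^ (a + 1)) ^ 2 =
          t ^ (-(2 * (s : ℤ) + 1)) * (t ^ (((0 : ℕ).choose 2 : ℤ) - s * ((0 : ℕ) : ℤ) -
          (((a + 1 : ℕ) : ℤ) + ((0 : ℕ) : ℤ) - s) ^ 2) * (t ^ (a + 1)) ^ 2) := by
        have : t ^ (-(2 * (s : ℤ) + 1)) = 1 := by
          rw [zpow_neg, inv_eq_one]
          exact_mod_cast h.pow_eq_one
        rw [this, one_mul]
      rw [e6, ← zpow_natCast, ← zpow_natCast, ← zpow_mul, ← zpow_add₀ h0, ← zpow_add₀ h0]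
      congr 1
      simp only [Nat.choose_zero_succ]
      push_cast
      ring
    rw [e5]
    simp only [pow_zero, Nat.add_zero, qf_zero, mul_one]
    rw [div_self (pow_ne_zero 2 na), div_self (pow_ne_zero 2 na1)]
    have nx : t ^ (a + 1) ≠ 0 := pow_ne_zero _ h0
    rw [inv_pow]
    generalize t ^ (a + 1) = x at *
    field_simp
    ring
  · rw [Ef_lt (by omega)]
    have e1 : (if 1 ≤ j then Ef s t a (j - 1) * (1 - t⁻¹ ^ j) ^ 2 else 0) = 0 := by
      rw [Ef_lt (by omega), zero_mul, ite_self]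
    have e2 : (if j < 2 * s then Ef s t a (j + 1) * (1 - t⁻¹ ^ (j + 1)) ^ 2 else 0) = 0 := by
      rw [Ef_lt (by omega), zero_mul, ite_self]
    have e3 : (if 1 ≤ a then (1 - t ^ a) ^ 2 * Ef s t (a - 1) j else 0) = 0 := by
      rw [Ef_lt (by omega), mul_zero, ite_self]
    have e4 : (if a < 2 * s then (1 - t ^ (a + 1)) ^ 2 * Ef s t (a + 1) j else 0) = 0 := by
      rw [Ef_lt (by omega), mul_zero, ite_self]
    rw [e1, e2, e3, e4]
    ring

end

lemma sum_shift (N : ℕ) (f : ℕ → ℂ) :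
    ∑ j ∈ range (N + 1), (if j < N then f (j + 1) else 0) =
      ∑ j ∈ range (N + 1), (if 1 ≤ j then f j else 0) := by
  rw [Finset.sum_range_succ, Finset.sum_range_succ']
  rw [if_neg (by omega), if_neg (by omega)]
  congr 1
  apply Finset.sum_congr rfl
  intro j hj
  rw [mem_range] at hj
  rw [if_pos hj, if_pos (by omega)]

section
variable {s : ℕ} {u : ℂˣ} (h : IsPrimitiveRoot (u : ℂ) (2 * s + 1))
include h

lemma entry_Ef {a j : ℕ} (ha : a ≤ 2 * s) (hj : j ≤ 2 * s) :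
    entry s u true (2 * s - j) j a (2 * s - a) = Ef s u a j := by
  by_cases hja : j ≤ a
  · obtain ⟨k, rfl⟩ : ∃ k, a = j + k := ⟨a - j, by omega⟩
    rw [Ef_add, entry_E1 h j k ha]
  · rw [Ef_lt (by omega), entry_true_zero _ _ _ _ _ _ (by omega)]

lemma M_entry (Z : ℕ → ℕ → ℂ) {a : ℕ} (ha : a ≤ 2 * s) :
    M (entry s u true) Z a (2 * s - a) =
      ∑ j ∈ range (2 * s + 1), Ef s u a j * Z (2 * s - j) j := by
  unfold M
  rw [show a + (2 * s - a) = 2 * s by omega]
  unfold AD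
  rw [Finset.Nat.sum_antidiagonal_eq_sum_range_succ_mk, ← Finset.sum_range_reflect]
  apply Finset.sum_congr rfl
  intro j hj
  rw [mem_range] at hj
  simp only [Nat.succ_sub_one]
  have e1 : 2 * s - (2 * s - j) = j := by omega
  rw [e1, entry_Ef h ha (by omega)]

lemma M_comm_cas (Z : ℕ → ℕ → ℂ) {a : ℕ} (ha : a ≤ 2 * s) :
    M (entry s u true) (M (cas s u) Z) a (2 * s - a) =
      M (cas s u) (M (entry s u true) Z) a (2 * s - a) := by
  have h0 : (u : ℂ) ≠ 0 := u.ne_zero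
  rw [M_entry h _ ha, M_cas]
  -- left side
  have eL : ∑ j ∈ range (2 * s + 1), Ef s u a j * M (cas s u) Z (2 * s - j) j =
      ∑ j ∈ range (2 * s + 1), (Ef s u a j * dg s u (2 * s - j) j +
      (if 1 ≤ j then Ef s u a (j - 1) * (1 - (u : ℂ)⁻¹ ^ j) ^ 2 else 0) +
      (if j < 2 * s then Ef s u a (j + 1) * (1 - (u : ℂ)⁻¹ ^ (j + 1)) ^ 2 else 0)) *
        Z (2 * s - j) j := by
    have e1 : ∀ j ∈ range (2 * s + 1), Ef s u a j * M (cas s u) Z (2 * s - j) j =
        Ef s u a j * dg s u (2 * s - j) j * Z (2 * s - j) j +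
        (if j < 2 * s then (fun j => Ef s u a (j - 1) * (1 - (u : ℂ)⁻¹ ^ j) ^ 2 *
          Z (2 * s - j) j) (j + 1) else 0) +
        (if 1 ≤ j then (fun j => Ef s u a (j + 1) * (1 - (u : ℂ)⁻¹ ^ (j + 1)) ^ 2 *
          Z (2 * s - j) j) (j - 1) else 0) := by
      intro j hj
      rw [mem_range] at hj
      rw [M_cas, mul_add, mul_add, ← mul_assoc]
      congr 1
      · congr 1
        by_cases hj2 : j < 2 * s
        · rw [if_pos (by omega), if_pos hj2]
          simp only [Nat.add_sub_cancel]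
          rw [← inv_pow_eq h (show j + 1 + (2 * s - j) = 2 * s + 1 by omega),
            show 2 * s - j - 1 = 2 * s - (j + 1) by omega]
          ring
        · rw [if_neg (by omega), if_neg hj2, mul_zero]
      · by_cases hj2 : 1 ≤ j
        · rw [if_pos hj2, if_pos hj2]
          obtain ⟨j, rfl⟩ : ∃ j', j = j' + 1 := ⟨j - 1, by omega⟩
          simp only [Nat.add_sub_cancel]
          rw [show 2 * s - (j + 1) + 1 = 2 * s - j by omega,
            ← inv_pow_eq h (show j + 1 + (2 * s - j) = 2 * s + 1 by omega),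
            inv_pow_eq h (show 2 * s - j + (j + 1) = 2 * s + 1 by omega)]
          have nx : (u : ℂ) ^ (j + 1) ≠ 0 := pow_ne_zero _ h0
          rw [inv_pow]
          field_simp
          ring
        · rw [if_neg hj2, if_neg hj2, mul_zero]
    rw [Finset.sum_congr rfl e1, Finset.sum_add_distrib, Finset.sum_add_distrib,
      sum_shift (2 * s) (fun j => Ef s u a (j - 1) * (1 - (u : ℂ)⁻¹ ^ j) ^ 2 * Z (2 * s - j) j)]
    have e2 : ∑ j ∈ range (2 * s + 1), (if 1 ≤ j then (fun j => Ef s u a (j + 1) *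
        (1 - (u : ℂ)⁻¹ ^ (j + 1)) ^ 2 * Z (2 * s - j) j) (j - 1) else 0) =
        ∑ j ∈ range (2 * s + 1), (if j < 2 * s then Ef s u a (j + 1) *
        (1 - (u : ℂ)⁻¹ ^ (j + 1)) ^ 2 * Z (2 * s - j) j else 0) := by
      rw [← sum_shift (2 * s) (fun j => (fun j => Ef s u a (j + 1) *
        (1 - (u : ℂ)⁻¹ ^ (j + 1)) ^ 2 * Z (2 * s - j) j) (j - 1))]
      simp only [Nat.add_sub_cancel]
    rw [e2, ← Finset.sum_add_distrib, ← Finset.sum_add_distrib]
    apply Finset.sum_congr rfl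
    intro j _
    split_ifs <;> ring
  rw [eL]
  have eR1 : (if 1 ≤ a then (1 - (u : ℂ) ^ a) * (1 - (u : ℂ)⁻¹ ^ (2 * s - a + 1)) *
      M (entry s u true) Z (a - 1) (2 * s - a + 1) else 0) =
      ∑ j ∈ range (2 * s + 1), (if 1 ≤ a then (1 - (u : ℂ) ^ a) ^ 2 * Ef s u (a - 1) j else 0) *
        Z (2 * s - j) j := by
    by_cases ha1 : 1 ≤ a
    · rw [if_pos ha1, show 2 * s - a + 1 = 2 * s - (a - 1) by omega, M_entry h _ (by omega),
        inv_pow_eq h (show 2 * s - (a - 1) + a = 2 * s + 1 by omega), Finset.mul_sum]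
      apply Finset.sum_congr rfl
      intro j _
      rw [if_pos ha1]
      ring
    · simp [ha1]
  have eR2 : (if 1 ≤ 2 * s - a then (1 - (u : ℂ)⁻¹ ^ (a + 1)) * (1 - (u : ℂ) ^ (2 * s - a)) *
      ((u : ℂ) ^ (a + 1) * (u : ℂ)⁻¹ ^ (2 * s - a)) *
      M (entry s u true) Z (a + 1) (2 * s - a - 1) else 0) =
      ∑ j ∈ range (2 * s + 1), (if a < 2 * s then (1 - (u : ℂ) ^ (a + 1)) ^ 2 *
        Ef s u (a + 1) j else 0) * Z (2 * s - j) j := by
    by_cases ha1 : a < 2 * s
    · rw [if_pos (by omega), show 2 * s - a - 1 = 2 * s - (a + 1) by omega, M_entry h _ (by omega),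
        ← inv_pow_eq h (show a + 1 + (2 * s - a) = 2 * s + 1 by omega),
        inv_pow_eq h (show 2 * s - a + (a + 1) = 2 * s + 1 by omega), Finset.mul_sum]
      apply Finset.sum_congr rfl
      intro j _
      rw [if_pos ha1]
      have nx : (u : ℂ) ^ (a + 1) ≠ 0 := pow_ne_zero _ h0
      rw [inv_pow]
      field_simp
      ring
    · rw [if_neg (by omega)]
      simp [ha1]
  rw [eR1, eR2, M_entry h _ ha, Finset.mul_sum, ← Finset.sum_add_distrib, ← Finset.sum_add_distrib]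
  apply Finset.sum_congr rfl
  intro j hj
  rw [mem_range] at hj
  rw [cas_comm_entry h ha (by omega)]
  ring

/-- the Casimir operator commutes with the braiding -/
lemma cas_comm {X : Arr} (hX : HW s u X) : ∀ k i j : ℕ, i + j + k = 2 * s →
    L1 (cas s u) (L1 (entry s u true) X) i j k = L1 (entry s u true) (L1 (cas s u) X) i j k := by
  have hY : HW s u (fun i j k => L1 (cas s u) (L1 (entry s u true) X) i j k +
      (-1) * L1 (entry s u true) (L1 (cas s u) X) i j k) :=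
    HW_lin (HW_L1 (commC_cas h) (HW_L1 (commC_true h) hX))
      (HW_L1 (commC_true h) (HW_L1 (commC_cas h) hX)) (-1)
  intro k i j hijk
  have h1 := HW_inj h hY (fun i hi => by
    have := M_comm_cas h (fun a b => X a b 0) hi
    show M (cas s u) (M (entry s u true) (fun a b => X a b 0)) i (2 * s - i) +
      (-1) * M (entry s u true) (M (cas s u) (fun a b => X a b 0)) i (2 * s - i) = 0
    rw [this]; ring) k i j hijk
  linear_combination h1

end

end Pool.Agent.Work.MP_b30479_gtS.TB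

end

section

/-!
# From matrices to arrays
-/

namespace Pool.Agent.Work.MP_b30479_gtS.TB

open Finset

/-- action of one crossing on arrays -/
def op (s : ℕ) (u : ℂˣ) (g : Fin 2 × Bool) (X : Arr) : Arr :=
  if g.1 = 0 then L1 (entry s u g.2) X else L2 (entry s u g.2) X

/-- action of a word on arrays -/
def opL (s : ℕ) (u : ℂˣ) (w : List (Fin 2 × Bool)) (X : Arr) : Arr := w.foldr (op s u) X

lemma opL_nil (s : ℕ) (u : ℂˣ) (X : Arr) : opL s u [] X = X := rfl
lemma opL_cons (s : ℕ) (u : ℂˣ) (g : Fin 2 × Bool) (w : List (Fin 2 × Bool)) (X : Arr) :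
    opL s u (g :: w) X = op s u g (opL s u w X) := rfl
lemma opL_append (s : ℕ) (u : ℂˣ) (v w : List (Fin 2 × Bool)) (X : Arr) :
    opL s u (v ++ w) X = opL s u v (opL s u w X) := by
  unfold opL; rw [List.foldr_append]

/-- triples as functions -/
def e3 (N : ℕ) : (Fin N × Fin N × Fin N) ≃ (Fin 3 → Fin N) where
  toFun p := ![p.1, p.2.1, p.2.2]
  invFun f := (f 0, f 1, f 2)
  left_inv := by rintro ⟨a, b, c⟩; rfl
  right_inv := by
    intro f
    funext l
    fin_cases l <;> rfl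

lemma sum_fin3 {N : ℕ} (F : (Fin 3 → Fin N) → ℂ) :
    ∑ z, F z = ∑ a, ∑ b, ∑ c, F ![a, b, c] := by
  rw [← Equiv.sum_comp (e3 N), Fintype.sum_prod_type]
  apply Finset.sum_congr rfl
  intro a _
  rw [Fintype.sum_prod_type]
  rfl

lemma crossing_zero {s : ℕ} {u : ℂˣ} (pos : Bool) (y : Fin 3 → Fin (2 * s + 1))
    (a b c : Fin (2 * s + 1)) :
    crossing (r := 2) s u (0, pos) y ![a, b, c] =
      if y 2 = c then entry s u pos a b (y 0) (y 1) else 0 := by
  unfold crossing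
  have : (∀ l : Fin 3, l ≠ (0 : Fin 2).castSucc → l ≠ (0 : Fin 2).succ →
      y l = (![a, b, c] : Fin 3 → Fin (2 * s + 1)) l) ↔ y 2 = c := by
    constructor
    · intro hl
      exact hl 2 (by decide) (by decide)
    · intro hc l h1 h2
      fin_cases l
      · exact absurd rfl h1
      · exact absurd rfl h2
      · exact hc
  simp only [this]
  rfl

lemma crossing_one {s : ℕ} {u : ℂˣ} (pos : Bool) (y : Fin 3 → Fin (2 * s + 1))
    (a b c : Fin (2 * s + 1)) :
    crossing (r := 2) s u (1, pos) y ![a, b, c] =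
      if y 0 = a then entry s u pos b c (y 1) (y 2) else 0 := by
  unfold crossing
  have : (∀ l : Fin 3, l ≠ (1 : Fin 2).castSucc → l ≠ (1 : Fin 2).succ →
      y l = (![a, b, c] : Fin 3 → Fin (2 * s + 1)) l) ↔ y 0 = a := by
    constructor
    · intro hl
      exact hl 0 (by decide) (by decide)
    · intro hc l h1 h2
      fin_cases l
      · exact hc
      · exact absurd rfl h1
      · exact absurd rfl h2
  simp only [this]
  rfl

lemma entry_ne {s : ℕ} {u : ℂˣ} {pos : Bool} {i j a b : ℕ} (h : a + b ≠ i + j) :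
    entry s u pos i j a b = 0 := by
  unfold entry
  cases pos
  · simp only [Bool.false_eq_true, if_false]
    rw [if_neg (by tauto)]
  · simp only [if_true]
    rw [if_neg (by tauto)]

lemma sum_sq {N m : ℕ} (hm : m < N) (f : ℕ → ℕ → ℂ) (hf : ∀ a b, a + b ≠ m → f a b = 0) :
    ∑ a : Fin N, ∑ b : Fin N, f a b = ∑ p ∈ AD m, f p.1 p.2 := by
  have e1 : ∀ a : ℕ, ∑ b : Fin N, f a b = if a ≤ m then f a (m - a) else 0 := by
    intro a
    rw [Fin.sum_univ_eq_sum_range (fun b => f a b) N]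
    by_cases ha : a ≤ m
    · rw [if_pos ha, Finset.sum_eq_single (m - a)]
      · intro b _ hb
        exact hf a b (by omega)
      · intro hc
        rw [mem_range] at hc
        omega
    · rw [if_neg ha]
      apply Finset.sum_eq_zero
      intro b _
      exact hf a b (by omega)
  have e2 : ∑ a : Fin N, ∑ b : Fin N, f a b =
      ∑ a ∈ range N, (if a ≤ m then f a (m - a) else 0) := by
    rw [← Fin.sum_univ_eq_sum_range (fun a => if a ≤ m then f a (m - a) else 0) N]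
    apply Finset.sum_congr rfl
    intro a _
    exact e1 a
  rw [e2]
  unfold AD
  rw [Finset.Nat.sum_antidiagonal_eq_sum_range_succ_mk]
  symm
  apply Finset.sum_subset_zero_on_sdiff
  · intro x hx
    rw [mem_range] at hx ⊢
    omega
  · intro x hx
    rw [mem_sdiff, mem_range, mem_range] at hx
    rw [if_neg (by omega)]
  · intro x hx
    rw [mem_range] at hx
    rw [if_pos (by omega)]

/-- the vector of an array -/
def vec (s : ℕ) (X : Arr) : (Fin 3 → Fin (2 * s + 1)) → ℂ := fun y =>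
  if (y 0 : ℕ) + (y 1 : ℕ) + (y 2 : ℕ) = 2 * s then X (y 0) (y 1) (y 2) else 0

lemma crossing_vec {s : ℕ} {u : ℂˣ} (g : Fin 2 × Bool) (X : Arr)
    (y : Fin 3 → Fin (2 * s + 1)) :
    ∑ z, crossing (r := 2) s u g y z * vec s X z = vec s (op s u g X) y := by
  obtain ⟨g1, pos⟩ := g
  rw [sum_fin3]
  have hy0 := (y 0).isLt
  have hy1 := (y 1).isLt
  have hy2 := (y 2).isLt
  fin_cases g1
  · have e1 : ∀ a b : Fin (2 * s + 1), ∑ c : Fin (2 * s + 1),
        crossing (r := 2) s u (0, pos) y ![a, b, c] * vec s X ![a, b, c] =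
        entry s u pos a b (y 0) (y 1) * (if (a : ℕ) + b + y 2 = 2 * s then X a b (y 2) else 0) := by
      intro a b
      rw [Finset.sum_eq_single (y 2)]
      · rw [crossing_zero, if_pos rfl]
        rfl
      · intro c _ hc
        rw [crossing_zero, if_neg (fun hh => hc hh.symm), zero_mul]
      · intro hc
        exact absurd (Finset.mem_univ _) hc
    show ∑ a, ∑ b, ∑ c, crossing (r := 2) s u (0, pos) y ![a, b, c] * vec s X ![a, b, c] = _
    simp only [e1]
    unfold vec op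
    simp only [if_true]
    unfold L1 M
    by_cases hs : (y 0 : ℕ) + (y 1 : ℕ) + (y 2 : ℕ) = 2 * s
    · rw [if_pos hs]
      rw [sum_sq (m := (y 0 : ℕ) + (y 1 : ℕ)) (by omega)
        (fun a b => entry s u pos a b (y 0) (y 1) *
          (if a + b + y 2 = 2 * s then X a b (y 2) else 0))]
      · apply Finset.sum_congr rfl
        intro p hp
        rw [mem_AD] at hp
        rw [if_pos (by omega)]
      · intro a b hab
        rw [entry_ne (by omega), zero_mul]
    · rw [if_neg hs]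
      apply Finset.sum_eq_zero
      intro a _
      apply Finset.sum_eq_zero
      intro b _
      by_cases hab : (a : ℕ) + b = (y 0 : ℕ) + (y 1 : ℕ)
      · rw [if_neg (by omega), mul_zero]
      · rw [entry_ne (by omega), zero_mul]
  · have e1 : ∀ a : Fin (2 * s + 1), ∑ b : Fin (2 * s + 1), ∑ c : Fin (2 * s + 1),
        crossing (r := 2) s u (1, pos) y ![a, b, c] * vec s X ![a, b, c] =
        if y 0 = a then ∑ b : Fin (2 * s + 1), ∑ c : Fin (2 * s + 1),
        entry s u pos b c (y 1) (y 2) * (if (y 0 : ℕ) + b + c = 2 * s then X (y 0) b c else 0)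
        else 0 := by
      intro a
      by_cases ha : y 0 = a
      · rw [if_pos ha]
        apply Finset.sum_congr rfl
        intro b _
        apply Finset.sum_congr rfl
        intro c _
        rw [crossing_one, if_pos ha, ← ha]
        rfl
      · rw [if_neg ha]
        apply Finset.sum_eq_zero
        intro b _
        apply Finset.sum_eq_zero
        intro c _
        rw [crossing_one, if_neg ha, zero_mul]
    show ∑ a, ∑ b, ∑ c, crossing (r := 2) s u (1, pos) y ![a, b, c] * vec s X ![a, b, c] = _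
    simp only [e1]
    rw [Finset.sum_ite_eq, if_pos (Finset.mem_univ _)]
    unfold vec op
    simp only [one_ne_zero, if_false]
    unfold L2 M
    by_cases hs : (y 0 : ℕ) + (y 1 : ℕ) + (y 2 : ℕ) = 2 * s
    · rw [if_pos hs]
      rw [sum_sq (m := (y 1 : ℕ) + (y 2 : ℕ)) (by omega)
        (fun b c => entry s u pos b c (y 1) (y 2) *
          (if (y 0 : ℕ) + b + c = 2 * s then X (y 0) b c else 0))]
      · apply Finset.sum_congr rfl
        intro p hp
        rw [mem_AD] at hp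
        rw [if_pos (by omega)]
      · intro a b hab
        rw [entry_ne (by omega), zero_mul]
    · rw [if_neg hs]
      apply Finset.sum_eq_zero
      intro a _
      apply Finset.sum_eq_zero
      intro b _
      by_cases hab : (a : ℕ) + b = (y 1 : ℕ) + (y 2 : ℕ)
      · rw [if_neg (by omega), mul_zero]
      · rw [entry_ne (by omega), zero_mul]

lemma braid_vec {s : ℕ} {u : ℂˣ} (w : List (Fin 2 × Bool)) (X : Arr)
    (y : Fin 3 → Fin (2 * s + 1)) :
    ∑ z, braidMatrix (r := 2) s u w y z * vec s X z = vec s (opL s u w X) y := by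
  induction w generalizing y with
  | nil =>
    unfold braidMatrix
    simp only [List.map_nil, List.prod_nil, Matrix.one_apply, ite_mul, one_mul, zero_mul]
    rw [Finset.sum_ite_eq, if_pos (Finset.mem_univ _)]
    rfl
  | cons g w ih =>
    have e1 : braidMatrix (r := 2) s u (g :: w) = crossing s u g * braidMatrix s u w := by
      unfold braidMatrix; simp
    rw [e1, opL_cons, ← crossing_vec]
    simp only [Matrix.mul_apply, Finset.sum_mul]
    rw [Finset.sum_comm]
    apply Finset.sum_congr rfl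
    intro x _
    rw [← ih, Finset.mul_sum]
    apply Finset.sum_congr rfl
    intro z _
    ring

lemma cup_vec {s : ℕ} {u : ℂˣ} (F : (Fin 3 → Fin (2 * s + 1)) → ℂ) :
    ∑ z, F z * vec s (eta s u) z =
      ∑ j : Fin (2 * s + 1), ((u : ℂ) ^ (s * (j : ℕ))) * F ![0, j, Fin.rev j] := by
  rw [sum_fin3, Finset.sum_eq_single 0]
  · apply Finset.sum_congr rfl
    intro j _
    rw [Finset.sum_eq_single (Fin.rev j)]
    · unfold vec eta
      have hj := j.isLt
      have : ((![0, j, Fin.rev j] : Fin 3 → Fin (2 * s + 1)) 0 : ℕ) +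
        ((![0, j, Fin.rev j] : Fin 3 → Fin (2 * s + 1)) 1 : ℕ) +
        ((![0, j, Fin.rev j] : Fin 3 → Fin (2 * s + 1)) 2 : ℕ) = 2 * s := by
        show ((0 : Fin (2 * s + 1)) : ℕ) + (j : ℕ) + (Fin.rev j : ℕ) = 2 * s
        rw [Fin.val_rev, Fin.val_zero]
        omega
      rw [if_pos this]
      show F _ * (if ((0 : Fin (2 * s + 1)) : ℕ) = 0 then (u : ℂ) ^ (s * (j : ℕ)) else 0) = _
      rw [if_pos (by simp), mul_comm]
    · intro c _ hc
      unfold vec
      have hj := j.isLt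
      have hcl := c.isLt
      rw [if_neg, mul_zero]
      show ¬ (((0 : Fin (2 * s + 1)) : ℕ) + (j : ℕ) + (c : ℕ) = 2 * s)
      intro hh
      apply hc
      apply Fin.ext
      rw [Fin.val_rev]
      rw [Fin.val_zero] at hh
      omega
    · intro hc
      exact absurd (Finset.mem_univ _) hc
  · intro a _ ha
    apply Finset.sum_eq_zero
    intro b _
    apply Finset.sum_eq_zero
    intro c _
    unfold vec eta
    have : ((![a, b, c] : Fin 3 → Fin (2 * s + 1)) 0 : ℕ) ≠ 0 := by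
      show (a : ℕ) ≠ 0
      intro hh
      exact ha (Fin.ext hh)
    rw [if_neg this, ite_self, mul_zero]
  · intro hc
    exact absurd (Finset.mem_univ _) hc

lemma HH_eta_left {s : ℕ} {t : ℂ} (h : IsPrimitiveRoot t (2 * s + 1)) (X : Arr) :
    HH (2 * s) (eta s t) X = ∑ i : Fin (2 * s + 1),
      t ^ (-(2 * (s : ℤ) ^ 2)) * t ^ (s * (i : ℕ)) * X i (Fin.rev i : Fin (2 * s + 1)) 0 := by
  have h0 : t ≠ 0 := h.ne_zero (by omega)
  unfold HH
  have e1 : ∀ p ∈ AD (2 * s), ∑ q ∈ AD p.2, star (eta s t q.2 q.1 p.1) * X p.1 q.1 q.2 =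
      t⁻¹ ^ (s * p.2) * X p.1 p.2 0 := by
    intro p _
    rw [Finset.sum_eq_single (p.2, 0)]
    · unfold eta
      simp only [if_true]
      rw [star_pow, star_root h]
    · rintro ⟨a, b⟩ hq hne
      rw [mem_AD] at hq
      have hb : b ≠ 0 := by
        rintro rfl
        apply hne
        simp only [add_zero] at hq
        rw [hq]
      unfold eta
      rw [if_neg hb, star_zero, zero_mul]
    · intro hc
      exact absurd (mem_AD.mpr (by simp)) hc
  rw [Finset.sum_congr rfl e1]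
  unfold AD
  rw [Finset.Nat.sum_antidiagonal_eq_sum_range_succ_mk,
    ← Fin.sum_univ_eq_sum_range (fun i => t⁻¹ ^ (s * (2 * s - i)) * X i (2 * s - i) 0)]
  apply Finset.sum_congr rfl
  intro i _
  have hi := i.isLt
  rw [Fin.val_rev, show 2 * s + 1 - ((i : ℕ) + 1) = 2 * s - i by omega]
  congr 1
  rw [inv_pow, ← zpow_natCast, ← zpow_natCast, ← zpow_neg, ← zpow_add₀ h0]
  congr 1
  have : ((2 * s - (i : ℕ) : ℕ) : ℤ) = 2 * s - i := by omega
  push_cast
  rw [this]
  ring

lemma tangleValue_eq {s : ℕ} {u : ℂˣ} (h : IsPrimitiveRoot (u : ℂ) (2 * s + 1))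
    (w : List (Fin 2 × Bool)) :
    tangleValue s w u = HH (2 * s) (eta s u) (opL s u w (eta s u)) := by
  rw [HH_eta_left h]
  unfold tangleValue
  rw [Finset.mul_sum]
  apply Finset.sum_congr rfl
  intro i _
  have hi := i.isLt
  have e1 := braid_vec (u := u) w (eta s u) ![i, Fin.rev i, 0]
  rw [cup_vec (fun z => braidMatrix (r := 2) s u w ![i, Fin.rev i, 0] z)] at e1
  have e2 : vec s (opL s u w (eta s u)) ![i, Fin.rev i, 0] =
      opL s u w (eta s u) i (Fin.rev i : Fin (2 * s + 1)) 0 := by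
    unfold vec
    rw [if_pos]
    · rfl
    · show (i : ℕ) + (Fin.rev i : ℕ) + ((0 : Fin (2 * s + 1)) : ℕ) = 2 * s
      rw [Fin.val_rev, Fin.val_zero]
      omega
  rw [← e2, ← e1, Finset.mul_sum, Finset.mul_sum]
  apply Finset.sum_congr rfl
  intro j _
  rw [Units.val_zpow_eq_zpow_val, Units.val_pow_eq_pow_val, mul_add, pow_add]
  ring

end Pool.Agent.Work.MP_b30479_gtS.TB

end

section

/-!
# The matrix of the braiding in the orthogonal basis
-/

namespace Pool.Agent.Work.MP_b30479_gtS.TB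

open Finset

/-- falling product -/
noncomputable def pf (t : ℂ) (k j : ℕ) : ℂ := ∏ x ∈ range j, (1 - t ^ (k - x))

lemma pf_zero (t : ℂ) (k : ℕ) : pf t k 0 = 1 := by simp [pf]

lemma pf_succ (t : ℂ) (k j : ℕ) : pf t k (j + 1) = pf t k j * (1 - t ^ (k - j)) := by
  unfold pf; rw [prod_range_succ]

lemma pf_succ' (t : ℂ) (k j : ℕ) : pf t (k + 1) (j + 1) = pf t k j * (1 - t ^ (k + 1)) := by
  unfold pf
  rw [prod_range_succ']
  congr 1
  apply prod_congr rfl
  intro x _
  rw [show k + 1 - (x + 1) = k - x by omega]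

lemma pf_lt (t : ℂ) {k j : ℕ} (hkj : k < j) : pf t k j = 0 := by
  unfold pf
  apply prod_eq_zero (mem_range.mpr hkj)
  simp

lemma pf_mul (t : ℂ) {k j : ℕ} (hjk : j ≤ k) : pf t k j * qf t (k - j) = qf t k := by
  induction j generalizing k with
  | zero => simp [pf_zero]
  | succ j ih =>
    obtain ⟨k, rfl⟩ : ∃ k', k = k' + 1 := ⟨k - 1, by omega⟩
    rw [pf_succ', Nat.add_sub_add_right, qf_succ, ← ih (k := k) (by omega)]
    ring

section
variable {s : ℕ} {u : ℂˣ} (h : IsPrimitiveRoot (u : ℂ) (2 * s + 1))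
include h

omit h in
lemma L1_eta (a b c : ℕ) (_hab : a + b ≤ 2 * s) :
    L1 (entry s u true) (eta s u) a b c = if b = 0 then (u : ℂ) ^ (s * s) else 0 := by
  have h0 : (u : ℂ) ≠ 0 := u.ne_zero
  unfold L1 M eta
  rw [Finset.sum_eq_single (0, a + b)]
  · simp only [if_true]
    by_cases hb : b = 0
    · subst hb
      rw [if_pos rfl, Nat.add_zero]
      have e1 := entry_true s u 0 a 0 0 rfl
      rw [Nat.add_zero] at e1
      rw [e1, coeffPos_zero, ← zpow_natCast, ← zpow_natCast, ← zpow_add₀ h0]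
      congr 1
      push_cast
      ring
    · rw [if_neg hb, entry_true_zero _ _ _ _ _ _ (by omega), zero_mul]
  · rintro ⟨i, j⟩ hp hne
    rw [mem_AD] at hp
    simp only at hp ⊢
    rw [if_neg, mul_zero]
    rintro rfl
    apply hne
    simp only [Prod.mk.injEq, true_and]
    omega
  · intro hc
    exact absurd (mem_AD.mpr (by simp)) hc

lemma slope_one : ∀ k i j : ℕ, i + j + k = 2 * s →
    L2 (cas s u) (L1 (entry s u true) (eta s u)) i j k =
      -(u : ℂ) * L1 (cas s u) (L1 (entry s u true) (eta s u)) i j k +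
      4 * (u : ℂ) ^ (s + 1) * L1 (entry s u true) (eta s u) i j k := by
  have h0 : (u : ℂ) ≠ 0 := u.ne_zero
  have hV := sq_mul h
  set X := L1 (entry s u true) (eta s u) with hXdef
  have hX : HW s u X := HW_L1 (commC_true h) (HW_eta h)
  have hY : HW s u (fun i j k => (fun i j k => L2 (cas s u) X i j k +
      (u : ℂ) * L1 (cas s u) X i j k) i j k + (-(4 * (u : ℂ) ^ (s + 1))) * X i j k) :=
    HW_lin (HW_lin (HW_L2 h0 (commC_cas h) hX) (HW_L1 (commC_cas h) hX) _) hX _
  have key := HW_inj h hY (fun i hi => by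
    show L2 (cas s u) X i (2 * s - i) 0 + (u : ℂ) * L1 (cas s u) X i (2 * s - i) 0 +
      (-(4 * (u : ℂ) ^ (s + 1))) * X i (2 * s - i) 0 = 0
    rw [L2_cas_coord h hX hi]
    have e1 : L1 (cas s u) X i (2 * s - i) 0 = M (cas s u) (fun a b => X a b 0) i (2 * s - i) := rfl
    rw [e1, M_cas]
    have x1 : X i (2 * s - i) 0 = if 2 * s - i = 0 then (u : ℂ) ^ (s * s) else 0 :=
      L1_eta _ _ _ (by omega)
    have x2 : i < 2 * s → X (i + 1) (2 * s - (i + 1)) 0 =
        if 2 * s - (i + 1) = 0 then (u : ℂ) ^ (s * s) else 0 := fun hlt =>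
      L1_eta _ _ _ (by omega)
    have x3 : 1 ≤ i → X (i - 1) (2 * s - i + 1) 0 = 0 := fun hlt => by
      rw [hXdef, L1_eta _ _ _ (by omega), if_neg (by omega)]
    have x4 : (if 1 ≤ i then (1 - (u : ℂ) ^ i) * (1 - (u : ℂ)⁻¹ ^ (2 * s - i + 1)) *
        X (i - 1) (2 * s - i + 1) 0 else 0) = 0 := by
      by_cases hi1 : 1 ≤ i
      · rw [x3 hi1, mul_zero, ite_self]
      · rw [if_neg hi1]
    rw [x4]
    rcases Nat.lt_or_ge i (2 * s) with hlt | hge
    · rw [if_pos hlt, if_pos (by omega), show 2 * s - i - 1 = 2 * s - (i + 1) by omega, x2 hlt, x1,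
        if_neg (by omega)]
      by_cases hi2 : 2 * s - (i + 1) = 0
      · rw [if_pos hi2, ← inv_pow_eq h (show i + 1 + (2 * s - i) = 2 * s + 1 by omega),
          inv_pow_eq h (show 2 * s - i + (i + 1) = 2 * s + 1 by omega)]
        have hx : (u : ℂ) ^ (i + 1) = (u : ℂ)⁻¹ := by
          apply eq_inv_of_mul_eq_one_left
          rw [← pow_succ, show i + 1 + 1 = 2 * s + 1 by omega, h.pow_eq_one]
        rw [inv_pow, hx]
        field_simp
        ring
      · rw [if_neg hi2]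
        ring
    · have hi2 : i = 2 * s := by omega
      subst hi2
      rw [if_neg (by omega), if_neg (by omega), x1, if_pos (by omega)]
      unfold dg cc
      rw [show 2 * s - 2 * s = 0 by omega, pow_zero,
        inv_pow_eq h (show 2 * s + 1 = 2 * s + 1 from rfl)]
      have hx : (u : ℂ) ^ (2 * s) = (u : ℂ)⁻¹ := by
        apply eq_inv_of_mul_eq_one_left
        rw [← pow_succ, h.pow_eq_one]
      rw [hx, pow_succ (u : ℂ) s, pow_one]
      generalize (u : ℂ) ^ (s * s) = y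
      generalize (u : ℂ) ^ s = V at *
      generalize (u : ℂ) = t at *
      field_simp
      ring)
  intro k i j hijk
  have := key k i j hijk
  simp only at this
  linear_combination this

/-- matrix of the braiding in the orthogonal basis -/
noncomputable def al (s : ℕ) (u : ℂˣ) (k j : ℕ) : ℂ := xi s u k (L1 (entry s u true) (uu s u j))

lemma al_zero_zero : al s u 0 0 = (u : ℂ) ^ (s * s) := by
  have h0 : (u : ℂ) ≠ 0 := u.ne_zero
  unfold al xi
  show HH (2 * s) (eta s u) (L1 (entry s u true) (eta s u)) = _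
  rw [HH_eta_left h, Finset.sum_eq_single (Fin.last (2 * s))]
  · rw [L1_eta _ _ _ (by simp), if_pos (by simp), Fin.val_last, ← zpow_natCast, ← zpow_natCast,
      ← zpow_add₀ h0, ← zpow_add₀ h0]
    congr 1
    push_cast
    ring
  · intro i _ hi
    have h1 : (i : ℕ) < 2 * s := by
      rcases Nat.lt_or_ge (i : ℕ) (2 * s) with h2 | h2
      · exact h2
      · exfalso
        apply hi
        apply Fin.ext
        simp
        omega
    rw [L1_eta _ _ _ (by rw [Fin.val_rev]; omega), if_neg (by rw [Fin.val_rev]; omega), mul_zero]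
  · intro hc
    exact absurd (Finset.mem_univ _) hc

lemma al_rec_zero {k : ℕ} (hk : k ≤ 2 * s) : al s u (k + 1) 0 =
    (4 * (u : ℂ) ^ (s + 1) - (1 + (u : ℂ)) * cc s u k) * al s u k 0 -
      (u : ℂ) * ((1 - (u : ℂ) ^ k) * (1 - (u : ℂ)⁻¹ ^ k)) ^ 2 * al s u (k - 1) 0 := by
  set X := L1 (entry s u true) (uu s u 0) with hX
  have e1 := xi_L2_cas h k X
  have e2 : xi s u k (L2 (cas s u) X) = -(u : ℂ) * xi s u k (L1 (cas s u) X) +
      4 * (u : ℂ) ^ (s + 1) * xi s u k X := by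
    unfold xi
    rw [← HH_smul_right, ← HH_smul_right, ← HH_add_right]
    apply HH_congr (fun _ _ _ _ => rfl)
    intro i j l hs
    exact slope_one h l i j hs
  rw [xi_L1_cas h hk] at e2
  show xi s u (k + 1) X = _ * xi s u k X - _ * xi s u (k - 1) X
  linear_combination e2 - e1

lemma al_succ_zero {k : ℕ} (hk : k ≤ 2 * s) : al s u (k + 1) 0 =
    -((u : ℂ) ^ s * (u : ℂ)⁻¹ ^ k * (1 - (u : ℂ) ^ (k + 1)) ^ 2) * al s u k 0 := by
  have h0 : (u : ℂ) ≠ 0 := u.ne_zero
  have hV := sq_mul h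
  induction k with
  | zero =>
    rw [al_rec_zero h (by omega)]
    unfold cc
    simp only [pow_zero, pow_succ, one_mul]
    ring
  | succ k ih =>
    have ih := ih (by omega)
    rw [al_rec_zero h hk, Nat.add_sub_cancel, ih]
    unfold cc
    have n1 : (u : ℂ) ^ k ≠ 0 := pow_ne_zero _ h0
    simp only [inv_pow, pow_succ (u : ℂ)]
    generalize (u : ℂ) ^ k = x at *
    generalize al s u k 0 = y at *
    generalize (u : ℂ) ^ s = V at *
    generalize (u : ℂ) = t at *
    obtain ⟨ht, hV0⟩ := eq_inv_sq hV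
    subst ht
    field_simp
    ring

lemma al_succ {k j : ℕ} (hk : k ≤ 2 * s) : al s u k (j + 1) =
    (cc s u k - cc s u j) * al s u k j +
      ((1 - (u : ℂ) ^ k) * (1 - (u : ℂ)⁻¹ ^ k)) ^ 2 * al s u (k - 1) j := by
  set Y := L1 (entry s u true) (uu s u j) with hY
  have e1 : al s u k (j + 1) = xi s u k (L1 (cas s u) Y) + (-cc s u j) * xi s u k Y := by
    unfold al xi
    rw [← HH_smul_right, ← HH_add_right]
    apply HH_congr (fun _ _ _ _ => rfl)
    intro a b c hs
    rw [hY, cas_comm h (HW_uu h j) c a b hs]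
    -- linearity
    show M (entry s u true) (fun i l => L1 (cas s u) (uu s u j) i l c +
      (-cc s u j) * uu s u j i l c) a b = M (entry s u true) (fun i l => L1 (cas s u) (uu s u j) i l c) a b
      + (-cc s u j) * M (entry s u true) (fun i l => uu s u j i l c) a b
    unfold M
    rw [Finset.mul_sum, ← Finset.sum_add_distrib]
    apply Finset.sum_congr rfl
    intro p _
    ring
  rw [e1, xi_L1_cas h hk]
  show _ = _ * xi s u k Y + _ * xi s u (k - 1) Y
  ring

/-- closed form -/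
lemma al_closed {k : ℕ} (hk : k ≤ 2 * s) (j : ℕ) : al s u k j =
    ((u : ℂ) ^ s) ^ j * qf u j * pf u k j * al s u k 0 := by
  have h0 : (u : ℂ) ≠ 0 := u.ne_zero
  have hV := sq_mul h
  induction j generalizing k with
  | zero => simp [pf_zero]
  | succ j ih =>
    rw [al_succ h hk, ih hk]
    rcases Nat.eq_zero_or_pos k with rfl | hk0
    · rcases Nat.eq_zero_or_pos j with rfl | hj
      · rw [pf_zero, pf_succ, pf_zero]
        simp
      · rw [pf_lt _ hj, pf_lt _ (show 0 < j + 1 by omega)]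
        simp
    · obtain ⟨k, rfl⟩ : ∃ k', k = k' + 1 := ⟨k - 1, by omega⟩
      rw [Nat.add_sub_cancel, ih (show k ≤ 2 * s by omega), al_succ_zero h (show k ≤ 2 * s by omega),
        qf_succ]
      by_cases hjk : j ≤ k + 1
      · have e1 : pf (u : ℂ) k j * (1 - (u : ℂ) ^ (k + 1)) =
            pf (u : ℂ) (k + 1) j * (1 - (u : ℂ) ^ (k + 1 - j)) := by
          rw [← pf_succ', pf_succ]
        have e2 : pf (u : ℂ) (k + 1) (j + 1) = pf (u : ℂ) (k + 1) j *
            (1 - (u : ℂ) ^ (k + 1 - j)) := pf_succ _ _ _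
        rw [e2]
        have e3 : ((1 - (u : ℂ) ^ (k + 1)) * (1 - (u : ℂ)⁻¹ ^ (k + 1))) ^ 2 *
            (((u : ℂ) ^ s) ^ j * qf (u : ℂ) j * pf (u : ℂ) k j * al s u k 0) =
            (1 - (u : ℂ) ^ (k + 1)) * (1 - (u : ℂ)⁻¹ ^ (k + 1)) ^ 2 *
            (((u : ℂ) ^ s) ^ j * qf (u : ℂ) j * (pf (u : ℂ) (k + 1) j *
              (1 - (u : ℂ) ^ (k + 1 - j))) * al s u k 0) := by
          rw [← e1]; ring
        rw [e3]
        obtain ⟨m, hm⟩ : ∃ m, k + 1 = j + m := ⟨k + 1 - j, by omega⟩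
        have e4 : (u : ℂ) ^ (k + 1) = (u : ℂ) ^ j * (u : ℂ) ^ m := by rw [hm, pow_add]
        rw [hm, Nat.add_sub_cancel_left]
        unfold cc
        rw [show j + m = k + 1 from hm.symm]
        generalize pf (u : ℂ) (k + 1) j = P
        have e5 : (u : ℂ)⁻¹ ^ k = (u : ℂ) * ((u : ℂ) ^ (k + 1))⁻¹ := by
          have : (u : ℂ) ^ k ≠ 0 := pow_ne_zero _ h0
          rw [pow_succ, inv_pow]
          field_simp
        rw [e5, inv_pow, e4, inv_pow, pow_succ (u : ℂ) j, pow_succ (u : ℂ) s,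
          pow_succ ((u : ℂ) ^ s) j]
        have nj : (u : ℂ) ^ j ≠ 0 := pow_ne_zero _ h0
        have nm : (u : ℂ) ^ m ≠ 0 := pow_ne_zero _ h0
        clear e1 e2 e3 e4 e5 ih
        generalize al s u k 0 = y at *
        generalize qf (u : ℂ) j = q at *
        generalize (u : ℂ) ^ j = J at *
        generalize (u : ℂ) ^ m = K at *
        generalize ((u : ℂ) ^ s) ^ j = U at *
        generalize (u : ℂ) ^ s = V at *
        generalize (u : ℂ) = t at *
        obtain ⟨ht, hV0⟩ := eq_inv_sq hV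
        subst ht
        field_simp
        ring
      · rw [pf_lt _ (show k + 1 < j by omega), pf_lt _ (show k < j by omega),
          pf_lt _ (show k + 1 < j + 1 by omega)]
        ring

lemma norm_al_zero {k : ℕ} (hk : k ≤ 2 * s) : ‖al s u k 0‖ = ‖qf (u : ℂ) k‖ ^ 2 := by
  have h1 : ‖(u : ℂ)‖ = 1 := h.norm'_eq_one (by omega)
  induction k with
  | zero =>
    rw [al_zero_zero h]
    simp [h1]
  | succ k ih =>
    rw [al_succ_zero h (by omega), norm_mul, ih (by omega), norm_neg, norm_mul, norm_mul, norm_pow,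
      norm_pow, norm_inv, h1, qf_succ, norm_mul, norm_pow]
    ring

end

end Pool.Agent.Work.MP_b30479_gtS.TB

end

section

namespace Pool.Agent.Work.MP_b30479_gtS.TB

open Finset

section
variable {s : ℕ} {u : ℂˣ} (h : IsPrimitiveRoot (u : ℂ) (2 * s + 1))
include h

lemma commC_false : CommC s (u : ℂ) (entry s u false) := by
  intro i j a b hij hS
  have hinv : IsPrimitiveRoot (u : ℂ)⁻¹ (2 * s + 1) := h.inv
  have h0 : (u : ℂ) ≠ 0 := u.ne_zero
  have e2s : (u : ℂ) ^ (2 * (s : ℤ) + 1) = 1 := by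
    have := h.pow_eq_one
    rw [← zpow_natCast] at this
    push_cast at this
    exact this
  rcases lt_trichotomy (b + 1) i with hlt | heq | hgt
  · rw [entry_false_zero _ _ _ _ _ _ hlt, entry_false_zero _ _ _ _ _ _ (by omega),
      entry_false_zero _ _ _ _ _ _ (by omega), entry_false_zero _ _ _ _ _ _ (by omega)]
    ring
  · subst heq
    have hb : a = j := by omega
    subst hb
    have e1 := entry_false s u (b + 1) a 0 a (by omega)
    have e2 := entry_false s u b a 0 a (by omega)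
    rw [Nat.add_zero] at e1 e2
    rw [e1, entry_false_zero s u (b + 1) a (a + 1) b (by omega),
      entry_false_zero s u (b + 1) (a - 1) a b (by omega)]
    rw [Nat.add_sub_cancel, e2, coeffNeg_zero, coeffNeg_zero]
    have e3 : (u : ℂ) ^ ((s : ℤ) - a) * (u : ℂ) ^ (-(((s : ℤ) - b) * ((s : ℤ) - a))) =
        (u : ℂ) ^ (-(((s : ℤ) - ((b + 1 : ℕ) : ℤ)) * ((s : ℤ) - a))) := by
      rw [← zpow_add₀ h0]
      congr 1
      push_cast
      ring
    linear_combination -(1 - (u : ℂ)⁻¹ ^ (b + 1)) * e3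
  · obtain ⟨k, rfl⟩ : ∃ k, b = i + k := ⟨b - i, by omega⟩
    have hi : j = a + k + 1 := by omega
    subst hi
    have p1 := entry_false s u i (a + k + 1) k (a + 1) (by omega)
    have p2 := entry_false s u i (a + k + 1) (k + 1) a (by omega)
    rw [← Nat.add_assoc] at p2
    have p4 := entry_false s u i (a + k) k a (by omega)
    rw [p1, p2, Nat.add_sub_cancel, p4]
    -- closed forms
    have c1 := coeffNeg_closed h (i := i) (j := a + k + 1) (k := k) (by omega) (by omega)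
      (by omega)
    have c2 := coeffNeg_closed h (i := i) (j := a + k + 1) (k := k + 1) (by omega) (by omega)
      (by omega)
    have c4 := coeffNeg_closed h (i := i) (j := a + k) (k := k) (by omega) (by omega)
      (by omega)
    rw [show a + k + 1 - k = a + 1 by omega] at c1
    rw [show a + k + 1 - (k + 1) = a by omega, show i + (k + 1) = i + k + 1 by ring] at c2
    rw [show a + k - k = a by omega] at c4
    have nb : qf (u : ℂ)⁻¹ a ≠ 0 := qf_ne_zero hinv (by omega)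
    have nb1 : 1 - (u : ℂ)⁻¹ ^ (a + 1) ≠ 0 := one_sub_pow_ne hinv (by omega) (by omega)
    have nk : qf (u : ℂ) k ≠ 0 := qf_ne_zero h (by omega)
    have nk1 : 1 - (u : ℂ) ^ (k + 1) ≠ 0 := one_sub_pow_ne h (by omega) (by omega)
    have nj : qf (u : ℂ) i ≠ 0 := qf_ne_zero h (by omega)
    set E : ℂ := (u : ℂ) ^ (-(s : ℤ) * k - ((s : ℤ) - i) * ((s : ℤ) - (a + k + 1 : ℕ)) - s)
      with hE
    set D : ℂ := (qf (u : ℂ)⁻¹ (a + k) * qf (u : ℂ) (i + k) /
      (qf (u : ℂ)⁻¹ a * (qf (u : ℂ) k * (1 - (u : ℂ) ^ (k + 1))) * qf (u : ℂ) i)) with hD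
    have hP1 : (1 - (u : ℂ)⁻¹ ^ (a + 1)) * ((u : ℂ) ^ ((s : ℤ) - ((i + k : ℕ) : ℤ)) *
        coeffNeg s u i (a + k + 1) k) =
        E * ((u : ℂ)⁻¹ ^ i * (u : ℂ)⁻¹ ^ (k + 1)) * (1 - (u : ℂ)⁻¹ ^ (a + k + 1)) *
          (1 - (u : ℂ) ^ (k + 1)) * D := by
      rw [c1, qf_succ _ (a + k), qf_succ _ a]
      have e1 : (u : ℂ) ^ ((s : ℤ) - ((i + k : ℕ) : ℤ)) * (u : ℂ) ^ (-(s : ℤ) * (k : ℤ) -
          ((s : ℤ) - i) * ((s : ℤ) - ((a + k + 1 : ℕ) : ℤ))) =
          E * ((u : ℂ)⁻¹ ^ i * (u : ℂ)⁻¹ ^ (k + 1)) := by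
        rw [hE, ← pow_add, inv_pow, ← zpow_natCast, ← zpow_neg, ← zpow_add₀ h0, ← zpow_add₀ h0]
        rw [← mul_one ((u : ℂ) ^ (-(s : ℤ) * k - ((s : ℤ) - i) * ((s : ℤ) -
          (a + k + 1 : ℕ)) - s + -((i + (k + 1) : ℕ) : ℤ))), ← e2s, ← zpow_add₀ h0]
        congr 1
        push_cast
        ring
      have e2 : (1 - (u : ℂ)⁻¹ ^ (a + 1)) * (qf (u : ℂ)⁻¹ (a + k) *
          (1 - (u : ℂ)⁻¹ ^ (a + k + 1)) * qf (u : ℂ) (i + k) / (qf (u : ℂ)⁻¹ a *
          (1 - (u : ℂ)⁻¹ ^ (a + 1)) * qf (u : ℂ) k * qf (u : ℂ) i)) =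
          (1 - (u : ℂ)⁻¹ ^ (a + k + 1)) * (1 - (u : ℂ) ^ (k + 1)) * D := by
        rw [hD]
        generalize qf (u : ℂ)⁻¹ a = B at *
        generalize qf (u : ℂ)⁻¹ (a + k) = B' at *
        generalize (u : ℂ)⁻¹ ^ (a + 1) = B2 at *
        generalize (u : ℂ)⁻¹ ^ (a + k + 1) = B3 at *
        field_simp
      linear_combination (1 - (u : ℂ)⁻¹ ^ (a + 1)) * (qf (u : ℂ)⁻¹ (a + k) *
          (1 - (u : ℂ)⁻¹ ^ (a + k + 1)) * qf (u : ℂ) (i + k) / (qf (u : ℂ)⁻¹ a *
          (1 - (u : ℂ)⁻¹ ^ (a + 1)) * qf (u : ℂ) k * qf (u : ℂ) i)) * e1 +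
          E * ((u : ℂ)⁻¹ ^ i * (u : ℂ)⁻¹ ^ (k + 1)) * e2
    have hP2 : coeffNeg s u i (a + k + 1) (k + 1) =
        E * (1 - (u : ℂ)⁻¹ ^ (a + k + 1)) * (1 - (u : ℂ) ^ (i + k + 1)) * D := by
      rw [c2, qf_succ _ (a + k), qf_succ _ (i + k), qf_succ _ k, hD]
      have e1 : (u : ℂ) ^ (-(s : ℤ) * ((k + 1 : ℕ) : ℤ) -
          ((s : ℤ) - i) * ((s : ℤ) - ((a + k + 1 : ℕ) : ℤ))) = E := by
        rw [hE]
        congr 1
        push_cast
        ring
      rw [e1]
      ring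
    have hP3 : (1 - (u : ℂ)⁻¹ ^ i) * ((u : ℂ) ^ ((s : ℤ) - ((a + k + 1 : ℕ) : ℤ)) *
        entry s u false (i - 1) (a + k + 1) a (i + k)) =
        (1 - (u : ℂ)⁻¹ ^ i) * (E * (1 - (u : ℂ)⁻¹ ^ (a + k + 1)) * (1 - (u : ℂ) ^ i) * D) := by
      cases i with
      | zero => simp
      | succ i =>
        have p3 := entry_false s u i (a + k + 1) (k + 1) a (by omega)
        rw [show i + (k + 1) = i + 1 + k by ring] at p3
        have c3 := coeffNeg_closed h (i := i) (j := a + k + 1) (k := k + 1) (by omega) (by omega)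
          (by omega)
        rw [show a + k + 1 - (k + 1) = a by omega, show i + (k + 1) = i + 1 + k by ring] at c3
        rw [Nat.add_sub_cancel, p3, c3]
        have e1 : (u : ℂ) ^ ((s : ℤ) - ((a + k + 1 : ℕ) : ℤ)) *
            (u : ℂ) ^ (-(s : ℤ) * ((k + 1 : ℕ) : ℤ) -
            ((s : ℤ) - i) * ((s : ℤ) - ((a + k + 1 : ℕ) : ℤ))) = E := by
          rw [hE, ← zpow_add₀ h0]
          congr 1
          push_cast
          ring
        have nj' : qf (u : ℂ) i ≠ 0 := qf_ne_zero h (by omega)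
        have nj1 : 1 - (u : ℂ) ^ (i + 1) ≠ 0 := one_sub_pow_ne h (by omega) (by omega)
        have e2 : qf (u : ℂ)⁻¹ (a + k + 1) * qf (u : ℂ) (i + 1 + k) /
            (qf (u : ℂ)⁻¹ a * qf (u : ℂ) (k + 1) * qf (u : ℂ) i) =
            (1 - (u : ℂ)⁻¹ ^ (a + k + 1)) * (1 - (u : ℂ) ^ (i + 1)) * D := by
          rw [hD, qf_succ _ (a + k), qf_succ _ k, qf_succ _ i]
          generalize qf (u : ℂ)⁻¹ a = B at *
          generalize qf (u : ℂ)⁻¹ (a + k) = B' at *
          generalize (u : ℂ)⁻¹ ^ (a + k + 1) = B3 at *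
          field_simp
        rw [e2]
        linear_combination (1 - (u : ℂ)⁻¹ ^ (i + 1)) * ((1 - (u : ℂ)⁻¹ ^ (a + k + 1)) *
          (1 - (u : ℂ) ^ (i + 1)) * D) * e1
    have hP4 : coeffNeg s u i (a + k) k = E * (u : ℂ) ^ i * (1 - (u : ℂ) ^ (k + 1)) * D := by
      rw [c4, hD]
      have e1 : (u : ℂ) ^ (-(s : ℤ) * (k : ℤ) -
          ((s : ℤ) - i) * ((s : ℤ) - ((a + k : ℕ) : ℤ))) = E * (u : ℂ) ^ i := by
        rw [hE, ← zpow_natCast, ← zpow_add₀ h0]
        congr 1
        push_cast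
        ring
      have e3 : qf (u : ℂ)⁻¹ (a + k) * qf (u : ℂ) (i + k) /
          (qf (u : ℂ)⁻¹ a * qf (u : ℂ) k * qf (u : ℂ) i) = (1 - (u : ℂ) ^ (k + 1)) *
          (qf (u : ℂ)⁻¹ (a + k) * qf (u : ℂ) (i + k) /
      (qf (u : ℂ)⁻¹ a * (qf (u : ℂ) k * (1 - (u : ℂ) ^ (k + 1))) * qf (u : ℂ) i)) := by
        generalize qf (u : ℂ)⁻¹ a = B at *
        generalize qf (u : ℂ)⁻¹ (a + k) = B' at *
        field_simp
      rw [e3, e1]
      ring
    have hX : (u : ℂ) ^ i ≠ 0 := pow_ne_zero _ h0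
    have hY : (u : ℂ) ^ (k + 1) ≠ 0 := pow_ne_zero _ h0
    have key := alg_neg ((u : ℂ) ^ i) ((u : ℂ) ^ (k + 1)) hX hY
    simp only [← inv_pow] at key
    have q1 : (u : ℂ)⁻¹ ^ (i + k + 1) = (u : ℂ)⁻¹ ^ i * (u : ℂ)⁻¹ ^ (k + 1) := by
      rw [← pow_add, Nat.add_assoc]
    have q2 : (u : ℂ) ^ (i + k + 1) = (u : ℂ) ^ i * (u : ℂ) ^ (k + 1) := by
      rw [← pow_add, Nat.add_assoc]
    rw [q2] at hP2
    rw [q1]
    linear_combination hP1 + (1 - (u : ℂ)⁻¹ ^ i * (u : ℂ)⁻¹ ^ (k + 1)) * hP2 - hP3 -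
      (1 - (u : ℂ)⁻¹ ^ (a + k + 1)) * hP4 +
      (E * (1 - (u : ℂ)⁻¹ ^ (a + k + 1)) * D) * key

lemma isDag_entry (S : ℕ) (hS : S ≤ 2 * s) : IsDag S (entry s u true) (entry s u false) := by
  intro i j a b hij hab
  have hinv : IsPrimitiveRoot (u : ℂ)⁻¹ (2 * s + 1) := h.inv
  have h0 : (u : ℂ) ≠ 0 := u.ne_zero
  have e2s : (u : ℂ) ^ (2 * (s : ℤ) + 1) = 1 := by
    have := h.pow_eq_one
    rw [← zpow_natCast] at this
    push_cast at this
    exact this
  rcases lt_or_ge a j with hlt | hge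
  · rw [entry_true_zero _ _ _ _ _ _ hlt, entry_false_zero _ _ _ _ _ _ (by omega), star_zero]
  · obtain ⟨k, rfl⟩ : ∃ k, a = j + k := ⟨a - j, by omega⟩
    have hi : i = b + k := by omega
    subst hi
    rw [entry_true s u (b + k) j k b rfl, entry_false s u b (j + k) k j rfl]
    rw [coeffPos_closed h (by omega) (by omega) (by omega),
      coeffNeg_closed h (by omega) (by omega) (by omega),
      show b + k - k = b by omega, show j + k - k = j by omega]
    rw [star_mul', star_mul', star_div₀, star_mul', star_mul', star_mul', star_pow, star_neg,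
      star_one, star_zpow₀, star_root h]
    have r1 : ∀ m, star (qf (u : ℂ) m) = qf (u : ℂ)⁻¹ m := fun m => star_qf h m
    have r2 : ∀ m, star (qf (u : ℂ)⁻¹ m) = qf (u : ℂ) m := fun m => by
      rw [star_qf hinv, inv_inv]
    rw [r1, r1, r1, r2, r2]
    have hq := qf_inv h k
    have nk : qf (u : ℂ)⁻¹ k ≠ 0 := qf_ne_zero hinv (by omega)
    have nk' : qf (u : ℂ) k ≠ 0 := qf_ne_zero h (by omega)
    have nj : qf (u : ℂ)⁻¹ j ≠ 0 := qf_ne_zero hinv (by omega)
    have nb : qf (u : ℂ) b ≠ 0 := qf_ne_zero h (by omega)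
    have e1 : (u : ℂ)⁻¹ ^ ((k.choose 2 : ℤ) - s * k + ((s : ℤ) - ((b + k : ℕ) : ℤ) + k) *
        ((s : ℤ) - j - k)) * (u : ℂ) ^ ((k + 1).choose 2) =
        (u : ℂ) ^ (-(s : ℤ) * k - ((s : ℤ) - b) * ((s : ℤ) - ((j + k : ℕ) : ℤ))) := by
      rw [inv_zpow, ← zpow_neg, ← zpow_natCast, ← zpow_add₀ h0]
      have e3 : ((u : ℂ) ^ (2 * (s : ℤ) + 1)) ^ (k : ℤ) = 1 := by rw [e2s, one_zpow]
      rw [← mul_one ((u : ℂ) ^ (-(s : ℤ) * k - ((s : ℤ) - b) * ((s : ℤ) -
        ((j + k : ℕ) : ℤ)))), ← e3, ← zpow_mul, ← zpow_add₀ h0]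
      congr 1
      rw [Nat.choose_succ_succ' k 1, Nat.choose_one_right]
      push_cast
      ring
    rw [← e1]
    generalize (u : ℂ)⁻¹ ^ ((k.choose 2 : ℤ) - s * k + ((s : ℤ) - ((b + k : ℕ) : ℤ) + k) *
        ((s : ℤ) - j - k)) = W
    have e4 : ((-1 : ℂ)) ^ k / qf (u : ℂ)⁻¹ k = (u : ℂ) ^ ((k + 1).choose 2) / qf (u : ℂ) k := by
      rw [div_eq_div_iff nk nk', ← hq]
      ring
    calc W * (-1) ^ k * (qf (↑u) (b + k) * qf (↑u)⁻¹ (j + k) /
          (qf (↑u) b * qf (↑u)⁻¹ k * qf (↑u)⁻¹ j))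
        = W * ((-1) ^ k / qf (↑u)⁻¹ k) * (qf (↑u) (b + k) * qf (↑u)⁻¹ (j + k) /
          (qf (↑u) b * qf (↑u)⁻¹ j)) := by
          generalize qf (u : ℂ)⁻¹ k = A1 at *
          generalize qf (u : ℂ)⁻¹ j = A2 at *
          generalize qf (u : ℂ)⁻¹ (j + k) = A3 at *
          field_simp
      _ = _ := by
          rw [e4]
          generalize qf (u : ℂ)⁻¹ k = A1 at *
          generalize qf (u : ℂ)⁻¹ j = A2 at *
          generalize qf (u : ℂ)⁻¹ (j + k) = A3 at *
          field_simp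

end

end Pool.Agent.Work.MP_b30479_gtS.TB

end

section

/-!
# Positivity for palindromic two-bridge links
-/

namespace Pool.Agent.Work.MP_b30479_gtS.TB

open Finset

section
variable {s : ℕ} {u : ℂˣ} (h : IsPrimitiveRoot (u : ℂ) (2 * s + 1))
include h

lemma HH_op (g : Fin 2 × Bool) (X Y : Arr) :
    HH (2 * s) (op s u g X) Y = HH (2 * s) X (op s u (Fin.rev g.1, !g.2) Y) := by
  obtain ⟨g1, pos⟩ := g
  have hd := isDag_entry h (2 * s) le_rfl
  fin_cases g1
  · cases pos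
    · exact HH_L1 hd.symm X Y
    · exact HH_L1 hd X Y
  · cases pos
    · exact HH_L2 hd.symm X Y
    · exact HH_L2 hd X Y

lemma HH_opL (w : List (Fin 2 × Bool)) (X Y : Arr) :
    HH (2 * s) (opL s u w X) Y = HH (2 * s) X (opL s u (mirrorRev w) Y) := by
  induction w generalizing Y with
  | nil => rfl
  | cons g w ih =>
    have e1 : mirrorRev (g :: w) = mirrorRev w ++ [(Fin.rev g.1, !g.2)] := by
      unfold mirrorRev; simp
    rw [opL_cons, HH_op h, ih, e1, opL_append]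
    rfl

lemma HW_op (g : Fin 2 × Bool) {X : Arr} (hX : HW s u X) : HW s u (op s u g X) := by
  obtain ⟨g1, pos⟩ := g
  have hc : CommC s u (entry s u pos) := by
    cases pos
    · exact commC_false h
    · exact commC_true h
  fin_cases g1
  · exact HW_L1 hc hX
  · exact HW_L2 u.ne_zero hc hX

lemma HW_opL (w : List (Fin 2 × Bool)) {X : Arr} (hX : HW s u X) : HW s u (opL s u w X) := by
  induction w with
  | nil => exact hX
  | cons g w ih => exact HW_op h g ih

omit h in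
lemma M_inj (pos : Bool) {m : ℕ} (Z : ℕ → ℕ → ℂ)
    (hz : ∀ a b, a + b = m → M (entry s u pos) Z a b = 0) : ∀ i j, i + j = m → Z i j = 0 := by
  cases pos with
  | true =>
    have key : ∀ j i, i + j = m → Z i j = 0 := by
      intro j
      induction j using Nat.strong_induction_on with
      | _ j ih =>
        intro i hij
        have h1 := hz j i (by omega)
        unfold M at h1
        rw [Finset.sum_eq_single (i, j)] at h1
        · have e1 := entry_true s u i j 0 i (by omega)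
          rw [Nat.add_zero] at e1
          simp only [e1, coeffPos_zero] at h1
          rcases mul_eq_zero.mp h1 with h2 | h2
          · exact absurd h2 (zpow_ne_zero _ u.ne_zero)
          · exact h2
        · rintro ⟨a, b⟩ hp hne
          rw [mem_AD] at hp
          simp only at hp ⊢
          rcases lt_trichotomy b j with hb | hb | hb
          · rw [ih b hb a (by omega), mul_zero]
          · exfalso
            apply hne
            have : a = i := by omega
            rw [this, hb]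
          · rw [entry_true_zero _ _ _ _ _ _ hb, zero_mul]
        · intro hc
          exact absurd (mem_AD.mpr (by simp only; omega)) hc
    exact fun i j hij => key j i hij
  | false =>
    intro i
    induction i using Nat.strong_induction_on with
    | _ i ih =>
      intro j hij
      have h1 := hz j i (by omega)
      unfold M at h1
      rw [Finset.sum_eq_single (i, j)] at h1
      · have e1 := entry_false s u i j 0 j (by omega)
        rw [Nat.add_zero] at e1
        simp only [e1, coeffNeg_zero] at h1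
        rcases mul_eq_zero.mp h1 with h2 | h2
        · exact absurd h2 (zpow_ne_zero _ u.ne_zero)
        · exact h2
      · rintro ⟨a, b⟩ hp hne
        rw [mem_AD] at hp
        simp only at hp ⊢
        rcases lt_trichotomy a i with hb | hb | hb
        · rw [ih a hb b (by omega), mul_zero]
        · exfalso
          apply hne
          have : b = j := by omega
          rw [this, hb]
        · rw [entry_false_zero _ _ _ _ _ _ hb, zero_mul]
      · intro hc
        exact absurd (mem_AD.mpr (by simp only; omega)) hc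

omit h in
lemma op_inj (g : Fin 2 × Bool) {S : ℕ} {X : Arr}
    (hz : ∀ i j k, i + j + k = S → op s u g X i j k = 0) : ∀ i j k, i + j + k = S → X i j k = 0 := by
  obtain ⟨g1, pos⟩ := g
  intro i j k hijk
  fin_cases g1
  · exact M_inj pos (m := i + j) (fun a b => X a b k)
      (fun a b hab => hz a b k (by omega)) i j rfl
  · exact M_inj pos (m := j + k) (fun a b => X i a b)
      (fun a b hab => hz i a b (by omega)) j k rfl

omit h in
lemma opL_inj (w : List (Fin 2 × Bool)) {S : ℕ} {X : Arr}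
    (hz : ∀ i j k, i + j + k = S → opL s u w X i j k = 0) :
    ∀ i j k, i + j + k = S → X i j k = 0 := by
  induction w with
  | nil => exact hz
  | cons g w ih => exact ih (op_inj g hz)

lemma tangleValue_mirror (v w : List (Fin 2 × Bool)) :
    tangleValue s (mirrorRev v ++ w) u =
      HH (2 * s) (opL s u v (eta s u)) (opL s u w (eta s u)) := by
  rw [tangleValue_eq h, opL_append, ← HH_opL h]

/-- positivity -/
theorem tangleValue_pos (w : List (Fin 2 × Bool)) :
    ∃ r : ℝ, 0 < r ∧ tangleValue s (mirrorRev w ++ w) u = r := by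
  rw [tangleValue_mirror h]
  obtain ⟨r, hr, hr0, hr1⟩ := HH_pos h (HW_opL h w (HW_eta h))
  refine ⟨r, lt_of_le_of_ne hr0 ?_, hr⟩
  intro h0
  have h2 := opL_inj w (hr1 h0.symm) 0 (2 * s) 0 (by omega)
  unfold eta at h2
  rw [if_pos rfl] at h2
  exact pow_ne_zero _ u.ne_zero h2

end

/-! ### The writhe -/

lemma orientAfter_append (v w : List (Fin 2 × Bool)) (o : Fin 3 → ℤ) :
    orientAfter (v ++ w) o = orientAfter v (orientAfter w o) := by
  induction v with
  | nil => rfl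
  | cons g v ih =>
    funext l
    show orientAfter (v ++ w) o _ = orientAfter v (orientAfter w o) _
    rw [ih]

lemma orientedWrithe_append (v w : List (Fin 2 × Bool)) (o : Fin 3 → ℤ) :
    orientedWrithe (v ++ w) o = orientedWrithe w o + orientedWrithe v (orientAfter w o) := by
  induction v with
  | nil => simp [orientedWrithe]
  | cons g v ih =>
    show orientedWrithe (v ++ w) o + _ * (orientAfter (v ++ w) o _ * orientAfter (v ++ w) o _) =
      orientedWrithe w o + (orientedWrithe v (orientAfter w o) + _)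
    rw [ih, orientAfter_append]
    ring

lemma orientAfter_perm (w : List (Fin 2 × Bool)) :
    ∃ π : Equiv.Perm (Fin 3), ∀ o, orientAfter w o = o ∘ π := by
  induction w with
  | nil => exact ⟨1, fun o => rfl⟩
  | cons g w ih =>
    obtain ⟨π, hπ⟩ := ih
    refine ⟨π * Equiv.swap g.1.castSucc g.1.succ, fun o => ?_⟩
    funext l
    show orientAfter w o _ = _
    rw [hπ]
    rfl

lemma orientedWrithe_neg (w : List (Fin 2 × Bool)) (o : Fin 3 → ℤ) :
    orientedWrithe w (-o) = orientedWrithe w o := by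
  have h1 : ∀ w : List (Fin 2 × Bool), orientAfter w (-o) = -orientAfter w o := by
    intro w
    obtain ⟨π, hπ⟩ := orientAfter_perm w
    rw [hπ, hπ]
    rfl
  induction w with
  | nil => rfl
  | cons g w ih =>
    show orientedWrithe w (-o) + _ * (orientAfter w (-o) _ * orientAfter w (-o) _) =
      orientedWrithe w o + _ * (orientAfter w o _ * orientAfter w o _)
    rw [ih, h1]
    simp only [Pi.neg_apply]
    ring

/-- exchange of the positions `0` and `2` -/
def rv (o : Fin 3 → ℤ) : Fin 3 → ℤ := fun l => o (Fin.rev l)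

lemma swap_rev (g : Fin 2) (m : Fin 3 → ℤ) (l : Fin 3) :
    m (Equiv.swap (Fin.rev g).castSucc (Fin.rev g).succ
      (Fin.rev (Equiv.swap g.castSucc g.succ l))) = m (Fin.rev l) := by
  fin_cases g <;> fin_cases l <;> rfl

lemma mirror_orient (w : List (Fin 2 × Bool)) : ∀ m : Fin 3 → ℤ,
    orientAfter w (rv (orientAfter (mirrorRev w) m)) = rv m ∧
    orientedWrithe (mirrorRev w) m = -orientedWrithe w (rv (orientAfter (mirrorRev w) m)) := by
  induction w with
  | nil =>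
    intro m
    exact ⟨rfl, rfl⟩
  | cons g w ih =>
    intro m
    have e1 : mirrorRev (g :: w) = mirrorRev w ++ [(Fin.rev g.1, !g.2)] := by
      unfold mirrorRev; simp
    rw [e1, orientAfter_append, orientedWrithe_append]
    set m' : Fin 3 → ℤ := orientAfter [(Fin.rev g.1, !g.2)] m with hm'
    have hm'2 : ∀ l, m' l = m (Equiv.swap (Fin.rev g.1).castSucc (Fin.rev g.1).succ l) :=
      fun l => rfl
    obtain ⟨ih1, ih2⟩ := ih m'
    have e2 : ∀ l, orientAfter w (rv (orientAfter (mirrorRev w) m')) l = m' (Fin.rev l) := by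
      intro l; rw [ih1]; rfl
    constructor
    · funext l
      show orientAfter w (rv (orientAfter (mirrorRev w) m')) (Equiv.swap g.1.castSucc g.1.succ l) =
        m (Fin.rev l)
      rw [e2, hm'2]
      exact swap_rev g.1 m l
    · rw [ih2]
      show (0 + (if (!g.2) = true then (1 : ℤ) else -1) * (m (Fin.rev g.1).castSucc *
        m (Fin.rev g.1).succ)) + _ = -(orientedWrithe w _ + (if g.2 then (1 : ℤ) else -1) *
        (orientAfter w (rv (orientAfter (mirrorRev w) m')) g.1.castSucc *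
          orientAfter w (rv (orientAfter (mirrorRev w) m')) g.1.succ))
      rw [e2, e2, hm'2, hm'2]
      obtain ⟨g1, pos⟩ := g
      fin_cases g1 <;> cases pos <;> simp [Fin.rev] <;> ring

lemma knot_perm : ∀ π : Equiv.Perm (Fin 3), ∀ δ : ℤ, (δ = 1 ∨ δ = -1) →
    (![1, δ, -δ] : Fin 3 → ℤ) (π (Fin.rev (π.symm (Fin.rev 2)))) = 1 →
    ¬ ((![1, 1, -1] : Fin 3 → ℤ) (π (Fin.rev (π.symm (Fin.rev 2)))) = 1 ∧
      (![1, -1, - -1] : Fin 3 → ℤ) (π (Fin.rev (π.symm (Fin.rev 2)))) = 1) →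
    ∀ l, (![1, δ, -δ] : Fin 3 → ℤ) (π (Fin.rev (π.symm l))) = (![1, δ, -δ] : Fin 3 → ℤ) l := by
  intro π δ hδ
  rcases hδ with rfl | rfl
  · revert π
    decide
  · revert π
    decide

/-- for knots the writhe of the palindromic diagram vanishes -/
theorem writhe_zero (w : List (Fin 2 × Bool)) {δ : ℤ}
    (hδ : IsOrientation (mirrorRev w ++ w) δ) (hk : IsTwoBridgeKnot (mirrorRev w ++ w)) :
    orientedWrithe (mirrorRev w ++ w) ![1, δ, -δ] = 0 := by
  obtain ⟨π, hπ⟩ := orientAfter_perm w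
  -- the top state
  have top : ∀ o : Fin 3 → ℤ, rv (orientAfter (mirrorRev w ++ w) o) =
      fun l => o (π (Fin.rev (π.symm l))) := by
    intro o
    obtain ⟨h1, _⟩ := mirror_orient w (orientAfter w o)
    rw [hπ, hπ] at h1
    rw [orientAfter_append, hπ]
    funext l
    have h2 := congrFun h1 (π.symm l)
    simp only [Function.comp_apply, Equiv.apply_symm_apply] at h2
    rw [h2]
    rfl
  have top2 : ∀ o : Fin 3 → ℤ, orientAfter (mirrorRev w ++ w) o 2 =
      o (π (Fin.rev (π.symm (Fin.rev 2)))) := by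
    intro o
    have := congrFun (top o) (Fin.rev 2)
    rw [← this]
    rfl
  obtain ⟨hδ1, hδ2⟩ := hδ
  rw [top2] at hδ2
  have hk' : ¬ ((![1, 1, -1] : Fin 3 → ℤ) (π (Fin.rev (π.symm (Fin.rev 2)))) = 1 ∧
      (![1, -1, - -1] : Fin 3 → ℤ) (π (Fin.rev (π.symm (Fin.rev 2)))) = 1) := by
    intro hc
    apply hk
    refine ⟨⟨Or.inl rfl, ?_⟩, ⟨Or.inr rfl, ?_⟩⟩
    · rw [top2]; exact hc.1
    · rw [top2]; exact hc.2
  have h3 := knot_perm π δ hδ1 hδ2 hk'
  have h4 : rv (orientAfter (mirrorRev w ++ w) ![1, δ, -δ]) = ![1, δ, -δ] := by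
    rw [top]
    funext l
    exact h3 l
  rw [orientAfter_append] at h4
  rw [orientedWrithe_append, (mirror_orient w _).2, h4]
  ring

end Pool.Agent.Work.MP_b30479_gtS.TB

end

section

/-!
# The Cauchy–Schwarz inequality
-/

namespace Pool.Agent.Work.MP_b30479_gtS.TB

open Finset

section
variable {s : ℕ} {u : ℂˣ} (h : IsPrimitiveRoot (u : ℂ) (2 * s + 1))
include h

lemma HH_cs {X Y : Arr} (hX : HW s u X) (hY : HW s u Y) {a b : ℝ}
    (ha : HH (2 * s) X X = a) (hb : HH (2 * s) Y Y = b) :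
    ‖HH (2 * s) X Y‖ ^ 2 ≤ a * b := by
  obtain ⟨b', hb', hb0, hbz⟩ := HH_pos h hY
  have e1 : b' = b := by
    have : (b' : ℂ) = b := by rw [← hb', hb]
    exact_mod_cast this
  subst e1
  rcases eq_or_lt_of_le hb0 with h0 | h0
  · have : HH (2 * s) X Y = 0 := HH_zero_right (hbz h0.symm)
    rw [this, ← h0]
    simp
  · have hne : (b' : ℂ) ≠ 0 := by exact_mod_cast h0.ne'
    set c : ℂ := HH (2 * s) Y X with hc
    have hc' : HH (2 * s) X Y = star c := (HH_star (2 * s) Y X).symm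
    obtain ⟨r, hr, hr0, _⟩ := HH_pos h (HW_lin hX hY (-c / b'))
    rw [HH_self_add, ha, hb, hc', ← hc] at hr
    have e2 : (a : ℂ) + -c / b' * star c + star (-c / (b' : ℂ)) * c +
        -c / b' * star (-c / (b' : ℂ)) * b' = a - c * star c / b' := by
      have : star (-c / (b' : ℂ)) = -star c / b' := by
        rw [star_div₀, star_neg]
        congr 1
        exact Complex.conj_ofReal b'
      rw [this]
      field_simp
      ring
    rw [e2] at hr
    have e3 : c * star c = ((‖c‖ ^ 2 : ℝ) : ℂ) := by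
      have := Complex.mul_conj c
      rw [← Complex.normSq_eq_norm_sq]
      exact this
    rw [e3] at hr
    have e4 : a - ‖c‖ ^ 2 / b' = r := by
      have : ((a - ‖c‖ ^ 2 / b' : ℝ) : ℂ) = r := by rw [← hr]; push_cast; ring
      exact_mod_cast this
    have e5 : ‖c‖ ^ 2 / b' ≤ a := by linarith
    rw [hc', norm_star]
    rwa [div_le_iff₀ h0] at e5

/-- Cauchy–Schwarz inequality for the invariants of two-bridge links -/
theorem tangleValue_cs (v w : List (Fin 2 × Bool)) :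
    ‖tangleValue s (mirrorRev v ++ w) u‖ ^ 2 ≤
      ‖tangleValue s (mirrorRev v ++ v) u‖ * ‖tangleValue s (mirrorRev w ++ w) u‖ := by
  obtain ⟨a, ha, ha'⟩ := tangleValue_pos h v
  obtain ⟨b, hb, hb'⟩ := tangleValue_pos h w
  rw [ha', hb', tangleValue_mirror h]
  rw [tangleValue_mirror h] at ha' hb'
  rw [Complex.norm_real, Complex.norm_real, Real.norm_of_nonneg ha.le, Real.norm_of_nonneg hb.le]
  exact HH_cs h (HW_opL h v (HW_eta h)) (HW_opL h w (HW_eta h)) ha' hb'

lemma norm_twoBridgeJones (w : List (Fin 2 × Bool)) (δ : ℤ) :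
    ‖twoBridgeJones s w δ u‖ = ‖tangleValue s w u‖ := by
  have h1 : ‖(u : ℂ)‖ = 1 := h.norm'_eq_one (by omega)
  unfold twoBridgeJones
  rw [norm_mul, Units.val_zpow_eq_zpow_val, norm_zpow, h1, one_zpow, one_mul]

/-- for knots the value is positive -/
theorem twoBridgeJones_pos (w : List (Fin 2 × Bool)) {δ : ℤ}
    (hδ : IsOrientation (mirrorRev w ++ w) δ) (hk : IsTwoBridgeKnot (mirrorRev w ++ w)) :
    ∃ r : ℝ, 0 < r ∧ twoBridgeJones s (mirrorRev w ++ w) δ u = r := by
  obtain ⟨r, hr, hr'⟩ := tangleValue_pos h w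
  refine ⟨r, hr, ?_⟩
  unfold twoBridgeJones
  rw [writhe_zero w hδ hk, hr']
  simp

end

/-- every two-bridge link has an orientation -/
lemma exists_orientation (w : List (Fin 2 × Bool)) : ∃ δ, IsOrientation w δ := by
  obtain ⟨π, hπ⟩ := orientAfter_perm w
  have key : ∀ l : Fin 3, (![1, 1, -1] : Fin 3 → ℤ) l = 1 ∨ (![1, -1, - -1] : Fin 3 → ℤ) l = 1 := by
    decide
  rcases key (π 2) with h1 | h1
  · refine ⟨1, Or.inl rfl, ?_⟩
    rw [hπ]
    exact h1
  · refine ⟨-1, Or.inr rfl, ?_⟩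
    rw [hπ]
    exact h1

end Pool.Agent.Work.MP_b30479_gtS.TB

end

section

/-!
# Norms of the braid generators
-/

namespace Pool.Agent.Work.MP_b30479_gtS.TB

open Finset

/-- squared norm -/
noncomputable def qn (s : ℕ) (X : Arr) : ℝ := (HH (2 * s) X X).re

/-- `a_n(4_1)` -/
noncomputable def FF (s : ℕ) (t : ℂ) : ℝ := ∑ m ∈ range (2 * s + 1), ‖qf t m‖ ^ 2

/-- squared Frobenius norm of the braiding -/
noncomputable def LL (s : ℕ) (t : ℂ) : ℝ :=
  ∑ k ∈ range (2 * s + 1), ∑ j ∈ range (2 * s + 1), ‖pf t k j‖ ^ 2 / ‖qf t j‖ ^ 2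

section
variable {s : ℕ} {t : ℂ} (h : IsPrimitiveRoot t (2 * s + 1))
include h

/-- sums of falling products -/
lemma sum_pf (m : ℕ) (hm : m ≤ 2 * s) : ∑ k ∈ range (2 * s + 1), pf t k m = 2 * s + 1 := by
  induction m with
  | zero => simp [pf_zero]
  | succ m ih =>
    rw [← ih (by omega)]
    have hne : 1 - t ^ (m + 1) ≠ 0 := one_sub_pow_ne h (by omega) hm
    -- `∑ pf k m * t^(k-m) = 0`
    have key : ∑ k ∈ range (2 * s + 1), pf t k m * t ^ (k - m) = 0 := by
      have e1 : ∑ k ∈ range (2 * s + 1), (pf t (k + 1) (m + 1) - pf t k (m + 1)) = 0 := by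
        rw [Finset.sum_range_sub (fun k => pf t k (m + 1))]
        have e2 : pf t (2 * s + 1) (m + 1) = 0 := by
          rw [pf_succ', h.pow_eq_one]; ring
        rw [e2, pf_lt _ (by omega : 0 < m + 1)]
        ring
      have e3 : ∀ k ∈ range (2 * s + 1), pf t (k + 1) (m + 1) - pf t k (m + 1) =
          (1 - t ^ (m + 1)) * (pf t k m * t ^ (k - m)) := by
        intro k _
        rw [pf_succ', pf_succ]
        by_cases hk : m ≤ k
        · have : t ^ (k + 1) = t ^ (m + 1) * t ^ (k - m) := by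
            rw [← pow_add]; congr 1; omega
          rw [this]; ring
        · rw [pf_lt _ (show k < m by omega)]; ring
      rw [Finset.sum_congr rfl e3, ← Finset.mul_sum] at e1
      rcases mul_eq_zero.mp e1 with h1 | h1
      · exact absurd h1 hne
      · exact h1
    have e4 : ∀ k ∈ range (2 * s + 1), pf t k (m + 1) = pf t k m - pf t k m * t ^ (k - m) := by
      intro k _
      rw [pf_succ]; ring
    rw [Finset.sum_congr rfl e4, Finset.sum_sub_distrib, key, sub_zero]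

lemma qf_top : qf t (2 * s) = 2 * s + 1 := by
  rw [← sum_pf h (2 * s) le_rfl, Finset.sum_range_succ, Finset.sum_eq_zero, zero_add]
  · have := pf_mul t (le_refl (2 * s))
    rw [Nat.sub_self, qf_zero, mul_one] at this
    exact this.symm
  · intro k hk
    rw [mem_range] at hk
    exact pf_lt _ hk

lemma norm_qf_mul {m : ℕ} (hm : m ≤ 2 * s) : ‖qf t m‖ * ‖qf t (2 * s - m)‖ = 2 * s + 1 := by
  have h1 := qf_inv_mul h m hm
  rw [← star_qf h, qf_top h] at h1
  have h2 := congrArg norm h1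
  rw [norm_mul, norm_star] at h2
  rw [h2]
  have : ((2 * s + 1 : ℕ) : ℂ) = 2 * s + 1 := by push_cast; ring
  rw [← this, Complex.norm_natCast]
  push_cast; ring

lemma norm_qf_pos {m : ℕ} (hm : m ≤ 2 * s) : 0 < ‖qf t m‖ :=
  norm_pos_iff.mpr (qf_ne_zero h hm)

lemma FF_eq : FF s t = ∑ m ∈ range (2 * s + 1), (2 * s + 1 : ℝ) ^ 2 / ‖qf t m‖ ^ 2 := by
  unfold FF
  rw [← Finset.sum_range_reflect]
  apply Finset.sum_congr rfl
  intro m hm
  rw [mem_range] at hm
  have h1 := norm_qf_mul h (show m ≤ 2 * s by omega)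
  have h2 := norm_qf_pos h (show m ≤ 2 * s by omega)
  rw [show 2 * s + 1 - 1 - m = 2 * s - m by omega, ← h1]
  field_simp

lemma FF_ge : ((2 * s + 1 : ℝ)) ^ 2 ≤ FF s t := by
  unfold FF
  rw [Finset.sum_range_succ]
  have h1 : ‖qf t (2 * s)‖ = 2 * s + 1 := by
    rw [qf_top h]
    have : ((2 * s + 1 : ℕ) : ℂ) = 2 * s + 1 := by push_cast; ring
    rw [← this, Complex.norm_natCast]
    push_cast; ring
  rw [h1]
  have : 0 ≤ ∑ x ∈ range (2 * s), ‖qf t x‖ ^ 2 := Finset.sum_nonneg (fun _ _ => by positivity)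
  linarith

lemma qn_eq {X : Arr} (hX : HW s t X) : HH (2 * s) X X = qn s X ∧ 0 ≤ qn s X := by
  obtain ⟨r, hr, hr0, _⟩ := HH_pos h hX
  unfold qn
  rw [hr]
  simp [hr0]

lemma qn_parseval {X : Arr} (hX : HW s t X) :
    qn s X = ∑ m ∈ range (2 * s + 1), ‖xi s t m X‖ ^ 2 / ‖qf t m‖ ^ 4 := by
  unfold qn
  rw [parseval h hX, Complex.re_sum]
  apply Finset.sum_congr rfl
  intro m _
  unfold NN
  have e1 : star (xi s t m X) * xi s t m X = ((‖xi s t m X‖ ^ 2 : ℝ) : ℂ) := by
    have := Complex.normSq_eq_conj_mul_self (z := xi s t m X)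
    rw [← Complex.normSq_eq_norm_sq, this]
    rfl
  rw [e1, ← Complex.ofReal_div, Complex.ofReal_re]

lemma cs_qn {X Y : Arr} (hX : HW s t X) (hY : HW s t Y) {u : ℂˣ} (hu : (u : ℂ) = t) :
    ‖HH (2 * s) X Y‖ ^ 2 ≤ qn s X * qn s Y := by
  subst hu
  exact HH_cs h hX hY (qn_eq h hX).1 (qn_eq h hY).1

end

/-- the polynomial of the `q`-binomial theorem -/
lemma qbin {s : ℕ} {t : ℂ} (h : IsPrimitiveRoot t (2 * s + 1)) (k : ℕ) (hk : k ≤ 2 * s) (x : ℂ) :
    ∑ j ∈ range (2 * s + 1), (-1) ^ j * t ^ (j.choose 2) * x ^ j * (pf t k j / qf t j) =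
      ∏ i ∈ range k, (1 - x * t ^ i) := by
  induction k generalizing x with
  | zero =>
    rw [Finset.sum_eq_single 0]
    · simp [pf_zero]
    · intro j _ hj
      rw [pf_lt _ (by omega)]
      simp
    · intro hc
      exact absurd (mem_range.mpr (by omega)) hc
  | succ k ih =>
    have pascal : ∀ j, j < 2 * s → pf t (k + 1) (j + 1) / qf t (j + 1) =
        pf t k j / qf t j + t ^ (j + 1) * (pf t k (j + 1) / qf t (j + 1)) := by
      intro j hj
      have n1 : qf t j ≠ 0 := qf_ne_zero h (by omega)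
      have n2 : 1 - t ^ (j + 1) ≠ 0 := one_sub_pow_ne h (by omega) (by omega)
      rw [qf_succ, pf_succ', pf_succ]
      by_cases hjk : j ≤ k
      · have : t ^ (k + 1) = t ^ (j + 1) * t ^ (k - j) := by
          rw [← pow_add]; congr 1; omega
        rw [this]
        field_simp
        ring
      · rw [pf_lt _ (show k < j by omega)]
        simp
    rw [Finset.prod_range_succ']
    have e0 : ∏ i ∈ range k, (1 - x * t ^ (i + 1)) = ∏ i ∈ range k, (1 - (x * t) * t ^ i) := by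
      apply prod_congr rfl
      intro i _
      ring
    rw [e0, ← ih (by omega) (x * t)]
    -- split off the first term on the left
    rw [Finset.sum_range_succ']
    have e1 : ∀ j ∈ range (2 * s), (-1) ^ (j + 1) * t ^ ((j + 1).choose 2) * x ^ (j + 1) *
        (pf t (k + 1) (j + 1) / qf t (j + 1)) =
        -x * ((-1) ^ j * t ^ (j.choose 2) * (x * t) ^ j * (pf t k j / qf t j)) +
        (-1) ^ (j + 1) * t ^ ((j + 1).choose 2) * (x * t) ^ (j + 1) *
          (pf t k (j + 1) / qf t (j + 1)) := by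
      intro j hj
      rw [mem_range] at hj
      rw [pascal j hj, Nat.choose_succ_succ' j 1, Nat.choose_one_right]
      ring
    rw [Finset.sum_congr rfl e1, Finset.sum_add_distrib, ← Finset.mul_sum]
    have e2 : ∑ j ∈ range (2 * s + 1), (-1) ^ j * t ^ (j.choose 2) * (x * t) ^ j *
        (pf t k j / qf t j) = ∑ j ∈ range (2 * s), (-1) ^ j * t ^ (j.choose 2) * (x * t) ^ j *
        (pf t k j / qf t j) := by
      rw [Finset.sum_range_succ, pf_lt _ (show k < 2 * s by omega)]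
      simp
    have e3 : ∑ j ∈ range (2 * s + 1), (-1) ^ j * t ^ (j.choose 2) * (x * t) ^ j *
        (pf t k j / qf t j) = (∑ j ∈ range (2 * s), (-1) ^ (j + 1) * t ^ ((j + 1).choose 2) *
        (x * t) ^ (j + 1) * (pf t k (j + 1) / qf t (j + 1))) + 1 := by
      rw [Finset.sum_range_succ']
      simp [pf_zero]
    rw [← e2]
    simp only [pf_zero, qf_zero, pow_zero, Nat.choose_zero_succ, mul_one, div_one]
    linear_combination -e3

end Pool.Agent.Work.MP_b30479_gtS.TB

end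

section

/-!
# Norm bounds for alternating words
-/

namespace Pool.Agent.Work.MP_b30479_gtS.TB

open Finset

section
variable {s : ℕ} {u : ℂˣ} (h : IsPrimitiveRoot (u : ℂ) (2 * s + 1))
include h

/-- `σ_2^{-1}` in coordinates -/
lemma xi_L2 {Y : Arr} (hY : HW s u Y) (m : ℕ) :
    xi s u m (L2 (entry s u false) Y) =
      ∑ k ∈ range (2 * s + 1), star (al s u k m) * xi s u k Y / NN u k := by
  unfold xi
  rw [← HH_L1 (isDag_entry h (2 * s) le_rfl), parseval h hY]
  rfl

/-- `σ_1` in coordinates -/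
lemma xi_L1 {X : Arr} (hX : HW s u X) (k : ℕ) :
    xi s u k (L1 (entry s u true) X) =
      ∑ m ∈ range (2 * s + 1), al s u k m * xi s u m X / NN u m := by
  unfold xi
  rw [← HH_L2 (isDag_entry h (2 * s) le_rfl).symm, parseval h hX]
  apply Finset.sum_congr rfl
  intro m _
  congr 2
  have : xi s u m (L2 (entry s u false) (uu s u k)) = star (al s u k m) := by
    unfold xi
    rw [← HH_L1 (isDag_entry h (2 * s) le_rfl), ← HH_star]
    rfl
  rw [this, star_star]

lemma norm_al {k : ℕ} (hk : k ≤ 2 * s) (j : ℕ) :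
    ‖al s u k j‖ = ‖qf (u : ℂ) j‖ * ‖pf (u : ℂ) k j‖ * ‖qf (u : ℂ) k‖ ^ 2 := by
  have h1 : ‖(u : ℂ)‖ = 1 := h.norm'_eq_one (by omega)
  rw [al_closed h hk, norm_mul, norm_mul, norm_mul, norm_al_zero h hk, norm_pow, norm_pow, h1]
  ring

omit h in
lemma NN_norm (k : ℕ) : ‖NN (u : ℂ) k‖ = ‖qf (u : ℂ) k‖ ^ 4 := by
  unfold NN
  rw [Complex.norm_real, Real.norm_of_nonneg (by positivity)]

/-- norm bound for `σ_1` -/
lemma qn_L1 {X : Arr} (hX : HW s u X) : qn s (L1 (entry s u true) X) ≤ LL s u * qn s X := by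
  rw [qn_parseval h (HW_L1 (commC_true h) hX), qn_parseval h hX]
  unfold LL
  rw [Finset.sum_mul]
  apply Finset.sum_le_sum
  intro k hk
  rw [mem_range] at hk
  have hk' : k ≤ 2 * s := by omega
  have pk := norm_qf_pos h hk'
  rw [div_le_iff₀ (by positivity), xi_L1 h hX]
  have e1 : ‖∑ m ∈ range (2 * s + 1), al s u k m * xi s u m X / NN u m‖ ≤
      ∑ m ∈ range (2 * s + 1), (‖al s u k m‖ / ‖qf (u : ℂ) m‖ ^ 2) *
        (‖xi s u m X‖ / ‖qf (u : ℂ) m‖ ^ 2) := by
    refine (norm_sum_le _ _).trans (le_of_eq ?_)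
    apply Finset.sum_congr rfl
    intro m hm
    rw [mem_range] at hm
    have pm := norm_qf_pos h (show m ≤ 2 * s by omega)
    rw [norm_div, norm_mul, NN_norm]
    field_simp
  have e2 := Finset.sum_mul_sq_le_sq_mul_sq (range (2 * s + 1))
    (fun m => ‖al s u k m‖ / ‖qf (u : ℂ) m‖ ^ 2) (fun m => ‖xi s u m X‖ / ‖qf (u : ℂ) m‖ ^ 2)
  have e3 : ‖∑ m ∈ range (2 * s + 1), al s u k m * xi s u m X / NN u m‖ ^ 2 ≤
      (∑ m ∈ range (2 * s + 1), (‖al s u k m‖ / ‖qf (u : ℂ) m‖ ^ 2) *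
        (‖xi s u m X‖ / ‖qf (u : ℂ) m‖ ^ 2)) ^ 2 := by
    gcongr
  refine (e3.trans e2).trans (le_of_eq ?_)
  have e4 : ∑ m ∈ range (2 * s + 1), (‖al s u k m‖ / ‖qf (u : ℂ) m‖ ^ 2) ^ 2 =
      (∑ m ∈ range (2 * s + 1), ‖pf (u : ℂ) k m‖ ^ 2 / ‖qf (u : ℂ) m‖ ^ 2) *
        ‖qf (u : ℂ) k‖ ^ 4 := by
    rw [Finset.sum_mul]
    apply Finset.sum_congr rfl
    intro m hm
    rw [mem_range] at hm
    have pm := norm_qf_pos h (show m ≤ 2 * s by omega)
    rw [norm_al h hk']
    field_simp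
  have e5 : ∑ m ∈ range (2 * s + 1), (‖xi s u m X‖ / ‖qf (u : ℂ) m‖ ^ 2) ^ 2 =
      ∑ m ∈ range (2 * s + 1), ‖xi s u m X‖ ^ 2 / ‖qf (u : ℂ) m‖ ^ 4 := by
    apply Finset.sum_congr rfl
    intro m hm
    rw [div_pow]
    ring_nf
  rw [e4, e5]
  ring

/-- norm bound for `σ_2^{-1}` -/
lemma qn_L2 {X : Arr} (hX : HW s u X) : qn s (L2 (entry s u false) X) ≤ LL s u * qn s X := by
  set Y := L2 (entry s u false) X with hYdef
  have hY : HW s u Y := HW_L2 u.ne_zero (commC_false h) hX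
  have hZ : HW s u (L1 (entry s u true) Y) := HW_L1 (commC_true h) hY
  have e1 : HH (2 * s) Y Y = HH (2 * s) X (L1 (entry s u true) Y) :=
    HH_L2 (isDag_entry h (2 * s) le_rfl).symm X Y
  have e2 := cs_qn h hX hZ rfl
  rw [← e1, (qn_eq h hY).1, Complex.norm_real, Real.norm_of_nonneg (qn_eq h hY).2] at e2
  have e3 := qn_L1 h hY
  have e4 : qn s Y ^ 2 ≤ (LL s u * qn s X) * qn s Y := by
    calc qn s Y ^ 2 ≤ qn s X * qn s (L1 (entry s u true) Y) := e2
      _ ≤ qn s X * (LL s u * qn s Y) := by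
        apply mul_le_mul_of_nonneg_left e3 (qn_eq h hX).2
      _ = _ := by ring
  rcases eq_or_lt_of_le (qn_eq h hY).2 with h0 | h0
  · rw [← h0]
    apply mul_nonneg _ (qn_eq h hX).2
    unfold LL
    exact Finset.sum_nonneg fun _ _ => Finset.sum_nonneg fun _ _ => by positivity
  · rw [sq] at e4
    exact le_of_mul_le_mul_right e4 h0

lemma qn_s1_eta : qn s (L1 (entry s u true) (eta s u)) = 2 * s + 1 := by
  rw [qn_parseval h (HW_L1 (commC_true h) (HW_eta h))]
  have : ∀ m ∈ range (2 * s + 1), ‖xi s u m (L1 (entry s u true) (eta s u))‖ ^ 2 /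
      ‖qf (u : ℂ) m‖ ^ 4 = 1 := by
    intro m hm
    rw [mem_range] at hm
    have pm := norm_qf_pos h (show m ≤ 2 * s by omega)
    have e1 : ‖xi s u m (L1 (entry s u true) (eta s u))‖ = ‖qf (u : ℂ) m‖ ^ 2 :=
      norm_al_zero h (by omega)
    rw [e1]
    field_simp
  rw [Finset.sum_congr rfl this]
  simp

lemma qn_s2s1_eta : qn s (L2 (entry s u false) (L1 (entry s u true) (eta s u))) = FF s u := by
  have h1 : ‖(u : ℂ)‖ = 1 := h.norm'_eq_one (by omega)
  have hY : HW s u (L1 (entry s u true) (eta s u)) := HW_L1 (commC_true h) (HW_eta h)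
  rw [qn_parseval h (HW_L2 u.ne_zero (commC_false h) hY), FF_eq h]
  apply Finset.sum_congr rfl
  intro m hm
  rw [mem_range] at hm
  have hm' : m ≤ 2 * s := by omega
  have pm := norm_qf_pos h hm'
  have e1 : xi s u m (L2 (entry s u false) (L1 (entry s u true) (eta s u))) =
      star (((u : ℂ) ^ s) ^ m * qf (u : ℂ) m) * (2 * s + 1) := by
    rw [xi_L2 h hY]
    have e2 : ∀ k ∈ range (2 * s + 1), star (al s u k m) *
        xi s u k (L1 (entry s u true) (eta s u)) / NN u k =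
        star (((u : ℂ) ^ s) ^ m * qf (u : ℂ) m) * star (pf (u : ℂ) k m) := by
      intro k hk
      rw [mem_range] at hk
      have hk' : k ≤ 2 * s := by omega
      have e3 : xi s u k (L1 (entry s u true) (eta s u)) = al s u k 0 := rfl
      rw [e3, al_closed h hk', star_mul', star_mul']
      have e4 : star (al s u k 0) * al s u k 0 = NN u k := by
        have h2 := Complex.normSq_eq_conj_mul_self (z := al s u k 0)
        rw [Complex.normSq_eq_norm_sq, norm_al_zero h hk'] at h2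
        unfold NN
        rw [← pow_mul] at h2
        exact h2.symm
      have n1 := NN_ne h hk'
      rw [mul_assoc, e4]
      field_simp
    rw [Finset.sum_congr rfl e2, ← Finset.mul_sum, ← star_sum, sum_pf h m hm']
    congr 1
    rw [star_add, star_mul']
    simp
  rw [e1, norm_mul, norm_star, norm_mul, norm_pow, norm_pow, h1]
  have e5 : ‖(2 * s + 1 : ℂ)‖ = 2 * s + 1 := by
    have : ((2 * s + 1 : ℕ) : ℂ) = 2 * s + 1 := by push_cast; ring
    rw [← this, Complex.norm_natCast]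
    push_cast; ring
  rw [e5]
  simp only [one_pow, one_mul]
  field_simp

lemma al_zero_closed {k : ℕ} (hk : k ≤ 2 * s) :
    al s u k 0 * (u : ℂ) ^ (k.choose 2) =
      (-1) ^ k * ((u : ℂ) ^ s) ^ k * qf (u : ℂ) k ^ 2 * (u : ℂ) ^ (s * s) := by
  have h0 : (u : ℂ) ≠ 0 := u.ne_zero
  induction k with
  | zero =>
    rw [al_zero_zero h]
    simp
  | succ k ih =>
    have ih := ih (by omega)
    rw [al_succ_zero h (by omega), Nat.choose_succ_succ' k 1, Nat.choose_one_right, qf_succ]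
    have e1 : (u : ℂ)⁻¹ ^ k * (u : ℂ) ^ (k + k.choose (1 + 1)) = (u : ℂ) ^ (k.choose 2) := by
      rw [pow_add, inv_pow, ← mul_assoc, inv_mul_cancel₀ (pow_ne_zero _ h0), one_mul]
    calc _ = -((u : ℂ) ^ s * (1 - (u : ℂ) ^ (k + 1)) ^ 2) * (al s u k 0 *
          ((u : ℂ)⁻¹ ^ k * (u : ℂ) ^ (k + k.choose (1 + 1)))) := by ring
      _ = _ := by rw [e1, ih]; ring

lemma qn_s1s1_eta : qn s (L1 (entry s u true) (L1 (entry s u true) (eta s u))) = FF s u := by
  have h0 : (u : ℂ) ≠ 0 := u.ne_zero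
  have h1 : ‖(u : ℂ)‖ = 1 := h.norm'_eq_one (by omega)
  have hV := sq_mul h
  have hY : HW s u (L1 (entry s u true) (eta s u)) := HW_L1 (commC_true h) (HW_eta h)
  rw [qn_parseval h (HW_L1 (commC_true h) hY)]
  unfold FF
  apply Finset.sum_congr rfl
  intro k hk
  rw [mem_range] at hk
  have hk' : k ≤ 2 * s := by omega
  have pk := norm_qf_pos h hk'
  have e1 : xi s u k (L1 (entry s u true) (L1 (entry s u true) (eta s u))) =
      al s u k 0 * (u : ℂ) ^ (s * s) * qf (u : ℂ) k := by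
    rw [xi_L1 h hY]
    have e2 : ∀ j ∈ range (2 * s + 1), al s u k j *
        xi s u j (L1 (entry s u true) (eta s u)) / NN u j =
        al s u k 0 * (u : ℂ) ^ (s * s) *
          ((-1) ^ j * (u : ℂ) ^ (j.choose 2) * (u : ℂ) ^ j * (pf (u : ℂ) k j / qf (u : ℂ) j)) := by
      intro j hj
      rw [mem_range] at hj
      have hj' : j ≤ 2 * s := by omega
      have e3 : xi s u j (L1 (entry s u true) (eta s u)) = al s u j 0 := rfl
      have nj := qf_ne_zero h hj'
      have e4 : NN (u : ℂ) j * (((u : ℂ) ^ ((j + 1).choose 2)) ^ 2) = qf (u : ℂ) j ^ 4 := by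
        have h2 := Complex.normSq_eq_conj_mul_self (z := qf (u : ℂ) j)
        rw [Complex.normSq_eq_norm_sq] at h2
        have h3 : (starRingEnd ℂ) (qf (u : ℂ) j) = qf (u : ℂ)⁻¹ j := star_qf h j
        rw [h3] at h2
        have h4 := qf_inv h j
        have h5 : NN (u : ℂ) j = (qf (u : ℂ)⁻¹ j * qf (u : ℂ) j) ^ 2 := by
          rw [← h2]
          unfold NN
          push_cast
          ring
        rw [h5]
        have h6 : ((-1 : ℂ) ^ j) ^ 2 = 1 := by rw [← pow_mul, mul_comm, pow_mul]; simp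
        calc _ = (qf (u : ℂ)⁻¹ j * (u : ℂ) ^ ((j + 1).choose 2)) ^ 2 * qf (u : ℂ) j ^ 2 := by ring
          _ = ((-1) ^ j) ^ 2 * qf (u : ℂ) j ^ 4 := by rw [h4]; ring
          _ = _ := by rw [h6, one_mul]
      have n1 := NN_ne h hj'
      have nx : (u : ℂ) ^ ((j + 1).choose 2) ≠ 0 := pow_ne_zero _ h0
      have e5 := al_zero_closed h hj'
      have ny : (u : ℂ) ^ (j.choose 2) ≠ 0 := pow_ne_zero _ h0
      have e6 : (u : ℂ) ^ ((j + 1).choose 2) = (u : ℂ) ^ j * (u : ℂ) ^ (j.choose 2) := by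
        rw [Nat.choose_succ_succ' j 1, Nat.choose_one_right, pow_add]
      have e7 : ((u : ℂ) ^ s) ^ j * ((u : ℂ) ^ s) ^ j * (u : ℂ) ^ j = 1 := by
        rw [← mul_pow, ← mul_pow, ← sq, hV, one_pow]
      rw [e3, al_closed h hk' j]
      rw [div_eq_iff n1]
      apply mul_right_cancel₀ (mul_ne_zero (pow_ne_zero 2 nx) ny)
      calc ((u : ℂ) ^ s) ^ j * qf (u : ℂ) j * pf (u : ℂ) k j * al s u k 0 * al s u j 0 *
            (((u : ℂ) ^ ((j + 1).choose 2)) ^ 2 * (u : ℂ) ^ (j.choose 2))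
          = ((u : ℂ) ^ s) ^ j * qf (u : ℂ) j * pf (u : ℂ) k j * al s u k 0 *
            (al s u j 0 * (u : ℂ) ^ (j.choose 2)) * ((u : ℂ) ^ ((j + 1).choose 2)) ^ 2 := by ring
        _ = ((u : ℂ) ^ s) ^ j * qf (u : ℂ) j * pf (u : ℂ) k j * al s u k 0 *
            ((-1) ^ j * ((u : ℂ) ^ s) ^ j * qf (u : ℂ) j ^ 2 * (u : ℂ) ^ (s * s)) *
            ((u : ℂ) ^ j * (u : ℂ) ^ (j.choose 2)) ^ 2 := by rw [e5, e6]
        _ = (((u : ℂ) ^ s) ^ j * ((u : ℂ) ^ s) ^ j * (u : ℂ) ^ j) * (al s u k 0 *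
            (u : ℂ) ^ (s * s) * ((-1) ^ j * (u : ℂ) ^ (j.choose 2) * (u : ℂ) ^ j *
            (pf (u : ℂ) k j / qf (u : ℂ) j)) * (qf (u : ℂ) j ^ 4 * (u : ℂ) ^ (j.choose 2))) := by
            field_simp
        _ = _ := by rw [e7, ← e4]; ring
    rw [Finset.sum_congr rfl e2, ← Finset.mul_sum, qbin h k hk' (u : ℂ)]
    congr 1
    unfold qf
    apply prod_congr rfl
    intro i _
    ring
  rw [e1, norm_mul, norm_mul, norm_al_zero h hk', norm_pow, h1]
  simp only [one_pow, mul_one]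
  field_simp

end

end Pool.Agent.Work.MP_b30479_gtS.TB

end

section

/-!
# Powers of the braiding
-/

namespace Pool.Agent.Work.MP_b30479_gtS.TB

open Finset

/-- powers of `σ_1` -/
noncomputable def pw (s : ℕ) (u : ℂˣ) (m : ℕ) (X : Arr) : Arr := (L1 (entry s u true))^[m] X

/-- powers of `σ_2^{-1}` -/
noncomputable def pw2 (s : ℕ) (u : ℂˣ) (m : ℕ) (X : Arr) : Arr := (L2 (entry s u false))^[m] X

lemma pw_succ (s : ℕ) (u : ℂˣ) (m : ℕ) (X : Arr) :
    pw s u (m + 1) X = L1 (entry s u true) (pw s u m X) :=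
  Function.iterate_succ_apply' _ _ _

lemma pw2_succ (s : ℕ) (u : ℂˣ) (m : ℕ) (X : Arr) :
    pw2 s u (m + 1) X = L2 (entry s u false) (pw2 s u m X) :=
  Function.iterate_succ_apply' _ _ _

lemma pw_succ' (s : ℕ) (u : ℂˣ) (m : ℕ) (X : Arr) :
    pw s u (m + 1) X = pw s u m (L1 (entry s u true) X) :=
  Function.iterate_succ_apply _ _ _

lemma pz_one {s : ℕ} {t : ℂ} (h : IsPrimitiveRoot t (2 * s + 1)) {j k : ℕ} (hjk : j ≤ k)
    (hk : k ≤ 2 * s) : pz t 1 j k = qf t k / qf t j := by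
  rw [eq_div_iff (qf_ne_zero h (by omega))]
  unfold pz qf
  rw [mul_comm, Finset.range_eq_Ico, Finset.range_eq_Ico]
  simp only [one_mul]
  exact Finset.prod_Ico_consecutive _ (Nat.zero_le j) hjk

section
variable {s : ℕ} {u : ℂˣ} (h : IsPrimitiveRoot (u : ℂ) (2 * s + 1))
include h

lemma HW_pw {X : Arr} (hX : HW s u X) (m : ℕ) : HW s u (pw s u m X) := by
  induction m with
  | zero => exact hX
  | succ m ih => rw [pw_succ]; exact HW_L1 (commC_true h) ih

lemma HW_pw2 {X : Arr} (hX : HW s u X) (m : ℕ) : HW s u (pw2 s u m X) := by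
  induction m with
  | zero => exact hX
  | succ m ih => rw [pw2_succ]; exact HW_L2 u.ne_zero (commC_false h) ih

lemma NN_mul {j : ℕ} : NN (u : ℂ) j * (((u : ℂ) ^ ((j + 1).choose 2)) ^ 2) = qf (u : ℂ) j ^ 4 := by
  have h2 := Complex.normSq_eq_conj_mul_self (z := qf (u : ℂ) j)
  rw [Complex.normSq_eq_norm_sq] at h2
  have h3 : (starRingEnd ℂ) (qf (u : ℂ) j) = qf (u : ℂ)⁻¹ j := star_qf h j
  rw [h3] at h2
  have h4 := qf_inv h j
  have h5 : NN (u : ℂ) j = (qf (u : ℂ)⁻¹ j * qf (u : ℂ) j) ^ 2 := by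
    rw [← h2]
    unfold NN
    push_cast
    ring
  rw [h5]
  have h6 : ((-1 : ℂ) ^ j) ^ 2 = 1 := by rw [← pow_mul, mul_comm, pow_mul]; simp
  calc _ = (qf (u : ℂ)⁻¹ j * (u : ℂ) ^ ((j + 1).choose 2)) ^ 2 * qf (u : ℂ) j ^ 2 := by ring
    _ = ((-1) ^ j) ^ 2 * qf (u : ℂ) j ^ 4 := by rw [h4]; ring
    _ = _ := by rw [h6, one_mul]

/-- the deformed matrix at `z = 1` -/
lemma gz_one {j k : ℕ} (hk : k ≤ 2 * s) : gz s u 1 j k * NN u k = al s u k j := by
  have h0 : (u : ℂ) ≠ 0 := u.ne_zero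
  by_cases hjk : j ≤ k
  · unfold gz
    rw [if_pos hjk, pz_one h hjk hk, al_closed h hk]
    have nj := qf_ne_zero h (show j ≤ 2 * s by omega)
    have nk := qf_ne_zero h hk
    have nkj := qf_ne_zero h (show k - j ≤ 2 * s by omega)
    have e1 := al_zero_closed h hk
    have e2 := NN_mul h (j := k)
    have e3 := pf_mul (u : ℂ) hjk
    have e4 : (u : ℂ) ^ ((k + 1).choose 2) = (u : ℂ) ^ k * (u : ℂ) ^ (k.choose 2) := by
      rw [Nat.choose_succ_succ' k 1, Nat.choose_one_right, pow_add]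
    have nx : (u : ℂ) ^ (k.choose 2) ≠ 0 := pow_ne_zero _ h0
    have ny : (u : ℂ) ^ k ≠ 0 := pow_ne_zero _ h0
    have e5 : pf (u : ℂ) k j = qf (u : ℂ) k / qf (u : ℂ) (k - j) := by
      rw [eq_div_iff nkj, e3]
    have e6 : al s u k 0 = (-1) ^ k * ((u : ℂ) ^ s) ^ k * qf (u : ℂ) k ^ 2 * (u : ℂ) ^ (s * s) /
        (u : ℂ) ^ (k.choose 2) := by
      rw [eq_div_iff nx, e1]
    have e7 : NN (u : ℂ) k = qf (u : ℂ) k ^ 4 / ((u : ℂ) ^ k * (u : ℂ) ^ (k.choose 2)) ^ 2 := by
      rw [eq_div_iff (pow_ne_zero 2 (mul_ne_zero ny nx)), ← e2, e4]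
    rw [e5, e6, e7, pow_add (u : ℂ) _ k, e4, pow_add ((u : ℂ) ^ s), one_pow, mul_one]
    field_simp
  · rw [gz_lt (by omega), zero_mul, al_closed h hk, pf_lt _ (by omega)]
    ring

/-- powers in coordinates -/
lemma xi_pw {X : Arr} (hX : HW s u X) (m : ℕ) {k : ℕ} (hk : k ≤ 2 * s) :
    xi s u k (pw s u m X) =
      ∑ j ∈ range (2 * s + 1), xi s u j X / NN u j * (Gm s u 1 m j k * NN u k) := by
  induction m generalizing k with
  | zero =>
    rw [Finset.sum_eq_single k]
    · show xi s u k X = _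
      unfold Gm
      rw [if_pos rfl, one_mul, div_mul_cancel₀ _ (NN_ne h hk)]
    · intro j _ hj
      unfold Gm
      rw [if_neg hj]
      ring
    · intro hc
      exact absurd (mem_range.mpr (by omega)) hc
  | succ m ih =>
    rw [pw_succ, xi_L1 h (HW_pw h hX m)]
    have e1 : ∀ l ∈ range (2 * s + 1), al s u k l * xi s u l (pw s u m X) / NN u l =
        ∑ j ∈ range (2 * s + 1), xi s u j X / NN u j * (Gm s u 1 m j l * gz s u 1 l k * NN u k) := by
      intro l hl
      rw [mem_range] at hl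
      have hl' : l ≤ 2 * s := by omega
      have nl := NN_ne h hl'
      rw [ih hl', ← gz_one h hk, Finset.mul_sum, Finset.sum_div]
      apply Finset.sum_congr rfl
      intro j _
      field_simp
    rw [Finset.sum_congr rfl e1, Finset.sum_comm]
    apply Finset.sum_congr rfl
    intro j _
    rw [← Finset.mul_sum, ← Finset.sum_mul]
    congr 2
    have e2 : Gm s u 1 (m + 1) j k = ∑ l ∈ range (k + 1), Gm s u 1 m j l * gz s u 1 l k := rfl
    rw [e2]
    symm
    apply Finset.sum_subset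
    · intro x hx
      rw [mem_range] at hx ⊢
      omega
    · intro x _ hx
      rw [mem_range] at hx
      rw [gz_lt (by omega), mul_zero]

/-- norm bound for powers of `σ_1` from bounds for the matrix entries -/
lemma qn_pw {X : Arr} (hX : HW s u X) (m : ℕ) {B : ℝ}
    (hB : ∀ k ≤ 2 * s, ∀ j ≤ 2 * s, ‖Gm s u 1 m j k‖ * ‖qf (u : ℂ) k‖ ^ 2 ≤
      B * ‖qf (u : ℂ) j‖ ^ 2) :
    qn s (pw s u m X) ≤ (((2 * s + 1 : ℕ) : ℝ) * B) ^ 2 * qn s X := by
  have hB0 : 0 ≤ B := by
    have h1 := hB 0 (by omega) 0 (by omega)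
    simp only [qf_zero, norm_one, one_pow, mul_one] at h1
    exact (norm_nonneg _).trans h1
  rw [qn_parseval h (HW_pw h hX m)]
  have hq := (qn_eq h hX).2
  have key : ∀ k ∈ range (2 * s + 1), ‖xi s u k (pw s u m X)‖ ^ 2 / ‖qf (u : ℂ) k‖ ^ 4 ≤
      ((2 * s + 1 : ℕ) : ℝ) * B ^ 2 * qn s X := by
    intro k hk
    rw [mem_range] at hk
    have hk' : k ≤ 2 * s := by omega
    have pk := norm_qf_pos h hk'
    rw [div_le_iff₀ (by positivity), xi_pw h hX m hk']
    have e1 : ‖∑ j ∈ range (2 * s + 1), xi s u j X / NN u j * (Gm s u 1 m j k * NN u k)‖ ≤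
        ∑ j ∈ range (2 * s + 1), (‖xi s u j X‖ / ‖qf (u : ℂ) j‖ ^ 2) *
          (B * ‖qf (u : ℂ) k‖ ^ 2) := by
      refine (norm_sum_le _ _).trans (Finset.sum_le_sum ?_)
      intro j hj
      rw [mem_range] at hj
      have hj' : j ≤ 2 * s := by omega
      have pj := norm_qf_pos h hj'
      rw [norm_mul, norm_div, norm_mul, NN_norm, NN_norm]
      have h2 := hB k hk' j hj'
      calc ‖xi s u j X‖ / ‖qf (u : ℂ) j‖ ^ 4 * (‖Gm s u 1 m j k‖ * ‖qf (u : ℂ) k‖ ^ 4)
          = (‖xi s u j X‖ / ‖qf (u : ℂ) j‖ ^ 4 * ‖qf (u : ℂ) k‖ ^ 2) *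
            (‖Gm s u 1 m j k‖ * ‖qf (u : ℂ) k‖ ^ 2) := by ring
        _ ≤ (‖xi s u j X‖ / ‖qf (u : ℂ) j‖ ^ 4 * ‖qf (u : ℂ) k‖ ^ 2) *
            (B * ‖qf (u : ℂ) j‖ ^ 2) := mul_le_mul_of_nonneg_left h2 (by positivity)
        _ = _ := by field_simp
    have e2 := Finset.sum_mul_sq_le_sq_mul_sq (range (2 * s + 1))
      (fun j => ‖xi s u j X‖ / ‖qf (u : ℂ) j‖ ^ 2) (fun _ => B * ‖qf (u : ℂ) k‖ ^ 2)
    have e3 : ‖∑ j ∈ range (2 * s + 1), xi s u j X / NN u j * (Gm s u 1 m j k * NN u k)‖ ^ 2 ≤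
        (∑ j ∈ range (2 * s + 1), (‖xi s u j X‖ / ‖qf (u : ℂ) j‖ ^ 2) *
          (B * ‖qf (u : ℂ) k‖ ^ 2)) ^ 2 := by
      gcongr
    refine (e3.trans e2).trans (le_of_eq ?_)
    have e5 : ∑ m ∈ range (2 * s + 1), (‖xi s u m X‖ / ‖qf (u : ℂ) m‖ ^ 2) ^ 2 = qn s X := by
      rw [qn_parseval h hX]
      apply Finset.sum_congr rfl
      intro m _
      rw [div_pow]
      ring_nf
    rw [e5, Finset.sum_const, Finset.card_range, nsmul_eq_mul]
    ring
  refine (Finset.sum_le_sum key).trans (le_of_eq ?_)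
  rw [Finset.sum_const, Finset.card_range, nsmul_eq_mul]
  ring

/-- norm bound for the vector `σ_1^m η` -/
lemma qn_pw_eta (m : ℕ) {B : ℝ}
    (hB : ∀ k ≤ 2 * s, ‖Gm s u 1 m 0 k‖ * ‖qf (u : ℂ) k‖ ^ 2 ≤ B) :
    qn s (pw s u m (eta s u)) ≤ ((2 * s + 1 : ℕ) : ℝ) * B ^ 2 := by
  have hB0 : 0 ≤ B := (mul_nonneg (norm_nonneg _) (by positivity)).trans (hB 0 (by omega))
  rw [qn_parseval h (HW_pw h (HW_eta h) m)]
  have x0 : ∀ j, j ≤ 2 * s → xi s u j (eta s u) = if j = 0 then 1 else 0 := by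
    intro j hj
    split_ifs with hj0
    · subst hj0
      exact HH_eta h
    · exact HH_uu_orth h (k := 0) hj0 hj (by omega)
  have key : ∀ k ∈ range (2 * s + 1), ‖xi s u k (pw s u m (eta s u))‖ ^ 2 / ‖qf (u : ℂ) k‖ ^ 4 ≤
      B ^ 2 := by
    intro k hk
    rw [mem_range] at hk
    have hk' : k ≤ 2 * s := by omega
    have pk := norm_qf_pos h hk'
    rw [div_le_iff₀ (by positivity), xi_pw h (HW_eta h) m hk', Finset.sum_eq_single 0]
    · have n0 : NN (u : ℂ) 0 = 1 := by unfold NN; simp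
      rw [x0 0 (by omega), if_pos rfl, n0, div_one, one_mul, norm_mul, NN_norm]
      have h2 := hB k hk'
      have h3 : (‖Gm s u 1 m 0 k‖ * ‖qf (u : ℂ) k‖ ^ 2) ^ 2 ≤ B ^ 2 :=
        pow_le_pow_left₀ (by positivity) h2 2
      calc (‖Gm s u 1 m 0 k‖ * ‖qf (u : ℂ) k‖ ^ 4) ^ 2
          = (‖Gm s u 1 m 0 k‖ * ‖qf (u : ℂ) k‖ ^ 2) ^ 2 * ‖qf (u : ℂ) k‖ ^ 4 := by ring
        _ ≤ _ := mul_le_mul_of_nonneg_right h3 (by positivity)
    · intro j hj hj0
      rw [mem_range] at hj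
      rw [x0 j (by omega), if_neg hj0]
      ring
    · intro hc
      exact absurd (mem_range.mpr (by omega)) hc
  refine (Finset.sum_le_sum key).trans (le_of_eq ?_)
  rw [Finset.sum_const, Finset.card_range, nsmul_eq_mul]

/-- duality between powers of `σ_1` and of `σ_2^{-1}` -/
lemma HH_pw2 (m : ℕ) (X Y : Arr) :
    HH (2 * s) (pw2 s u m X) Y = HH (2 * s) X (pw s u m Y) := by
  induction m generalizing Y with
  | zero => rfl
  | succ m ih =>
    rw [pw2_succ, HH_L2 (isDag_entry h (2 * s) le_rfl).symm, ih, pw_succ']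

lemma qn_pw2 {X : Arr} (hX : HW s u X) (m : ℕ) {B : ℝ}
    (hB : ∀ k ≤ 2 * s, ∀ j ≤ 2 * s, ‖Gm s u 1 m j k‖ * ‖qf (u : ℂ) k‖ ^ 2 ≤
      B * ‖qf (u : ℂ) j‖ ^ 2) :
    qn s (pw2 s u m X) ≤ (((2 * s + 1 : ℕ) : ℝ) * B) ^ 2 * qn s X := by
  set Y := pw2 s u m X with hYdef
  have hY : HW s u Y := HW_pw2 h hX m
  have hZ : HW s u (pw s u m Y) := HW_pw h hY m
  have e1 : HH (2 * s) Y Y = HH (2 * s) X (pw s u m Y) := HH_pw2 h m X Y
  have e2 := cs_qn h hX hZ rfl
  rw [← e1, (qn_eq h hY).1, Complex.norm_real, Real.norm_of_nonneg (qn_eq h hY).2] at e2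
  have e3 := qn_pw h hY m hB
  set C : ℝ := (((2 * s + 1 : ℕ) : ℝ) * B) ^ 2 with hC
  have e4 : qn s Y ^ 2 ≤ (C * qn s X) * qn s Y := by
    calc qn s Y ^ 2 ≤ qn s X * qn s (pw s u m Y) := e2
      _ ≤ qn s X * (C * qn s Y) := mul_le_mul_of_nonneg_left e3 (qn_eq h hX).2
      _ = _ := by ring
  rcases eq_or_lt_of_le (qn_eq h hY).2 with h0 | h0
  · rw [← h0]
    exact mul_nonneg (sq_nonneg _) (qn_eq h hX).2
  · rw [sq] at e4
    exact le_of_mul_le_mul_right e4 h0

end

end Pool.Agent.Work.MP_b30479_gtS.TB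

end

section

/-!
# The invariant as a sum over chains of matrix entries
-/

namespace Pool.Agent.Work.MP_b30479_gtS.LT

open Finset VOL AX MeasureTheory
open TB

/-- the entry `(2s-u, v)` of the `a`-th power of the matrix of `σ_1`, orthonormal basis -/
noncomputable def KN (s a u v : ℕ) : ℂ :=
  Gm s (tt s) 1 a v (2 * s - u) *
    ((((2 * s + 1 : ℕ) : ℝ) ^ 2 / (fS (2 * s + 1) u ^ 2 * fS (2 * s + 1) v ^ 2) : ℝ) : ℂ)

/-- the same for a twist region with `b ∈ ℤ` crossings -/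
noncomputable def KK (s : ℕ) (b : ℤ) (u v : ℕ) : ℂ :=
  if 0 ≤ b then KN s b.natAbs u v else (starRingEnd ℂ) (KN s b.natAbs u v)

/-! ### the q-binomial theorem -/

section
variable {s : ℕ} {t : ℂ} (h : IsPrimitiveRoot t (2 * s + 1))
include h

lemma qsum_part {m : ℕ} (hm' : m ≤ 2 * s) : ∀ K, K + 1 ≤ m →
    ∑ k ∈ range (K + 1), (-1) ^ k * t ^ (k.choose 2) / (qf t k * qf t (m - k)) =
      (-1) ^ K * t ^ ((K + 1).choose 2) / ((1 - t ^ m) * qf t K * qf t (m - 1 - K)) := by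
  intro K
  induction K with
  | zero =>
    intro hK
    obtain ⟨m, rfl⟩ : ∃ m', m = m' + 1 := ⟨m - 1, by omega⟩
    have n1 := one_sub_pow_ne h (show 0 < m + 1 by omega) hm'
    have n2 := qf_ne_zero h (show m ≤ 2 * s by omega)
    simp only [zero_add, range_one, sum_singleton, pow_zero, one_mul, qf_zero, Nat.sub_zero,
      Nat.add_sub_cancel, qf_succ, mul_one]
    simp [mul_comm]
  | succ K ih =>
    intro hK
    obtain ⟨d, rfl⟩ : ∃ d, m = K + 2 + d := ⟨m - (K + 2), by omega⟩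
    rw [Finset.sum_range_succ, ih (by omega)]
    have n1 := one_sub_pow_ne h (show 0 < K + 2 + d by omega) hm'
    have n2 := qf_ne_zero h (show K ≤ 2 * s by omega)
    have n3 := qf_ne_zero h (show d ≤ 2 * s by omega)
    have n4 := one_sub_pow_ne h (show 0 < K + 1 by omega) (by omega)
    have n5 := one_sub_pow_ne h (show 0 < d + 1 by omega) (by omega)
    rw [show K + 2 + d - 1 - K = d + 1 by omega, show K + 2 + d - (K + 1) = d + 1 by omega,
      show K + 2 + d - 1 - (K + 1) = d by omega, qf_succ t K, qf_succ t d,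
      Nat.choose_succ_succ' (K + 1) 1, Nat.choose_one_right, pow_add t (K + 1), pow_succ (-1 : ℂ) K]
    have e1 : t ^ (K + 2 + d) = t ^ (K + 1) * t ^ (d + 1) := by rw [← pow_add]; congr 1; omega
    rw [e1] at n1 ⊢
    field_simp
    ring

lemma qsum {m : ℕ} (hm : m ≤ 2 * s) :
    ∑ k ∈ range (m + 1), (-1) ^ k * t ^ (k.choose 2) / (qf t k * qf t (m - k)) =
      if m = 0 then 1 else 0 := by
  rcases Nat.eq_zero_or_pos m with rfl | h0
  · simp
  · rw [if_neg (by omega), Finset.sum_range_succ]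
    obtain ⟨m, rfl⟩ : ∃ m', m = m' + 1 := ⟨m - 1, by omega⟩
    rw [qsum_part h hm m le_rfl]
    have n1 := one_sub_pow_ne h (show 0 < m + 1 by omega) hm
    have n2 := qf_ne_zero h (show m ≤ 2 * s by omega)
    rw [Nat.add_sub_cancel, Nat.sub_self, Nat.sub_self, qf_zero, qf_succ, pow_succ (-1 : ℂ)]
    field_simp
    ring

lemma qsum_refl {m : ℕ} (hm : m ≤ 2 * s) :
    ∑ k ∈ range (m + 1), (-1) ^ (m - k) * t ^ ((m - k).choose 2) / (qf t k * qf t (m - k)) =
      if m = 0 then 1 else 0 := by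
  rw [← qsum h hm, ← Finset.sum_range_reflect]
  apply Finset.sum_congr rfl
  intro k hk
  rw [mem_range] at hk
  rw [show m + 1 - 1 - k = m - k by omega, show m - (m - k) = k by omega, mul_comm (qf t k)]

end

/-! ### the two braidings are inverse to each other -/

section
variable {s : ℕ} {u : ℂˣ} (h : IsPrimitiveRoot (u : ℂ) (2 * s + 1))
include h

lemma entry_mul {i j a b : ℕ} (hij : i + j = a + b) (hab : a + b ≤ 2 * s) :
    ∑ q ∈ AD (a + b), entry s u true q.1 q.2 a b * entry s u false i j q.1 q.2 =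
      if i = a then 1 else 0 := by
  have h0 : (u : ℂ) ≠ 0 := u.ne_zero
  have hinv : IsPrimitiveRoot (u : ℂ)⁻¹ (2 * s + 1) := h.inv
  rcases Nat.lt_or_ge a i with hlt | hge
  · rw [if_neg (by omega)]
    apply Finset.sum_eq_zero
    intro q hq
    rw [mem_AD] at hq
    rcases Nat.lt_or_ge q.2 i with h1 | h1
    · rw [entry_false_zero _ _ _ _ _ _ h1, mul_zero]
    · rw [entry_true_zero _ _ _ _ _ _ (by omega), zero_mul]
  · obtain ⟨m, rfl⟩ : ∃ m, a = i + m := ⟨a - i, by omega⟩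
    have hj : j = b + m := by omega
    subst hj
    have hm : m ≤ 2 * s := by omega
    have h1 : ∑ q ∈ AD (i + m + b), entry s u true q.1 q.2 (i + m) b *
        entry s u false i (b + m) q.1 q.2 =
        ∑ k ∈ range (m + 1), entry s u true (b + m - k) (i + k) (i + m) b *
        entry s u false i (b + m) (b + m - k) (i + k) := by
      symm
      refine Finset.sum_of_injOn (fun k => (b + m - k, i + k)) ?_ ?_ ?_ ?_
      · intro x _ y _ hxy
        simp only [Prod.mk.injEq] at hxy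
        omega
      · intro k hk
        rw [Finset.mem_coe, mem_range] at hk
        rw [Finset.mem_coe, mem_AD]
        simp only
        omega
      · rintro ⟨q1, q2⟩ hq hn
        rw [mem_AD] at hq
        simp only at hq
        rcases Nat.lt_or_ge q2 i with h1 | h1
        · rw [entry_false_zero _ _ _ _ _ _ h1, mul_zero]
        · rcases Nat.lt_or_ge (i + m) q2 with h2 | h2
          · rw [entry_true_zero _ _ _ _ _ _ h2, zero_mul]
          · exfalso
            apply hn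
            simp only [Finset.coe_range, Set.mem_image, Set.mem_Iio, Prod.mk.injEq]
            exact ⟨q2 - i, by omega, by omega, by omega⟩
      · intro k _
        rfl
    rw [h1]
    have h2 : ∀ k ∈ range (m + 1), entry s u true (b + m - k) (i + k) (i + m) b *
        entry s u false i (b + m) (b + m - k) (i + k) =
        ((u : ℂ) ^ (-(s : ℤ) * m - ((s : ℤ) - i) * ((s : ℤ) - (b + m : ℕ)) +
          ((s : ℤ) - b) * ((s : ℤ) - i - m)) *
        (qf (u : ℂ)⁻¹ (b + m) * qf (u : ℂ) (i + m) / (qf (u : ℂ)⁻¹ b * qf (u : ℂ) i))) *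
        ((-1) ^ (m - k) * (u : ℂ) ^ ((m - k).choose 2) / (qf (u : ℂ) k * qf (u : ℂ) (m - k))) := by
      intro k hk
      rw [mem_range] at hk
      obtain ⟨l, rfl⟩ : ∃ l, m = k + l := ⟨m - k, by omega⟩
      rw [show b + (k + l) - k = b + l by omega, show k + l - k = l by omega,
        show i + (k + l) = i + k + l by ring,
        entry_true s u (b + l) (i + k) l b rfl,
        entry_false s u i (b + (k + l)) k (b + l) (by ring),
        coeffPos_closed h (by omega) (by omega) (by omega),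
        coeffNeg_closed h (by omega) (by omega) (by omega),
        show b + l - l = b by omega, show b + (k + l) - k = b + l by omega]
      have n1 : qf (u : ℂ)⁻¹ b ≠ 0 := qf_ne_zero hinv (by omega)
      have n2 : qf (u : ℂ)⁻¹ (b + l) ≠ 0 := qf_ne_zero hinv (by omega)
      have n3 : qf (u : ℂ) l ≠ 0 := qf_ne_zero h (by omega)
      have n4 : qf (u : ℂ) k ≠ 0 := qf_ne_zero h (by omega)
      have n5 : qf (u : ℂ) (i + k) ≠ 0 := qf_ne_zero h (by omega)
      have n6 : qf (u : ℂ) i ≠ 0 := qf_ne_zero h (by omega)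
      have e1 : (u : ℂ) ^ ((l.choose 2 : ℤ) - s * l + ((s : ℤ) - ((b + l : ℕ) : ℤ) + l) *
          ((s : ℤ) - ((i + k : ℕ) : ℤ) - l)) *
          (u : ℂ) ^ (-(s : ℤ) * k - ((s : ℤ) - i) * ((s : ℤ) - ((b + (k + l) : ℕ) : ℤ))) =
          (u : ℂ) ^ (-(s : ℤ) * ((k + l : ℕ) : ℤ) - ((s : ℤ) - i) *
            ((s : ℤ) - ((b + (k + l) : ℕ) : ℤ)) +
          ((s : ℤ) - b) * ((s : ℤ) - i - ((k + l : ℕ) : ℤ))) * (u : ℂ) ^ (l.choose 2) := by
        rw [← zpow_natCast (u : ℂ) (l.choose 2), ← zpow_add₀ h0, ← zpow_add₀ h0]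
        congr 1
        push_cast
        ring
      generalize qf (u : ℂ)⁻¹ b = B1 at *
      generalize qf (u : ℂ)⁻¹ (b + l) = B2 at *
      generalize qf (u : ℂ)⁻¹ (b + (k + l)) = B3 at *
      calc _ = ((u : ℂ) ^ ((l.choose 2 : ℤ) - s * l + ((s : ℤ) - ((b + l : ℕ) : ℤ) + l) *
          ((s : ℤ) - ((i + k : ℕ) : ℤ) - l)) *
          (u : ℂ) ^ (-(s : ℤ) * k - ((s : ℤ) - i) * ((s : ℤ) - ((b + (k + l) : ℕ) : ℤ)))) *
          ((-1) ^ l * (B2 * qf (u : ℂ) (i + k + l) / (B1 * qf (u : ℂ) l * qf (u : ℂ) (i + k)) *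
          (B3 * qf (u : ℂ) (i + k) / (B2 * qf (u : ℂ) k * qf (u : ℂ) i)))) := by ring
        _ = _ := by
          rw [e1]
          field_simp
    rw [Finset.sum_congr rfl h2, ← Finset.mul_sum, qsum_refl h hm]
    rcases Nat.eq_zero_or_pos m with rfl | hpos
    · rw [if_pos rfl, if_pos (by omega)]
      have n1 : qf (u : ℂ)⁻¹ b ≠ 0 := qf_ne_zero hinv (by omega)
      have n6 : qf (u : ℂ) i ≠ 0 := qf_ne_zero h (by omega)
      have e0 : (-(s : ℤ) * ((0 : ℕ) : ℤ) - ((s : ℤ) - i) * ((s : ℤ) - (b + 0 : ℕ)) +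
          ((s : ℤ) - b) * ((s : ℤ) - i - ((0 : ℕ) : ℤ))) = 0 := by
        push_cast
        ring
      rw [e0, zpow_zero, Nat.add_zero, Nat.add_zero]
      generalize qf (u : ℂ)⁻¹ b = B1 at *
      field_simp
    · rw [if_neg (by omega), if_neg (by omega), mul_zero]

lemma M_inv (Z : ℕ → ℕ → ℂ) {a b : ℕ} (hab : a + b ≤ 2 * s) :
    TB.M (entry s u true) (TB.M (entry s u false) Z) a b = Z a b := by
  unfold TB.M
  have e1 : ∀ q ∈ AD (a + b), entry s u true q.1 q.2 a b *
      ∑ p ∈ AD (q.1 + q.2), entry s u false p.1 p.2 q.1 q.2 * Z p.1 p.2 =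
      ∑ p ∈ AD (a + b), entry s u true q.1 q.2 a b * entry s u false p.1 p.2 q.1 q.2 *
        Z p.1 p.2 := by
    intro q hq
    rw [mem_AD] at hq
    rw [hq, Finset.mul_sum]
    apply Finset.sum_congr rfl
    intro p _
    ring
  rw [Finset.sum_congr rfl e1, Finset.sum_comm]
  have e2 : ∀ p ∈ AD (a + b), ∑ q ∈ AD (a + b), entry s u true q.1 q.2 a b *
      entry s u false p.1 p.2 q.1 q.2 * Z p.1 p.2 = if p = (a, b) then Z a b else 0 := by
    intro p hp
    rw [mem_AD] at hp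
    rw [← Finset.sum_mul, entry_mul h hp hab]
    by_cases hpa : p.1 = a
    · have hpb : p.2 = b := by omega
      rw [if_pos hpa, if_pos (Prod.ext hpa hpb), one_mul, hpa, hpb]
    · rw [if_neg hpa, if_neg (fun hc => hpa (by rw [hc])), zero_mul]
  rw [Finset.sum_congr rfl e2, Finset.sum_ite_eq']
  exact if_pos (mem_AD.mpr rfl)

end

/-! ### the matrix of the braiding -/

/-- `|(t; t)_k|²` -/
noncomputable def qq (s k : ℕ) : ℂ := ((‖qf (tt s) k‖ ^ 2 : ℝ) : ℂ)

lemma qq_ne {s k : ℕ} (hk : k ≤ 2 * s) : qq s k ≠ 0 := by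
  unfold qq
  have := norm_qf_pos (tt_prim s) hk
  exact_mod_cast (by positivity : (0 : ℝ) < _).ne'

lemma qq_zero (s : ℕ) : qq s 0 = 1 := by
  unfold qq
  simp

lemma star_qq (s k : ℕ) : star (qq s k) = qq s k := Complex.conj_ofReal _

lemma NN_qq (s k : ℕ) : NN (tt s) k = qq s k ^ 2 := by
  unfold NN qq
  push_cast
  ring

lemma qq_fS {s k : ℕ} (hk : k ≤ 2 * s) : qq s k = ((fS (2 * s + 1) k ^ 2 : ℝ) : ℂ) := by
  unfold qq
  rw [DT.norm_qf_fS hk]

/-- matrix of `σ_1` in the orthonormal basis -/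
noncomputable def AA (s : ℕ) : Matrix (Fin (2 * s + 1)) (Fin (2 * s + 1)) ℂ := fun k j =>
  gz s (tt s) 1 j k * (qq s k / qq s j)

lemma AA_pow (s a : ℕ) (k j : Fin (2 * s + 1)) :
    (AA s ^ a) k j = Gm s (tt s) 1 a j k * (qq s k / qq s j) := by
  induction a generalizing k with
  | zero =>
    rw [pow_zero, Matrix.one_apply]
    unfold Gm
    by_cases hjk : k = j
    · subst hjk
      rw [if_pos rfl, if_pos rfl, div_self (qq_ne (by have := k.isLt; omega)), mul_one]
    · rw [if_neg hjk, if_neg (fun hc => hjk (Fin.ext hc.symm)), zero_mul]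
  | succ a ih =>
    have hk := k.isLt
    rw [pow_succ', Matrix.mul_apply]
    have e1 : ∀ l : Fin (2 * s + 1), AA s k l * (AA s ^ a) l j =
        Gm s (tt s) 1 a j l * gz s (tt s) 1 l k * (qq s k / qq s j) := by
      intro l
      have nl := qq_ne (s := s) (k := l) (by have := l.isLt; omega)
      rw [ih]
      unfold AA
      field_simp
    rw [Finset.sum_congr rfl fun l _ => e1 l, ← Finset.sum_mul]
    congr 1
    rw [Fin.sum_univ_eq_sum_range (fun l => Gm s (tt s) 1 a j l * gz s (tt s) 1 l k)]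
    have e2 : Gm s (tt s) 1 (a + 1) j k = ∑ l ∈ range ((k : ℕ) + 1), Gm s (tt s) 1 a j l *
      gz s (tt s) 1 l k := rfl
    rw [e2]
    symm
    apply Finset.sum_subset
    · intro x hx
      rw [mem_range] at hx ⊢
      omega
    · intro x _ hx
      rw [mem_range] at hx
      rw [gz_lt (by omega), mul_zero]

lemma gz_conj {s j k : ℕ} (hk : k ≤ 2 * s) :
    ∑ l ∈ range (2 * s + 1), gz s (tt s) 1 j l * star (gz s (tt s) 1 l k) =
      if j = k then 1 else 0 := by
  have h := tt_prim s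
  have hinv : IsPrimitiveRoot (tt s)⁻¹ (2 * s + 1) := h.inv
  have h0 : tt s ≠ 0 := h.ne_zero (by omega)
  rcases Nat.lt_or_ge k j with hlt | hge
  · rw [if_neg (by omega)]
    apply Finset.sum_eq_zero
    intro l _
    rcases Nat.lt_or_ge l j with h1 | h1
    · rw [gz_lt h1, zero_mul]
    · rw [gz_lt (show k < l by omega), star_zero, mul_zero]
  · obtain ⟨m, rfl⟩ : ∃ m, k = j + m := ⟨k - j, by omega⟩
    have h1 : ∑ l ∈ range (2 * s + 1), gz s (tt s) 1 j l * star (gz s (tt s) 1 l (j + m)) =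
        ∑ r ∈ range (m + 1), gz s (tt s) 1 j (j + r) * star (gz s (tt s) 1 (j + r) (j + m)) := by
      symm
      refine Finset.sum_of_injOn (fun r => j + r) ?_ ?_ ?_ ?_
      · intro x _ y _ hxy
        simpa using hxy
      · intro r hr
        rw [Finset.mem_coe, mem_range] at hr ⊢
        simp only
        omega
      · intro l hl hn
        rcases Nat.lt_or_ge l j with h1 | h1
        · rw [gz_lt h1, zero_mul]
        · rcases Nat.lt_or_ge (j + m) l with h2 | h2
          · rw [gz_lt h2, star_zero, mul_zero]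
          · exfalso
            apply hn
            simp only [Finset.coe_range, Set.mem_image, Set.mem_Iio]
            exact ⟨l - j, by omega, by omega⟩
      · intro r _
        rfl
    rw [h1]
    have h2 : ∀ r ∈ range (m + 1), gz s (tt s) 1 j (j + r) *
        star (gz s (tt s) 1 (j + r) (j + m)) =
        ((tt s ^ s)⁻¹ ^ m * (qf (tt s) j / qf (tt s) (j + m))) *
        ((-1) ^ (m - r) * tt s ^ ((m - r).choose 2) / (qf (tt s) r * qf (tt s) (m - r))) := by
      intro r hr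
      rw [mem_range] at hr
      obtain ⟨d, rfl⟩ : ∃ d, m = r + d := ⟨m - r, by omega⟩
      rw [show r + d - r = d by omega, show j + (r + d) = j + r + d by ring]
      set l := j + r with hl
      have p1 : pz (tt s) 1 j l = qf (tt s) l / qf (tt s) j := TB.pz_one h (by omega) (by omega)
      have p2 : pz (tt s) 1 l (l + d) = qf (tt s) (l + d) / qf (tt s) l :=
        TB.pz_one h (by omega) (by omega)
      have q1 : ∀ x, star (qf (tt s) x) = (-1) ^ x * qf (tt s) x / tt s ^ ((x + 1).choose 2) := by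
        intro x
        rw [star_qf h, eq_div_iff (pow_ne_zero _ h0), qf_inv h]
      have n1 : qf (tt s) j ≠ 0 := qf_ne_zero h (by omega)
      have n2 : qf (tt s) l ≠ 0 := qf_ne_zero h (by omega)
      have n3 : qf (tt s) (l + d) ≠ 0 := qf_ne_zero h (by omega)
      have n4 : qf (tt s) r ≠ 0 := qf_ne_zero h (by omega)
      have n5 : qf (tt s) d ≠ 0 := qf_ne_zero h (by omega)
      have g1 : gz s (tt s) 1 j l = tt s ^ (s * s) * (-1) ^ l * (tt s ^ s) ^ (l + j) *
          (tt s ^ ((l + 1).choose 2) * tt s ^ l) * qf (tt s) j / (qf (tt s) l * qf (tt s) r) := by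
        unfold gz
        rw [if_pos (by omega), p1, show l - j = r by omega, one_pow, mul_one, pow_add (tt s) _ l]
        field_simp
      have g2 : star (gz s (tt s) 1 l (l + d)) = (tt s ^ (s * s))⁻¹ * (-1) ^ d *
          (tt s ^ s)⁻¹ ^ (l + d + l) * (-1) ^ l *
          tt s ^ ((d + 1).choose 2) / (tt s ^ ((l + 1).choose 2) * tt s ^ (l + d)) *
          (qf (tt s) l / (qf (tt s) (l + d) * qf (tt s) d)) := by
        unfold gz
        rw [if_pos (by omega), p2, show l + d - l = d by omega, one_pow, mul_one,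
          pow_add (tt s) _ (l + d)]
        simp only [star_div₀, star_mul', star_pow, star_neg, star_one, q1, star_root h]
        have hs1 : ∀ x : ℕ, ((-1 : ℂ)) ^ x * (-1) ^ x = 1 := fun x => by rw [← mul_pow]; simp
        have e1 := hs1 l
        have e2 := hs1 d
        have m1 : ((-1 : ℂ)) ^ l ≠ 0 := pow_ne_zero _ (by norm_num)
        have m2 : ((-1 : ℂ)) ^ d ≠ 0 := pow_ne_zero _ (by norm_num)
        rw [pow_add (-1 : ℂ) l d]
        simp only [inv_pow]
        generalize ((-1 : ℂ)) ^ l = el at *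
        generalize ((-1 : ℂ)) ^ d = ed at *
        have k1 : tt s ^ (l + d + 1).choose 2 ≠ 0 := pow_ne_zero _ h0
        have k2 : tt s ^ (l + 1).choose 2 ≠ 0 := pow_ne_zero _ h0
        have k3 : tt s ^ (d + 1).choose 2 ≠ 0 := pow_ne_zero _ h0
        generalize tt s ^ (l + d + 1).choose 2 = K1 at *
        generalize tt s ^ (l + 1).choose 2 = K2 at *
        generalize tt s ^ (d + 1).choose 2 = K3 at *
        have k4 : tt s ^ (l + d) ≠ 0 := pow_ne_zero _ h0
        have k5 : (tt s ^ s) ^ (l + d + l) ≠ 0 := pow_ne_zero _ (pow_ne_zero _ h0)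
        have k6 : tt s ^ (s * s) ≠ 0 := pow_ne_zero _ h0
        generalize tt s ^ (l + d) = K4 at *
        generalize (tt s ^ s) ^ (l + d + l) = K5 at *
        generalize tt s ^ (s * s) = K6 at *
        field_simp
        have e4 : ed ^ 2 = 1 := by rw [sq]; exact e2
        linear_combination (-1 : ℂ) * e4
      have hs1 : ((-1 : ℂ)) ^ l * (-1) ^ l = 1 := by rw [← mul_pow]; simp
      have t1 : tt s ^ ((d + 1).choose 2) = tt s ^ d * tt s ^ (d.choose 2) := by
        rw [Nat.choose_succ_succ' d 1, Nat.choose_one_right, pow_add]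
      have t2 : (tt s ^ s) ^ (l + j) * (tt s ^ s)⁻¹ ^ (l + d + l) = (tt s ^ s)⁻¹ ^ (r + d) := by
        rw [show l + d + l = (l + j) + (r + d) by omega, pow_add (tt s ^ s)⁻¹, ← mul_assoc,
          ← mul_pow, mul_inv_cancel₀ (pow_ne_zero _ h0), one_pow, one_mul]
      rw [g1, g2, t1, pow_add (tt s) l d]
      have k1 : tt s ^ (l + 1).choose 2 ≠ 0 := pow_ne_zero _ h0
      have k2 : tt s ^ l ≠ 0 := pow_ne_zero _ h0
      have k3 : tt s ^ d ≠ 0 := pow_ne_zero _ h0
      have k4 : tt s ^ (s * s) ≠ 0 := pow_ne_zero _ h0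
      rw [← t2]
      generalize (tt s ^ s) ^ (l + j) = K6
      generalize (tt s ^ s)⁻¹ ^ (l + d + l) = K7
      generalize ((-1 : ℂ)) ^ l = el at *
      generalize tt s ^ (l + 1).choose 2 = K1 at *
      generalize tt s ^ l = K2 at *
      generalize tt s ^ d = K3 at *
      generalize tt s ^ (s * s) = K4 at *
      calc _ = (el * el) * (K4 * K6 * (K1 * K2) * qf (tt s) j / (qf (tt s) l * qf (tt s) r) *
            (K4⁻¹ * (-1) ^ d * K7 * (K3 * tt s ^ d.choose 2) / (K1 * (K2 * K3)) *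
              (qf (tt s) l / (qf (tt s) (l + d) * qf (tt s) d)))) := by ring
        _ = _ := by
          rw [hs1, one_mul]
          field_simp
    rw [Finset.sum_congr rfl h2, ← Finset.mul_sum, qsum_refl h (by omega)]
    rcases Nat.eq_zero_or_pos m with rfl | hpos
    · rw [if_pos rfl, if_pos (by omega)]
      have n1 : qf (tt s) j ≠ 0 := qf_ne_zero h (by omega)
      rw [Nat.add_zero, pow_zero, one_mul, mul_one, div_self n1]
    · rw [if_neg (by omega), if_neg (by omega), mul_zero]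

/-- the complex conjugate of `AA` -/
noncomputable def AC (s : ℕ) : Matrix (Fin (2 * s + 1)) (Fin (2 * s + 1)) ℂ := (AA s).map star

lemma AC_mul (s : ℕ) : AC s * AA s = 1 := by
  ext k j
  have hk := k.isLt
  have hj := j.isLt
  rw [Matrix.mul_apply, Matrix.one_apply]
  have e1 : ∀ l : Fin (2 * s + 1), AC s k l * AA s l j =
      gz s (tt s) 1 j l * star (gz s (tt s) 1 l k) * (qq s k / qq s j) := by
    intro l
    have nl := qq_ne (s := s) (k := l) (by have := l.isLt; omega)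
    unfold AC AA
    rw [Matrix.map_apply, star_mul', star_div₀, star_qq, star_qq]
    field_simp
  rw [Finset.sum_congr rfl fun l _ => e1 l, ← Finset.sum_mul,
    Fin.sum_univ_eq_sum_range (fun l => gz s (tt s) 1 j l * star (gz s (tt s) 1 l k)),
    gz_conj (by omega)]
  by_cases hjk : k = j
  · subst hjk
    rw [if_pos rfl, if_pos rfl, div_self (qq_ne (by omega)), mul_one]
  · rw [if_neg hjk, if_neg (fun hc => hjk (Fin.ext hc.symm)), zero_mul]

lemma mul_AC (s : ℕ) : AA s * AC s = 1 := mul_eq_one_comm.mp (AC_mul s)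

/-- the matrix of a letter -/
noncomputable def rep (s : ℕ) (g : Fin 2 × Bool) : Matrix (Fin (2 * s + 1)) (Fin (2 * s + 1)) ℂ :=
  if g.1 = 0 then (if g.2 then AA s else AC s)
  else (if g.2 then (AA s).transpose else (AC s).transpose)

/-- coordinates -/
noncomputable def crd (s : ℕ) (X : Arr) : Fin (2 * s + 1) → ℂ := fun k =>
  xi s (tt s) k X / qq s k

section
variable {s : ℕ} {u : ℂˣ} (hu : (u : ℂ) = tt s)
include hu

lemma al_AA {k j : ℕ} (hk : k < 2 * s + 1) (hj : j < 2 * s + 1) :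
    AA s ⟨k, hk⟩ ⟨j, hj⟩ = al s u k j / (qq s k * qq s j) := by
  have h : IsPrimitiveRoot (u : ℂ) (2 * s + 1) := by rw [hu]; exact tt_prim s
  have n1 := qq_ne (s := s) (k := k) (by omega)
  have n2 := qq_ne (s := s) (k := j) (by omega)
  have e1 := gz_one h (j := j) (k := k) (by omega)
  rw [← e1, hu, NN_qq]
  unfold AA
  simp only
  field_simp

lemma crd_zero_true {X : Arr} (hX : HW s u X) :
    crd s (L1 (entry s u true) X) = (AA s).mulVec (crd s X) := by
  have h : IsPrimitiveRoot (u : ℂ) (2 * s + 1) := by rw [hu]; exact tt_prim s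
  funext k
  have hk := k.isLt
  have n1 := qq_ne (s := s) (k := k) (by omega)
  show xi s (tt s) k (L1 (entry s u true) X) / qq s k =
    ∑ m, AA s k m * (xi s (tt s) m X / qq s m)
  rw [← hu, xi_L1 h hX, Finset.sum_div,
    ← Fin.sum_univ_eq_sum_range (fun m => al s u k m * xi s u m X / NN u m / qq s k)]
  apply Finset.sum_congr rfl
  intro m _
  have hm := m.isLt
  have n2 := qq_ne (s := s) (k := m) (by omega)
  have e2 : AA s k m = al s u k m / (qq s k * qq s m) := al_AA hu hk hm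
  rw [e2, hu, NN_qq]
  field_simp

lemma crd_one_false {X : Arr} (hX : HW s u X) :
    crd s (L2 (entry s u false) X) = (AC s).transpose.mulVec (crd s X) := by
  have h : IsPrimitiveRoot (u : ℂ) (2 * s + 1) := by rw [hu]; exact tt_prim s
  funext k
  have hk := k.isLt
  have n1 := qq_ne (s := s) (k := k) (by omega)
  show xi s (tt s) k (L2 (entry s u false) X) / qq s k =
    ∑ m, (AC s).transpose k m * (xi s (tt s) m X / qq s m)
  rw [← hu, xi_L2 h hX, Finset.sum_div,
    ← Fin.sum_univ_eq_sum_range (fun m => star (al s u m k) * xi s u m X / NN u m / qq s k)]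
  apply Finset.sum_congr rfl
  intro m _
  have hm := m.isLt
  have n2 := qq_ne (s := s) (k := m) (by omega)
  have e2 : AA s m k = al s u m k / (qq s m * qq s k) := al_AA hu hm hk
  rw [Matrix.transpose_apply]
  unfold AC
  rw [Matrix.map_apply, e2, star_div₀, star_mul', star_qq, star_qq, hu, NN_qq]
  field_simp

omit hu in
lemma crd_congr {X Y : Arr} (hXY : ∀ i j k, i + j + k = 2 * s → X i j k = Y i j k) :
    crd s X = crd s Y := by
  funext k
  unfold crd xi
  rw [HH_congr (fun _ _ _ _ => rfl) hXY]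

lemma crd_zero_false {X : Arr} (hX : HW s u X) :
    crd s (L1 (entry s u false) X) = (AC s).mulVec (crd s X) := by
  have h : IsPrimitiveRoot (u : ℂ) (2 * s + 1) := by rw [hu]; exact tt_prim s
  have hY : HW s u (L1 (entry s u false) X) := HW_L1 (commC_false h) hX
  have e1 := crd_zero_true hu hY
  have e2 : crd s (L1 (entry s u true) (L1 (entry s u false) X)) = crd s X := by
    apply crd_congr
    intro i j k hijk
    exact M_inv h (fun a b => X a b k) (by omega)
  rw [← e2, e1, Matrix.mulVec_mulVec, AC_mul, Matrix.one_mulVec]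

omit hu in
lemma uu_crd {k j : ℕ} (hk : k ≤ 2 * s) (hj : j ≤ 2 * s) :
    xi s (tt s) j (uu s (tt s) k) = if j = k then qq s k ^ 2 else 0 := by
  have h := tt_prim s
  split_ifs with hjk
  · subst hjk
    rw [← NN_qq]
    exact HH_uu_self' h hj
  · exact HH_uu_orth h hjk hj hk

lemma crd_one_true {X : Arr} (hX : HW s u X) :
    crd s (L2 (entry s u true) X) = (AA s).transpose.mulVec (crd s X) := by
  have h : IsPrimitiveRoot (u : ℂ) (2 * s + 1) := by rw [hu]; exact tt_prim s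
  funext k
  have hk := k.isLt
  have n1 := qq_ne (s := s) (k := k) (by omega)
  have hU : HW s u (uu s u k) := HW_uu h k
  have hY : HW s u (L1 (entry s u false) (uu s u k)) := HW_L1 (commC_false h) hU
  have e1 := crd_zero_false hu hU
  show xi s (tt s) k (L2 (entry s u true) X) / qq s k =
    ∑ m, (AA s).transpose k m * (xi s (tt s) m X / qq s m)
  have e2 : xi s (tt s) k (L2 (entry s u true) X) =
      ∑ m ∈ range (2 * s + 1), star (xi s u m (L1 (entry s u false) (uu s u k))) *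
        xi s u m X / NN u m := by
    rw [← parseval h hX, ← hu, HH_L1 (isDag_entry h (2 * s) le_rfl).symm]
    rfl
  rw [e2, Finset.sum_div, ← Fin.sum_univ_eq_sum_range
    (fun m => star (xi s u m (L1 (entry s u false) (uu s u k))) * xi s u m X / NN u m / qq s k)]
  apply Finset.sum_congr rfl
  intro m _
  have hm := m.isLt
  have n2 := qq_ne (s := s) (k := m) (by omega)
  have e3 : xi s (tt s) m (L1 (entry s u false) (uu s u k)) / qq s m =
    ∑ j, AC s m j * (xi s (tt s) j (uu s u k) / qq s j) := congrFun e1 m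
  rw [Finset.sum_eq_single k, hu, uu_crd (by omega) (by omega), if_pos rfl,
    div_eq_iff n2] at e3
  · rw [hu, e3, Matrix.transpose_apply, NN_qq]
    unfold AC
    rw [Matrix.map_apply, star_mul', star_mul', star_star, star_div₀, star_pow, star_qq, star_qq]
    field_simp
  · intro j _ hj
    have hjl := j.isLt
    rw [hu, uu_crd (by omega) (by omega), if_neg (fun hc => hj (Fin.ext hc))]
    simp
  · intro hc
    exact absurd (Finset.mem_univ _) hc

lemma crd_op {X : Arr} (hX : HW s u X) (g : Fin 2 × Bool) :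
    HW s u (op s u g X) ∧ crd s (op s u g X) = (rep s g).mulVec (crd s X) := by
  have h : IsPrimitiveRoot (u : ℂ) (2 * s + 1) := by rw [hu]; exact tt_prim s
  obtain ⟨i, c⟩ := g
  have hi : i = 0 ∨ i = 1 := by omega
  rcases hi with rfl | rfl
  · cases c
    · exact ⟨HW_L1 (commC_false h) hX, crd_zero_false hu hX⟩
    · exact ⟨HW_L1 (commC_true h) hX, crd_zero_true hu hX⟩
  · cases c
    · exact ⟨HW_L2 u.ne_zero (commC_false h) hX, crd_one_false hu hX⟩
    · exact ⟨HW_L2 u.ne_zero (commC_true h) hX, crd_one_true hu hX⟩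

lemma crd_opL (w : List (Fin 2 × Bool)) :
    HW s u (opL s u w (eta s u)) ∧
      crd s (opL s u w (eta s u)) = ((w.map (rep s)).prod).mulVec (Pi.single 0 1) := by
  have h : IsPrimitiveRoot (u : ℂ) (2 * s + 1) := by rw [hu]; exact tt_prim s
  induction w with
  | nil =>
    refine ⟨HW_eta h, ?_⟩
    rw [List.map_nil, List.prod_nil, Matrix.one_mulVec, opL_nil]
    funext k
    have hk := k.isLt
    have e1 : xi s (tt s) k (eta s u) = if (k : ℕ) = 0 then qq s 0 ^ 2 else 0 := by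
      rw [← uu_crd (k := 0) (j := k) (by omega) (by omega), hu]
      rfl
    unfold crd
    rw [e1]
    by_cases hk0 : k = 0
    · subst hk0
      simp [qq_zero]
    · have hk1 : (k : ℕ) ≠ 0 := fun hc => hk0 (Fin.ext hc)
      rw [if_neg hk1, zero_div, Pi.single_eq_of_ne hk0]
  | cons g w ih =>
    have e1 := crd_op hu ih.1 g
    rw [opL_cons]
    refine ⟨e1.1, ?_⟩
    rw [e1.2, ih.2, Matrix.mulVec_mulVec, List.map_cons, List.prod_cons]

theorem tangle_rep (w : List (Fin 2 × Bool)) :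
    tangleValue s w u = (w.map (rep s)).prod 0 0 := by
  have h : IsPrimitiveRoot (u : ℂ) (2 * s + 1) := by rw [hu]; exact tt_prim s
  rw [tangleValue_eq h]
  have e1 := congrFun (crd_opL hu w).2 0
  have e2 : crd s (opL s u w (eta s u)) 0 = HH (2 * s) (eta s u) (opL s u w (eta s u)) := by
    unfold crd xi
    rw [show ((0 : Fin (2 * s + 1)) : ℕ) = 0 from rfl, qq_zero, div_one, ← hu]
    rfl
  rw [← e2, e1, Matrix.mulVec_single_one]
  rfl

end

/-! ### blocks -/

/-- the matrix of `σ_1 ^ b` -/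
noncomputable def Pb (s : ℕ) (b : ℤ) : Matrix (Fin (2 * s + 1)) (Fin (2 * s + 1)) ℂ :=
  if 0 ≤ b then AA s ^ b.natAbs else AC s ^ b.natAbs

lemma prod_blk_zero (s : ℕ) (b : ℤ) : ((blk 0 b).map (rep s)).prod = Pb s b := by
  unfold blk Pb rep
  rw [List.map_replicate, List.prod_replicate]
  by_cases hb : 0 ≤ b
  · simp [hb]
  · simp [hb]

lemma prod_blk_one (s : ℕ) (b : ℤ) : ((blk 1 b).map (rep s)).prod = (Pb s b).transpose := by
  unfold blk Pb rep
  rw [List.map_replicate, List.prod_replicate]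
  by_cases hb : 0 ≤ b
  · simp [hb, Matrix.transpose_pow]
  · simp [hb, Matrix.transpose_pow]

lemma Pb_pred (s : ℕ) (b : ℤ) : AA s * Pb s (b - 1) = Pb s b := by
  unfold Pb
  rcases lt_trichotomy b 0 with hb | hb | hb
  · rw [if_neg (by omega), if_neg (by omega), show (b - 1).natAbs = b.natAbs + 1 by omega, pow_succ',
      ← mul_assoc, mul_AC, one_mul]
  · subst hb
    rw [if_neg (by omega), if_pos (by omega)]
    simp [mul_AC]
  · rw [if_pos (by omega), if_pos (by omega), ← pow_succ']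
    congr 1
    omega

lemma AC_pow (s a : ℕ) (k j : Fin (2 * s + 1)) : (AC s ^ a) k j = star ((AA s ^ a) k j) := by
  have e1 : AC s = (starRingEnd ℂ).mapMatrix (AA s) := rfl
  rw [e1, ← map_pow]
  rfl

lemma AA_KN {s a : ℕ} (k j : Fin (2 * s + 1)) : (AA s ^ a) k j = KN s a (2 * s - k) j := by
  have hk := k.isLt
  have hj := j.isLt
  rw [AA_pow, KN, show 2 * s - (2 * s - (k : ℕ)) = k by omega]
  congr 1
  rw [qq_fS (by omega), qq_fS (by omega)]
  have h1 := fS_refl (n := 2 * s + 1) (m := k) (by omega)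
  rw [show 2 * s + 1 - 1 - (k : ℕ) = 2 * s - k by omega] at h1
  have h2 : 0 < fS (2 * s + 1) (2 * s - k) := fS_pos (by omega)
  have h3 : 0 < fS (2 * s + 1) j := fS_pos (by omega)
  rw [← Complex.ofReal_div]
  congr 1
  rw [← h1]
  field_simp

lemma Pb_KK (s : ℕ) (b : ℤ) (k j : Fin (2 * s + 1)) : Pb s b k j = KK s b (2 * s - k) j := by
  unfold Pb KK
  split_ifs
  · exact AA_KN k j
  · rw [AC_pow, AA_KN]
    rfl

lemma KN_symm {s a u v : ℕ} (hu : u ≤ 2 * s) (hv : v ≤ 2 * s) : KN s a u v = KN s a v u := by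
  unfold KN
  rw [VC.Gm_sym hu one_pos, VC.Gm_sym hv one_pos]
  have e1 : VC.KI a s u v = VC.KI a s v u := by
    funext z
    unfold VC.KI
    rw [mul_comm (VC.pY s u z)]
  rw [e1, mul_comm (fS (2 * s + 1) u ^ 2)]

lemma KK_symm {s : ℕ} (b : ℤ) {u v : ℕ} (hu : u ≤ 2 * s) (hv : v ≤ 2 * s) :
    KK s b u v = KK s b v u := by
  unfold KK
  rw [KN_symm hu hv]

lemma last_row (s : ℕ) (j : Fin (2 * s + 1)) : AC s j 0 = AA s (Fin.last (2 * s)) j := by
  have hj := j.isLt
  have n1 : fS (2 * s + 1) j ≠ 0 := (fS_pos (by omega)).ne'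
  have n0 : ((2 * s + 1 : ℕ) : ℂ) ≠ 0 := DT.nn_ne s
  have e1 : AA s j 0 = DT.ee s ((s : ℂ) ^ 2 + s * j + j) := by
    unfold AA
    rw [show ((0 : Fin (2 * s + 1)) : ℕ) = 0 from rfl, qq_zero, VC.gz_first (by omega),
      qq_fS (by omega)]
    push_cast
    have : ((fS (2 * s + 1) j : ℝ) : ℂ) ≠ 0 := by exact_mod_cast n1
    field_simp
  have e2 : AA s (Fin.last (2 * s)) j = DT.ee s (3 * (s : ℂ) ^ 2 + 2 * s + s * j) := by
    unfold AA
    rw [Fin.val_last, VC.gz_final (by omega), qq_fS (k := 2 * s) le_rfl, qq_fS (k := j) (by omega),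
      VC.fS_last]
    push_cast
    have : ((fS (2 * s + 1) j : ℝ) : ℂ) ≠ 0 := by exact_mod_cast n1
    push_cast at n0
    have n2 : (s : ℂ) * 2 + 1 ≠ 0 := by rw [mul_comm]; exact n0
    field_simp
  have e3 : AC s j 0 = star (AA s j 0) := rfl
  rw [e3, e1, e2]
  unfold DT.ee
  rw [Complex.star_def, ← Complex.exp_conj]
  simp only [map_div₀, map_mul, map_add, map_pow, Complex.conj_I, Complex.conj_ofReal, map_natCast,
    map_ofNat]
  rw [Complex.exp_eq_exp_iff_exists_int]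
  refine ⟨-(2 * s + j), ?_⟩
  push_cast at n0 ⊢
  field_simp
  ring

/-! ### the sum over chains -/

/-- the sum over chains, recursively -/
noncomputable def CS (s : ℕ) : List ℤ → ℕ → ℂ
  | [], _ => 0
  | [b], y => KK s b y 0
  | b :: c :: l, y => ∑ y' : Fin (2 * s + 1), KK s b y y' * CS s (c :: l) y'

lemma row (s : ℕ) : ∀ (l : List ℤ), l ≠ [] → ∀ k : Fin (2 * s + 1),
    ((topW 0 l).map (rep s)).prod 0 k = CS s l k ∧
      ((topW 1 l).map (rep s)).prod 0 k = CS s l (2 * s - k)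
  | [], h, _ => absurd rfl h
  | [b], _, k => by
    have hk := k.isLt
    constructor
    · have e1 : topW 0 [b] = ((1 : Fin 2), false) :: blk 0 (b - 1) := rfl
      rw [e1, List.map_cons, List.prod_cons, prod_blk_zero, Matrix.mul_apply]
      have e2 : rep s ((1 : Fin 2), false) = (AC s).transpose := rfl
      have e3 : ∀ j, rep s ((1 : Fin 2), false) 0 j * Pb s (b - 1) j k =
          AA s (Fin.last (2 * s)) j * Pb s (b - 1) j k := by
        intro j
        rw [e2, Matrix.transpose_apply, last_row]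
      rw [Finset.sum_congr rfl fun j _ => e3 j, ← Matrix.mul_apply, Pb_pred, Pb_KK, Fin.val_last,
        Nat.sub_self]
      exact KK_symm b (by omega) (by omega)
    · have e1 : topW 1 [b] = blk 1 b := rfl
      rw [e1, prod_blk_one, Matrix.transpose_apply, Pb_KK]
      rfl
  | b :: c :: l, _, k => by
    have hk := k.isLt
    have ih := row s (c :: l) (List.cons_ne_nil _ _)
    constructor
    · have e1 : topW 0 (b :: c :: l) = topW 1 (c :: l) ++ blk 0 b := rfl
      rw [e1, List.map_append, List.prod_append, prod_blk_zero, Matrix.mul_apply]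
      show _ = ∑ y' : Fin (2 * s + 1), KK s b k y' * CS s (c :: l) y'
      rw [← Equiv.sum_comp Fin.revPerm]
      apply Finset.sum_congr rfl
      intro j _
      have hj := j.isLt
      rw [(ih _).2, Pb_KK, Fin.revPerm_apply, Fin.val_rev, mul_comm,
        show 2 * s - (2 * s + 1 - ((j : ℕ) + 1)) = j by omega, KK_symm b (by omega) (by omega)]
    · have e1 : topW 1 (b :: c :: l) = topW 0 (c :: l) ++ blk 1 b := rfl
      rw [e1, List.map_append, List.prod_append, prod_blk_one, Matrix.mul_apply]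
      show _ = ∑ y' : Fin (2 * s + 1), KK s b (2 * s - k) y' * CS s (c :: l) y'
      apply Finset.sum_congr rfl
      intro j _
      rw [(ih _).1, Matrix.transpose_apply, Pb_KK, mul_comm]

lemma CS_ofFn (s : ℕ) : ∀ (M : ℕ) (b : Fin (M + 1) → ℤ) (y0 : ℕ), CS s (List.ofFn b) y0 =
    ∑ y : Fin M → Fin (2 * s + 1), ∏ i : Fin (M + 1),
      KK s (b i) ((Fin.cons y0 (fun j => (y j : ℕ)) : Fin (M + 1) → ℕ) i)
        ((Fin.snoc (fun j => (y j : ℕ)) 0 : Fin (M + 1) → ℕ) i) := by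
  intro M
  induction M with
  | zero =>
    intro b y0
    rw [Fintype.sum_unique, Fin.prod_univ_one]
    have e1 : List.ofFn b = [b 0] := by simp
    rw [e1]
    rfl
  | succ M ih =>
    intro b y0
    have e1 : List.ofFn b = b 0 :: List.ofFn (fun i => b i.succ) := List.ofFn_succ
    have e2 : List.ofFn (fun i : Fin (M + 1) => b i.succ) =
      b (Fin.succ 0) :: List.ofFn (fun i : Fin M => b i.succ.succ) := List.ofFn_succ
    have e3 : CS s (List.ofFn b) y0 = ∑ y' : Fin (2 * s + 1), KK s (b 0) y0 y' *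
        CS s (List.ofFn (fun i : Fin (M + 1) => b i.succ)) y' := by
      rw [e1, e2]
      rfl
    rw [e3, ← Equiv.sum_comp (Fin.consEquiv fun _ => Fin (2 * s + 1)), Fintype.sum_prod_type]
    apply Finset.sum_congr rfl
    intro y' _
    rw [ih, Finset.mul_sum]
    apply Finset.sum_congr rfl
    intro y _
    have e4 : (fun j => (((Fin.consEquiv fun _ => Fin (2 * s + 1)) (y', y)) j : ℕ)) =
        (Fin.cons (y' : ℕ) (fun j => (y j : ℕ)) : Fin (M + 1) → ℕ) := by
      funext j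
      refine Fin.cases ?_ ?_ j
      · rfl
      · intro i
        rfl
    rw [e4, Fin.prod_univ_succ (n := M + 1)]
    congr 1
    apply Finset.prod_congr rfl
    intro i _
    rw [Fin.cons_succ, ← Fin.cons_snoc_eq_snoc_cons, Fin.cons_succ]

theorem chain {M : ℕ} (b : Fin (M + 1) → ℤ) (δ : ℤ) {s : ℕ} (_hs : 1 ≤ s) :
    twoBridgeKashaev (ltWord (List.ofFn b)) δ (2 * s + 1) =
      Complex.exp (-(2 * Real.pi * Complex.I *
        orientedWrithe (ltWord (List.ofFn b)) ![1, δ, -δ] * (s * (s + 1)) /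
          ((2 * s + 1 : ℕ) : ℂ))) *
      ∑ y : Fin M → Fin (2 * s + 1), ∏ i : Fin (M + 1),
        KK s (b i) ((Fin.cons 0 (fun j => (y j : ℕ)) : Fin (M + 1) → ℕ) i)
          ((Fin.snoc (fun j => (y j : ℕ)) 0 : Fin (M + 1) → ℕ) i) := by
  have e1 : (2 * s + 1 - 1) / 2 = s := by omega
  unfold twoBridgeKashaev
  rw [e1]
  set u : ℂˣ := Units.mk0 (Complex.exp (2 * Real.pi * Complex.I / ((2 * s + 1 : ℕ) : ℂ)))
    (Complex.exp_ne_zero _) with hu0
  have hu : (u : ℂ) = tt s := rfl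
  unfold twoBridgeJones
  congr 1
  · rw [Units.val_zpow_eq_zpow_val, hu]
    unfold tt
    rw [← Complex.exp_int_mul]
    congr 1
    push_cast
    ring
  · rw [tangle_rep hu, ← CS_ofFn]
    exact (row s (List.ofFn b) (by simp) 0).1

end Pool.Agent.Work.MP_b30479_gtS.LT

end

section

/-!
# The exact formula
-/

namespace Pool.Agent.Work.MP_b30479_gtS.LT

open Finset VOL AX MeasureTheory

/-! ### elementary facts on the path -/

private lemma th_nonneg {σ : ℝ} (h : |σ| ≤ 1 / 2) : 0 ≤ th σ := by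
  unfold th
  exact le_min zero_le_one (by linarith only [h])

lemma th_pos {σ : ℝ} (h : |σ| < 1 / 2) : 0 < th σ := by
  unfold th
  exact lt_min zero_lt_one (by linarith only [h])

lemma th_neg (σ : ℝ) : th (-σ) = th σ := by
  unfold th
  rw [abs_neg]

lemma th_half : th (1 / 2) = 0 := by
  unfold th
  norm_num

lemma th_cont : Continuous th := by
  unfold th
  fun_prop

lemma zt_cont (ρ : ℝ) : Continuous (zt ρ) := by
  unfold zt
  have := th_cont
  fun_prop

lemma zt_neg (ρ σ : ℝ) : zt ρ (-σ) = -(starRingEnd ℂ) (zt ρ σ) := by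
  unfold zt
  rw [th_neg]
  simp only [map_add, map_mul, Complex.conj_ofReal, Complex.conj_I]
  push_cast
  ring

lemma th_deriv {σ : ℝ} (h : |σ| ≠ 1 / 4) (h0 : σ ≠ 0) :
    HasDerivAt th (if |σ| < 1 / 4 then 0 else if 0 < σ then -4 else 4) σ := by
  have hab : HasDerivAt (fun x : ℝ => 2 - 4 * |x|) (-(4 * (SignType.sign σ : ℝ))) σ := by
    have := ((hasDerivAt_abs h0).const_mul 4).const_sub 2
    exact this
  rcases lt_or_gt_of_ne h with h1 | h1
  · rw [if_pos h1]
    have h2 : ∀ᶠ x in nhds σ, |x| < 1 / 4 :=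
      (isOpen_lt continuous_abs continuous_const).mem_nhds h1
    refine (hasDerivAt_const σ (1 : ℝ)).congr_of_eventuallyEq ?_
    filter_upwards [h2] with x hx
    unfold th
    rw [min_eq_left (by linarith only [hx])]
  · rw [if_neg (by linarith only [h1])]
    have h2 : ∀ᶠ x in nhds σ, 1 / 4 < |x| :=
      (isOpen_lt continuous_const continuous_abs).mem_nhds h1
    have h3 : HasDerivAt th (-(4 * (SignType.sign σ : ℝ))) σ := by
      refine hab.congr_of_eventuallyEq ?_
      filter_upwards [h2] with x hx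
      unfold th
      rw [min_eq_right (by linarith only [hx])]
    refine h3.congr_deriv ?_
    rcases lt_or_gt_of_ne h0 with h4 | h4
    · rw [if_neg (by linarith only [h4]), sign_neg h4]
      simp
    · rw [if_pos h4, sign_pos h4]
      simp

lemma zt_deriv {ρ σ : ℝ} (h : |σ| ≠ 1 / 4) (h0 : σ ≠ 0) : HasDerivAt (zt ρ) (dzt ρ σ) σ := by
  have h1 := ((th_deriv h h0).const_mul ρ).ofReal_comp
  have h2 := (Complex.ofRealCLM.hasDerivAt (x := σ)).add (h1.mul_const Complex.I)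
  refine h2.congr_deriv ?_
  unfold dzt
  simp

private lemma zt_im (ρ σ : ℝ) : (zt ρ σ).im = ρ * th σ := by
  unfold zt
  simp

private lemma zt_re (ρ σ : ℝ) : (zt ρ σ).re = σ := by
  unfold zt
  simp

lemma dzt_measurable (ρ : ℝ) : Measurable (dzt ρ) := by
  unfold dzt
  have h1 : MeasurableSet {σ : ℝ | |σ| < 1 / 4} :=
    measurableSet_lt (by fun_prop) measurable_const
  have h2 : MeasurableSet {σ : ℝ | 0 < σ} := measurableSet_lt measurable_const measurable_id
  have h3 : Measurable fun σ : ℝ => (if |σ| < 1 / 4 then (0 : ℝ) else if 0 < σ then -4 else 4) :=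
    Measurable.ite h1 measurable_const (Measurable.ite h2 measurable_const measurable_const)
  fun_prop

lemma dzt_bound (ρ σ : ℝ) : ‖dzt ρ σ‖ ≤ 1 + |ρ| * 4 := by
  unfold dzt
  refine (norm_add_le _ _).trans ?_
  rw [norm_one, norm_mul, Complex.norm_I, mul_one, Complex.norm_real, Real.norm_eq_abs, abs_mul]
  have : |(if |σ| < 1 / 4 then (0 : ℝ) else if 0 < σ then -4 else 4)| ≤ 4 := by
    split_ifs <;> norm_num
  have := mul_le_mul_of_nonneg_left this (abs_nonneg ρ)
  linarith only [this]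

lemma dzt_integrable (ρ : ℝ) : IntervalIntegrable (dzt ρ) volume (-(1 / 2)) (1 / 2) := by
  rw [intervalIntegrable_iff, Set.uIoc_of_le (by norm_num)]
  exact Measure.integrableOn_of_bounded (M := 1 + |ρ| * 4) (by simp)
    (dzt_measurable ρ).aestronglyMeasurable (Filter.Eventually.of_forall (dzt_bound ρ))

lemma dzt_neg {ρ σ : ℝ} : dzt ρ (-σ) = (starRingEnd ℂ) (dzt ρ σ) ∨ σ = 0 := by
  by_cases h0 : σ = 0
  · right; exact h0
  left
  unfold dzt
  rw [abs_neg]
  simp only [map_add, map_one, map_mul, Complex.conj_ofReal, Complex.conj_I]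
  rcases lt_or_ge |σ| (1 / 4) with h1 | h1
  · simp only [if_pos h1, mul_zero, Complex.ofReal_zero, zero_mul]
  · rw [if_neg (not_lt.mpr h1), if_neg (not_lt.mpr h1)]
    rcases lt_or_gt_of_ne h0 with h2 | h2
    · rw [if_pos (by linarith only [h2]), if_neg (by linarith only [h2])]
      push_cast
      ring
    · rw [if_neg (by linarith only [h2]), if_pos h2]
      push_cast
      ring

lemma PP_neg (n u : ℕ) (ζ : ℂ) : PP n u (-ζ) = PP n u ζ := by
  unfold PP
  refine Finset.prod_congr rfl fun l _ => ?_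
  rw [mul_neg, Complex.cos_neg]

lemma PP_conj (n u : ℕ) (ζ : ℂ) : (starRingEnd ℂ) (PP n u ζ) = PP n u ((starRingEnd ℂ) ζ) := by
  unfold PP
  rw [map_prod]
  refine Finset.prod_congr rfl fun l _ => ?_
  simp only [map_add, map_mul, Complex.conj_ofReal, map_ofNat, ← Complex.cos_conj]

lemma PP_cont (n u : ℕ) : Continuous (PP n u) := by
  unfold PP
  fun_prop

/-- the weight for `-b` is minus the conjugate of the weight for `b` at `-σ` -/
lemma EE_conj (n : ℕ) (b : ℤ) (ρ : ℝ) {σ : ℝ} (h0 : σ ≠ 0) :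
    (starRingEnd ℂ) (EE n b ρ (-σ)) = -EE n (-b) ρ σ := by
  have hz : (starRingEnd ℂ) (zt ρ (-σ)) = -zt ρ σ := by
    rw [zt_neg, map_neg, Complex.conj_conj]
  have hd : (starRingEnd ℂ) (dzt ρ (-σ)) = dzt ρ σ := by
    rcases dzt_neg (ρ := ρ) (σ := σ) with h | h
    · rw [h, Complex.conj_conj]
    · exact absurd h h0
  unfold EE
  rw [map_mul, map_div₀, map_mul, map_pow, ← Complex.exp_conj, ← Complex.sin_conj,
    ← Complex.sin_conj]
  simp only [map_mul, map_pow, map_ofNat, map_natCast, map_intCast, Complex.conj_ofReal,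
    Complex.conj_I, hz, hd]
  rw [show 2 * (Real.pi : ℂ) * -zt ρ σ = -(2 * Real.pi * zt ρ σ) by ring,
    show (Real.pi : ℂ) * n * -zt ρ σ = -(Real.pi * n * zt ρ σ) by ring, Complex.sin_neg,
    Complex.sin_neg, neg_sq, neg_sq]
  push_cast
  rw [show (Real.pi : ℂ) * -Complex.I * b * n * zt ρ σ ^ 2 =
    Real.pi * Complex.I * -b * n * zt ρ σ ^ 2 by ring]
  ring

/-! ### one twist region -/

open VC DT TB in
lemma pY_PP (s u : ℕ) (ζ : ℂ) : pY s u (((2 * s + 1 : ℕ) : ℂ) * ζ) = PP (2 * s + 1) u ζ := by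
  have hn0 := DT.nn_ne s
  unfold pY PP
  refine Finset.prod_congr rfl fun l _ => ?_
  unfold DT.cc
  have e1 : 2 * (Real.pi : ℂ) * (((2 * s + 1 : ℕ) : ℂ) * ζ) / ((2 * s + 1 : ℕ) : ℂ) =
      2 * Real.pi * ζ := by
    field_simp
  have e2 : 2 * (Real.pi : ℂ) * ((l : ℂ) - s) / ((2 * s + 1 : ℕ) : ℂ) =
      2 * Real.pi * (l + 1 / 2) / ((2 * s + 1 : ℕ) : ℂ) - Real.pi := by
    rw [div_sub' hn0, div_left_inj' hn0]
    push_cast
    ring
  rw [e1, e2, Complex.cos_sub_pi]
  push_cast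
  ring

lemma path_sin_ne {s : ℕ} {ρ σ : ℝ} (hρ : 0 < ρ) (hσ : σ ∈ Set.Icc (-(1 / 2) : ℝ) (1 / 2)) :
    Complex.sin (Real.pi * (((2 * s + 1 : ℕ) : ℂ) * zt ρ σ)) ≠ 0 := by
  have hn : (0 : ℝ) < ((2 * s + 1 : ℕ) : ℝ) := by positivity
  refine DT.cont_sin_ne (s := s) ?_
  rcases (abs_le.mpr hσ).eq_or_lt with h | h
  · right
    rw [show (((2 * s + 1 : ℕ) : ℂ) * zt ρ σ).re = ((2 * s + 1 : ℕ) : ℝ) * σ by
      rw [← Complex.ofReal_natCast, Complex.re_ofReal_mul, zt_re], abs_mul, h, abs_of_pos hn]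
    ring
  · left
    rw [show (((2 * s + 1 : ℕ) : ℂ) * zt ρ σ).im = ((2 * s + 1 : ℕ) : ℝ) * (ρ * th σ) by
      rw [← Complex.ofReal_natCast, Complex.im_ofReal_mul, zt_im]]
    have := th_pos h
    positivity

open VC DT TB in
theorem KN_path {s a u v : ℕ} (hu : u ≤ 2 * s) {ρ : ℝ} (hρ : 0 < ρ) :
    KN s a u v = VC.kap s 0 ^ a * (Complex.I * ((2 * s + 1 : ℕ) : ℂ) ^ 2 / 2) *
      ((1 / (fS (2 * s + 1) u ^ 2 * fS (2 * s + 1) v ^ 2) : ℝ) : ℂ) *
      ∫ σ in (-(1 / 2) : ℝ)..(1 / 2), EE (2 * s + 1) (a : ℤ) ρ σ *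
        (PP (2 * s + 1) u (zt ρ σ) * PP (2 * s + 1) v (zt ρ σ)) := by
  have hn0 := DT.nn_ne s
  have hn : (0 : ℝ) < ((2 * s + 1 : ℕ) : ℝ) := by positivity
  have hzc := zt_cont ρ
  have key : ∀ σ : ℝ, KI a s u v (((2 * s + 1 : ℕ) : ℂ) * zt ρ σ) *
      (((2 * s + 1 : ℕ) : ℂ) * dzt ρ σ) = ((2 * s + 1 : ℕ) : ℂ) *
      (EE (2 * s + 1) (a : ℤ) ρ σ * (PP (2 * s + 1) u (zt ρ σ) * PP (2 * s + 1) v (zt ρ σ))) := by
    intro σ
    unfold KI EE
    rw [pY_PP, pY_PP]
    have e1 : (Real.pi : ℂ) * Complex.I * a * (((2 * s + 1 : ℕ) : ℂ) * zt ρ σ) ^ 2 /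
        ((2 * s + 1 : ℕ) : ℂ) = Real.pi * Complex.I * ((a : ℤ) : ℂ) * ((2 * s + 1 : ℕ) : ℂ) *
        zt ρ σ ^ 2 := by
      rw [Int.cast_natCast]
      field_simp
    have e2 : 2 * (Real.pi : ℂ) * (((2 * s + 1 : ℕ) : ℂ) * zt ρ σ) / ((2 * s + 1 : ℕ) : ℂ) =
        2 * Real.pi * zt ρ σ := by
      field_simp
    rw [e1, e2, mul_assoc (Real.pi : ℂ) (((2 * s + 1 : ℕ) : ℂ))]
    ring
  have hd : ∀ x ∈ Set.Ioo (-(1 / 2) : ℝ) (1 / 2) \ ({-(1 / 4), 0, 1 / 4} : Set ℝ),
      HasDerivAt (fun σ => ((2 * s + 1 : ℕ) : ℂ) * zt ρ σ) (((2 * s + 1 : ℕ) : ℂ) * dzt ρ x) x := by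
    intro x hx
    have h2 := hx.2
    simp only [Set.mem_insert_iff, Set.mem_singleton_iff, not_or] at h2
    refine (zt_deriv ?_ h2.2.1).const_mul _
    intro h3
    rcases (abs_eq (by norm_num)).mp h3 with h4 | h4
    · exact h2.2.2 h4
    · exact h2.1 h4
  have hint : IntervalIntegrable (fun x => KI a s u v (((2 * s + 1 : ℕ) : ℂ) * zt ρ x) *
      (((2 * s + 1 : ℕ) : ℂ) * dzt ρ x)) volume (-(1 / 2)) (1 / 2) := by
    have h1 : ContinuousOn (fun x => KI a s u v (((2 * s + 1 : ℕ) : ℂ) * zt ρ x))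
        (Set.uIcc (-(1 / 2) : ℝ) (1 / 2)) := by
      rw [Set.uIcc_of_le (by norm_num)]
      intro x hx
      have h2 := (KI_diff (a := a) (s := s) (y := u) (y' := v)
        (path_sin_ne (s := s) hρ hx)).continuousAt
      have h3 : ContinuousAt (fun x => ((2 * s + 1 : ℕ) : ℂ) * zt ρ x) x := by fun_prop
      exact (ContinuousAt.comp (f := fun x => ((2 * s + 1 : ℕ) : ℂ) * zt ρ x) h2
        h3).continuousWithinAt
    exact ((dzt_integrable ρ).const_mul _).continuousOn_mul h1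
  have h1 := Gm_path (a := a) (y' := v) hu (γ := fun σ => ((2 * s + 1 : ℕ) : ℂ) * zt ρ σ)
    (γ' := fun σ => ((2 * s + 1 : ℕ) : ℂ) * dzt ρ σ) (u := -(1 / 2)) (v := 1 / 2) (by norm_num)
    (by fun_prop) (by
      simp only [zt, th_neg, th_half, mul_zero, Complex.ofReal_zero, zero_mul, add_zero, DT.hn]
      push_cast
      ring) (by
      simp only [zt, th_half, mul_zero, Complex.ofReal_zero, zero_mul, add_zero, DT.hn]
      push_cast
      ring) (by
      intro x hx
      rw [show (((2 * s + 1 : ℕ) : ℂ) * zt ρ x).im = ((2 * s + 1 : ℕ) : ℝ) * (ρ * th x) by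
        rw [← Complex.ofReal_natCast, Complex.im_ofReal_mul, zt_im]]
      have := th_pos (abs_lt.mpr hx)
      positivity) (S := {-(1 / 4), 0, 1 / 4}) (by simp) hd hint
  simp only [key] at h1
  rw [intervalIntegral.integral_const_mul] at h1
  have e3 : ((((2 * s + 1 : ℕ) : ℝ) ^ 2 / (fS (2 * s + 1) u ^ 2 * fS (2 * s + 1) v ^ 2) : ℝ) : ℂ) =
      ((2 * s + 1 : ℕ) : ℂ) ^ 2 *
      ((1 / (fS (2 * s + 1) u ^ 2 * fS (2 * s + 1) v ^ 2) : ℝ) : ℂ) := by
    push_cast
    ring
  have e4 : (2 * Complex.I * ((2 * s + 1 : ℕ) : ℂ))⁻¹ * ((2 * s + 1 : ℕ) : ℂ) =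
      -(Complex.I / 2) := by
    rw [mul_inv, mul_assoc, inv_mul_cancel₀ hn0, mul_inv, Complex.inv_I]
    ring
  unfold KN
  rw [h1, e3]
  set J := ∫ σ in (-(1 / 2) : ℝ)..(1 / 2), EE (2 * s + 1) (a : ℤ) ρ σ *
        (PP (2 * s + 1) u (zt ρ σ) * PP (2 * s + 1) v (zt ρ σ))
  set r := ((1 / (fS (2 * s + 1) u ^ 2 * fS (2 * s + 1) v ^ 2) : ℝ) : ℂ)
  rw [div_eq_mul_inv]
  linear_combination (-(VC.kap s 0 ^ a) * J * ((2 * s + 1 : ℕ) : ℂ) ^ 2 * r) * e4

open VC DT TB in
lemma kap_pow (s : ℕ) (a : ℕ) : VC.kap s 0 ^ a = Complex.exp (Real.pi * Complex.I * (a : ℤ) *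
    s ^ 2 / ((2 * s + 1 : ℕ) : ℂ)) := by
  rw [VC.kap_zero, ← Complex.exp_nat_mul]
  congr 1
  push_cast
  ring

theorem KK_path {s u v : ℕ} (b : ℤ) (hu : u ≤ 2 * s) {ρ : ℝ} (hρ : 0 < ρ) :
    KK s b u v = Complex.exp (Real.pi * Complex.I * b * s ^ 2 / ((2 * s + 1 : ℕ) : ℂ)) *
      (Complex.I * ((2 * s + 1 : ℕ) : ℂ) ^ 2 / 2) *
      ((1 / (fS (2 * s + 1) u ^ 2 * fS (2 * s + 1) v ^ 2) : ℝ) : ℂ) *
      ∫ σ in (-(1 / 2) : ℝ)..(1 / 2), EE (2 * s + 1) b ρ σ *
        (PP (2 * s + 1) u (zt ρ σ) * PP (2 * s + 1) v (zt ρ σ)) := by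
  unfold KK
  split_ifs with hb
  · rw [KN_path hu hρ, kap_pow, Int.natAbs_of_nonneg hb]
  · rw [KN_path hu hρ, kap_pow]
    have hb' : ((b.natAbs : ℕ) : ℤ) = -b := by omega
    rw [hb']
    simp only [map_mul, map_div₀, map_pow, map_natCast, map_ofNat, Complex.conj_ofReal,
      Complex.conj_I, ← Complex.exp_conj, map_intCast]
    have e1 : (starRingEnd ℂ) (∫ σ in (-(1 / 2) : ℝ)..(1 / 2), EE (2 * s + 1) (-b) ρ σ *
        (PP (2 * s + 1) u (zt ρ σ) * PP (2 * s + 1) v (zt ρ σ))) =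
        -∫ σ in (-(1 / 2) : ℝ)..(1 / 2), EE (2 * s + 1) b ρ σ *
        (PP (2 * s + 1) u (zt ρ σ) * PP (2 * s + 1) v (zt ρ σ)) := by
      have h1 := intervalIntegral.integral_comp_neg (a := -(1 / 2)) (b := 1 / 2)
        (fun σ : ℝ => EE (2 * s + 1) (-b) ρ σ *
        (PP (2 * s + 1) u (zt ρ σ) * PP (2 * s + 1) v (zt ρ σ)))
      rw [neg_neg] at h1
      rw [← h1, ← intervalIntegral.intervalIntegral_conj, ← intervalIntegral.integral_neg]
      refine intervalIntegral.integral_congr_ae ?_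
      have h2 : ∀ᵐ σ : ℝ, σ ≠ 0 := by
        simp [ae_iff]
      filter_upwards [h2] with σ h0 _
      have hz : (starRingEnd ℂ) (zt ρ (-σ)) = -zt ρ σ := by
        rw [zt_neg, map_neg, Complex.conj_conj]
      rw [map_mul, map_mul, EE_conj _ _ _ h0, PP_conj, PP_conj, hz, PP_neg, PP_neg, neg_neg]
      ring
    rw [e1]
    have e2 : (Real.pi : ℂ) * -Complex.I * ((-b : ℤ) : ℂ) * (s : ℂ) ^ 2 /
        ((2 * s + 1 : ℕ) : ℂ) = Real.pi * Complex.I * b * s ^ 2 / ((2 * s + 1 : ℕ) : ℂ) := by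
      push_cast
      ring
    rw [e2]
    ring

lemma phi_integrable {s : ℕ} (b : ℤ) {ρ : ℝ} (hρ : 0 < ρ) (u v : ℕ) :
    IntegrableOn (fun σ : ℝ => EE (2 * s + 1) b ρ σ *
      (PP (2 * s + 1) u (zt ρ σ) * PP (2 * s + 1) v (zt ρ σ))) (Set.Icc (-(1 / 2)) (1 / 2)) := by
  have hzc := zt_cont ρ
  have h1 : ContinuousOn (fun σ : ℝ => Complex.exp (Real.pi * Complex.I * b *
      ((2 * s + 1 : ℕ) : ℂ) * zt ρ σ ^ 2) * Complex.sin (2 * Real.pi * zt ρ σ) /
      Complex.sin (Real.pi * ((2 * s + 1 : ℕ) : ℂ) * zt ρ σ) ^ 2 *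
      (PP (2 * s + 1) u (zt ρ σ) * PP (2 * s + 1) v (zt ρ σ)))
      (Set.Icc (-(1 / 2)) (1 / 2)) := by
    have h2 := (PP_cont (2 * s + 1) u).comp hzc
    have h3 := (PP_cont (2 * s + 1) v).comp hzc
    refine ContinuousOn.mul (ContinuousOn.div (by fun_prop) (by fun_prop) ?_)
      (h2.mul h3).continuousOn
    intro σ hσ
    have := path_sin_ne (s := s) hρ hσ
    rw [← mul_assoc] at this
    exact pow_ne_zero _ this
  have h4 : IntegrableOn (dzt ρ) (Set.Icc (-(1 / 2)) (1 / 2)) :=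
    Measure.integrableOn_of_bounded (M := 1 + |ρ| * 4) (by simp)
      (dzt_measurable ρ).aestronglyMeasurable (Filter.Eventually.of_forall (dzt_bound ρ))
  have h5 := h4.continuousOn_mul h1 isCompact_Icc
  refine h5.congr_fun (fun σ _ => ?_) measurableSet_Icc
  unfold EE
  ring

/-! ### the chain -/

/-- left and right indices -/
noncomputable def Li {n M : ℕ} (y : Fin M → Fin n) : Fin (M + 1) → ℕ :=
  Fin.cons 0 (fun j => (y j : ℕ))

/-- left and right indices -/
noncomputable def Ri {n M : ℕ} (y : Fin M → Fin n) : Fin (M + 1) → ℕ :=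
  Fin.snoc (fun j => (y j : ℕ)) 0

lemma fS_zero (n : ℕ) : fS n 0 = 1 := by simp [fS]

lemma PP_zero (n : ℕ) (ζ : ℂ) : PP n 0 ζ = 1 := by simp [PP]

lemma prod_Li {n M : ℕ} (y : Fin M → Fin n) (g : ℕ → Fin (M + 1) → ℂ) :
    ∏ i, g (Li y i) i = g 0 0 * ∏ j : Fin M, g (y j) j.succ := by
  rw [Fin.prod_univ_succ]
  simp [Li]

lemma prod_Ri {n M : ℕ} (y : Fin M → Fin n) (g : ℕ → Fin (M + 1) → ℂ) :
    ∏ i, g (Ri y i) i = (∏ j : Fin M, g (y j) j.castSucc) * g 0 (Fin.last M) := by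
  rw [Fin.prod_univ_castSucc]
  simp [Ri]

lemma integrand_eq {n M : ℕ} (b : Fin (M + 1) → ℤ) (ρ : Fin (M + 1) → ℝ)
    (σ : Fin (M + 1) → ℝ) :
    (∏ i, EE n (b i) (ρ i) (σ i)) *
      ∏ j : Fin M, SS n (zt (ρ j.castSucc) (σ j.castSucc)) (zt (ρ j.succ) (σ j.succ)) =
    ∑ y : Fin M → Fin n, (∏ i, ((1 / (fS n (Li y i) ^ 2 * fS n (Ri y i) ^ 2) : ℝ) : ℂ)) *
      ∏ i, (EE n (b i) (ρ i) (σ i) *
        (PP n (Li y i) (zt (ρ i) (σ i)) * PP n (Ri y i) (zt (ρ i) (σ i)))) := by
  have h1 : ∀ j : Fin M, SS n (zt (ρ j.castSucc) (σ j.castSucc)) (zt (ρ j.succ) (σ j.succ)) =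
      ∑ y : Fin n, term n y (zt (ρ j.castSucc) (σ j.castSucc)) (zt (ρ j.succ) (σ j.succ)) := by
    intro j
    unfold SS
    rw [Finset.sum_range]
  simp_rw [h1]
  rw [Finset.prod_univ_sum, Fintype.piFinset_univ, Finset.mul_sum]
  refine Finset.sum_congr rfl fun y _ => ?_
  rw [Finset.prod_mul_distrib, Finset.prod_mul_distrib,
    prod_Li y (fun m i => PP n m (zt (ρ i) (σ i))), prod_Ri y (fun m i => PP n m (zt (ρ i) (σ i)))]
  have h2 : (∏ i, ((1 / (fS n (Li y i) ^ 2 * fS n (Ri y i) ^ 2) : ℝ) : ℂ)) =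
      ∏ j : Fin M, (1 / ((fS n (y j) ^ 4 : ℝ) : ℂ)) := by
    have e : ∀ i, ((1 / (fS n (Li y i) ^ 2 * fS n (Ri y i) ^ 2) : ℝ) : ℂ) =
        (1 / (fS n (Li y i) : ℂ) ^ 2) * (1 / (fS n (Ri y i) : ℂ) ^ 2) := by
      intro i
      push_cast
      rw [one_div, mul_inv, one_div, one_div]
    rw [Finset.prod_congr rfl (fun i _ => e i), Finset.prod_mul_distrib,
      prod_Li y (fun m _ => 1 / (fS n m : ℂ) ^ 2), prod_Ri y (fun m _ => 1 / (fS n m : ℂ) ^ 2),
      fS_zero, Complex.ofReal_one, one_pow, div_one, one_mul, mul_one, ← Finset.prod_mul_distrib]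
    refine Finset.prod_congr rfl fun j _ => ?_
    push_cast
    rw [one_div, one_div, ← mul_inv]
    congr 1
    ring
  rw [h2]
  simp only [PP_zero, one_mul, mul_one]
  have h3 : ∏ j : Fin M, term n (y j) (zt (ρ j.castSucc) (σ j.castSucc))
      (zt (ρ j.succ) (σ j.succ)) = (∏ j : Fin M, (1 / ((fS n (y j) ^ 4 : ℝ) : ℂ))) *
      ((∏ j : Fin M, PP n (y j) (zt (ρ j.succ) (σ j.succ))) *
      ∏ j : Fin M, PP n (y j) (zt (ρ j.castSucc) (σ j.castSucc))) := by
    rw [← Finset.prod_mul_distrib, ← Finset.prod_mul_distrib]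
    refine Finset.prod_congr rfl fun j _ => ?_
    unfold term
    ring
  rw [h3]
  ring

lemma box_integral {M : ℕ} (φ : Fin (M + 1) → ℝ → ℂ) :
    ∫ σ in box M, ∏ i, φ i (σ i) = ∏ i, ∫ t in Set.Icc (-(1 / 2) : ℝ) (1 / 2), φ i t := by
  unfold box
  rw [volume_pi, Measure.restrict_pi_pi]
  exact integral_fintype_prod_eq_prod (fun i => φ i)

lemma box_integrable {M : ℕ} {φ : Fin (M + 1) → ℝ → ℂ}
    (h : ∀ i, IntegrableOn (φ i) (Set.Icc (-(1 / 2)) (1 / 2))) :
    IntegrableOn (fun σ : Fin (M + 1) → ℝ => ∏ i, φ i (σ i)) (box M) := by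
  unfold box IntegrableOn
  rw [volume_pi, Measure.restrict_pi_pi]
  exact Integrable.fintype_prod (fun i => h i)

theorem exact_formula {M : ℕ} (b : Fin (M + 1) → ℤ) {ρ : Fin (M + 1) → ℝ} (hρ : ∀ i, 0 < ρ i)
    (δ : ℤ) {s : ℕ} (hs : 1 ≤ s) :
    twoBridgeKashaev (ltWord (List.ofFn b)) δ (2 * s + 1) =
      phs (orientedWrithe (ltWord (List.ofFn b)) ![1, δ, -δ]) (∑ i, b i) s *
        (Complex.I * ((2 * s + 1 : ℕ) : ℂ) ^ 2 / 2) ^ (M + 1) * II (2 * s + 1) b ρ := by
  have hII : II (2 * s + 1) b ρ = ∑ y : Fin M → Fin (2 * s + 1),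
      (∏ i, ((1 / (fS (2 * s + 1) (Li y i) ^ 2 * fS (2 * s + 1) (Ri y i) ^ 2) : ℝ) : ℂ)) *
      ∏ i, ∫ t in (-(1 / 2) : ℝ)..(1 / 2), EE (2 * s + 1) (b i) (ρ i) t *
        (PP (2 * s + 1) (Li y i) (zt (ρ i) t) * PP (2 * s + 1) (Ri y i) (zt (ρ i) t)) := by
    unfold II
    simp_rw [integrand_eq]
    rw [integral_finsetSum]
    · refine Finset.sum_congr rfl fun y _ => ?_
      rw [integral_const_mul, box_integral (fun i t => EE (2 * s + 1) (b i) (ρ i) t *
        (PP (2 * s + 1) (Li y i) (zt (ρ i) t) * PP (2 * s + 1) (Ri y i) (zt (ρ i) t)))]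
      congr 1
      refine Finset.prod_congr rfl fun i _ => ?_
      rw [intervalIntegral.integral_of_le (by norm_num), integral_Icc_eq_integral_Ioc]
    · intro y _
      exact (box_integrable (φ := fun i t => EE (2 * s + 1) (b i) (ρ i) t *
        (PP (2 * s + 1) (Li y i) (zt (ρ i) t) * PP (2 * s + 1) (Ri y i) (zt (ρ i) t)))
        (fun i => phi_integrable (b i) (hρ i) _ _)).const_mul _
  have hR : ∀ A B C D : ℂ, A * B * C * D = A * (B * C * D) := by
    intro A B C D
    ring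
  rw [chain b δ hs, phs, hR (Complex.exp _) (Complex.exp _)]
  congr 1
  rw [hII, Finset.mul_sum]
  refine Finset.sum_congr rfl fun y _ => ?_
  have hLi : ∀ i, Li y i ≤ 2 * s := by
    intro i
    refine Fin.cases ?_ (fun j => ?_) i
    · simp [Li]
    · simp only [Li, Fin.cons_succ]
      omega
  have h1 : ∀ i, KK s (b i) ((Fin.cons 0 (fun j => (y j : ℕ)) : Fin (M + 1) → ℕ) i)
      ((Fin.snoc (fun j => (y j : ℕ)) 0 : Fin (M + 1) → ℕ) i) =
      Complex.exp (Real.pi * Complex.I * b i * s ^ 2 / ((2 * s + 1 : ℕ) : ℂ)) *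
      (Complex.I * ((2 * s + 1 : ℕ) : ℂ) ^ 2 / 2) *
      ((1 / (fS (2 * s + 1) (Li y i) ^ 2 * fS (2 * s + 1) (Ri y i) ^ 2) : ℝ) : ℂ) *
      ∫ σ in (-(1 / 2) : ℝ)..(1 / 2), EE (2 * s + 1) (b i) (ρ i) σ *
        (PP (2 * s + 1) (Li y i) (zt (ρ i) σ) * PP (2 * s + 1) (Ri y i) (zt (ρ i) σ)) :=
    fun i => KK_path (b i) (hLi i) (hρ i)
  rw [Finset.prod_congr rfl (fun i _ => h1 i), Finset.prod_mul_distrib, Finset.prod_mul_distrib,
    Finset.prod_mul_distrib, Finset.prod_const, Finset.card_univ, Fintype.card_fin,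
    ← Complex.exp_sum]
  have h2 : ∑ i, (Real.pi : ℂ) * Complex.I * b i * (s : ℂ) ^ 2 / ((2 * s + 1 : ℕ) : ℂ) =
      Real.pi * Complex.I * ((∑ i, b i : ℤ) : ℂ) * s ^ 2 / ((2 * s + 1 : ℕ) : ℂ) := by
    rw [← Finset.sum_div, ← Finset.sum_mul, ← Finset.mul_sum]
    push_cast
    rfl
  rw [h2]
  ring

end Pool.Agent.Work.MP_b30479_gtS.LT

end

section

/-!
# Closed kernels for twist regions with two, three and four crossings
-/

namespace Pool.Agent.Work.MP_b30479_gtS.LT

open Finset VOL AX MeasureTheory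
open TB
open DT (ee ee_add ee_ne ee_zero ee_neg ee_pow ee_int ee_half nn_ne tt_pow)

/-! ### the q-binomial theorem -/

lemma qbin {s : ℕ} {t : ℂ} (h : IsPrimitiveRoot t (2 * s + 1)) (y : ℂ) : ∀ N : ℕ, N ≤ 2 * s →
    qf t N * ∑ r ∈ range (N + 1), t ^ (r.choose 2) * y ^ r / (qf t r * qf t (N - r)) =
      ∏ l ∈ range N, (1 + y * t ^ l) := by
  intro N
  induction N with
  | zero => intro _; simp
  | succ N ih =>
    intro hN
    have key : (1 - t ^ (N + 1)) * ∑ r ∈ range (N + 1 + 1),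
        t ^ (r.choose 2) * y ^ r / (qf t r * qf t (N + 1 - r)) =
        (∑ r ∈ range (N + 1), t ^ (r.choose 2) * y ^ r / (qf t r * qf t (N - r))) *
          (1 + y * t ^ N) := by
      rw [mul_add, mul_one, Finset.mul_sum]
      have e1 : ∀ r ∈ range (N + 1 + 1),
          (1 - t ^ (N + 1)) * (t ^ (r.choose 2) * y ^ r / (qf t r * qf t (N + 1 - r))) =
          (if r < N + 1 then t ^ (r.choose 2) * y ^ r / (qf t r * qf t (N - r)) else 0) +
          (if 0 < r then t ^ ((r - 1).choose 2) * y ^ (r - 1) /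
            (qf t (r - 1) * qf t (N - (r - 1))) * (y * t ^ N) else 0) := by
        intro r hr
        rw [mem_range] at hr
        rcases Nat.eq_zero_or_pos r with rfl | hr0
        · have n1 := one_sub_pow_ne h (show 0 < N + 1 by omega) hN
          have n2 := qf_ne_zero h (show N ≤ 2 * s by omega)
          rw [if_pos (by omega), if_neg (by omega), Nat.sub_zero, Nat.sub_zero, qf_succ]
          simp only [Nat.choose_zero_succ, pow_zero, qf_zero, add_zero, mul_one, one_mul]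
          field_simp
        · obtain ⟨r, rfl⟩ : ∃ r', r = r' + 1 := ⟨r - 1, by omega⟩
          rw [Nat.add_sub_cancel, if_pos (show 0 < r + 1 by omega)]
          have ch : (r + 1).choose 2 = r.choose 2 + r := by
            rw [Nat.choose_succ_succ' r 1, Nat.choose_one_right, add_comm]
          have m1 := one_sub_pow_ne h (show 0 < r + 1 by omega) (by omega)
          have m2 := qf_ne_zero h (show r ≤ 2 * s by omega)
          rcases Nat.lt_or_ge (r + 1) (N + 1) with h1 | h1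
          · obtain ⟨d, rfl⟩ : ∃ d, N = r + 1 + d := ⟨N - (r + 1), by omega⟩
            rw [if_pos h1, show r + 1 + d + 1 - (r + 1) = d + 1 by omega,
              show r + 1 + d - (r + 1) = d by omega, show r + 1 + d - r = d + 1 by omega, ch,
              qf_succ t r, qf_succ t d]
            have m3 := one_sub_pow_ne h (show 0 < d + 1 by omega) (by omega)
            have m4 := qf_ne_zero h (show d ≤ 2 * s by omega)
            have e2 : t ^ (r + 1 + d + 1) = t ^ (r + 1) * t ^ (d + 1) := by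
              rw [← pow_add]; rfl
            have e3 : t ^ (r + 1 + d) = t ^ r * t ^ (d + 1) := by
              rw [← pow_add]; congr 1; omega
            rw [e2, e3, pow_add t (r.choose 2) r, pow_succ y r]
            field_simp
            ring
          · have hrN : r = N := by omega
            subst hrN
            rw [if_neg (by omega), show r + 1 - (r + 1) = 0 by omega, Nat.sub_self, ch,
              qf_succ t r, qf_zero, mul_one, mul_one, zero_add, pow_add t (r.choose 2) r,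
              pow_succ y r]
            field_simp
      rw [Finset.sum_congr rfl e1, Finset.sum_add_distrib, Finset.sum_range_succ,
        if_neg (lt_irrefl _), add_zero, Finset.sum_range_succ' (fun r => if 0 < r then
          t ^ ((r - 1).choose 2) * y ^ (r - 1) / (qf t (r - 1) * qf t (N - (r - 1))) *
          (y * t ^ N) else 0), if_neg (lt_irrefl _), add_zero, Finset.sum_mul]
      congr 1
      refine Finset.sum_congr rfl fun r hr => ?_
      rw [mem_range] at hr
      rw [if_pos hr]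
    rw [prod_range_succ, ← ih (by omega), qf_succ, mul_assoc, key]
    ring

/-! ### one crossing -/

lemma fSc_ne {s m : ℕ} (hm : m ≤ 2 * s) : (fS (2 * s + 1) m : ℂ) ≠ 0 := by
  exact_mod_cast (fS_pos (n := 2 * s + 1) (m := m) (by omega)).ne'

lemma fSc_refl {s m : ℕ} (hm : m ≤ 2 * s) :
    (fS (2 * s + 1) m : ℂ) * (fS (2 * s + 1) (2 * s - m) : ℂ) = ((2 * s + 1 : ℕ) : ℂ) := by
  have := fS_refl (n := 2 * s + 1) (m := m) (by omega)
  rw [show 2 * s + 1 - 1 - m = 2 * s - m by omega] at this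
  exact_mod_cast this

/-- the entries of the matrix of `σ_1` -/
theorem gz_all {s j k : ℕ} (hjk : j ≤ k) (hk : k ≤ 2 * s) : gz s (tt s) 1 j k =
    ee s ((s : ℂ) ^ 2 + k * ((2 * s + 1 : ℕ) : ℂ) / 2 + k * (1 + j) / 2) *
      (fS (2 * s + 1) j : ℂ) / ((fS (2 * s + 1) k : ℂ) * (fS (2 * s + 1) (k - j) : ℂ)) := by
  have hj0 := fSc_ne (s := s) (m := j) (by omega)
  have hk0 := fSc_ne (s := s) (m := k) (by omega)
  have hkj0 := fSc_ne (s := s) (m := k - j) (by omega)
  have h2 : (-1 : ℂ) ^ k = ee s (-((k : ℂ) * (((2 * s + 1 : ℕ) : ℂ) / 2))) := by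
    rw [ee_neg, ← ee_pow, ee_half, ← inv_pow]
    norm_num
  have h3 : ((k + 1).choose 2 : ℂ) = (k : ℂ) * (k + 1) / 2 := by
    rw [Nat.cast_choose_two]
    push_cast
    ring
  rw [gz, if_pos hjk, VC.pz_one s j k hjk hk, VC.qf_ee, VC.qf_ee, VC.qf_ee, h2, ← pow_mul, tt_pow,
    tt_pow, tt_pow, one_pow, mul_one]
  have n1 := ee_ne s ((j : ℂ) * (j + 1) / 4 - j * ((2 * s + 1 : ℕ) : ℂ) / 4)
  have n2 := ee_ne s ((k : ℂ) * (k + 1) / 4 - k * ((2 * s + 1 : ℕ) : ℂ) / 4)
  have n3 := ee_ne s (((k - j : ℕ) : ℂ) * (((k - j : ℕ) : ℂ) + 1) / 4 -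
    ((k - j : ℕ) : ℂ) * ((2 * s + 1 : ℕ) : ℂ) / 4)
  have h4 : ee s ((s * s : ℕ) : ℂ) * ee s (-((k : ℂ) * (((2 * s + 1 : ℕ) : ℂ) / 2))) *
      ee s ((s * (k + j) : ℕ) : ℂ) * ee s (((k + 1).choose 2 + k : ℕ) : ℂ) *
      ee s ((j : ℂ) * (j + 1) / 4 - j * ((2 * s + 1 : ℕ) : ℂ) / 4) =
      ee s ((s : ℂ) ^ 2 + k * ((2 * s + 1 : ℕ) : ℂ) / 2 + k * (1 + j) / 2) *
      (ee s ((k : ℂ) * (k + 1) / 4 - k * ((2 * s + 1 : ℕ) : ℂ) / 4) *
        ee s (((k - j : ℕ) : ℂ) * (((k - j : ℕ) : ℂ) + 1) / 4 -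
          ((k - j : ℕ) : ℂ) * ((2 * s + 1 : ℕ) : ℂ) / 4)) := by
    simp only [← ee_add]
    congr 1
    rw [Nat.cast_sub hjk]
    push_cast [h3]
    ring
  generalize ee s ((j : ℂ) * (j + 1) / 4 - j * ((2 * s + 1 : ℕ) : ℂ) / 4) = E1 at *
  generalize ee s ((k : ℂ) * (k + 1) / 4 - k * ((2 * s + 1 : ℕ) : ℂ) / 4) = E2 at *
  generalize ee s (((k - j : ℕ) : ℂ) * (((k - j : ℕ) : ℂ) + 1) / 4 -
    ((k - j : ℕ) : ℂ) * ((2 * s + 1 : ℕ) : ℂ) / 4) = E3 at *
  generalize ee s ((s : ℂ) ^ 2 + k * ((2 * s + 1 : ℕ) : ℂ) / 2 + k * (1 + j) / 2) = E4 at *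
  generalize ee s ((s * s : ℕ) : ℂ) * ee s (-((k : ℂ) * (((2 * s + 1 : ℕ) : ℂ) / 2))) *
      ee s ((s * (k + j) : ℕ) : ℂ) * ee s (((k + 1).choose 2 + k : ℕ) : ℂ) = E5 at *
  field_simp
  linear_combination h4

lemma AA_eq {s : ℕ} (k j : Fin (2 * s + 1)) : AA s k j =
    if (j : ℕ) ≤ k then ((fS (2 * s + 1) k / (fS (2 * s + 1) j * fS (2 * s + 1) (k - j)) : ℝ) : ℂ) *
      ee s ((s : ℂ) ^ 2 + k * ((2 * s + 1 : ℕ) : ℂ) / 2 + k * (1 + j) / 2) else 0 := by
  have hk := k.isLt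
  have hj := j.isLt
  unfold AA
  split_ifs with hjk
  · have hj0 := fSc_ne (s := s) (m := j) (by omega)
    have hk0 := fSc_ne (s := s) (m := k) (by omega)
    have hkj0 := fSc_ne (s := s) (m := k - j) (by omega)
    rw [gz_all hjk (by omega), qq_fS (by omega), qq_fS (by omega)]
    push_cast
    field_simp
  · rw [gz_lt (by omega), zero_mul]

/-! ### two crossings -/

lemma AA_sq {s : ℕ} (k j : Fin (2 * s + 1)) : (AA s ^ 2) k j =
    if (j : ℕ) ≤ k then
      ((fS (2 * s + 1) k ^ 2 / (fS (2 * s + 1) j ^ 2 * fS (2 * s + 1) (k - j)) : ℝ) : ℂ) *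
      ee s (2 * (s : ℂ) ^ 2 + ((k : ℂ) + j) ^ 2 / 4 + ((2 * s + 1 : ℕ) : ℂ) * (k + 3 * j) / 4 +
        (3 * k + j) / 4) else 0 := by
  have hk := k.isLt
  have hj := j.isLt
  have hp := tt_prim s
  rw [pow_two, Matrix.mul_apply]
  have e0 : ∀ m : Fin (2 * s + 1), AA s k m * AA s m j = if (j : ℕ) ≤ m ∧ (m : ℕ) ≤ k then
      ((fS (2 * s + 1) k / fS (2 * s + 1) j : ℝ) : ℂ) *
      (((1 / (fS (2 * s + 1) (m - j) * fS (2 * s + 1) (k - m)) : ℝ) : ℂ) *
      ee s (2 * (s : ℂ) ^ 2 + k * ((2 * s + 1 : ℕ) : ℂ) / 2 + k / 2 +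
        m * (((2 * s + 1 : ℕ) : ℂ) + 1 + k + j) / 2)) else 0 := by
    intro m
    have hm := m.isLt
    rw [AA_eq, AA_eq]
    by_cases h1 : (m : ℕ) ≤ k
    · by_cases h2 : (j : ℕ) ≤ m
      · rw [if_pos h1, if_pos h2, if_pos ⟨h2, h1⟩]
        have n1 := (fS_pos (n := 2 * s + 1) (m := m) (by omega)).ne'
        have n2 := (fS_pos (n := 2 * s + 1) (m := j) (by omega)).ne'
        have n3 := (fS_pos (n := 2 * s + 1) (m := m - j) (by omega)).ne'
        have n4 := (fS_pos (n := 2 * s + 1) (m := k - m) (by omega)).ne'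
        have e3 : fS (2 * s + 1) k / (fS (2 * s + 1) m * fS (2 * s + 1) (k - m)) *
            (fS (2 * s + 1) m / (fS (2 * s + 1) j * fS (2 * s + 1) (m - j))) =
            fS (2 * s + 1) k / fS (2 * s + 1) j *
            (1 / (fS (2 * s + 1) (m - j) * fS (2 * s + 1) (k - m))) := by
          field_simp
        have e4 : ee s (2 * (s : ℂ) ^ 2 + k * ((2 * s + 1 : ℕ) : ℂ) / 2 + k / 2 +
            m * (((2 * s + 1 : ℕ) : ℂ) + 1 + k + j) / 2) =
            ee s ((s : ℂ) ^ 2 + k * ((2 * s + 1 : ℕ) : ℂ) / 2 + k * (1 + m) / 2) *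
            ee s ((s : ℂ) ^ 2 + m * ((2 * s + 1 : ℕ) : ℂ) / 2 + m * (1 + j) / 2) := by
          rw [← ee_add]
          congr 1
          ring
        rw [e4, ← mul_assoc (((fS (2 * s + 1) k / fS (2 * s + 1) j : ℝ) : ℂ)),
          ← Complex.ofReal_mul (fS (2 * s + 1) k / fS (2 * s + 1) j), ← e3]
        push_cast
        ring
      · rw [if_neg h2, mul_zero, if_neg (fun hc => h2 hc.1)]
    · rw [if_neg h1, zero_mul, if_neg (fun hc => h1 hc.2)]
  rw [Finset.sum_congr rfl fun m _ => e0 m]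
  split_ifs with hjk
  · obtain ⟨N, hN⟩ : ∃ N, (k : ℕ) = j + N := ⟨k - j, by omega⟩
    have e1 : ∑ m : Fin (2 * s + 1), (if (j : ℕ) ≤ m ∧ (m : ℕ) ≤ k then
        ((fS (2 * s + 1) k / fS (2 * s + 1) j : ℝ) : ℂ) *
        (((1 / (fS (2 * s + 1) (m - j) * fS (2 * s + 1) (k - m)) : ℝ) : ℂ) *
        ee s (2 * (s : ℂ) ^ 2 + k * ((2 * s + 1 : ℕ) : ℂ) / 2 + k / 2 +
          m * (((2 * s + 1 : ℕ) : ℂ) + 1 + k + j) / 2)) else 0) =
        ((fS (2 * s + 1) k / fS (2 * s + 1) j : ℝ) : ℂ) *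
        ee s (2 * (s : ℂ) ^ 2 + k * ((2 * s + 1 : ℕ) : ℂ) / 2 + k / 2 +
          j * (((2 * s + 1 : ℕ) : ℂ) + 1 + k + j) / 2) *
        ∑ r ∈ range (N + 1), tt s ^ (r.choose 2) *
          ee s ((((2 * s + 1 : ℕ) : ℂ) + 2 + 2 * j) / 2) ^ r / (qf (tt s) r * qf (tt s) (N - r)) *
          ee s ((N : ℂ) * (N + 1) / 4 - N * ((2 * s + 1 : ℕ) : ℂ) / 4) := by
      rw [Fin.sum_univ_eq_sum_range (fun m => if (j : ℕ) ≤ m ∧ (m : ℕ) ≤ k then
        ((fS (2 * s + 1) k / fS (2 * s + 1) j : ℝ) : ℂ) *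
        (((1 / (fS (2 * s + 1) (m - j) * fS (2 * s + 1) (k - m)) : ℝ) : ℂ) *
        ee s (2 * (s : ℂ) ^ 2 + k * ((2 * s + 1 : ℕ) : ℂ) / 2 + k / 2 +
          m * (((2 * s + 1 : ℕ) : ℂ) + 1 + k + j) / 2)) else 0), Finset.mul_sum]
      symm
      refine Finset.sum_of_injOn (fun r => (j : ℕ) + r) ?_ ?_ ?_ ?_
      · intro x _ y _ hxy
        simpa using hxy
      · intro r hr
        rw [Finset.mem_coe, mem_range] at hr ⊢
        show (j : ℕ) + r < 2 * s + 1
        omega
      · intro l hl hn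
        rw [if_neg]
        rintro ⟨h1, h2⟩
        apply hn
        simp only [Finset.coe_range, Set.mem_image, Set.mem_Iio]
        exact ⟨l - j, by omega, by omega⟩
      · intro r hr
        rw [mem_range] at hr
        rw [if_pos ⟨by omega, by omega⟩, show (j : ℕ) + r - j = r by omega,
          show (k : ℕ) - (j + r) = N - r by omega, tt_pow, ee_pow, VC.qf_ee, VC.qf_ee]
        have n1 := fSc_ne (s := s) (m := r) (by omega)
        have n2 := fSc_ne (s := s) (m := N - r) (by omega)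
        have n3 := ee_ne s ((r : ℂ) * (r + 1) / 4 - r * ((2 * s + 1 : ℕ) : ℂ) / 4)
        have n4 := ee_ne s (((N - r : ℕ) : ℂ) * (((N - r : ℕ) : ℂ) + 1) / 4 -
          ((N - r : ℕ) : ℂ) * ((2 * s + 1 : ℕ) : ℂ) / 4)
        have h3 : ((r.choose 2 : ℕ) : ℂ) = (r : ℂ) * (r - 1) / 2 := Nat.cast_choose_two ℂ r
        have h4 : ee s (2 * (s : ℂ) ^ 2 + k * ((2 * s + 1 : ℕ) : ℂ) / 2 + k / 2 +
            j * (((2 * s + 1 : ℕ) : ℂ) + 1 + k + j) / 2) * (ee s ((r.choose 2 : ℕ) : ℂ) *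
            ee s ((r : ℂ) * ((((2 * s + 1 : ℕ) : ℂ) + 2 + 2 * j) / 2)) *
            ee s ((N : ℂ) * (N + 1) / 4 - N * ((2 * s + 1 : ℕ) : ℂ) / 4)) =
            ee s (2 * (s : ℂ) ^ 2 + k * ((2 * s + 1 : ℕ) : ℂ) / 2 + k / 2 +
              ((j + r : ℕ) : ℂ) * (((2 * s + 1 : ℕ) : ℂ) + 1 + k + j) / 2) *
            (ee s ((r : ℂ) * (r + 1) / 4 - r * ((2 * s + 1 : ℕ) : ℂ) / 4) *
            ee s (((N - r : ℕ) : ℂ) * (((N - r : ℕ) : ℂ) + 1) / 4 -
          ((N - r : ℕ) : ℂ) * ((2 * s + 1 : ℕ) : ℂ) / 4)) := by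
          simp only [← ee_add]
          congr 1
          rw [h3, Nat.cast_sub (by omega : r ≤ N), hN]
          push_cast
          ring
        generalize ee s ((r : ℂ) * (r + 1) / 4 - r * ((2 * s + 1 : ℕ) : ℂ) / 4) = E1 at *
        generalize ee s (((N - r : ℕ) : ℂ) * (((N - r : ℕ) : ℂ) + 1) / 4 -
          ((N - r : ℕ) : ℂ) * ((2 * s + 1 : ℕ) : ℂ) / 4) = E2 at *
        generalize ee s (2 * (s : ℂ) ^ 2 + k * ((2 * s + 1 : ℕ) : ℂ) / 2 + k / 2 +
            j * (((2 * s + 1 : ℕ) : ℂ) + 1 + k + j) / 2) = E3 at *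
        generalize ee s (2 * (s : ℂ) ^ 2 + k * ((2 * s + 1 : ℕ) : ℂ) / 2 + k / 2 +
              ((j + r : ℕ) : ℂ) * (((2 * s + 1 : ℕ) : ℂ) + 1 + k + j) / 2) = E4 at *
        generalize ee s ((r.choose 2 : ℕ) : ℂ) = E5 at *
        generalize ee s ((r : ℂ) * ((((2 * s + 1 : ℕ) : ℂ) + 2 + 2 * j) / 2)) = E6 at *
        generalize ee s ((N : ℂ) * (N + 1) / 4 - N * ((2 * s + 1 : ℕ) : ℂ) / 4) = E7 at *
        have n5 := fSc_ne (s := s) (m := j) (by omega)
        push_cast
        field_simp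
        linear_combination (fS (2 * s + 1) k : ℂ) * h4
    have e2 := qbin hp (ee s ((((2 * s + 1 : ℕ) : ℂ) + 2 + 2 * j) / 2)) N (by omega)
    have e3 : ∏ l ∈ range N, (1 + ee s ((((2 * s + 1 : ℕ) : ℂ) + 2 + 2 * j) / 2) * tt s ^ l) =
        qf (tt s) k / qf (tt s) j := by
      rw [← VC.pz_one s j k hjk (by omega), pz, hN, Finset.prod_Ico_eq_prod_range,
        Nat.add_sub_cancel_left]
      refine Finset.prod_congr rfl fun l _ => ?_
      rw [tt_pow, tt_pow, show ((((2 * s + 1 : ℕ) : ℂ) + 2 + 2 * j) / 2) =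
        ((2 * s + 1 : ℕ) : ℂ) / 2 + (1 + j) by ring, ee_add, ee_half, one_mul,
        show (((j : ℕ) + l + 1 : ℕ) : ℂ) = (1 + j) + l by push_cast; ring, ee_add s (1 + (j : ℂ))]
      ring
    rw [e3] at e2
    rw [e1, ← Finset.sum_mul]
    have n1 := qf_ne_zero hp (show N ≤ 2 * s by omega)
    have e4 : ∑ r ∈ range (N + 1), tt s ^ (r.choose 2) *
          ee s ((((2 * s + 1 : ℕ) : ℂ) + 2 + 2 * j) / 2) ^ r / (qf (tt s) r * qf (tt s) (N - r)) =
          qf (tt s) k / qf (tt s) j / qf (tt s) N := by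
      rw [← e2, mul_div_cancel_left₀ _ n1]
    rw [e4, VC.qf_ee, VC.qf_ee, VC.qf_ee, show (k : ℕ) - j = N by omega]
    have m1 := fSc_ne (s := s) (m := j) (by omega)
    have m2 := fSc_ne (s := s) (m := N) (by omega)
    have m3 := ee_ne s ((j : ℂ) * (j + 1) / 4 - j * ((2 * s + 1 : ℕ) : ℂ) / 4)
    have m4 := ee_ne s ((N : ℂ) * (N + 1) / 4 - N * ((2 * s + 1 : ℕ) : ℂ) / 4)
    have h5 : ee s (2 * (s : ℂ) ^ 2 + k * ((2 * s + 1 : ℕ) : ℂ) / 2 + k / 2 +
          j * (((2 * s + 1 : ℕ) : ℂ) + 1 + k + j) / 2) *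
          ee s ((k : ℂ) * (k + 1) / 4 - k * ((2 * s + 1 : ℕ) : ℂ) / 4) =
        ee s (2 * (s : ℂ) ^ 2 + ((k : ℂ) + j) ^ 2 / 4 + ((2 * s + 1 : ℕ) : ℂ) * (k + 3 * j) / 4 +
        (3 * k + j) / 4) * ee s ((j : ℂ) * (j + 1) / 4 - j * ((2 * s + 1 : ℕ) : ℂ) / 4) := by
      simp only [← ee_add]
      congr 1
      ring
    generalize ee s ((j : ℂ) * (j + 1) / 4 - j * ((2 * s + 1 : ℕ) : ℂ) / 4) = E1 at *
    generalize ee s ((N : ℂ) * (N + 1) / 4 - N * ((2 * s + 1 : ℕ) : ℂ) / 4) = E2 at *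
    generalize ee s (2 * (s : ℂ) ^ 2 + k * ((2 * s + 1 : ℕ) : ℂ) / 2 + k / 2 +
          j * (((2 * s + 1 : ℕ) : ℂ) + 1 + k + j) / 2) = E3 at *
    generalize ee s ((k : ℂ) * (k + 1) / 4 - k * ((2 * s + 1 : ℕ) : ℂ) / 4) = E4 at *
    generalize ee s (2 * (s : ℂ) ^ 2 + ((k : ℂ) + j) ^ 2 / 4 +
      ((2 * s + 1 : ℕ) : ℂ) * (k + 3 * j) / 4 + (3 * k + j) / 4) = E5 at *
    push_cast
    field_simp
    linear_combination (fS (2 * s + 1) k : ℂ) ^ 2 * h5
  · refine Finset.sum_eq_zero fun m _ => ?_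
    rw [if_neg]
    omega

/-! ### the kernels -/

lemma fS_zero_of_le {n m : ℕ} (hn : 0 < n) (h : n ≤ m) : fS n m = 0 := by
  unfold fS
  refine Finset.prod_eq_zero (i := n - 1) (mem_range.mpr (by omega)) ?_
  have h1 : ((n - 1 : ℕ) : ℝ) + 1 = n := by
    rw [Nat.cast_sub (by omega)]
    push_cast
    ring
  have h2 : (n : ℝ) ≠ 0 := by exact_mod_cast hn.ne'
  rw [h1, mul_div_assoc, div_self h2, mul_one, Real.sin_pi, mul_zero]

/-- kernel of one crossing -/
noncomputable def k1 (s u v : ℕ) : ℂ :=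
  ((fS (2 * s + 1) (u + v) / (fS (2 * s + 1) u * fS (2 * s + 1) v) : ℝ) : ℂ) *
    ee s (((s : ℂ) ^ 2 + 2 * s) / 2 + s * (u + v) - u * v / 2)

/-- kernel of a twist region with two crossings -/
noncomputable def k2 (s u v : ℕ) : ℂ :=
  ((((2 * s + 1 : ℕ) : ℝ) * fS (2 * s + 1) (u + v) /
    (fS (2 * s + 1) u ^ 2 * fS (2 * s + 1) v ^ 2) : ℝ) : ℂ) *
    ee s (-(s : ℂ) ^ 2 + s * (u + v) / 2 + ((u : ℂ) - v) ^ 2 / 4)

/-- kernel of one crossing, second argument reflected -/
noncomputable def a1 (s m u : ℕ) : ℂ :=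
  if u ≤ m then ((fS (2 * s + 1) m / (fS (2 * s + 1) u * fS (2 * s + 1) (m - u)) : ℝ) : ℂ) *
    ee s ((s : ℂ) ^ 2 / 2 - ((2 * s + 1 : ℕ) : ℂ) * m / 2 + m * (1 + u) / 2) else 0

/-- kernel of two crossings, second argument reflected -/
noncomputable def a2 (s m u : ℕ) : ℂ :=
  if u ≤ m then ((fS (2 * s + 1) m ^ 2 / (fS (2 * s + 1) u ^ 2 * fS (2 * s + 1) (m - u)) : ℝ) : ℂ) *
    ee s (3 * (s : ℂ) ^ 2 + s - s * u / 2 - 3 * s * m / 2 + ((u : ℂ) + m) ^ 2 / 4) else 0

/-- the normalised kernel of a twist region -/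
noncomputable def KR (s : ℕ) (b : ℤ) (u v : ℕ) : ℂ := ee s (-(b * (s : ℂ) ^ 2 / 2)) * KK s b u v

lemma ee_conj (s : ℕ) (x : ℂ) : (starRingEnd ℂ) (ee s x) = ee s (-(starRingEnd ℂ) x) := by
  unfold DT.ee
  rw [← Complex.exp_conj]
  congr 1
  simp only [map_div₀, map_mul, Complex.conj_I, Complex.conj_ofReal, map_natCast, map_ofNat]
  ring

lemma KK_neg {s : ℕ} {b : ℤ} (hb : 0 < b) (u v : ℕ) : KK s (-b) u v =
    (starRingEnd ℂ) (KK s b u v) := by
  unfold KK
  rw [if_neg (by omega), if_pos hb.le, Int.natAbs_neg]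

lemma KR_neg {s : ℕ} {b : ℤ} (hb : 0 < b) (u v : ℕ) : KR s (-b) u v =
    (starRingEnd ℂ) (KR s b u v) := by
  unfold KR
  rw [KK_neg hb, map_mul, ee_conj]
  congr 2
  simp only [map_neg, map_div₀, map_mul, map_pow, map_natCast, map_ofNat, map_intCast]
  push_cast
  ring

lemma KR_symm {s : ℕ} (b : ℤ) {u v : ℕ} (hu : u ≤ 2 * s) (hv : v ≤ 2 * s) :
    KR s b u v = KR s b v u := by
  unfold KR
  rw [KK_symm b hu hv]

lemma KK_pos_eq {s a : ℕ} {u v : ℕ} (hu : u ≤ 2 * s) (hv : v ≤ 2 * s) :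
    KK s (a : ℤ) u v = (AA s ^ a) ⟨2 * s - u, by omega⟩ ⟨v, by omega⟩ := by
  unfold KK
  rw [if_pos (by omega), Int.natAbs_natCast, AA_KN]
  simp only
  rw [show 2 * s - (2 * s - u) = u by omega]

lemma k2_symm (s u v : ℕ) : k2 s u v = k2 s v u := by
  unfold k2
  rw [add_comm u v, mul_comm (fS (2 * s + 1) u ^ 2), add_comm (u : ℂ) v,
    show ((u : ℂ) - v) ^ 2 = ((v : ℂ) - u) ^ 2 by ring]

/-- twist regions with two crossings -/
theorem KR_two {s u v : ℕ} (hu : u ≤ 2 * s) (hv : v ≤ 2 * s) : KR s 2 u v = k2 s u v := by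
  have e0 : KK s 2 u v = (AA s ^ 2) ⟨2 * s - u, by omega⟩ ⟨v, by omega⟩ := KK_pos_eq (a := 2) hu hv
  unfold KR k2
  rw [e0, AA_sq]
  simp only
  split_ifs with h
  · have n1 := fSc_ne (s := s) hu
    have n2 := fSc_ne (s := s) hv
    have n3 := fSc_ne (s := s) (m := 2 * s - u) (by omega)
    have n4 := fSc_ne (s := s) (m := u + v) (by omega)
    have r1 := fSc_refl (s := s) hu
    have r2 := fSc_refl (s := s) (m := u + v) (by omega)
    have n5 := fSc_ne (s := s) (m := 2 * s - u - v) (by omega)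
    rw [show 2 * s - (u + v) = 2 * s - u - v by omega] at r2
    have e1 : (((fS (2 * s + 1) (2 * s - u) ^ 2 / (fS (2 * s + 1) v ^ 2 *
        fS (2 * s + 1) (2 * s - u - v)) : ℝ)) : ℂ) =
        ((((2 * s + 1 : ℕ) : ℝ) * fS (2 * s + 1) (u + v) /
        (fS (2 * s + 1) u ^ 2 * fS (2 * s + 1) v ^ 2) : ℝ) : ℂ) := by
      simp only [Complex.ofReal_div, Complex.ofReal_mul, Complex.ofReal_pow, Complex.ofReal_natCast]
      rw [div_eq_div_iff (mul_ne_zero (pow_ne_zero _ n2) n5)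
        (mul_ne_zero (pow_ne_zero _ n1) (pow_ne_zero _ n2))]
      have e2 : (fS (2 * s + 1) (2 * s - u) : ℂ) ^ 2 * ((fS (2 * s + 1) u : ℂ) ^ 2 *
          (fS (2 * s + 1) v : ℂ) ^ 2) = ((fS (2 * s + 1) u : ℂ) * fS (2 * s + 1) (2 * s - u)) ^ 2 *
          (fS (2 * s + 1) v : ℂ) ^ 2 := by ring
      rw [e2, r1, ← r2]
      ring
    have e3 : ee s (-(((2 : ℤ) : ℂ) * (s : ℂ) ^ 2 / 2)) * ee s (2 * (s : ℂ) ^ 2 +
        (((2 * s - u : ℕ) : ℂ) + v) ^ 2 / 4 + ((2 * s + 1 : ℕ) : ℂ) * (((2 * s - u : ℕ) : ℂ) +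
          3 * v) / 4 + (3 * ((2 * s - u : ℕ) : ℂ) + v) / 4) =
        ee s (-(s : ℂ) ^ 2 + s * (u + v) / 2 + ((u : ℂ) - v) ^ 2 / 4) := by
      rw [← ee_add]
      have e4 : -(((2 : ℤ) : ℂ) * (s : ℂ) ^ 2 / 2) + (2 * (s : ℂ) ^ 2 +
        (((2 * s - u : ℕ) : ℂ) + v) ^ 2 / 4 + ((2 * s + 1 : ℕ) : ℂ) * (((2 * s - u : ℕ) : ℂ) +
          3 * v) / 4 + (3 * ((2 * s - u : ℕ) : ℂ) + v) / 4) =
          (-(s : ℂ) ^ 2 + s * (u + v) / 2 + ((u : ℂ) - v) ^ 2 / 4) +
          (((2 * s - u + v : ℤ)) : ℂ) * ((2 * s + 1 : ℕ) : ℂ) := by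
        rw [Nat.cast_sub (by omega)]
        push_cast
        ring
      rw [e4, ee_add, ee_int, mul_one]
    rw [e1, ← e3]
    ring
  · rw [fS_zero_of_le (show 0 < 2 * s + 1 by omega) (show 2 * s + 1 ≤ u + v by omega)]
    simp

/-- one crossing -/
theorem KR_one {s u v : ℕ} (hu : u ≤ 2 * s) (hv : v ≤ 2 * s) : KR s 1 u v = k1 s u v := by
  have e0 : KK s 1 u v = (AA s ^ 1) ⟨2 * s - u, by omega⟩ ⟨v, by omega⟩ := KK_pos_eq (a := 1) hu hv
  unfold KR k1
  rw [e0, pow_one, AA_eq]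
  simp only
  split_ifs with h
  · have n1 := fSc_ne (s := s) hu
    have n2 := fSc_ne (s := s) hv
    have n3 := fSc_ne (s := s) (m := 2 * s - u) (by omega)
    have n4 := fSc_ne (s := s) (m := u + v) (by omega)
    have r1 := fSc_refl (s := s) hu
    have r2 := fSc_refl (s := s) (m := u + v) (by omega)
    have n5 := fSc_ne (s := s) (m := 2 * s - u - v) (by omega)
    rw [show 2 * s - (u + v) = 2 * s - u - v by omega] at r2
    have e1 : (((fS (2 * s + 1) (2 * s - u) / (fS (2 * s + 1) v *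
        fS (2 * s + 1) (2 * s - u - v)) : ℝ)) : ℂ) =
        ((fS (2 * s + 1) (u + v) / (fS (2 * s + 1) u * fS (2 * s + 1) v) : ℝ) : ℂ) := by
      simp only [Complex.ofReal_div, Complex.ofReal_mul]
      rw [div_eq_div_iff (mul_ne_zero n2 n5) (mul_ne_zero n1 n2)]
      have e2 : (fS (2 * s + 1) (2 * s - u) : ℂ) * ((fS (2 * s + 1) u : ℂ) *
          (fS (2 * s + 1) v : ℂ)) = ((fS (2 * s + 1) u : ℂ) * fS (2 * s + 1) (2 * s - u)) *
          (fS (2 * s + 1) v : ℂ) := by ring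
      rw [e2, r1, ← r2]
      ring
    have e3 : ee s (-(((1 : ℤ) : ℂ) * (s : ℂ) ^ 2 / 2)) * ee s ((s : ℂ) ^ 2 +
        ((2 * s - u : ℕ) : ℂ) * ((2 * s + 1 : ℕ) : ℂ) / 2 + ((2 * s - u : ℕ) : ℂ) * (1 + v) / 2) =
        ee s (((s : ℂ) ^ 2 + 2 * s) / 2 + s * (u + v) - u * v / 2) := by
      rw [← ee_add]
      have e4 : -(((1 : ℤ) : ℂ) * (s : ℂ) ^ 2 / 2) + ((s : ℂ) ^ 2 +
        ((2 * s - u : ℕ) : ℂ) * ((2 * s + 1 : ℕ) : ℂ) / 2 + ((2 * s - u : ℕ) : ℂ) * (1 + v) / 2) =
          (((s : ℂ) ^ 2 + 2 * s) / 2 + s * (u + v) - u * v / 2) +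
          (((s - u : ℤ)) : ℂ) * ((2 * s + 1 : ℕ) : ℂ) := by
        rw [Nat.cast_sub (by omega)]
        push_cast
        ring
      rw [e4, ee_add, ee_int, mul_one]
    rw [e1, ← e3]
    ring
  · rw [fS_zero_of_le (show 0 < 2 * s + 1 by omega) (show 2 * s + 1 ≤ u + v by omega)]
    simp

theorem KR_neg_one {s u v : ℕ} (hu : u ≤ 2 * s) (hv : v ≤ 2 * s) :
    KR s (-1) u v = (starRingEnd ℂ) (k1 s u v) := by
  rw [KR_neg (by norm_num), KR_one hu hv]

/-- the entries of the matrix of `σ_1` -/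
lemma a1_eq {s : ℕ} (m u : Fin (2 * s + 1)) :
    ee s (-((s : ℂ) ^ 2 / 2)) * AA s m u = a1 s m u := by
  rw [AA_eq]
  unfold a1
  split_ifs with h
  · have e4 : -((s : ℂ) ^ 2 / 2) + ((s : ℂ) ^ 2 + m * ((2 * s + 1 : ℕ) : ℂ) / 2 + m * (1 + u) / 2) =
        ((s : ℂ) ^ 2 / 2 - ((2 * s + 1 : ℕ) : ℂ) * m / 2 + m * (1 + u) / 2) +
        (((m : ℕ) : ℤ) : ℂ) * ((2 * s + 1 : ℕ) : ℂ) := by
      push_cast
      ring
    have e5 : ee s (-((s : ℂ) ^ 2 / 2)) * ee s ((s : ℂ) ^ 2 + m * ((2 * s + 1 : ℕ) : ℂ) / 2 +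
        m * (1 + u) / 2) = ee s ((s : ℂ) ^ 2 / 2 - ((2 * s + 1 : ℕ) : ℂ) * m / 2 +
          m * (1 + u) / 2) := by
      rw [← ee_add, e4, ee_add, ee_int, mul_one]
    rw [← e5]
    ring
  · rw [mul_zero]

lemma a2_eq {s : ℕ} (m u : Fin (2 * s + 1)) :
    ee s (-(s : ℂ) ^ 2) * (AA s ^ 2) m u = a2 s m u := by
  rw [AA_sq]
  unfold a2
  split_ifs with h
  · have e4 : -(s : ℂ) ^ 2 + (2 * (s : ℂ) ^ 2 + ((m : ℂ) + u) ^ 2 / 4 +
        ((2 * s + 1 : ℕ) : ℂ) * (m + 3 * u) / 4 + (3 * m + u) / 4) =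
        (3 * (s : ℂ) ^ 2 + s - s * u / 2 - 3 * s * m / 2 + ((u : ℂ) + m) ^ 2 / 4) +
        ((((m : ℕ) + (u : ℕ) - s : ℤ)) : ℂ) * ((2 * s + 1 : ℕ) : ℂ) := by
      push_cast
      ring
    have e5 : ee s (-(s : ℂ) ^ 2) * ee s (2 * (s : ℂ) ^ 2 + ((m : ℂ) + u) ^ 2 / 4 +
        ((2 * s + 1 : ℕ) : ℂ) * (m + 3 * u) / 4 + (3 * m + u) / 4) =
        ee s (3 * (s : ℂ) ^ 2 + s - s * u / 2 - 3 * s * m / 2 + ((u : ℂ) + m) ^ 2 / 4) := by
      rw [← ee_add, e4, ee_add, ee_int, mul_one]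
    rw [← e5]
    ring
  · rw [mul_zero]

/-- twist regions with three crossings -/
theorem KR_three {s u v : ℕ} (hu : u ≤ 2 * s) (hv : v ≤ 2 * s) :
    KR s 3 u v = ∑ m : Fin (2 * s + 1), k2 s u m * a1 s m v := by
  have e0 : KK s 3 u v = (AA s ^ 3) ⟨2 * s - u, by omega⟩ ⟨v, by omega⟩ := KK_pos_eq (a := 3) hu hv
  unfold KR
  rw [e0, show AA s ^ 3 = AA s ^ 2 * AA s from pow_succ _ _, Matrix.mul_apply, Finset.mul_sum]
  refine Finset.sum_congr rfl fun m _ => ?_
  have hm := m.isLt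
  have e1 := KR_two (s := s) hu (show (m : ℕ) ≤ 2 * s by omega)
  have e2 := a1_eq m ⟨v, by omega⟩
  have e3 : KK s 2 u m = (AA s ^ 2) ⟨2 * s - u, by omega⟩ ⟨m, by omega⟩ :=
    KK_pos_eq (a := 2) hu (by omega)
  simp only at e2
  rw [← e1, ← e2, KR, e3]
  have e4 : ee s (-(((3 : ℤ) : ℂ) * (s : ℂ) ^ 2 / 2)) =
      ee s (-(((2 : ℤ) : ℂ) * (s : ℂ) ^ 2 / 2)) * ee s (-((s : ℂ) ^ 2 / 2)) := by
    rw [← ee_add]
    congr 1
    push_cast
    ring
  rw [e4]
  ring

/-- twist regions with four crossings -/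
theorem KR_four {s u v : ℕ} (hu : u ≤ 2 * s) (hv : v ≤ 2 * s) :
    KR s 4 u v = ∑ m : Fin (2 * s + 1), k2 s u m * a2 s m v := by
  have e0 : KK s 4 u v = (AA s ^ 4) ⟨2 * s - u, by omega⟩ ⟨v, by omega⟩ := KK_pos_eq (a := 4) hu hv
  unfold KR
  rw [e0, show (4 : ℕ) = 2 + 2 from rfl, pow_add, Matrix.mul_apply, Finset.mul_sum]
  refine Finset.sum_congr rfl fun m _ => ?_
  have hm := m.isLt
  have e1 := KR_two (s := s) hu (show (m : ℕ) ≤ 2 * s by omega)
  have e2 := a2_eq m ⟨v, by omega⟩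
  have e3 : KK s 2 u m = (AA s ^ 2) ⟨2 * s - u, by omega⟩ ⟨m, by omega⟩ :=
    KK_pos_eq (a := 2) hu (by omega)
  simp only at e2
  rw [← e1, ← e2, KR, e3]
  have e4 : ee s (-(((4 : ℤ) : ℂ) * (s : ℂ) ^ 2 / 2)) =
      ee s (-(((2 : ℤ) : ℂ) * (s : ℂ) ^ 2 / 2)) * ee s (-(s : ℂ) ^ 2) := by
    rw [← ee_add]
    congr 1
    push_cast
    ring
  rw [e4]
  ring

/-- the same with the other orientation -/
theorem KR_three' {s u v : ℕ} (hu : u ≤ 2 * s) (hv : v ≤ 2 * s) :
    KR s 3 u v = ∑ m : Fin (2 * s + 1), a1 s m u * k2 s m v := by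
  rw [KR_symm 3 hu hv, KR_three hv hu]
  refine Finset.sum_congr rfl fun m _ => ?_
  have hm := m.isLt
  rw [mul_comm, k2_symm]

/-- the same with the other orientation -/
theorem KR_four' {s u v : ℕ} (hu : u ≤ 2 * s) (hv : v ≤ 2 * s) :
    KR s 4 u v = ∑ m : Fin (2 * s + 1), a2 s m u * k2 s m v := by
  rw [KR_symm 4 hu hv, KR_four hv hu]
  refine Finset.sum_congr rfl fun m _ => ?_
  have hm := m.isLt
  rw [mul_comm, k2_symm]

/-! ### negative twist regions -/

theorem KR_neg_two {s u v : ℕ} (hu : u ≤ 2 * s) (hv : v ≤ 2 * s) :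
    KR s (-2) u v = (starRingEnd ℂ) (k2 s u v) := by
  rw [KR_neg (by norm_num), KR_two hu hv]

theorem KR_neg_three {s u v : ℕ} (hu : u ≤ 2 * s) (hv : v ≤ 2 * s) :
    KR s (-3) u v = ∑ m : Fin (2 * s + 1),
      (starRingEnd ℂ) (k2 s u m) * (starRingEnd ℂ) (a1 s m v) := by
  rw [KR_neg (by norm_num), KR_three hu hv, map_sum]
  exact Finset.sum_congr rfl fun m _ => map_mul _ _ _

theorem KR_neg_three' {s u v : ℕ} (hu : u ≤ 2 * s) (hv : v ≤ 2 * s) :
    KR s (-3) u v = ∑ m : Fin (2 * s + 1),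
      (starRingEnd ℂ) (a1 s m u) * (starRingEnd ℂ) (k2 s m v) := by
  rw [KR_neg (by norm_num), KR_three' hu hv, map_sum]
  exact Finset.sum_congr rfl fun m _ => map_mul _ _ _

theorem KR_neg_four {s u v : ℕ} (hu : u ≤ 2 * s) (hv : v ≤ 2 * s) :
    KR s (-4) u v = ∑ m : Fin (2 * s + 1),
      (starRingEnd ℂ) (k2 s u m) * (starRingEnd ℂ) (a2 s m v) := by
  rw [KR_neg (by norm_num), KR_four hu hv, map_sum]
  exact Finset.sum_congr rfl fun m _ => map_mul _ _ _

theorem KR_neg_four' {s u v : ℕ} (hu : u ≤ 2 * s) (hv : v ≤ 2 * s) :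
    KR s (-4) u v = ∑ m : Fin (2 * s + 1),
      (starRingEnd ℂ) (a2 s m u) * (starRingEnd ℂ) (k2 s m v) := by
  rw [KR_neg (by norm_num), KR_four' hu hv, map_sum]
  exact Finset.sum_congr rfl fun m _ => map_mul _ _ _

/-- long twist regions -/
theorem KR_path {s u v : ℕ} (b : ℤ) (hu : u ≤ 2 * s) {ρ : ℝ} (hρ : 0 < ρ) :
    KR s b u v = (Complex.I * ((2 * s + 1 : ℕ) : ℂ) ^ 2 / 2) *
      ((1 / (fS (2 * s + 1) u ^ 2 * fS (2 * s + 1) v ^ 2) : ℝ) : ℂ) *
      ∫ σ in (-(1 / 2) : ℝ)..(1 / 2), EE (2 * s + 1) b ρ σ *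
        (PP (2 * s + 1) u (zt ρ σ) * PP (2 * s + 1) v (zt ρ σ)) := by
  unfold KR
  rw [KK_path b hu hρ]
  have e1 : ee s (-(b * (s : ℂ) ^ 2 / 2)) * Complex.exp (Real.pi * Complex.I * b * s ^ 2 /
      ((2 * s + 1 : ℕ) : ℂ)) = 1 := by
    unfold DT.ee
    rw [← Complex.exp_add, ← Complex.exp_zero]
    congr 1
    ring
  rw [← mul_assoc, ← mul_assoc, ← mul_assoc, e1, one_mul]

/-- the invariant as a sum over chains of normalised kernels -/
theorem chainR {M : ℕ} (b : Fin (M + 1) → ℤ) (δ : ℤ) {s : ℕ} (hs : 1 ≤ s) :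
    twoBridgeKashaev (ltWord (List.ofFn b)) δ (2 * s + 1) =
      phs (orientedWrithe (ltWord (List.ofFn b)) ![1, δ, -δ]) (∑ i, b i) s *
      ∑ y : Fin M → Fin (2 * s + 1), ∏ i : Fin (M + 1), KR s (b i) (Li y i) (Ri y i) := by
  rw [chain b δ hs, phs, mul_assoc (Complex.exp _) (Complex.exp _)]
  congr 1
  rw [Finset.mul_sum]
  refine Finset.sum_congr rfl fun y _ => ?_
  unfold KR
  rw [Finset.prod_mul_distrib, ← mul_assoc]
  have e1 : Complex.exp (Real.pi * Complex.I * ((∑ i, b i : ℤ) : ℂ) * s ^ 2 /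
      ((2 * s + 1 : ℕ) : ℂ)) * ∏ i : Fin (M + 1), ee s (-(b i * (s : ℂ) ^ 2 / 2)) = 1 := by
    unfold DT.ee
    rw [← Complex.exp_sum, ← Complex.exp_add, ← Complex.exp_zero]
    congr 1
    rw [← Finset.sum_div, ← Finset.mul_sum, Finset.sum_neg_distrib, ← Finset.sum_div,
      ← Finset.sum_mul]
    push_cast
    ring
  rw [e1, one_mul]
  rfl

end Pool.Agent.Work.MP_b30479_gtS.LT

end

section

/-!
# The `q`-Vandermonde identity
-/

namespace Pool.Agent.Work.MP_b30479_gtS.G2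

open Finset

section
variable {A : Type*} [CommRing A] (t : A)

lemma gauss_succ (n k : ℕ) : gauss t (n + 1) (k + 1) = gauss t n k + t ^ (k + 1) * gauss t n (k + 1) :=
  rfl

lemma gauss_zero_right (n : ℕ) : gauss t n 0 = 1 := by
  cases n <;> rfl

lemma gauss_lt : ∀ {n k : ℕ}, n < k → gauss t n k = 0
  | 0, 0, h => absurd h (lt_irrefl _)
  | 0, k + 1, _ => rfl
  | n + 1, 0, h => by omega
  | n + 1, k + 1, h => by
      rw [gauss_succ, gauss_lt (by omega), gauss_lt (by omega)]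
      ring

/-- `∑_j t^{j(j+r)} [N, j+r] [k, j] = [N+k, k+r]` -/
theorem vandermonde : ∀ k N r : ℕ,
    ∑ j ∈ range (k + 1), t ^ (j * (j + r)) * gauss t N (j + r) * gauss t k j =
      gauss t (N + k) (k + r) := by
  intro k
  induction k with
  | zero =>
    intro N r
    simp [gauss_zero_right]
  | succ k ih =>
    intro N r
    have h1 : ∑ j ∈ range (k + 1 + 1), t ^ (j * (j + r)) * gauss t N (j + r) * gauss t (k + 1) j =
        ∑ j ∈ range (k + 1), t ^ (j * (j + (r + 1))) * gauss t (N + 1) (j + (r + 1)) *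
          gauss t k j := by
      rw [Finset.sum_range_succ' _ (k + 1)]
      have e1 : ∀ j ∈ range (k + 1), t ^ ((j + 1) * (j + 1 + r)) * gauss t N (j + 1 + r) *
          gauss t (k + 1) (j + 1) =
          t ^ (j * (j + (r + 1))) * (t ^ (j + r + 1) * gauss t N (j + r + 1)) * gauss t k j +
          t ^ ((j + 1) * (j + 1 + (r + 1))) * gauss t N (j + 1 + r) * gauss t k (j + 1) := by
        intro j _
        rw [gauss_succ, show (j + 1) * (j + 1 + r) = j * (j + (r + 1)) + (j + r + 1) by ring,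
          show (j + 1) * (j + 1 + (r + 1)) = j * (j + (r + 1)) + (j + r + 1) + (j + 1) by ring,
          show j + 1 + r = j + r + 1 by ring, pow_add, pow_add, pow_add]
        ring
      have e2 : ∑ j ∈ range (k + 1), t ^ (j * (j + (r + 1))) * gauss t N (j + r) * gauss t k j =
          ∑ j ∈ range (k + 1), t ^ ((j + 1) * (j + 1 + (r + 1))) * gauss t N (j + 1 + r) *
            gauss t k (j + 1) + t ^ (0 * (0 + (r + 1))) * gauss t N (0 + r) * gauss t k 0 := by
        rw [← Finset.sum_range_succ' (fun j => t ^ (j * (j + (r + 1))) * gauss t N (j + r) *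
          gauss t k j) (k + 1), Finset.sum_range_succ _ (k + 1), gauss_lt t (Nat.lt_succ_self k),
          mul_zero, add_zero]
      have e3 : ∀ j ∈ range (k + 1), t ^ (j * (j + (r + 1))) * gauss t (N + 1) (j + (r + 1)) *
          gauss t k j =
          t ^ (j * (j + (r + 1))) * (t ^ (j + r + 1) * gauss t N (j + r + 1)) * gauss t k j +
          t ^ (j * (j + (r + 1))) * gauss t N (j + r) * gauss t k j := by
        intro j _
        rw [← add_assoc, gauss_succ]
        ring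
      rw [Finset.sum_congr rfl e1, Finset.sum_add_distrib, Finset.sum_congr rfl e3,
        Finset.sum_add_distrib, e2]
      simp only [zero_mul, pow_zero, one_mul, gauss_zero_right, mul_one]
      ring
    rw [h1, ih (N + 1) (r + 1), show N + 1 + k = N + (k + 1) by ring,
      show k + (r + 1) = k + 1 + r by ring]

end

end Pool.Agent.Work.MP_b30479_gtS.G2

end

section

/-!
# The relation between the two braidings
-/

namespace Pool.Agent.Work.MP_b30479_gtS.G2

open Finset VOL AX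
open Pool.Agent.Work.MP_b30479_gtS.LT
open TB
open DT (ee ee_add ee_ne ee_zero ee_neg ee_pow ee_int ee_half nn_ne tt_pow)

lemma gauss_mul_qf (t : ℂ) : ∀ {k m : ℕ}, m ≤ k → gauss t k m * qf t m * qf t (k - m) = qf t k
  | k, 0, _ => by
      rw [gauss_zero_right, qf_zero]
      simp
  | 0, m + 1, h => by omega
  | k + 1, m + 1, h => by
      have h1 := gauss_mul_qf t (k := k) (m := m) (by omega)
      rw [gauss_succ, show k + 1 - (m + 1) = k - m by omega, qf_succ t m, qf_succ t k]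
      rcases Nat.lt_or_ge k (m + 1) with h2 | h2
      · have : m = k := by omega
        subst this
        rw [gauss_lt t (Nat.lt_succ_self m)]
        linear_combination (1 - t ^ (m + 1)) * h1
      · have h3 := gauss_mul_qf t (k := k) (m := m + 1) h2
        obtain ⟨d, rfl⟩ : ∃ d, k = m + 1 + d := ⟨k - (m + 1), by omega⟩
        rw [show m + 1 + d - (m + 1) = d by omega, qf_succ t m] at h3
        rw [show m + 1 + d - m = d + 1 by omega, qf_succ t d] at h1 ⊢
        rw [show m + 1 + d + 1 = (m + 1) + (d + 1) by ring, pow_add t (m + 1) (d + 1)]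
        linear_combination (1 - t ^ (m + 1)) * h1 + t ^ (m + 1) * (1 - t ^ (d + 1)) * h3

lemma gauss_fS {s k m : ℕ} (hm : m ≤ k) (hk : k ≤ 2 * s) : gauss (tt s) k m =
    (fS (2 * s + 1) k : ℂ) / ((fS (2 * s + 1) m : ℂ) * (fS (2 * s + 1) (k - m) : ℂ)) *
      ee s ((m : ℂ) * (k - m) / 2) := by
  have h := gauss_mul_qf (tt s) hm
  rw [VC.qf_ee, VC.qf_ee, VC.qf_ee] at h
  have n1 := fSc_ne (s := s) (m := m) (by omega)
  have n2 := fSc_ne (s := s) (m := k - m) (by omega)
  have n3 := ee_ne s ((m : ℂ) * (m + 1) / 4 - m * ((2 * s + 1 : ℕ) : ℂ) / 4)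
  have n4 := ee_ne s (((k - m : ℕ) : ℂ) * (((k - m : ℕ) : ℂ) + 1) / 4 -
    ((k - m : ℕ) : ℂ) * ((2 * s + 1 : ℕ) : ℂ) / 4)
  have h4 : ee s ((k : ℂ) * (k + 1) / 4 - k * ((2 * s + 1 : ℕ) : ℂ) / 4) =
      ee s ((m : ℂ) * (k - m) / 2) *
      (ee s ((m : ℂ) * (m + 1) / 4 - m * ((2 * s + 1 : ℕ) : ℂ) / 4) *
      ee s (((k - m : ℕ) : ℂ) * (((k - m : ℕ) : ℂ) + 1) / 4 -
        ((k - m : ℕ) : ℂ) * ((2 * s + 1 : ℕ) : ℂ) / 4)) := by
    simp only [← ee_add]
    congr 1
    rw [Nat.cast_sub hm]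
    ring
  rw [h4] at h
  generalize ee s ((m : ℂ) * (m + 1) / 4 - m * ((2 * s + 1 : ℕ) : ℂ) / 4) = E1 at *
  generalize ee s (((k - m : ℕ) : ℂ) * (((k - m : ℕ) : ℂ) + 1) / 4 -
    ((k - m : ℕ) : ℂ) * ((2 * s + 1 : ℕ) : ℂ) / 4) = E2 at *
  generalize ee s ((m : ℂ) * (k - m) / 2) = E3 at *
  rw [div_mul_eq_mul_div, eq_div_iff (mul_ne_zero n1 n2)]
  have h5 : E1 * E2 ≠ 0 := mul_ne_zero n3 n4
  apply mul_right_cancel₀ h5
  linear_combination h

lemma gauss_zero_of_ge {s k m : ℕ} (hm : m ≤ 2 * s) (hkm : k - m ≤ 2 * s) (hk : 2 * s + 1 ≤ k) :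
    gauss (tt s) k m = 0 := by
  have h := gauss_mul_qf (tt s) (show m ≤ k by omega)
  have hp := tt_prim s
  have n1 := qf_ne_zero hp hm
  have n2 := qf_ne_zero hp hkm
  have h0 : qf (tt s) k = 0 := by
    unfold qf
    refine Finset.prod_eq_zero (mem_range.mpr (show 2 * s < k by omega)) ?_
    rw [hp.pow_eq_one, sub_self]
  rw [h0] at h
  rcases mul_eq_zero.mp h with h | h
  · rcases mul_eq_zero.mp h with h | h
    · exact h
    · exact absurd h n1
  · exact absurd h n2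

lemma AA_eq_gauss {s : ℕ} (k j : Fin (2 * s + 1)) : AA s k j =
    gauss (tt s) k j * ee s ((s : ℂ) ^ 2 + k * (s + 1) + (j : ℂ) ^ 2 / 2) := by
  have hk := k.isLt
  have hj := j.isLt
  rw [AA_eq]
  split_ifs with h
  · rw [gauss_fS h (by omega), mul_assoc, ← ee_add]
    push_cast
    congr 2
    ring
  · rw [gauss_lt _ (by omega), zero_mul]

/-- `A Aᵀ = c J A⁻¹`, entrywise -/
theorem AA_AAT {s : ℕ} (k N : Fin (2 * s + 1)) :
    ∑ m : Fin (2 * s + 1), AA s k m * AA s N m = ee s ((s : ℂ) ^ 2) * star (AA s (Fin.rev k) N) := by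
  have hk := k.isLt
  have hN := N.isLt
  have e1 : ∀ m : Fin (2 * s + 1), AA s k m * AA s N m =
      ee s (2 * (s : ℂ) ^ 2 + ((k : ℂ) + N) * (s + 1)) *
      (fun j : ℕ => (tt s) ^ (j * (j + 0)) * gauss (tt s) N (j + 0) * gauss (tt s) k j) m := by
    intro m
    rw [AA_eq_gauss, AA_eq_gauss]
    simp only [add_zero]
    rw [tt_pow]
    have : ee s ((s : ℂ) ^ 2 + k * (s + 1) + (m : ℂ) ^ 2 / 2) *
        ee s ((s : ℂ) ^ 2 + N * (s + 1) + (m : ℂ) ^ 2 / 2) =
        ee s (2 * (s : ℂ) ^ 2 + ((k : ℂ) + N) * (s + 1)) * ee s ((m * m : ℕ) : ℂ) := by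
      simp only [← ee_add]
      congr 1
      push_cast
      ring
    linear_combination gauss (tt s) k m * gauss (tt s) N m * this
  rw [Finset.sum_congr rfl fun m _ => e1 m, ← Finset.mul_sum,
    Fin.sum_univ_eq_sum_range (fun j : ℕ => (tt s) ^ (j * (j + 0)) * gauss (tt s) N (j + 0) *
      gauss (tt s) k j)]
  have e2 : ∑ j ∈ range (2 * s + 1), (tt s) ^ (j * (j + 0)) * gauss (tt s) N (j + 0) *
      gauss (tt s) k j = gauss (tt s) (N + k) (k + 0) := by
    rw [← vandermonde]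
    symm
    apply Finset.sum_subset
    · intro x hx
      rw [mem_range] at hx ⊢
      omega
    · intro x _ hx
      rw [mem_range] at hx
      rw [gauss_lt (tt s) (show (k : ℕ) < x by omega), mul_zero]
  rw [e2, add_zero, AA_eq, Fin.val_rev]
  split_ifs with h
  · rw [gauss_fS (by omega) (by omega)]
    have r1 := fSc_refl (s := s) (m := k) (by omega)
    have r2 := fSc_refl (s := s) (m := (N : ℕ) + k) (by omega)
    have n1 := fSc_ne (s := s) (m := k) (by omega)
    have n2 := fSc_ne (s := s) (m := N) (by omega)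
    have n3 := fSc_ne (s := s) (m := 2 * s - (N + k)) (by omega)
    rw [show (N : ℕ) + k - k = N by omega, show 2 * s + 1 - ((k : ℕ) + 1) = 2 * s - k by omega,
      show 2 * s - (k : ℕ) - N = 2 * s - (N + k) by omega]
    rw [star_mul', Complex.star_def, ee_conj, Complex.conj_ofReal]
    have h1 : (fS (2 * s + 1) (N + k) : ℂ) / ((fS (2 * s + 1) k : ℂ) * (fS (2 * s + 1) N : ℂ)) =
        ((fS (2 * s + 1) (2 * s - k) / (fS (2 * s + 1) N * fS (2 * s + 1) (2 * s - (N + k))) : ℝ) :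
          ℂ) := by
      push_cast
      rw [div_eq_div_iff (mul_ne_zero n1 n2) (mul_ne_zero n2 n3)]
      linear_combination (fS (2 * s + 1) N : ℂ) * r2 - (fS (2 * s + 1) N : ℂ) * r1
    have h2 : ee s (2 * (s : ℂ) ^ 2 + ((k : ℂ) + N) * (s + 1)) *
        ee s ((k : ℂ) * (((N + k : ℕ) : ℂ) - k) / 2) =
        ee s ((s : ℂ) ^ 2) * ee s (-(starRingEnd ℂ) ((s : ℂ) ^ 2 +
          ((2 * s - (k : ℕ) : ℕ) : ℂ) * ((2 * s + 1 : ℕ) : ℂ) / 2 +
          ((2 * s - (k : ℕ) : ℕ) : ℂ) * (1 + (N : ℕ)) / 2)) := by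
      have h3 := ee_int s (2 * s + N)
      have h4 : (((2 * s - (k : ℕ) : ℕ)) : ℂ) = 2 * s - k := by
        rw [Nat.cast_sub (by omega)]
        push_cast
        ring
      have h5 : (starRingEnd ℂ) ((s : ℂ) ^ 2 +
          ((2 * s - (k : ℕ) : ℕ) : ℂ) * ((2 * s + 1 : ℕ) : ℂ) / 2 +
          ((2 * s - (k : ℕ) : ℕ) : ℂ) * (1 + (N : ℕ)) / 2) = (s : ℂ) ^ 2 +
          (2 * s - k) * (2 * s + 1) / 2 + (2 * s - k) * (1 + N) / 2 := by
        simp only [map_add, map_div₀, map_mul, map_pow, map_natCast, map_one, map_ofNat]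
        rw [h4]
        push_cast
        ring
      have h6 : 2 * (s : ℂ) ^ 2 + ((k : ℂ) + N) * (s + 1) +
          (k : ℂ) * (((N + k : ℕ) : ℂ) - k) / 2 = (s : ℂ) ^ 2 + -((s : ℂ) ^ 2 +
          (2 * s - k) * (2 * s + 1) / 2 + (2 * s - k) * (1 + N) / 2) +
          ((2 * s + N : ℤ) : ℂ) * ((2 * s + 1 : ℕ) : ℂ) := by
        push_cast
        ring
      rw [h5, ← ee_add, ← ee_add, h6, ee_add _ _ (((2 * s + N : ℤ) : ℂ) * ((2 * s + 1 : ℕ) : ℂ)), h3,
        mul_one]
    rw [h1]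
    linear_combination ((fS (2 * s + 1) (2 * s - k) / (fS (2 * s + 1) N *
      fS (2 * s + 1) (2 * s - (N + k))) : ℝ) : ℂ) * h2
  · rw [gauss_zero_of_ge (by omega) (by omega) (by omega), mul_zero, star_zero, mul_zero]

end Pool.Agent.Work.MP_b30479_gtS.G2

end

section

/-!
# Chains of matrices and the relations between them
-/

namespace Pool.Agent.Work.MP_b30479_gtS.G2

open Finset VOL AX
open Pool.Agent.Work.MP_b30479_gtS.LT
open TB
open DT (ee ee_add ee_ne ee_zero ee_neg ee_pow ee_int ee_half nn_ne tt_pow)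

/-! ### the relation in an algebra -/

section
variable {R : Type*} [Ring R] [Algebra ℂ R] {J P Q : R} {c : ℂ}

lemma rel_pos (hJ : J * J = 1) (h : P * J * P = c • (J * Q * J)) (X Y : R) :
    J * X * (J * P) * (J * (P * Y)) = c • (J * (X * Q) * (J * Y)) := by
  calc J * X * (J * P) * (J * (P * Y)) = J * X * J * (P * J * P) * Y := by
        simp only [mul_assoc]
    _ = c • (J * X * (J * J) * Q * J * Y) := by
        rw [h]
        simp only [mul_assoc, mul_smul_comm, smul_mul_assoc]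
    _ = _ := by
        rw [hJ, mul_one]
        simp only [mul_assoc]

lemma rel_inv (hJ : J * J = 1) (hPQ : P * Q = 1) (hc : c ≠ 0)
    (h : P * J * P = c • (J * Q * J)) : Q * J * Q = c⁻¹ • (J * P * J) := by
  have h1 : (P * J * P) * (Q * J * Q) = 1 := by
    calc (P * J * P) * (Q * J * Q) = P * (J * (P * Q) * J) * Q := by simp only [mul_assoc]
      _ = 1 := by rw [hPQ, mul_one, hJ, mul_one, hPQ]
  have h2 : (c⁻¹ • (J * P * J)) * (c • (J * Q * J)) = 1 := by
    rw [smul_mul_assoc, mul_smul_comm, smul_smul, inv_mul_cancel₀ hc, one_smul]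
    calc J * P * J * (J * Q * J) = J * (P * (J * J) * Q) * J := by simp only [mul_assoc]
      _ = 1 := by rw [hJ, mul_one, hPQ, mul_one, hJ]
  calc Q * J * Q = (c⁻¹ • (J * P * J)) * (c • (J * Q * J)) * (Q * J * Q) := by rw [h2, one_mul]
    _ = (c⁻¹ • (J * P * J)) * ((P * J * P) * (Q * J * Q)) := by rw [h, mul_assoc]
    _ = _ := by rw [h1, mul_one]

end

/-! ### matrices -/

/-- the reflection -/
def JJ (s : ℕ) : Matrix (Fin (2 * s + 1)) (Fin (2 * s + 1)) ℂ :=
  fun u v => if Fin.rev u = v then 1 else 0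

lemma JJ_mul {s : ℕ} (X : Matrix (Fin (2 * s + 1)) (Fin (2 * s + 1)) ℂ) (u v : Fin (2 * s + 1)) :
    (JJ s * X) u v = X (Fin.rev u) v := by
  rw [Matrix.mul_apply, Finset.sum_eq_single (Fin.rev u)]
  · simp [JJ]
  · intro m _ hm
    simp [JJ, Ne.symm hm]
  · intro h
    exact absurd (mem_univ _) h

lemma mul_JJ {s : ℕ} (X : Matrix (Fin (2 * s + 1)) (Fin (2 * s + 1)) ℂ) (u v : Fin (2 * s + 1)) :
    (X * JJ s) u v = X u (Fin.rev v) := by
  rw [Matrix.mul_apply, Finset.sum_eq_single (Fin.rev v)]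
  · simp [JJ]
  · intro m _ hm
    have : ¬ (Fin.rev m = v) := fun h => hm (by rw [← h, Fin.rev_rev])
    simp [JJ, this]
  · intro h
    exact absurd (mem_univ _) h

lemma JJ_JJ (s : ℕ) : JJ s * JJ s = 1 := by
  ext u v
  rw [JJ_mul, JJ, Fin.rev_rev, Matrix.one_apply]

/-- the constant `t^{s²}` -/
noncomputable def cc (s : ℕ) : ℂ := ee s ((s : ℂ) ^ 2)

lemma cc_ne (s : ℕ) : cc s ≠ 0 := ee_ne s _

lemma AA_trans (s : ℕ) : (AA s).transpose = JJ s * AA s * JJ s := by
  ext u v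
  have hu := u.isLt
  have hv := v.isLt
  rw [mul_JJ, JJ_mul, Matrix.transpose_apply]
  have h1 : ∀ k j : Fin (2 * s + 1), AA s k j = KK s 1 (2 * s - k) j := fun k j => by
    have := Pb_KK s 1 k j
    rw [← this]
    simp [Pb]
  rw [h1, h1, Fin.val_rev, Fin.val_rev, show 2 * s - (2 * s + 1 - ((u : ℕ) + 1)) = u by omega,
    show 2 * s + 1 - ((v : ℕ) + 1) = 2 * s - v by omega, KK_symm 1 (by omega) (by omega)]

lemma rel (s : ℕ) : AA s * JJ s * AA s = cc s • (JJ s * AC s * JJ s) := by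
  have h1 : AA s * (AA s).transpose = cc s • (JJ s * AC s) := by
    ext u v
    rw [Matrix.mul_apply, Matrix.smul_apply, JJ_mul]
    simp only [Matrix.transpose_apply]
    rw [AA_AAT]
    rfl
  rw [AA_trans] at h1
  calc AA s * JJ s * AA s = AA s * (JJ s * AA s * JJ s) * JJ s := by
        rw [show AA s * (JJ s * AA s * JJ s) * JJ s = AA s * JJ s * AA s * (JJ s * JJ s) by
          simp only [mul_assoc], JJ_JJ, mul_one]
    _ = _ := by
        rw [h1, smul_mul_assoc]

/-- `σ_1` as a unit -/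
noncomputable def UA (s : ℕ) : (Matrix (Fin (2 * s + 1)) (Fin (2 * s + 1)) ℂ)ˣ :=
  ⟨AA s, AC s, mul_AC s, AC_mul s⟩

lemma Pb_unit (s : ℕ) (b : ℤ) : Pb s b = ((UA s ^ b : (Matrix (Fin (2 * s + 1))
    (Fin (2 * s + 1)) ℂ)ˣ) : Matrix (Fin (2 * s + 1)) (Fin (2 * s + 1)) ℂ) := by
  unfold Pb
  split_ifs with h
  · obtain ⟨m, rfl⟩ := Int.eq_ofNat_of_zero_le h
    rw [Int.natAbs_natCast, zpow_natCast, Units.val_pow_eq_pow_val]
    rfl
  · obtain ⟨m, hm⟩ : ∃ m : ℕ, b = -(m : ℤ) := ⟨b.natAbs, by omega⟩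
    subst hm
    rw [Int.natAbs_neg, Int.natAbs_natCast, zpow_neg, zpow_natCast, ← inv_pow,
      Units.val_pow_eq_pow_val]
    rfl

lemma Pb_add (s : ℕ) (a b : ℤ) : Pb s (a + b) = Pb s a * Pb s b := by
  rw [Pb_unit, Pb_unit, Pb_unit, zpow_add, Units.val_mul]

lemma Pb_one (s : ℕ) : Pb s 1 = AA s := by simp [Pb]

lemma Pb_neg_one (s : ℕ) : Pb s (-1) = AC s := by simp [Pb]

lemma Pb_zero (s : ℕ) : Pb s 0 = 1 := by simp [Pb]

/-- the matrix of a twist region -/
noncomputable def Tm (s : ℕ) (b : ℤ) : Matrix (Fin (2 * s + 1)) (Fin (2 * s + 1)) ℂ :=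
  JJ s * Pb s b

lemma Tm_KK {s : ℕ} (b : ℤ) (u v : Fin (2 * s + 1)) : Tm s b u v = KK s b u v := by
  have hu := u.isLt
  rw [Tm, JJ_mul, Pb_KK, Fin.val_rev]
  congr 1
  omega

theorem Tm_one (s : ℕ) (a b : ℤ) :
    Tm s a * Tm s 1 * Tm s b = cc s • (Tm s (a - 1) * Tm s (b - 1)) := by
  have e1 : Pb s (a - 1) = Pb s a * AC s := by rw [sub_eq_add_neg, Pb_add, Pb_neg_one]
  have e2 : Pb s b = AA s * Pb s (b - 1) := by rw [Pb_pred]
  have := rel_pos (JJ_JJ s) (rel s) (Pb s a) (Pb s (b - 1))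
  unfold Tm
  rw [e1, e2, Pb_one]
  exact this

theorem Tm_neg_one (s : ℕ) (a b : ℤ) :
    Tm s a * Tm s (-1) * Tm s b = (cc s)⁻¹ • (Tm s (a + 1) * Tm s (b + 1)) := by
  have e1 : Pb s (a + 1) = Pb s a * AA s := by rw [Pb_add, Pb_one]
  have e2 : Pb s b = AC s * Pb s (b + 1) := by
    rw [← Pb_neg_one, ← Pb_add]
    congr 1
    ring
  have h := rel_inv (JJ_JJ s) (mul_AC s) (cc_ne s) (rel s)
  have := rel_pos (JJ_JJ s) h (Pb s a) (Pb s (b + 1))
  unfold Tm
  rw [e1, e2, Pb_neg_one]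
  exact this

theorem Tm_zero (s : ℕ) (a b : ℤ) : Tm s a * Tm s 0 * Tm s b = Tm s (a + b) := by
  unfold Tm
  rw [Pb_zero, mul_one, Pb_add]
  calc JJ s * Pb s a * JJ s * (JJ s * Pb s b) = JJ s * (Pb s a * (JJ s * JJ s) * Pb s b) := by
        simp only [mul_assoc]
    _ = _ := by rw [JJ_JJ, mul_one]

/-! ### vectors -/

/-- the vector of a list -/
noncomputable def VV (s : ℕ) : List ℤ → Fin (2 * s + 1) → ℂ
  | [] => Pi.single 0 1
  | b :: l => (Tm s b).mulVec (VV s l)

lemma CS_VV (s : ℕ) : ∀ (l : List ℤ), l ≠ [] → ∀ k : Fin (2 * s + 1), CS s l k = VV s l k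
  | [], h, _ => absurd rfl h
  | [b], _, k => by
      rw [VV, VV, Matrix.mulVec_single_one]
      show KK s b k 0 = Tm s b k 0
      rw [Tm_KK]
      rfl
  | b :: c :: l, _, k => by
      rw [VV]
      show ∑ y' : Fin (2 * s + 1), KK s b k y' * CS s (c :: l) y' =
        ∑ y' : Fin (2 * s + 1), Tm s b k y' * VV s (c :: l) y'
      refine Finset.sum_congr rfl fun y' _ => ?_
      rw [Tm_KK, CS_VV s (c :: l) (List.cons_ne_nil _ _)]

/-! ### orientations -/

/-- sign of the crossings between the positions `0`, `1`; `q` is the position of the strand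
directed downwards -/
def sgI (q : Fin 3) : ℤ := if q = 2 then 1 else -1

/-- the state after a twist region, the positions counted from the other side -/
def nx (b : ℤ) (q : Fin 3) : Fin 3 := Fin.rev (if Even b then q else Equiv.swap 0 1 q)

/-- the writhe -/
def wr : List ℤ → Fin 3 → ℤ
  | [], _ => 0
  | b :: l, q => b * sgI q + wr l (nx b q)

/-- the last state is admissible -/
def EnI : List ℤ → Fin 3 → Prop
  | [], q => q ≠ 2
  | b :: l, q => EnI l (nx b q)

/-- the orientation with the strand `q` directed downwards -/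
def st (q : Fin 3) : Fin 3 → ℤ := fun i => if i = q then -1 else 1

lemma st_swap (i j q : Fin 3) : (fun l => st q (Equiv.swap i j l)) = st (Equiv.swap i j q) := by
  revert i j q
  decide

lemma orientAfter_rep (g : Fin 2) (q : Fin 3) (m : ℕ) (c : Bool) :
    orientAfter (List.replicate m (g, c)) (st q) =
      st (if Even m then q else Equiv.swap g.castSucc g.succ q) := by
  induction m with
  | zero => simp [orientAfter]
  | succ m ih =>
    rw [List.replicate_succ]
    show (fun l => orientAfter (List.replicate m (g, c)) (st q) _) = _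
    rw [ih]
    show (fun l => st _ (Equiv.swap g.castSucc g.succ l)) = _
    rw [st_swap]
    by_cases hm : Even m
    · rw [if_pos hm, if_neg (by rw [Nat.even_add_one]; exact not_not.mpr hm)]
    · rw [if_neg hm, if_pos (by rw [Nat.even_add_one]; exact hm), Equiv.swap_apply_self]

lemma orientAfter_blk (g : Fin 2) (b : ℤ) (q : Fin 3) : orientAfter (blk g b) (st q) =
    st (if Even b then q else Equiv.swap g.castSucc g.succ q) := by
  unfold blk
  rw [orientAfter_rep]
  simp only [Int.natAbs_even]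

lemma st_swap_mul (g : Fin 2) (q : Fin 3) : st (Equiv.swap g.castSucc g.succ q) g.castSucc *
    st (Equiv.swap g.castSucc g.succ q) g.succ = st q g.castSucc * st q g.succ := by
  revert g q
  decide

lemma orientedWrithe_blk (g : Fin 2) (b : ℤ) (q : Fin 3) : orientedWrithe (blk g b) (st q) =
    b * (st q g.castSucc * st q g.succ) := by
  unfold blk
  have key : ∀ (m : ℕ) (c : Bool), orientedWrithe (List.replicate m (g, c)) (st q) =
      m * (if c then 1 else -1) * (st q g.castSucc * st q g.succ) := by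
    intro m c
    induction m with
    | zero => simp [orientedWrithe]
    | succ m ih =>
      rw [List.replicate_succ]
      show orientedWrithe (List.replicate m (g, c)) (st q) + (if c then 1 else -1) *
        (orientAfter (List.replicate m (g, c)) (st q) g.castSucc *
          orientAfter (List.replicate m (g, c)) (st q) g.succ) = _
      have h2 : orientAfter (List.replicate m (g, c)) (st q) g.castSucc *
          orientAfter (List.replicate m (g, c)) (st q) g.succ =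
          st q g.castSucc * st q g.succ := by
        rw [orientAfter_rep]
        split_ifs
        · rfl
        · exact st_swap_mul g q
      rw [ih, h2]
      push_cast
      ring
  rw [key]
  by_cases hb : 0 ≤ b
  · simp only [hb, decide_true, if_true]
    rw [show ((b.natAbs : ℕ) : ℤ) = b by omega]
    ring
  · simp only [hb, decide_false]
    rw [show ((b.natAbs : ℕ) : ℤ) = -b by omega]
    simp

/-! ### the orientations and the writhe of a word -/

lemma nx_even {b : ℤ} (hb : Even b) (q : Fin 3) : nx b q = Fin.rev q := by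
  rw [nx, if_pos hb]

lemma nx_odd {b : ℤ} (hb : ¬ Even b) (q : Fin 3) : nx b q = Fin.rev (Equiv.swap 0 1 q) := by
  rw [nx, if_neg hb]

lemma even_sub_one (b : ℤ) : Even (b - 1) ↔ ¬ Even b := Int.even_sub_one

lemma d1 (q : Fin 3) : st (Equiv.swap 0 1 q) 1 = 1 ↔ Fin.rev q ≠ 2 := by
  revert q
  decide

lemma d2 (q : Fin 3) : st q 1 = 1 ↔ Fin.rev (Equiv.swap 0 1 q) ≠ 2 := by
  revert q
  decide

lemma d3 (q : Fin 3) : st (Fin.rev q) 2 = 1 ↔ Fin.rev q ≠ 2 := by
  revert q
  decide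

lemma d4 (q : Fin 3) : st (Equiv.swap 1 2 (Fin.rev q)) 2 = 1 ↔ Fin.rev (Equiv.swap 0 1 q) ≠ 2 := by
  revert q
  decide

lemma d5 (q : Fin 3) : st (Fin.rev q) 1 * st (Fin.rev q) 2 = sgI q := by
  revert q
  decide

lemma d6 (q : Fin 3) : Equiv.swap 1 2 (Fin.rev q) = Fin.rev (Equiv.swap 0 1 q) := by
  revert q
  decide

lemma d7 (q : Fin 3) : st q 0 * st q 1 = sgI q := by
  revert q
  decide

lemma d8 (q : Fin 3) (h : Fin.rev q ≠ 2) :
    st (Equiv.swap 0 1 q) 1 * st (Equiv.swap 0 1 q) 2 = -sgI q := by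
  revert q
  decide

lemma d9 (q : Fin 3) (h : Fin.rev (Equiv.swap 0 1 q) ≠ 2) : st q 1 * st q 2 = -sgI q := by
  revert q
  decide

lemma topW_orient : ∀ (l : List ℤ), l ≠ [] → ∀ q,
    ((orientAfter (topW 0 l) (st q) 2 = 1 ↔ EnI l q) ∧
      (EnI l q → orientedWrithe (topW 0 l) (st q) = wr l q)) ∧
    ((orientAfter (topW 1 l) (st (Fin.rev q)) 2 = 1 ↔ EnI l q) ∧
      (EnI l q → orientedWrithe (topW 1 l) (st (Fin.rev q)) = wr l q))
  | [], h, _ => absurd rfl h
  | [b], _, q => by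
      have e1 : topW 0 [b] = ((1 : Fin 2), false) :: blk 0 (b - 1) := rfl
      have e2 : topW 1 [b] = blk 1 b := rfl
      have e3 : orientAfter (topW 0 [b]) (st q) 2 =
          st (if Even (b - 1) then q else Equiv.swap 0 1 q) 1 := by
        rw [e1]
        show orientAfter (blk 0 (b - 1)) (st q) 1 = _
        rw [orientAfter_blk]
        rfl
      have e4 : orientedWrithe (topW 0 [b]) (st q) = (b - 1) * (st q 0 * st q 1) -
          st (if Even (b - 1) then q else Equiv.swap 0 1 q) 1 *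
          st (if Even (b - 1) then q else Equiv.swap 0 1 q) 2 := by
        rw [e1]
        show orientedWrithe (blk 0 (b - 1)) (st q) + (-1) * (orientAfter (blk 0 (b - 1)) (st q) 1 *
          orientAfter (blk 0 (b - 1)) (st q) 2) = _
        rw [orientedWrithe_blk, orientAfter_blk]
        show (b - 1) * (st q 0 * st q 1) + (-1) *
          (st (if Even (b - 1) then q else Equiv.swap 0 1 q) 1 *
          st (if Even (b - 1) then q else Equiv.swap 0 1 q) 2) = _
        ring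
      have e5 : orientAfter (topW 1 [b]) (st (Fin.rev q)) 2 =
          st (if Even b then Fin.rev q else Equiv.swap 1 2 (Fin.rev q)) 2 := by
        rw [e2, orientAfter_blk]
        rfl
      have e6 : orientedWrithe (topW 1 [b]) (st (Fin.rev q)) =
          b * (st (Fin.rev q) 1 * st (Fin.rev q) 2) := by
        rw [e2, orientedWrithe_blk]
        rfl
      have e7 : EnI [b] q ↔ nx b q ≠ 2 := Iff.rfl
      have e8 : wr [b] q = b * sgI q := by simp [wr]
      rw [e3, e4, e5, e6, e7, e8, d5, d7]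
      simp only [even_sub_one]
      by_cases hb : Even b
      · simp only [hb, not_true_eq_false, if_false, if_true, nx]
        exact ⟨⟨d1 q, fun h => by rw [d8 q h]; ring⟩, d3 q, fun _ => trivial⟩
      · simp only [hb, not_false_eq_true, if_true, if_false, nx]
        exact ⟨⟨d2 q, fun h => by rw [d9 q h]; ring⟩, d4 q, fun _ => trivial⟩
  | b :: c :: l, _, q => by
      have ih := topW_orient (c :: l) (List.cons_ne_nil _ _) (nx b q)
      have e1 : topW 0 (b :: c :: l) = topW 1 (c :: l) ++ blk 0 b := rfl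
      have e2 : topW 1 (b :: c :: l) = topW 0 (c :: l) ++ blk 1 b := rfl
      have e3 : orientAfter (blk 0 b) (st q) = st (Fin.rev (nx b q)) := by
        rw [orientAfter_blk, nx, Fin.rev_rev]
        rfl
      have e4 : orientAfter (blk 1 b) (st (Fin.rev q)) = st (nx b q) := by
        rw [orientAfter_blk]
        congr 1
        unfold nx
        split_ifs
        · rfl
        · exact d6 q
      have e5 : orientedWrithe (blk 0 b) (st q) = b * sgI q := by
        rw [orientedWrithe_blk]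
        congr 1
        exact d7 q
      have e6 : orientedWrithe (blk 1 b) (st (Fin.rev q)) = b * sgI q := by
        rw [orientedWrithe_blk]
        congr 1
        exact d5 q
      have e7 : EnI (b :: c :: l) q ↔ EnI (c :: l) (nx b q) := Iff.rfl
      have e8 : wr (b :: c :: l) q = b * sgI q + wr (c :: l) (nx b q) := rfl
      rw [e1, e2, orientAfter_append, orientAfter_append, orientedWrithe_append,
        orientedWrithe_append, e3, e4, e5, e6, e7, e8]
      refine ⟨⟨ih.2.1, fun h => ?_⟩, ih.1.1, fun h => ?_⟩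
      · rw [ih.2.2 h]
      · rw [ih.1.2 h]

/-- the bottom orientations -/
lemma bot_one : (![1, 1, -1] : Fin 3 → ℤ) = st 2 := by decide

lemma bot_neg : (![1, -1, - -1] : Fin 3 → ℤ) = st 1 := by decide

/-! ### the invariant -/

lemma zpow_cc (s : ℕ) (W : ℤ) :
    Complex.exp (-(2 * Real.pi * Complex.I * W * (s * (s + 1)) / ((2 * s + 1 : ℕ) : ℂ))) =
      cc s ^ W := by
  have h0 := nn_ne s
  unfold cc DT.ee
  rw [← Complex.exp_int_mul, Complex.exp_eq_exp_iff_exists_int]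
  refine ⟨-(s * W), ?_⟩
  push_cast at h0 ⊢
  field_simp
  ring

/-- the invariant in terms of the vectors -/
theorem kashaev_VV {l : List ℤ} (hl : l ≠ []) (δ : ℤ) (s : ℕ) (_hs : 1 ≤ s) :
    twoBridgeKashaev (ltWord l) δ (2 * s + 1) =
      cc s ^ orientedWrithe (ltWord l) ![1, δ, -δ] * VV s l 0 := by
  have e1 : (2 * s + 1 - 1) / 2 = s := by omega
  unfold twoBridgeKashaev
  rw [e1]
  set u : ℂˣ := Units.mk0 (Complex.exp (2 * Real.pi * Complex.I / ((2 * s + 1 : ℕ) : ℂ)))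
    (Complex.exp_ne_zero _) with hu0
  have hu : (u : ℂ) = tt s := rfl
  unfold twoBridgeJones
  rw [← zpow_cc]
  congr 1
  · rw [Units.val_zpow_eq_zpow_val, hu]
    unfold tt
    rw [← Complex.exp_int_mul]
    congr 1
    push_cast
    ring
  · rw [tangle_rep hu, ← CS_VV s l hl]
    exact (row s l hl 0).1

end Pool.Agent.Work.MP_b30479_gtS.G2

end

section

/-!
# Words with the same invariant
-/

namespace Pool.Agent.Work.MP_b30479_gtS.G2

open Finset VOL AX
open Pool.Agent.Work.MP_b30479_gtS.LT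
open TB

/-- Two lists with the same orientations and the same invariant (also after prepending digits). -/
def Eqv (l l' : List ℤ) : Prop := ∀ q, (EnI l q ↔ EnI l' q) ∧
  (EnI l q → ∀ s k, cc s ^ wr l q * VV s l k = cc s ^ wr l' q * VV s l' k)

namespace Eqv

lemma refl (l : List ℤ) : Eqv l l := fun _ => ⟨Iff.rfl, fun _ _ _ => rfl⟩

lemma symm {l l' : List ℤ} (h : Eqv l l') : Eqv l' l := fun q =>
  ⟨(h q).1.symm, fun hq s k => ((h q).2 ((h q).1.mpr hq) s k).symm⟩

lemma trans {l l' l'' : List ℤ} (h : Eqv l l') (h' : Eqv l' l'') : Eqv l l'' := fun q =>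
  ⟨(h q).1.trans (h' q).1, fun hq s k =>
    ((h q).2 hq s k).trans ((h' q).2 ((h q).1.mp hq) s k)⟩

lemma cons {l l' : List ℤ} (h : Eqv l l') (b : ℤ) : Eqv (b :: l) (b :: l') := fun q => by
  refine ⟨(h (nx b q)).1, fun hq s k => ?_⟩
  have h1 := (h (nx b q)).2 hq s
  show cc s ^ (b * sgI q + wr l (nx b q)) * ∑ m : Fin (2 * s + 1), Tm s b k m * VV s l m =
    cc s ^ (b * sgI q + wr l' (nx b q)) * ∑ m : Fin (2 * s + 1), Tm s b k m * VV s l' m
  rw [Finset.mul_sum, Finset.mul_sum]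
  refine Finset.sum_congr rfl fun m _ => ?_
  rw [zpow_add₀ (cc_ne s), zpow_add₀ (cc_ne s)]
  linear_combination cc s ^ (b * sgI q) * Tm s b k m * h1 m

/-- the relation gives equality of the invariants -/
theorem kashaev {l l' : List ℤ} (h : Eqv l l') (hl : l ≠ []) (hl' : l' ≠ []) (δ : ℤ) :
    (IsOrientation (ltWord l) δ ↔ IsOrientation (ltWord l') δ) ∧
      (IsOrientation (ltWord l) δ → ∀ s : ℕ, 1 ≤ s →
        twoBridgeKashaev (ltWord l) δ (2 * s + 1) = twoBridgeKashaev (ltWord l') δ (2 * s + 1)) := by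
  have key : ∀ (q : Fin 3), (![1, δ, -δ] : Fin 3 → ℤ) = st q →
      (orientAfter (ltWord l) ![1, δ, -δ] 2 = 1 ↔ orientAfter (ltWord l') ![1, δ, -δ] 2 = 1) ∧
      (orientAfter (ltWord l) ![1, δ, -δ] 2 = 1 → ∀ s : ℕ, 1 ≤ s →
        twoBridgeKashaev (ltWord l) δ (2 * s + 1) =
          twoBridgeKashaev (ltWord l') δ (2 * s + 1)) := by
    intro q hq
    have t1 := (topW_orient l hl q).1
    have t2 := (topW_orient l' hl' q).1
    rw [hq]
    refine ⟨t1.1.trans ((h q).1.trans t2.1.symm), fun ho s hs => ?_⟩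
    have he : EnI l q := t1.1.mp ho
    have he' : EnI l' q := (h q).1.mp he
    rw [kashaev_VV hl δ s hs, kashaev_VV hl' δ s hs, hq]
    show cc s ^ orientedWrithe (topW 0 l) (st q) * _ = cc s ^ orientedWrithe (topW 0 l') (st q) * _
    rw [t1.2 he, t2.2 he']
    exact (h q).2 he s 0
  unfold IsOrientation
  refine ⟨and_congr_right fun hδ => ?_, fun ho => ?_⟩
  · rcases hδ with rfl | rfl
    · exact (key 2 bot_one).1
    · exact (key 1 bot_neg).1
  · rcases ho.1 with rfl | rfl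
    · exact (key 2 bot_one).2 ho.2
    · exact (key 1 bot_neg).2 ho.2

end Eqv

/-! ### the moves -/

lemma nx3 (ea eb : Bool) (q : Fin 3) :
    (Fin.rev (if eb then (Fin.rev (Equiv.swap 0 1 (Fin.rev (if ea then q else Equiv.swap 0 1 q))))
      else Equiv.swap 0 1 (Fin.rev (Equiv.swap 0 1 (Fin.rev (if ea then q else
        Equiv.swap 0 1 q)))))) =
    (Fin.rev (if !eb then (Fin.rev (if !ea then q else Equiv.swap 0 1 q))
      else Equiv.swap 0 1 (Fin.rev (if !ea then q else Equiv.swap 0 1 q)))) := by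
  revert ea eb q
  decide

lemma sg3 (ea : Bool) (q : Fin 3) :
    sgI q + sgI (Fin.rev (if ea then q else Equiv.swap 0 1 q)) +
      sgI (Fin.rev (Equiv.swap 0 1 (Fin.rev (if ea then q else Equiv.swap 0 1 q)))) = -1 ∧
    sgI (Fin.rev (if !ea then q else Equiv.swap 0 1 q)) =
      sgI (Fin.rev (Equiv.swap 0 1 (Fin.rev (if ea then q else Equiv.swap 0 1 q)))) := by
  revert ea q
  decide

lemma nx_bool (b : ℤ) (q : Fin 3) :
    nx b q = Fin.rev (if decide (Even b) then q else Equiv.swap 0 1 q) := by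
  unfold nx
  by_cases h : Even b <;> simp [h]

lemma dec_not {a b : ℤ} (h : Even b ↔ ¬ Even a) : decide (Even b) = !decide (Even a) := by
  by_cases ha : Even a <;> simp [ha, h]

lemma move_aux {a b a' b' e : ℤ} (ha : Even a' ↔ ¬ Even a) (hb : Even b' ↔ ¬ Even b)
    (he : ¬ Even e) (q : Fin 3) :
    nx b (nx e (nx a q)) = nx b' (nx a' q) ∧
      sgI q + sgI (nx a q) + sgI (nx e (nx a q)) = -1 ∧ sgI (nx a' q) = sgI (nx e (nx a q)) := by
  rw [nx_odd he, nx_bool b, nx_bool b', nx_bool a', nx_bool a, dec_not ha, dec_not hb]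
  exact ⟨nx3 _ _ q, sg3 _ q⟩

/-- merging a digit `1` -/
theorem eqv_one (a b : ℤ) (l : List ℤ) : Eqv (a :: 1 :: b :: l) ((a - 1) :: (b - 1) :: l) := by
  intro q
  obtain ⟨h1, h2, h3⟩ := move_aux (a := a) (b := b) (a' := a - 1) (b' := b - 1) (e := 1)
    (even_sub_one a) (even_sub_one b) (by decide) q
  refine ⟨?_, fun _ s k => ?_⟩
  · show EnI l (nx b (nx 1 (nx a q))) ↔ EnI l (nx (b - 1) (nx (a - 1) q))
    rw [h1]
  · have e1 : wr (a :: 1 :: b :: l) q = wr ((a - 1) :: (b - 1) :: l) q - 1 := by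
      show a * sgI q + (1 * sgI (nx a q) + (b * sgI (nx 1 (nx a q)) + wr l (nx b (nx 1 (nx a q))))) =
        (a - 1) * sgI q + ((b - 1) * sgI (nx (a - 1) q) + wr l (nx (b - 1) (nx (a - 1) q))) - 1
      rw [h1, h3]
      linear_combination h2
    have e2 : VV s (a :: 1 :: b :: l) = cc s • VV s ((a - 1) :: (b - 1) :: l) := by
      show (Tm s a).mulVec ((Tm s 1).mulVec ((Tm s b).mulVec (VV s l))) =
        cc s • (Tm s (a - 1)).mulVec ((Tm s (b - 1)).mulVec (VV s l))
      rw [Matrix.mulVec_mulVec, Matrix.mulVec_mulVec, Matrix.mulVec_mulVec, Tm_one,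
        Matrix.smul_mulVec]
    rw [e1, e2, zpow_sub₀ (cc_ne s), zpow_one, Pi.smul_apply, smul_eq_mul]
    have := cc_ne s
    field_simp

/-- merging a digit `-1` -/
theorem eqv_neg_one (a b : ℤ) (l : List ℤ) :
    Eqv (a :: (-1) :: b :: l) ((a + 1) :: (b + 1) :: l) := by
  have hev : ∀ x : ℤ, Even (x + 1) ↔ ¬ Even x := fun x => Int.even_add_one
  intro q
  obtain ⟨h1, h2, h3⟩ := move_aux (a := a) (b := b) (a' := a + 1) (b' := b + 1) (e := -1)
    (hev a) (hev b) (by decide) q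
  refine ⟨?_, fun _ s k => ?_⟩
  · show EnI l (nx b (nx (-1) (nx a q))) ↔ EnI l (nx (b + 1) (nx (a + 1) q))
    rw [h1]
  · have e1 : wr (a :: (-1) :: b :: l) q = wr ((a + 1) :: (b + 1) :: l) q + 1 := by
      show a * sgI q + ((-1) * sgI (nx a q) + (b * sgI (nx (-1) (nx a q)) +
          wr l (nx b (nx (-1) (nx a q))))) =
        (a + 1) * sgI q + ((b + 1) * sgI (nx (a + 1) q) + wr l (nx (b + 1) (nx (a + 1) q))) + 1
      rw [h1, h3]
      linear_combination -h2
    have e2 : VV s (a :: (-1) :: b :: l) = (cc s)⁻¹ • VV s ((a + 1) :: (b + 1) :: l) := by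
      show (Tm s a).mulVec ((Tm s (-1)).mulVec ((Tm s b).mulVec (VV s l))) =
        (cc s)⁻¹ • (Tm s (a + 1)).mulVec ((Tm s (b + 1)).mulVec (VV s l))
      rw [Matrix.mulVec_mulVec, Matrix.mulVec_mulVec, Matrix.mulVec_mulVec,
        Tm_neg_one, Matrix.smul_mulVec]
    rw [e1, e2, zpow_add₀ (cc_ne s), zpow_one, Pi.smul_apply, smul_eq_mul]
    have := cc_ne s
    field_simp

end Pool.Agent.Work.MP_b30479_gtS.G2

end

section

/-!
# Exponential growth rates
-/

namespace Pool.Agent.Work.MP_b30479_gtS.TB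

open Finset Pool.Agent.Work.MP_b30479_gtS.Lob

lemma vol_eq : volFigureEight = -4 * LF (Real.pi / 6) := by
  have h := LF_three
  have e : volFigureEight = -6 * LF (Real.pi / 3) := rfl
  rw [e]
  linarith only [h]

section
variable {s : ℕ} (hs : 1 ≤ s)

/-- mesh -/
noncomputable def hh (s : ℕ) : ℝ := Real.pi / (2 * s + 1)

lemma hh_pos (s : ℕ) : 0 < hh s := by
  unfold hh
  have := Real.pi_pos
  positivity

lemma hh_mul (s : ℕ) : (2 * s + 1 : ℝ) * hh s = Real.pi := by
  unfold hh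
  field_simp

lemma norm_one_sub_tt (s j : ℕ) (hj : j ≤ 2 * s + 1) :
    ‖1 - tt s ^ j‖ = 2 * Real.sin (j * hh s) := by
  have e1 : tt s ^ j = Complex.exp (Complex.I * ((2 * (j * hh s) : ℝ) : ℂ)) := by
    unfold tt hh
    rw [← Complex.exp_nat_mul]
    congr 1
    push_cast
    field_simp
  rw [e1, norm_sub_rev, Complex.norm_exp_I_mul_ofReal_sub_one,
    show 2 * (j * hh s) / 2 = j * hh s by ring, Real.norm_of_nonneg]
  have h1 : 0 ≤ Real.sin (j * hh s) := by
    apply Real.sin_nonneg_of_nonneg_of_le_pi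
    · have := hh_pos s
      positivity
    · rw [← hh_mul s]
      apply mul_le_mul_of_nonneg_right _ (hh_pos s).le
      exact_mod_cast hj
  linarith only [h1]

lemma sin_pos_mesh {s j : ℕ} (h0 : 0 < j) (hj : j ≤ 2 * s) : 0 < Real.sin (j * hh s) := by
  have hp := hh_pos s
  apply Real.sin_pos_of_pos_of_lt_pi
  · have : (0 : ℝ) < j := by exact_mod_cast h0
    positivity
  · rw [← hh_mul s]
    apply mul_lt_mul_of_pos_right _ hp
    have : (j : ℝ) ≤ 2 * s := by exact_mod_cast hj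
    linarith only [this]

lemma norm_qf_eq {s m : ℕ} (hm : m ≤ 2 * s) : ‖qf (tt s) m‖ = Real.exp (SS (hh s) m) := by
  induction m with
  | zero => simp [SS]
  | succ m ih =>
    rw [qf_succ, norm_mul, ih (by omega), norm_one_sub_tt s (m + 1) (by omega), SS_succ,
      Real.exp_add]
    congr 1
    unfold ff
    have := sin_pos_mesh (s := s) (j := m + 1) (by omega) hm
    push_cast at this ⊢
    rw [Real.exp_log (by linarith only [this])]

include hs

lemma hh_le : hh s ≤ Real.pi / 3 := by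
  unfold hh
  have hpi := Real.pi_pos
  apply div_le_div_of_nonneg_left hpi.le (by norm_num)
  have : (1 : ℝ) ≤ s := by exact_mod_cast hs
  linarith only [this]

omit hs in
lemma log_hh (s : ℕ) : -Real.log (hh s) ≤ Real.log (2 * s + 1) := by
  unfold hh
  rw [Real.log_div Real.pi_ne_zero (by positivity)]
  have : 0 ≤ Real.log Real.pi := Real.log_nonneg (by linarith only [Real.pi_gt_three])
  linarith only [this]

/-- upper Riemann sum -/
lemma SS_le {m : ℕ} (hm : m ≤ 2 * s) :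
    hh s * SS (hh s) m ≤ LF (m * hh s) + hh s * (1 + Real.log 2 + Real.log (2 * s + 1)) := by
  have hp := hh_pos s
  have h3 := hh_le hs
  have hpi := Real.pi_pos
  have hl := log_hh s
  have h2 := LF_small hp (by linarith only [hp, h3])
  have hl2 : (0 : ℝ) ≤ Real.log 2 := Real.log_nonneg (by norm_num)
  have hls : (0 : ℝ) ≤ Real.log (2 * s + 1) := Real.log_nonneg (by
    have : (0 : ℝ) ≤ s := Nat.cast_nonneg s
    linarith only [])
  rcases Nat.eq_zero_or_pos m with rfl | hm0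
  · simp only [SS, Finset.range_zero, Finset.sum_empty, mul_zero, Nat.cast_zero, zero_mul, LF_zero,
      zero_add]
    positivity
  · obtain ⟨m, rfl⟩ : ∃ m', m = m' + 1 := ⟨m - 1, by omega⟩
    have h1 := SS_upper hp m (by
      rw [← hh_mul s]
      apply mul_lt_mul_of_pos_right _ hp
      have : ((m + 1 : ℕ) : ℝ) ≤ ((2 * s : ℕ) : ℝ) := by exact_mod_cast hm
      push_cast at this
      linarith only [this])
    have h4 := ff_le (hh s)
    have h5 := ff_le ((m + 1) * hh s)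
    push_cast
    have h6 : -(hh s * Real.log (hh s)) ≤ hh s * Real.log (2 * s + 1) := by
      have := mul_le_mul_of_nonneg_left hl hp.le
      linarith only [this]
    have h7 := mul_le_mul_of_nonneg_left h4 hp.le
    have h8 := mul_le_mul_of_nonneg_left h5 hp.le
    nlinarith only [h2, h1, h6, h7, h8]

/-- upper Riemann sum, shifted -/
lemma SS_le' {m : ℕ} (hm : m ≤ 2 * s) :
    hh s * SS (hh s) m ≤ LF ((m + 1) * hh s) +
      hh s * (1 + Real.log 2 + 2 * Real.log (2 * s + 1)) := by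
  have hp := hh_pos s
  have h3 := hh_le hs
  have hpi := Real.pi_pos
  have hl2 : (0 : ℝ) ≤ Real.log 2 := Real.log_nonneg (by norm_num)
  have hls : (0 : ℝ) ≤ Real.log (2 * s + 1) := Real.log_nonneg (by
    have : (0 : ℝ) ≤ s := Nat.cast_nonneg s
    linarith only [])
  rcases Nat.lt_or_ge m (2 * s) with hlt | hge
  · have h1 := SS_le hs (m := m + 1) (by omega)
    rw [SS_succ] at h1
    have h4 : -Real.log (2 * s + 1) ≤ ff ((m + 1) * hh s) := by
      unfold ff
      rw [← Real.log_inv]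
      apply Real.log_le_log (by positivity)
      -- `sin ((m+1)h) ≥ sin h ≥ (2/π) h`
      have e1 : Real.sin (hh s) ≤ Real.sin ((m + 1) * hh s) := by
        have hm0 : (0 : ℝ) ≤ m := Nat.cast_nonneg m
        rcases le_total ((m + 1) * hh s) (Real.pi / 2) with h5 | h5
        · exact Real.sin_le_sin_of_le_of_le_pi_div_two (by linarith only [hp, h3]) h5 (by nlinarith only [hp])
        · rw [← Real.sin_pi_sub ((m + 1) * hh s)]
          apply Real.sin_le_sin_of_le_of_le_pi_div_two (by linarith only [hp, h3]) (by linarith only [h5])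
          have : ((m + 1 : ℕ) : ℝ) ≤ ((2 * s : ℕ) : ℝ) := by exact_mod_cast hlt
          push_cast at this
          have h6 := hh_mul s
          nlinarith only [h6, hp, this]
      have e2 := Real.mul_le_sin hp.le (by linarith only [hp, h3])
      have e3 : 2 / Real.pi * hh s = 2 * (2 * (s : ℝ) + 1)⁻¹ := by
        unfold hh
        field_simp
      have e4 : (0 : ℝ) < (2 * (s : ℝ) + 1)⁻¹ := by positivity
      rw [e3] at e2
      linarith only [e1, e2, e4]
    push_cast at h1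
    have h5 := mul_le_mul_of_nonneg_left h4 hp.le
    linarith only [h1, h5]
  · have hm2 : m = 2 * s := by omega
    subst hm2
    have e1 : SS (hh s) (2 * s) = Real.log (2 * s + 1) := by
      have h1 := norm_qf_eq (s := s) (m := 2 * s) le_rfl
      rw [qf_top (tt_prim s)] at h1
      have h2 : ‖(2 * s + 1 : ℂ)‖ = 2 * s + 1 := by
        have : ((2 * s + 1 : ℕ) : ℂ) = 2 * s + 1 := by push_cast; ring
        rw [← this, Complex.norm_natCast]
        push_cast; ring
      rw [h2] at h1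
      rw [h1, Real.log_exp]
    rw [e1]
    push_cast
    rw [hh_mul s, LF_pi]
    nlinarith only [hp, hl2, hls]

/-- lower Riemann sum -/
lemma SS_ge {m : ℕ} (hm : m ≤ 2 * s) : LF ((m + 1 / 2) * hh s) ≤ hh s * SS (hh s) m := by
  have hp := hh_pos s
  have h3 := hh_le hs
  have h1 := SS_lower hp m (by
    rw [← hh_mul s]
    apply mul_le_mul_of_nonneg_right _ hp.le
    have : (m : ℝ) ≤ ((2 * s : ℕ) : ℝ) := by exact_mod_cast hm
    push_cast at this
    linarith only [this])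
  have h2 := LF_antitone_small (x := 0) (y := hh s / 2) le_rfl (by linarith only [hp]) (by linarith only [h3])
  rw [LF_zero] at h2
  linarith only [h1, h2]

omit hs in
lemma exp_div (s : ℕ) : (2 * s + 1 : ℝ) * volFigureEight / (2 * Real.pi) =
    -2 * LF (Real.pi / 6) / hh s := by
  rw [vol_eq]
  unfold hh
  have := Real.pi_pos
  field_simp
  ring

omit hs in
lemma two_e_le : 2 * Real.exp 1 ≤ 6 := by
  have := Real.exp_one_lt_d9
  linarith only [this]

/-- `F ≤ (2e)² n³ e^{n vol/2π}` -/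
lemma FF_le : FF s (tt s) ≤ (6 * (2 * s + 1) ^ 3 : ℝ) ^ 2 *
    Real.exp ((2 * s + 1) * volFigureEight / (2 * Real.pi)) := by
  have hp := hh_pos s
  set n : ℝ := 2 * s + 1 with hn
  have hn1 : 1 ≤ n := by
    have : (0 : ℝ) ≤ s := Nat.cast_nonneg s
    linarith
  have key : ∀ m ∈ range (2 * s + 1), ‖qf (tt s) m‖ ^ 2 ≤
      (2 * Real.exp 1 * n) ^ 2 * Real.exp (n * volFigureEight / (2 * Real.pi)) := by
    intro m hm
    rw [mem_range] at hm
    have h1 := SS_le hs (m := m) (by omega)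
    have h2 : LF (m * hh s) ≤ -LF (Real.pi / 6) := by
      apply LF_le (by positivity)
      rw [← hh_mul s]
      apply mul_le_mul_of_nonneg_right _ hp.le
      have : (m : ℝ) ≤ ((2 * s + 1 : ℕ) : ℝ) := by exact_mod_cast hm.le
      push_cast at this
      exact this
    rw [norm_qf_eq (show m ≤ 2 * s by omega), ← Real.exp_nat_mul, exp_div]
    have h3 : SS (hh s) m ≤ -LF (Real.pi / 6) / hh s + (1 + Real.log 2 + Real.log n) := by
      rw [← sub_le_iff_le_add, le_div_iff₀ hp]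
      nlinarith only [h1, h2]
    have e1 : (2 * Real.exp 1 * n) ^ 2 * Real.exp (-2 * LF (Real.pi / 6) / hh s) =
        Real.exp (2 * (-LF (Real.pi / 6) / hh s + (1 + Real.log 2 + Real.log n))) := by
      have e2 : 2 * Real.exp 1 * n = Real.exp (1 + Real.log 2 + Real.log n) := by
        rw [Real.exp_add, Real.exp_add, Real.exp_log (by norm_num), Real.exp_log (by linarith)]
        ring
      rw [e2, ← Real.exp_nat_mul, ← Real.exp_add]
      congr 1
      push_cast
      ring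
    rw [e1]
    apply Real.exp_le_exp.mpr
    push_cast
    linarith only [h3]
  unfold FF
  refine (Finset.sum_le_sum key).trans ?_
  rw [Finset.sum_const, Finset.card_range, nsmul_eq_mul]
  have e3 : ((2 * s + 1 : ℕ) : ℝ) = n := by push_cast; rw [hn]
  rw [e3, ← mul_assoc]
  apply mul_le_mul_of_nonneg_right _ (Real.exp_pos _).le
  have h4 := two_e_le
  have h5 : (0 : ℝ) ≤ 2 * Real.exp 1 := by positivity
  have h6 : (2 * Real.exp 1) ^ 2 ≤ 6 ^ 2 := pow_le_pow_left₀ h5 h4 2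
  calc n * (2 * Real.exp 1 * n) ^ 2 = (2 * Real.exp 1) ^ 2 * n ^ 3 := by ring
    _ ≤ 6 ^ 2 * n ^ 3 := mul_le_mul_of_nonneg_right h6 (by positivity)
    _ ≤ 6 ^ 2 * n ^ 6 := by
      apply mul_le_mul_of_nonneg_left _ (by norm_num)
      exact pow_le_pow_right₀ hn1 (by norm_num)
    _ = (6 * n ^ 3) ^ 2 := by ring

/-- `Λ ≤ (2e)² n⁶ e^{2 n vol/2π}` -/
lemma LL_le : LL s (tt s) ≤ (6 * (2 * s + 1) ^ 3 : ℝ) ^ 2 *
    Real.exp (2 * ((2 * s + 1) * volFigureEight / (2 * Real.pi))) := by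
  have hp := hh_pos s
  set n : ℝ := 2 * s + 1 with hn
  have hn1 : 1 ≤ n := by
    have : (0 : ℝ) ≤ s := Nat.cast_nonneg s
    linarith
  have key : ∀ k ∈ range (2 * s + 1), ∀ j ∈ range (2 * s + 1),
      ‖pf (tt s) k j‖ ^ 2 / ‖qf (tt s) j‖ ^ 2 ≤
      (2 * Real.exp 1 * n ^ 2) ^ 2 * Real.exp (2 * (n * volFigureEight / (2 * Real.pi))) := by
    intro k hk j hj
    rw [mem_range] at hk hj
    by_cases hjk : j ≤ k
    · have e0 := pf_mul (tt s) hjk
      have e0' := congrArg norm e0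
      rw [norm_mul, norm_qf_eq (show k - j ≤ 2 * s by omega), norm_qf_eq (show k ≤ 2 * s by omega)] at e0'
      have e1 : ‖pf (tt s) k j‖ ^ 2 / ‖qf (tt s) j‖ ^ 2 =
          Real.exp (2 * (SS (hh s) k - SS (hh s) (k - j) - SS (hh s) j)) := by
        have e2 : ‖pf (tt s) k j‖ = Real.exp (SS (hh s) k - SS (hh s) (k - j)) := by
          rw [Real.exp_sub, eq_div_iff (Real.exp_ne_zero _)]
          exact e0'
        rw [e2, norm_qf_eq (show j ≤ 2 * s by omega), ← div_pow, ← Real.exp_sub,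
          ← Real.exp_nat_mul]
        push_cast
        rfl
      rw [e1, exp_div]
      have h1 := SS_le' hs (m := k) (by omega)
      have h2 := SS_ge hs (m := j) (by omega)
      have h3 := SS_ge hs (m := k - j) (by omega)
      have hc : ((k - j : ℕ) : ℝ) = (k : ℝ) - j := Nat.cast_sub hjk
      rw [hc] at h3
      have hjk' : (j : ℝ) ≤ k := by exact_mod_cast hjk
      have h4 := LF_tetra (y := (j + 1 / 2) * hh s) (z := ((k : ℝ) - j + 1 / 2) * hh s)
        (by positivity) (by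
          have : (0 : ℝ) ≤ (k : ℝ) - j + 1 / 2 := by linarith only [hc]
          positivity) (by
          rw [← add_mul, ← hh_mul s]
          apply mul_le_mul_of_nonneg_right _ hp.le
          have : (k : ℝ) ≤ ((2 * s : ℕ) : ℝ) := by exact_mod_cast (show k ≤ 2 * s by omega)
          push_cast at this
          linarith only [this])
      rw [← add_mul, show (j : ℝ) + 1 / 2 + (k - j + 1 / 2) = k + 1 by ring] at h4
      have h5 : SS (hh s) k - SS (hh s) (k - j) - SS (hh s) j ≤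
          -2 * LF (Real.pi / 6) / hh s + (1 + Real.log 2 + 2 * Real.log n) := by
        rw [← sub_le_iff_le_add, le_div_iff₀ hp]
        nlinarith only [h1, h2, h3, h4]
      have e3 : (2 * Real.exp 1 * n ^ 2) ^ 2 * Real.exp (2 * (-2 * LF (Real.pi / 6) / hh s)) =
          Real.exp (2 * (-2 * LF (Real.pi / 6) / hh s + (1 + Real.log 2 + 2 * Real.log n))) := by
        have e2 : 2 * Real.exp 1 * n ^ 2 = Real.exp (1 + Real.log 2 + 2 * Real.log n) := by
          rw [Real.exp_add, Real.exp_add, Real.exp_log (by norm_num), two_mul (Real.log n),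
            Real.exp_add, Real.exp_log (by linarith)]
          ring
        rw [e2, ← Real.exp_nat_mul, ← Real.exp_add]
        congr 1
        push_cast
        ring
      rw [e3]
      apply Real.exp_le_exp.mpr
      linarith only [h5]
    · rw [pf_lt _ (by omega)]
      simp only [norm_zero, ne_eq, OfNat.ofNat_ne_zero, not_false_eq_true, zero_pow, zero_div]
      positivity
  unfold LL
  refine (Finset.sum_le_sum fun k hk => Finset.sum_le_sum (key k hk)).trans ?_
  rw [Finset.sum_const, Finset.sum_const, Finset.card_range, nsmul_eq_mul, nsmul_eq_mul]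
  have e3 : ((2 * s + 1 : ℕ) : ℝ) = n := by push_cast; rw [hn]
  rw [e3, ← mul_assoc, ← mul_assoc]
  apply mul_le_mul_of_nonneg_right _ (Real.exp_pos _).le
  have h4 := two_e_le
  have h5 : (0 : ℝ) ≤ 2 * Real.exp 1 := by positivity
  have h6 : (2 * Real.exp 1) ^ 2 ≤ 6 ^ 2 := pow_le_pow_left₀ h5 h4 2
  calc n * n * (2 * Real.exp 1 * n ^ 2) ^ 2 = (2 * Real.exp 1) ^ 2 * n ^ 6 := by ring
    _ ≤ 6 ^ 2 * n ^ 6 := mul_le_mul_of_nonneg_right h6 (by positivity)
    _ = (6 * n ^ 3) ^ 2 := by ring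

/-- `F ≥ e^{n vol/2π}/4` -/
lemma FF_lower : Real.exp ((2 * s + 1) * volFigureEight / (2 * Real.pi)) / 4 ≤ FF s (tt s) := by
  have hp := hh_pos s
  have hpi := Real.pi_pos
  -- the index
  obtain ⟨m, hm1, hm2⟩ : ∃ m : ℕ, 6 * m + 3 ≤ 5 * (2 * s + 1) ∧ 5 * (2 * s + 1) < 6 * m + 9 :=
    ⟨(5 * (2 * s + 1) - 3) / 6, by omega, by omega⟩
  have hm3 : m ≤ 2 * s := by omega
  have c1 : ((6 * m + 3 : ℕ) : ℝ) ≤ ((5 * (2 * s + 1) : ℕ) : ℝ) := by exact_mod_cast hm1
  have c2 : ((5 * (2 * s + 1) : ℕ) : ℝ) ≤ ((6 * m + 9 : ℕ) : ℝ) := by exact_mod_cast hm2.le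
  push_cast at c1 c2
  have hmul := hh_mul s
  have d1 : (m + 1 / 2) * hh s ≤ 5 * Real.pi / 6 := by
    rw [← hmul]; nlinarith only [hp, c1]
  have d2 : 5 * Real.pi / 6 - (m + 1 / 2) * hh s ≤ hh s := by
    rw [← hmul]; nlinarith only [hp, c2]
  have h1 := SS_ge hs hm3
  have h2 := LF_sub ((m + 1 / 2) * hh s) (5 * Real.pi / 6)
  have h3 : ∫ u in ((m + 1 / 2) * hh s)..(5 * Real.pi / 6), ff u ≤
      ∫ u in ((m + 1 / 2) * hh s)..(5 * Real.pi / 6), Real.log 2 := by
    apply intervalIntegral.integral_mono_on_of_le_Ioo d1 (ii _ _) intervalIntegrable_const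
    intro u _
    exact ff_le u
  rw [intervalIntegral.integral_const, smul_eq_mul] at h3
  have h4 : LF (5 * Real.pi / 6) = -LF (Real.pi / 6) := by
    rw [← LF_reflect]; congr 1; ring
  have hl2 : (0 : ℝ) ≤ Real.log 2 := Real.log_nonneg (by norm_num)
  have h5 : (5 * Real.pi / 6 - (m + 1 / 2) * hh s) * Real.log 2 ≤ hh s * Real.log 2 :=
    mul_le_mul_of_nonneg_right d2 hl2
  have h6 : -LF (Real.pi / 6) / hh s - Real.log 2 ≤ SS (hh s) m := by
    rw [sub_le_iff_le_add, div_le_iff₀ hp]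
    nlinarith only [h1, h2, h3, h4, h5]
  have h7 : ‖qf (tt s) m‖ ^ 2 ≤ FF s (tt s) := by
    unfold FF
    apply Finset.single_le_sum (f := fun m => ‖qf (tt s) m‖ ^ 2) (fun _ _ => by positivity)
    exact mem_range.mpr (by omega)
  refine le_trans ?_ h7
  rw [norm_qf_eq hm3, ← Real.exp_nat_mul, exp_div]
  have e1 : Real.exp (-2 * LF (Real.pi / 6) / hh s) / 4 =
      Real.exp (2 * (-LF (Real.pi / 6) / hh s - Real.log 2)) := by
    have e2 : (4 : ℝ) = Real.exp (2 * Real.log 2) := by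
      rw [two_mul, Real.exp_add, Real.exp_log (by norm_num)]; norm_num
    rw [e2, ← Real.exp_sub]
    congr 1
    ring
  rw [e1]
  apply Real.exp_le_exp.mpr
  push_cast
  linarith only [h6]

end

end Pool.Agent.Work.MP_b30479_gtS.TB

end

section

/-!
# Upper bound for alternating words, lower bound for powers
-/

namespace Pool.Agent.Work.MP_b30479_gtS.TB

open Finset

lemma M_congr {e : Ent} {Z Z' : ℕ → ℕ → ℂ} {a b : ℕ}
    (hz : ∀ i j, i + j = a + b → Z i j = Z' i j) : M e Z a b = M e Z' a b := by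
  unfold M
  apply Finset.sum_congr rfl
  intro p hp
  rw [mem_AD] at hp
  rw [hz _ _ hp]

lemma M_smul {e : Ent} {Z : ℕ → ℕ → ℂ} (c : ℂ) {a b : ℕ} :
    M e (fun i j => c * Z i j) a b = c * M e Z a b := by
  unfold M
  rw [Finset.mul_sum]
  apply Finset.sum_congr rfl
  intro p _
  ring

lemma op_congr_smul {s : ℕ} {u : ℂˣ} (g : Fin 2 × Bool) {S : ℕ} {X Y : Arr} (c : ℂ)
    (hXY : ∀ i j k, i + j + k = S → X i j k = c * Y i j k) :
    ∀ i j k, i + j + k = S → op s u g X i j k = c * op s u g Y i j k := by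
  intro i j k hs
  unfold op
  split_ifs
  · show M _ (fun a b => X a b k) i j = c * M _ (fun a b => Y a b k) i j
    rw [← M_smul]
    exact M_congr (fun a b hab => hXY a b k (by omega))
  · show M _ (fun a b => X i a b) j k = c * M _ (fun a b => Y i a b) j k
    rw [← M_smul]
    exact M_congr (fun a b hab => hXY i a b (by omega))

lemma qn_congr_smul {s : ℕ} {X Y : Arr} {c : ℂ} (hc : ‖c‖ = 1)
    (hXY : ∀ i j k, i + j + k = 2 * s → X i j k = c * Y i j k) : qn s X = qn s Y := by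
  unfold qn
  rw [HH_congr hXY hXY, HH_smul_right, HH_smul_left, ← mul_assoc]
  have : c * star c = 1 := by
    have := Complex.mul_conj c
    rw [Complex.normSq_eq_norm_sq, hc] at this
    simpa using this
  rw [this, one_mul]

section
variable {s : ℕ} {u : ℂˣ} (h : IsPrimitiveRoot (u : ℂ) (2 * s + 1))
include h

lemma L2_eta : ∀ k i j : ℕ, i + j + k = 2 * s →
    L2 (entry s u false) (eta s u) i j k = (u : ℂ) ^ (-((s : ℤ) * s)) * eta s u i j k := by
  have h0 : (u : ℂ) ≠ 0 := u.ne_zero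
  have hY : HW s u (fun i j k => L2 (entry s u false) (eta s u) i j k +
      (-(u : ℂ) ^ (-((s : ℤ) * s))) * eta s u i j k) :=
    HW_lin (HW_L2 h0 (commC_false h) (HW_eta h)) (HW_eta h) _
  have key := HW_inj h hY (fun i hi => by
    show M (entry s u false) (fun a b => eta s u i a b) (2 * s - i) 0 +
      (-(u : ℂ) ^ (-((s : ℤ) * s))) * eta s u i (2 * s - i) 0 = 0
    unfold M
    rcases Nat.eq_zero_or_pos i with rfl | hi0
    · rw [Finset.sum_eq_single (0, 2 * s)]
      · have e1 := entry_false s u 0 (2 * s) 0 (2 * s) rfl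
        rw [Nat.sub_zero]
        simp only
        rw [Nat.add_zero] at e1
        rw [e1, coeffNeg_zero]
        unfold eta
        rw [if_pos rfl, if_pos rfl, mul_zero, pow_zero, mul_one, neg_mul, ← zpow_natCast (u : ℂ),
          ← zpow_add₀ h0, add_neg_eq_zero]
        congr 1
        push_cast
        ring
      · rintro ⟨a, b⟩ hp hne
        rw [mem_AD] at hp
        simp only at hp ⊢
        rw [entry_false_zero, zero_mul]
        rcases Nat.eq_zero_or_pos a with rfl | ha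
        · exfalso
          apply hne
          simp only [Prod.mk.injEq, true_and]
          omega
        · exact ha
      · intro hc
        exact absurd (mem_AD.mpr (by simp)) hc
    · have e1 : ∀ a b, eta s u i a b = 0 := fun a b => by
        unfold eta
        rw [if_neg (by omega)]
      simp only [e1, mul_zero, Finset.sum_const_zero, add_zero])
  intro k i j hs
  have := key k i j hs
  linear_combination this

omit h in
lemma LL_nonneg : 0 ≤ LL s u :=
  Finset.sum_nonneg fun _ _ => Finset.sum_nonneg fun _ _ => by positivity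

lemma qn_op {g : Fin 2 × Bool} (hg : g = (0, true) ∨ g = (1, false)) {X : Arr} (hX : HW s u X) :
    qn s (op s u g X) ≤ LL s u * qn s X := by
  rcases hg with rfl | rfl
  · exact qn_L1 h hX
  · exact qn_L2 h hX

lemma qn_opL {w : List (Fin 2 × Bool)} (hw : IsAlternating w) {X : Arr} (hX : HW s u X) :
    qn s (opL s u w X) ≤ LL s u ^ w.length * qn s X := by
  induction w with
  | nil => simp [opL_nil]
  | cons g w ih =>
    have h1 := ih (fun g hg => hw g (List.mem_cons_of_mem _ hg))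
    have h2 := qn_op h (hw g List.mem_cons_self) (HW_opL h w hX)
    rw [opL_cons, List.length_cons, pow_succ]
    calc _ ≤ LL s u * qn s (opL s u w X) := h2
      _ ≤ LL s u * (LL s u ^ w.length * qn s X) := mul_le_mul_of_nonneg_left h1 (LL_nonneg)
      _ = _ := by ring

lemma qn_eta : qn s (eta s u) = 1 := by
  unfold qn
  rw [HH_eta h]
  simp

lemma one_le_FF : 1 ≤ FF s u ∧ (2 * s + 1 : ℝ) ≤ FF s u := by
  have h1 := FF_ge h
  have h2 : (1 : ℝ) ≤ 2 * s + 1 := by
    have : (0 : ℝ) ≤ s := Nat.cast_nonneg s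
    linarith
  constructor <;> nlinarith

lemma qn_two {g g' : Fin 2 × Bool} (hg : g = (0, true) ∨ g = (1, false))
    (hg' : g' = (0, true) ∨ g' = (1, false)) :
    qn s (op s u g (op s u g' (eta s u))) ≤ FF s u := by
  have h0 : (u : ℂ) ≠ 0 := u.ne_zero
  have h1 : ‖(u : ℂ)‖ = 1 := h.norm'_eq_one (by omega)
  have hF := one_le_FF h
  rcases hg' with rfl | rfl
  · rcases hg with rfl | rfl
    · exact (qn_s1s1_eta h).le
    · exact (qn_s2s1_eta h).le
  · have hc : ‖(u : ℂ) ^ (-((s : ℤ) * s))‖ = 1 := by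
      rw [norm_zpow, h1, one_zpow]
    have e1 : qn s (op s u g (op s u (1, false) (eta s u))) = qn s (op s u g (eta s u)) := by
      apply qn_congr_smul hc
      apply op_congr_smul
      intro i j k hs
      exact L2_eta h k i j hs
    rw [e1]
    rcases hg with rfl | rfl
    · have : qn s (op s u (0, true) (eta s u)) = 2 * s + 1 := qn_s1_eta h
      rw [this]
      exact hF.2
    · have : qn s (op s u (1, false) (eta s u)) = qn s (eta s u) :=
        qn_congr_smul hc (fun i j k hs => L2_eta h k i j hs)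
      rw [this, qn_eta h]
      exact hF.1

/-- `‖w η‖² ≤ F Λ^{|w|-2}` -/
lemma qn_word {w : List (Fin 2 × Bool)} (hw : IsAlternating w) (hl : 2 ≤ w.length) :
    qn s (opL s u w (eta s u)) ≤ LL s u ^ (w.length - 2) * FF s u := by
  obtain ⟨w', g, g', rfl⟩ : ∃ (w' : List (Fin 2 × Bool)) (g g' : Fin 2 × Bool),
      w = w' ++ [g, g'] := by
    rcases List.eq_nil_or_concat w with rfl | ⟨w1, g', rfl⟩
    · simp at hl
    · rcases List.eq_nil_or_concat w1 with rfl | ⟨w2, g, rfl⟩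
      · simp at hl
      · exact ⟨w2, g, g', by simp⟩
  have hg : g = (0, true) ∨ g = (1, false) := hw g (by simp)
  have hg' : g' = (0, true) ∨ g' = (1, false) := hw g' (by simp)
  rw [opL_append]
  have e1 : opL s u [g, g'] (eta s u) = op s u g (op s u g' (eta s u)) := rfl
  rw [e1, List.length_append]
  have hX : HW s u (op s u g (op s u g' (eta s u))) := HW_op h g (HW_op h g' (HW_eta h))
  have h2 := qn_opL h (w := w') (fun g hg => hw g (List.mem_append_left _ hg)) hX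
  refine h2.trans ?_
  have : w'.length + [g, g'].length - 2 = w'.length := by simp
  rw [this]
  exact mul_le_mul_of_nonneg_left (qn_two h hg hg') (pow_nonneg (LL_nonneg) _)

/-- the upper bound -/
theorem upper {w : List (Fin 2 × Bool)} (hw : IsAlternating w) (hl : 4 ≤ w.length) :
    ‖tangleValue s w u‖ ^ 2 ≤ FF s u ^ 2 * LL s u ^ (w.length - 4) := by
  obtain ⟨g1, g2, w', rfl⟩ : ∃ (g1 g2 : Fin 2 × Bool) (w' : List (Fin 2 × Bool)),
      w = g1 :: g2 :: w' := by
    match w, hl with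
    | g1 :: g2 :: w', _ => exact ⟨g1, g2, w', rfl⟩
  have hl' : 2 ≤ w'.length := by simpa using hl
  set v : List (Fin 2 × Bool) := mirrorRev [g1, g2] with hv
  have e1 : mirrorRev v = [g1, g2] := by
    rw [hv]
    unfold mirrorRev
    simp
  have hva : IsAlternating v := by
    intro g hg
    rw [hv] at hg
    unfold mirrorRev at hg
    simp only [List.map_cons, List.map_nil, List.reverse_cons, List.reverse_nil, List.nil_append,
      List.cons_append, List.mem_cons, List.not_mem_nil, or_false] at hg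
    rcases hg with rfl | rfl
    · rcases hw g2 (by simp) with h1 | h1 <;> rw [h1] <;> simp
    · rcases hw g1 (by simp) with h1 | h1 <;> rw [h1] <;> simp
  have hvl : v.length = 2 := by rw [hv]; unfold mirrorRev; simp
  have e2 : g1 :: g2 :: w' = mirrorRev v ++ w' := by rw [e1]; rfl
  rw [e2, tangleValue_mirror h]
  have h1 := cs_qn h (HW_opL h v (HW_eta h)) (HW_opL h w' (HW_eta h)) rfl
  have h2 := qn_word h hva (by omega)
  have h3 := qn_word h (w := w') (fun g hg => hw g (by simp [hg])) hl'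
  rw [hvl, Nat.sub_self, pow_zero, one_mul] at h2
  have hq := (qn_eq h (HW_opL h w' (HW_eta h))).2
  have hF : 0 ≤ FF s u := zero_le_one.trans (one_le_FF h).1
  refine h1.trans ?_
  have e3 : (mirrorRev v ++ w').length - 4 = w'.length - 2 := by
    rw [e1]
    simp
  rw [e3]
  calc _ ≤ FF s u * (LL s u ^ (w'.length - 2) * FF s u) := mul_le_mul h2 h3 hq hF
    _ = _ := by ring

/-! ### powers -/

omit h in
lemma powWord_succ (k : ℕ) : powWord (k + 1) = ((1 : Fin 2), false) :: ((0 : Fin 2), true) ::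
    powWord k := by
  unfold powWord
  rw [List.replicate_succ, List.flatten_cons]
  rfl

omit h in
lemma powWord_add (i j : ℕ) : powWord (i + j) = powWord i ++ powWord j := by
  unfold powWord
  rw [List.replicate_add, List.flatten_append]

omit h in
lemma mirrorRev_append (v w : List (Fin 2 × Bool)) :
    mirrorRev (v ++ w) = mirrorRev w ++ mirrorRev v := by
  unfold mirrorRev
  simp

omit h in
lemma mirrorRev_powWord (k : ℕ) : mirrorRev (powWord k) = powWord k := by
  induction k with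
  | zero => rfl
  | succ k ih =>
    have e1 : mirrorRev (powWord 1) = powWord 1 := by
      unfold powWord mirrorRev; simp
    rw [powWord_add, mirrorRev_append, ih, e1, ← powWord_add, ← powWord_add, Nat.add_comm]

/-- log-convexity -/
lemma log_convex (k : ℕ) : ‖tangleValue s (powWord (k + 1)) u‖ ^ 2 ≤
    ‖tangleValue s (powWord k) u‖ * ‖tangleValue s (powWord (k + 2)) u‖ := by
  rcases Nat.even_or_odd' k with ⟨i, rfl | rfl⟩
  · have h1 := tangleValue_cs h (powWord i) (powWord (i + 1))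
    rw [mirrorRev_powWord, mirrorRev_powWord, ← powWord_add, ← powWord_add, ← powWord_add] at h1
    rw [show i + (i + 1) = 2 * i + 1 by ring, show i + i = 2 * i by ring,
      show i + 1 + (i + 1) = 2 * i + 2 by ring] at h1
    exact h1
  · have h1 := tangleValue_cs h (((0 : Fin 2), true) :: powWord i)
      (((0 : Fin 2), true) :: powWord (i + 1))
    have e1 : ∀ i : ℕ, mirrorRev (((0 : Fin 2), true) :: powWord i) =
        powWord i ++ [((1 : Fin 2), false)] := by
      intro i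
      have : ((0 : Fin 2), true) :: powWord i = [((0 : Fin 2), true)] ++ powWord i := rfl
      rw [this, mirrorRev_append, mirrorRev_powWord]
      rfl
    have e2 : ∀ i j : ℕ, powWord i ++ [((1 : Fin 2), false)] ++ ((0 : Fin 2), true) :: powWord j =
        powWord (i + j + 1) := by
      intro i j
      rw [Nat.add_assoc, powWord_add, powWord_succ]
      simp
    rw [e1, e1, e2, e2, e2] at h1
    rw [show i + (i + 1) + 1 = 2 * i + 1 + 1 by ring, show i + i + 1 = 2 * i + 1 by ring,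
      show i + 1 + (i + 1) + 1 = 2 * i + 1 + 2 by ring] at h1
    exact h1

lemma pow_pos' (k : ℕ) : 0 < ‖tangleValue s (powWord k) u‖ := by
  rcases Nat.even_or_odd' k with ⟨i, rfl | rfl⟩
  · obtain ⟨r, hr, hr'⟩ := tangleValue_pos h (powWord i)
    rw [mirrorRev_powWord, ← powWord_add, ← two_mul] at hr'
    rw [hr', Complex.norm_real]
    exact norm_pos_iff.mpr hr.ne'
  · obtain ⟨r, hr, hr'⟩ := tangleValue_pos h (((0 : Fin 2), true) :: powWord i)
    have : ((0 : Fin 2), true) :: powWord i = [((0 : Fin 2), true)] ++ powWord i := rfl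
    have e1 : mirrorRev (((0 : Fin 2), true) :: powWord i) ++ ((0 : Fin 2), true) :: powWord i =
        powWord (2 * i + 1) := by
      rw [this, mirrorRev_append, mirrorRev_powWord, two_mul, Nat.add_assoc, powWord_add,
        powWord_succ]
      unfold mirrorRev
      simp
    rw [e1] at hr'
    rw [hr', Complex.norm_real]
    exact norm_pos_iff.mpr hr.ne'

lemma pow_one' : ‖tangleValue s (powWord 1) u‖ = 2 * s + 1 := by
  have e1 : powWord 1 = mirrorRev [((0 : Fin 2), true)] ++ [((0 : Fin 2), true)] := by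
    unfold powWord mirrorRev; simp
  rw [e1, tangleValue_mirror h]
  have hX : HW s u (opL s u [((0 : Fin 2), true)] (eta s u)) := HW_opL h _ (HW_eta h)
  rw [(qn_eq h hX).1, Complex.norm_real, Real.norm_of_nonneg (qn_eq h hX).2]
  exact qn_s1_eta h

lemma pow_two' : ‖tangleValue s (powWord 2) u‖ = FF s u := by
  have e1 : powWord 2 = mirrorRev (powWord 1) ++ powWord 1 := by
    rw [mirrorRev_powWord, ← powWord_add]
  rw [e1, tangleValue_mirror h]
  have hX : HW s u (opL s u (powWord 1) (eta s u)) := HW_opL h _ (HW_eta h)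
  rw [(qn_eq h hX).1, Complex.norm_real, Real.norm_of_nonneg (qn_eq h hX).2]
  exact qn_s2s1_eta h

/-- the lower bound -/
theorem lower (k : ℕ) : FF s u ^ (k + 1) ≤
    ‖tangleValue s (powWord (k + 2)) u‖ * (2 * s + 1) ^ k := by
  have hn : (0 : ℝ) < 2 * s + 1 := by positivity
  have hF : 0 < FF s u := lt_of_lt_of_le one_pos (one_le_FF h).1
  -- ratios
  have ratio : ∀ k, ‖tangleValue s (powWord (k + 1)) u‖ * FF s u ≤
      ‖tangleValue s (powWord (k + 2)) u‖ * (2 * s + 1) := by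
    intro k
    induction k with
    | zero =>
      rw [Nat.zero_add, Nat.zero_add, pow_one' h, pow_two' h, mul_comm]
    | succ k ih =>
      have h1 := log_convex h (k + 1)
      have p1 := pow_pos' h (k + 1)
      have p2 := pow_pos' h (k + 2)
      rw [show k + 1 + 1 = k + 2 by ring, show k + 1 + 2 = k + 3 by ring] at h1 ⊢
      apply le_of_mul_le_mul_left _ p1
      calc ‖tangleValue s (powWord (k + 1)) u‖ * (‖tangleValue s (powWord (k + 2)) u‖ * FF s u)
          = ‖tangleValue s (powWord (k + 2)) u‖ *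
            (‖tangleValue s (powWord (k + 1)) u‖ * FF s u) := by ring
        _ ≤ ‖tangleValue s (powWord (k + 2)) u‖ *
            (‖tangleValue s (powWord (k + 2)) u‖ * (2 * s + 1)) :=
            mul_le_mul_of_nonneg_left ih p2.le
        _ = ‖tangleValue s (powWord (k + 2)) u‖ ^ 2 * (2 * s + 1) := by ring
        _ ≤ (‖tangleValue s (powWord (k + 1)) u‖ * ‖tangleValue s (powWord (k + 3)) u‖) *
            (2 * s + 1) := mul_le_mul_of_nonneg_right h1 hn.le
        _ = _ := by ring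
  induction k with
  | zero =>
    rw [Nat.zero_add, Nat.zero_add, pow_one, pow_zero, mul_one, pow_two' h]
  | succ k ih =>
    have h1 := ratio (k + 1)
    rw [show k + 1 + 1 = k + 2 by ring, show k + 1 + 2 = k + 3 by ring] at *
    calc FF s u ^ (k + 2) = FF s u ^ (k + 1) * FF s u := by ring
      _ ≤ (‖tangleValue s (powWord (k + 2)) u‖ * (2 * s + 1) ^ k) * FF s u :=
        mul_le_mul_of_nonneg_right ih hF.le
      _ = (‖tangleValue s (powWord (k + 2)) u‖ * FF s u) * (2 * s + 1) ^ k := by ring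
      _ ≤ (‖tangleValue s (powWord (k + 3)) u‖ * (2 * s + 1)) * (2 * s + 1) ^ k :=
        mul_le_mul_of_nonneg_right h1 (by positivity)
      _ = _ := by ring

end

end Pool.Agent.Work.MP_b30479_gtS.TB

end

section

/-!
# Growth of the Kashaev invariants of two-bridge links
-/

namespace Pool.Agent.Work.MP_b30479_gtS.TB

open Finset Pool.Agent.Work.MP_b30479_gtS.Lob

lemma kashaev_norm (s : ℕ) (w : List (Fin 2 × Bool)) (δ : ℤ) :
    ∃ u : ℂˣ, (u : ℂ) = tt s ∧ ‖twoBridgeKashaev w δ (2 * s + 1)‖ = ‖tangleValue s w u‖ := by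
  refine ⟨Units.mk0 (Complex.exp (2 * Real.pi * Complex.I / ((2 * s + 1 : ℕ) : ℂ)))
    (Complex.exp_ne_zero _), rfl, ?_⟩
  unfold twoBridgeKashaev
  have e1 : (2 * s + 1 - 1) / 2 = s := by omega
  rw [e1]
  exact norm_twoBridgeJones (tt_prim s) w δ

theorem growth_upper {w : List (Fin 2 × Bool)} (hw : IsAlternating w) (hl : 4 ≤ w.length) (δ : ℤ)
    {n : ℕ} (hn : Odd n) (hn3 : 3 ≤ n) :
    ‖twoBridgeKashaev w δ n‖ ≤ (6 * (n : ℝ) ^ 3) ^ (w.length - 2) *
      Real.exp (n * volFigureEight / (2 * Real.pi)) ^ (w.length - 3) := by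
  obtain ⟨s, rfl⟩ := hn
  have hs : 1 ≤ s := by omega
  obtain ⟨u, hu, hk⟩ := kashaev_norm s w δ
  have hp : IsPrimitiveRoot (u : ℂ) (2 * s + 1) := by rw [hu]; exact tt_prim s
  rw [hk]
  have h1 := upper hp hw hl
  rw [hu] at h1
  have h2 := FF_le hs
  have h3 := LL_le hs
  have e0 : ((2 * s + 1 : ℕ) : ℝ) = 2 * s + 1 := by push_cast; ring
  rw [e0]
  set A : ℝ := 6 * (2 * s + 1) ^ 3 with hA
  set E : ℝ := Real.exp ((2 * s + 1) * volFigureEight / (2 * Real.pi)) with hE
  have hA0 : 0 < A := by positivity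
  have hE0 : 0 < E := Real.exp_pos _
  have e1 : Real.exp (2 * ((2 * s + 1) * volFigureEight / (2 * Real.pi))) = E ^ 2 := by
    rw [hE, ← Real.exp_nat_mul]
    push_cast
    rfl
  rw [e1] at h3
  have hF0 : 0 ≤ FF s (tt s) := by
    have := (one_le_FF hp).1
    rw [hu] at this
    linarith
  have hL0 : 0 ≤ LL s (tt s) := by
    have := LL_nonneg (s := s) (u := u)
    rwa [hu] at this
  have h4 : FF s (tt s) ^ 2 * LL s (tt s) ^ (w.length - 4) ≤
      (A ^ 2 * E) ^ 2 * (A ^ 2 * E ^ 2) ^ (w.length - 4) :=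
    mul_le_mul (pow_le_pow_left₀ hF0 h2 2) (pow_le_pow_left₀ hL0 h3 _) (pow_nonneg hL0 _)
      (by positivity)
  clear_value A E
  have h5 : (A ^ 2 * E) ^ 2 * (A ^ 2 * E ^ 2) ^ (w.length - 4) =
      (A ^ (w.length - 2) * E ^ (w.length - 3)) ^ 2 := by
    obtain ⟨m, hm⟩ : ∃ m, w.length = m + 4 := ⟨w.length - 4, by omega⟩
    rw [hm, show m + 4 - 4 = m by omega, show m + 4 - 2 = m + 2 by omega,
      show m + 4 - 3 = m + 1 by omega]
    ring
  rw [h5] at h4
  exact abs_le_of_sq_le_sq' (h1.trans h4) (by positivity) |>.2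

theorem growth_lower (k : ℕ) (hk : 2 ≤ k) (δ : ℤ) {n : ℕ} (hn : Odd n) (hn3 : 3 ≤ n) :
    Real.exp (n * volFigureEight / (2 * Real.pi)) ^ (k - 1) / (4 ^ (k - 1) * (n : ℝ) ^ (k - 2)) ≤
      ‖twoBridgeKashaev (powWord k) δ n‖ := by
  obtain ⟨s, rfl⟩ := hn
  have hs : 1 ≤ s := by omega
  obtain ⟨k, rfl⟩ : ∃ k', k = k' + 2 := ⟨k - 2, by omega⟩
  obtain ⟨u, hu, hk2⟩ := kashaev_norm s (powWord (k + 2)) δ
  have hp : IsPrimitiveRoot (u : ℂ) (2 * s + 1) := by rw [hu]; exact tt_prim s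
  rw [hk2, show k + 2 - 1 = k + 1 by omega, show k + 2 - 2 = k by omega]
  have h1 := lower hp k
  rw [hu] at h1
  have h2 := FF_lower hs
  have e0 : ((2 * s + 1 : ℕ) : ℝ) = 2 * s + 1 := by push_cast; ring
  rw [e0]
  set E : ℝ := Real.exp ((2 * s + 1) * volFigureEight / (2 * Real.pi)) with hE
  have hE0 : 0 < E := Real.exp_pos _
  have h3 : (E / 4) ^ (k + 1) ≤ FF s (tt s) ^ (k + 1) := pow_le_pow_left₀ (by positivity) h2 _
  rw [div_le_iff₀ (by positivity)]
  rw [div_pow, div_le_iff₀ (by positivity)] at h3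
  calc E ^ (k + 1) ≤ FF s (tt s) ^ (k + 1) * 4 ^ (k + 1) := h3
    _ ≤ (‖tangleValue s (powWord (k + 2)) u‖ * (2 * s + 1) ^ k) * 4 ^ (k + 1) :=
      mul_le_mul_of_nonneg_right h1 (by positivity)
    _ = _ := by ring

end Pool.Agent.Work.MP_b30479_gtS.TB

end

section

/-!
# Estimates on the mesh
-/

namespace Pool.Agent.Work.MP_b30479_gtS.TB

open Finset Pool.Agent.Work.MP_b30479_gtS.Lob

lemma norm_one_sub_tt' (s j : ℕ) : ‖1 - tt s ^ j‖ = |2 * Real.sin (j * hh s)| := by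
  have e1 : tt s ^ j = Complex.exp (Complex.I * ((2 * (j * hh s) : ℝ) : ℂ)) := by
    unfold tt hh
    rw [← Complex.exp_nat_mul]
    congr 1
    push_cast
    field_simp
  rw [e1, norm_sub_rev, Complex.norm_exp_I_mul_ofReal_sub_one,
    show 2 * (j * hh s) / 2 = j * hh s by ring, Real.norm_eq_abs]

lemma norm_tt (s : ℕ) : ‖tt s‖ = 1 := (tt_prim s).norm'_eq_one (by omega)

lemma hh_nat (s : ℕ) : ((2 * s + 1 : ℕ) : ℝ) * hh s = Real.pi := by
  have := hh_mul s
  push_cast
  exact this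

/-- the factor of index `n` is dropped -/
noncomputable def ww (s x : ℕ) : ℝ := if x = 2 * s + 1 then 1 else ‖1 - tt s ^ x‖

lemma tt_pow_add (s x : ℕ) : tt s ^ (2 * s + 1 + x) = tt s ^ x := by
  rw [pow_add, (tt_prim s).pow_eq_one, one_mul]

section
variable {s : ℕ} (hs : 1 ≤ s)
include hs

lemma mesh_lower {x : ℕ} (h0 : 1 ≤ x) (h1 : x ≤ 2 * s) :
    4 / (2 * s + 1 : ℝ) ≤ ‖1 - tt s ^ x‖ := by
  have hp := hh_pos s
  have h3 := hh_le hs
  have hpi := Real.pi_pos
  rw [norm_one_sub_tt s x (by omega)]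
  have hx0 : (1 : ℝ) ≤ x := by exact_mod_cast h0
  have e1 : Real.sin (hh s) ≤ Real.sin (x * hh s) := by
    rcases le_total (x * hh s) (Real.pi / 2) with h5 | h5
    · exact Real.sin_le_sin_of_le_of_le_pi_div_two (by linarith only [hp, h3]) h5 (by nlinarith only [hp, hx0])
    · rw [← Real.sin_pi_sub (x * hh s)]
      apply Real.sin_le_sin_of_le_of_le_pi_div_two (by linarith only [hp, h3]) (by linarith only [h5])
      have : (x : ℝ) ≤ ((2 * s : ℕ) : ℝ) := by exact_mod_cast h1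
      push_cast at this
      have h6 := hh_mul s
      nlinarith only [h6, hp, this]
  have e2 := Real.mul_le_sin hp.le (by linarith only [hp, h3])
  have e3 : 2 / Real.pi * hh s = 2 / (2 * (s : ℝ) + 1) := by
    unfold hh
    field_simp
  rw [e3] at e2
  have e4 : 4 / (2 * (s : ℝ) + 1) = 2 * (2 / (2 * (s : ℝ) + 1)) := by ring
  rw [e4]
  linarith only [e1, e2]

lemma mesh_lower' {x : ℕ} (h0 : 1 ≤ x) (h1 : x ≤ 4 * s + 1) (hx : x ≠ 2 * s + 1) :
    4 / (2 * s + 1 : ℝ) ≤ ‖1 - tt s ^ x‖ := by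
  rcases lt_or_gt_of_ne hx with h2 | h2
  · exact mesh_lower hs h0 (by omega)
  · obtain ⟨y, rfl⟩ : ∃ y, x = 2 * s + 1 + y := ⟨x - (2 * s + 1), by omega⟩
    rw [tt_pow_add]
    exact mesh_lower hs (by omega) (by omega)

lemma ww_pos {x : ℕ} (h0 : 1 ≤ x) (h1 : x ≤ 4 * s + 1) : 0 < ww s x := by
  unfold ww
  split_ifs with h
  · exact one_pos
  · have := mesh_lower' hs h0 h1 h
    have h2 : (0 : ℝ) < 4 / (2 * s + 1) := by positivity
    linarith only [this, h2]

lemma exp_ff {y : ℕ} (h0 : 1 ≤ y) (h1 : y ≤ 4 * s + 1) : Real.exp (ff (y * hh s)) = ww s y := by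
  unfold ww ff
  split_ifs with h
  · rw [h, hh_nat, Real.sin_pi, mul_zero, Real.log_zero, Real.exp_zero]
  · have h2 := mesh_lower' hs h0 h1 h
    have h3 : (0 : ℝ) < 4 / (2 * s + 1) := by positivity
    rw [norm_one_sub_tt'] at h2 ⊢
    rw [← Real.log_abs, Real.exp_log (by linarith only [h2, h3])]

lemma ff_mesh {y : ℕ} (h0 : 1 ≤ y) (h1 : y ≤ 4 * s + 1) : -Real.log (2 * s + 1) ≤ ff (y * hh s) := by
  have h2 := exp_ff hs h0 h1
  have h4 : (1 : ℝ) ≤ 2 * s + 1 := by
    have : (0 : ℝ) ≤ s := Nat.cast_nonneg s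
    linarith only []
  have h3 : (2 * s + 1 : ℝ)⁻¹ ≤ ww s y := by
    unfold ww
    split_ifs with h
    · exact inv_le_one_of_one_le₀ h4
    · have h5 := mesh_lower' hs h0 h1 h
      have h6 : (2 * s + 1 : ℝ)⁻¹ ≤ 4 / (2 * s + 1) := by
        rw [div_eq_mul_inv]
        have : (0 : ℝ) < (2 * s + 1 : ℝ)⁻¹ := by positivity
        linarith only [this]
      linarith only [h5, h6]
  rw [← h2] at h3
  have h7 := Real.log_le_log (by positivity) h3
  rwa [Real.log_exp, Real.log_inv] at h7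

omit hs in
lemma log_n_nonneg (s : ℕ) : (0 : ℝ) ≤ Real.log (2 * s + 1) := Real.log_nonneg (by
  have : (0 : ℝ) ≤ s := Nat.cast_nonneg s
  linarith only [])

/-- lower Riemann sum at the integer point -/
lemma SS_ge' {m : ℕ} (hm : m ≤ 2 * s) :
    LF (m * hh s) - hh s * Real.log (2 * s + 1) ≤ hh s * SS (hh s) m := by
  have hp := hh_pos s
  have hpi := Real.pi_pos
  have hl := log_n_nonneg s
  rcases Nat.eq_zero_or_pos m with rfl | hm0
  · simp only [SS, Finset.range_zero, Finset.sum_empty, mul_zero, Nat.cast_zero, zero_mul, LF_zero,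
      zero_sub]
    have := mul_nonneg hp.le hl
    linarith only [this]
  · have h1 := SS_ge hs hm
    have hm1 : (1 : ℝ) ≤ m := by exact_mod_cast hm0
    have hm2 : (m : ℝ) ≤ ((2 * s : ℕ) : ℝ) := by exact_mod_cast hm
    push_cast at hm2
    have hmul := hh_mul s
    have h2 := trapezoid (a := m * hh s) (b := (m + 1 / 2) * hh s) (by positivity)
      (by nlinarith only [hp]) (by rw [← hmul]; nlinarith only [hp, hm2])
    rw [← LF_sub] at h2
    have h3 := ff_mesh hs hm0 (by omega)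
    have h4 : -Real.log (2 * s + 1) ≤ ff ((m + 1 / 2) * hh s) := by
      unfold ff
      rw [← Real.log_inv]
      apply Real.log_le_log (by positivity)
      have e1 : Real.sin (hh s / 2) ≤ Real.sin ((m + 1 / 2) * hh s) := by
        have h3 := hh_le hs
        rcases le_total ((m + 1 / 2) * hh s) (Real.pi / 2) with h5 | h5
        · exact Real.sin_le_sin_of_le_of_le_pi_div_two (by linarith only [hp, h3]) h5 (by nlinarith only [hp])
        · rw [← Real.sin_pi_sub ((m + 1 / 2) * hh s)]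
          apply Real.sin_le_sin_of_le_of_le_pi_div_two (by linarith only [hp, h3]) (by linarith only [h5])
          nlinarith only [hmul, hp, hm2]
      have e2 := Real.mul_le_sin (x := hh s / 2) (by linarith only [hp]) (by linarith only [hpi, hs, hh_le hs])
      have e3 : 2 / Real.pi * (hh s / 2) = (2 * (s : ℝ) + 1)⁻¹ := by
        unfold hh
        field_simp
      have e4 : (0 : ℝ) < (2 * (s : ℝ) + 1)⁻¹ := by positivity
      rw [e3] at e2
      linarith only [e1, e2, e4]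
    have h5 := mul_le_mul_of_nonneg_left h3 hp.le
    have h6 := mul_le_mul_of_nonneg_left h4 hp.le
    have h7 : 2 * (LF ((m + 1 / 2) * hh s) - LF (m * hh s)) ≥
        -(hh s * Real.log (2 * s + 1)) := by
      have e5 : (m + 1 / 2) * hh s - m * hh s = hh s / 2 := by ring
      rw [e5] at h2
      linarith only [h2, h5, h6]
    have h8 := mul_nonneg hp.le hl
    linarith only [h1, h2, h5, h6, h8]

/-- shift by `n` -/
lemma SS_shift {x : ℕ} (hx : x ≤ 2 * s) :
    SS (hh s) (2 * s + 1 + x) = Real.log (2 * s + 1) + SS (hh s) x := by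
  induction x with
  | zero =>
    rw [Nat.add_zero, SS_succ]
    have e1 : ff (((2 * s : ℕ) + 1) * hh s) = 0 := by
      have := hh_nat s
      push_cast at this ⊢
      unfold ff
      rw [this, Real.sin_pi, mul_zero, Real.log_zero]
    rw [e1, add_zero]
    have h1 := norm_qf_eq (s := s) (m := 2 * s) le_rfl
    rw [qf_top (tt_prim s)] at h1
    have h2 : ‖(2 * s + 1 : ℂ)‖ = 2 * s + 1 := by
      have : ((2 * s + 1 : ℕ) : ℂ) = 2 * s + 1 := by push_cast; ring
      rw [← this, Complex.norm_natCast]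
      push_cast; ring
    rw [h2] at h1
    rw [h1, Real.log_exp]
    simp [SS]
  | succ x ih =>
    rw [← Nat.add_assoc, SS_succ, ih (by omega), SS_succ]
    have e1 : ff (((2 * s + 1 + x : ℕ) + 1) * hh s) = ff ((x + 1) * hh s) := by
      rw [← ff_add_pi ((x + 1) * hh s), ← hh_nat s]
      congr 1
      push_cast
      ring
    rw [e1]
    ring

/-- two-sided comparison -/
lemma SS_two {x : ℕ} (hx : x ≤ 4 * s + 1) :
    LF (x * hh s) - hh s * (1 + Real.log 2 + 2 * Real.log (2 * s + 1)) ≤ hh s * SS (hh s) x ∧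
    hh s * SS (hh s) x ≤ LF (x * hh s) + hh s * (1 + Real.log 2 + 2 * Real.log (2 * s + 1)) := by
  have hp := hh_pos s
  have hl := mul_nonneg hp.le (log_n_nonneg s)
  have hl2 : (0 : ℝ) ≤ hh s * Real.log 2 := mul_nonneg hp.le (Real.log_nonneg (by norm_num))
  rcases Nat.lt_or_ge x (2 * s + 1) with h1 | h1
  · have h2 := SS_le hs (m := x) (by omega)
    have h3 := SS_ge' hs (m := x) (by omega)
    constructor <;> nlinarith only [hp, hl, hl2, h3, h2]
  · obtain ⟨y, rfl⟩ : ∃ y, x = 2 * s + 1 + y := ⟨x - (2 * s + 1), by omega⟩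
    have h2 := SS_le hs (m := y) (by omega)
    have h3 := SS_ge' hs (m := y) (by omega)
    rw [SS_shift hs (by omega)]
    have e1 : LF (((2 * s + 1 + y : ℕ) : ℝ) * hh s) = LF (y * hh s) := by
      rw [← LF_add_pi (y * hh s), ← hh_nat s]
      congr 1
      push_cast
      ring
    rw [e1]
    constructor <;> nlinarith only [hp, hl, hl2, h3, h2]

/-- the exponent -/
lemma E_le {i j k : ℕ} (hji : j ≤ i) (hik : i ≤ k) (hk : k ≤ 2 * s) :
    hh s * (2 * SS (hh s) k - 2 * SS (hh s) j - SS (hh s) (i - j) - SS (hh s) (k - i) -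
      SS (hh s) (i + k + 1) + SS (hh s) (i + j)) ≤
      (LF (i * hh s + j * hh s) - LF (i * hh s - j * hh s) - 2 * LF (j * hh s)) +
      -4 * LF (Real.pi / 4) + hh s * (9 * (1 + Real.log 2 + 2 * Real.log (2 * s + 1))) := by
  have hp := hh_pos s
  have hl := mul_nonneg hp.le (log_n_nonneg s)
  have hl2 : (0 : ℝ) ≤ hh s * Real.log 2 := mul_nonneg hp.le (Real.log_nonneg (by norm_num))
  have h1 := (SS_two hs (x := k) (by omega)).2
  have h2 := (SS_two hs (x := j) (by omega)).1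
  have h3 := (SS_two hs (x := i - j) (by omega)).1
  have h4 := (SS_two hs (x := k - i) (by omega)).1
  have h5 := (SS_two hs (x := i + k) (by omega)).1
  have h6 := (SS_two hs (x := i + j) (by omega)).2
  have h7 := ff_mesh hs (y := i + k + 1) (by omega) (by omega)
  have e7 : SS (hh s) (i + k + 1) = SS (hh s) (i + k) + ff ((i + k + 1 : ℕ) * hh s) := by
    rw [SS_succ]
    push_cast
    rfl
  rw [e7]
  have h8 := mul_le_mul_of_nonneg_left h7 hp.le
  have c1 : ((i - j : ℕ) : ℝ) = i - j := Nat.cast_sub hji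
  have c2 : ((k - i : ℕ) : ℝ) = k - i := Nat.cast_sub hik
  rw [c1, sub_mul] at h3
  rw [c2, sub_mul] at h4
  push_cast at h5 h6
  rw [add_mul] at h5 h6
  have hmul := hh_nat s
  have bi : (i : ℝ) * hh s ≤ Real.pi := by
    rw [← hmul]
    apply mul_le_mul_of_nonneg_right _ hp.le
    exact_mod_cast (show i ≤ 2 * s + 1 by omega)
  have bk : (k : ℝ) * hh s ≤ Real.pi := by
    rw [← hmul]
    apply mul_le_mul_of_nonneg_right _ hp.le
    exact_mod_cast (show k ≤ 2 * s + 1 by omega)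
  have h9 := P_le (i := i * hh s) (k := k * hh s) (by positivity) bi (by positivity) bk
  rw [add_comm ((k : ℝ) * hh s)] at h9
  nlinarith only [hp, hl, hl2, h1, h2, h3, h4, h8, h5, h6, h9]

end

end Pool.Agent.Work.MP_b30479_gtS.TB

end

section

/-!
# Bound for the matrix entries of the powers of the braiding
-/

namespace Pool.Agent.Work.MP_b30479_gtS.TB

open Finset Pool.Agent.Work.MP_b30479_gtS.Lob

/-- radius -/
noncomputable def rr (s m : ℕ) : ℝ := 1 / ((2 * s + 1) ^ 2 * (m + 1))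

lemma rr_pos (s m : ℕ) : 0 < rr s m := by unfold rr; positivity

lemma n_ge_one (s : ℕ) : (1 : ℝ) ≤ 2 * s + 1 := by
  have : (0 : ℝ) ≤ s := Nat.cast_nonneg s
  linarith only []

lemma rr_le (s m : ℕ) : rr s m ≤ 1 / (2 * s + 1) ^ 2 := by
  unfold rr
  apply div_le_div_of_nonneg_left zero_le_one (by positivity)
  have : (1 : ℝ) ≤ m + 1 := by
    have : (0 : ℝ) ≤ m := Nat.cast_nonneg m
    linarith only []
  nlinarith only [sq_nonneg ((2 * s + 1 : ℝ))]

lemma rr_le_one (s m : ℕ) : rr s m ≤ 1 := by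
  refine (rr_le s m).trans ?_
  rw [div_le_one (by positivity)]
  exact one_le_pow₀ (n_ge_one s)

lemma rr_lt (s m : ℕ) : rr s m < 4 / (2 * s + 1) := by
  have hn := n_ge_one s
  refine lt_of_le_of_lt (rr_le s m) ?_
  rw [div_lt_div_iff₀ (by positivity) (by positivity)]
  nlinarith only []

lemma norm_cz {s : ℕ} {t : ℂ} (ht : ‖t‖ = 1) (z : ℂ) (i l : ℕ) :
    ‖cz s t z i - cz s t z l‖ = ‖1 - t ^ ((i - l) + (l - i))‖ * ‖1 - z ^ 2 * t ^ (i + l + 1)‖ := by
  have h0 : t ≠ 0 := by rintro rfl; simp at ht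
  have key : ∀ i l, l ≤ i → ‖cz s t z i - cz s t z l‖ =
      ‖1 - t ^ (i - l)‖ * ‖1 - z ^ 2 * t ^ (i + l + 1)‖ := by
    intro i l hl
    obtain ⟨d, rfl⟩ : ∃ d, i = l + d := ⟨i - l, by omega⟩
    have e1 : cz s t z (l + d) - cz s t z l = t ^ s * t⁻¹ ^ (l + d) * ((1 - t ^ (l + d - l)) *
        (1 - z ^ 2 * t ^ (l + d + l + 1))) := by
      unfold cz
      rw [Nat.add_sub_cancel_left]
      have n1 : t ^ l ≠ 0 := pow_ne_zero _ h0
      have n2 : t ^ d ≠ 0 := pow_ne_zero _ h0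
      simp only [pow_add, inv_pow, pow_one]
      field_simp
      ring
    rw [e1, norm_mul, norm_mul, norm_mul, norm_pow, norm_pow, norm_inv, ht]
    simp
  rcases le_total l i with h1 | h1
  · rw [key i l h1, show l - i = 0 by omega, add_zero]
  · rw [norm_sub_rev, key l i h1, show i - l = 0 by omega, zero_add, add_comm l i]

section
variable {s : ℕ} (hs : 1 ≤ s)
include hs

omit hs in
lemma norm_zt {m : ℕ} {z : ℂ} (hz : ‖z - 1‖ ≤ rr s m) (x : ℕ) :
    ‖1 - tt s ^ x‖ - rr s m ≤ ‖1 - z * tt s ^ x‖ := by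
  have e1 : 1 - z * tt s ^ x = (1 - tt s ^ x) - (z - 1) * tt s ^ x := by ring
  rw [e1]
  have h1 := norm_sub_norm_le (1 - tt s ^ x) ((z - 1) * tt s ^ x)
  have h2 : ‖(z - 1) * tt s ^ x‖ = ‖z - 1‖ := by
    rw [norm_mul, norm_pow, norm_tt, one_pow, mul_one]
  rw [h2] at h1
  linarith only [hz, h1]

lemma ne_zt {m : ℕ} {z : ℂ} (hz : ‖z - 1‖ ≤ rr s m) : ∀ l, 1 ≤ l → l ≤ 2 * s →
    1 - z * tt s ^ l ≠ 0 := by
  intro l h0 h1 hc
  have h2 := norm_zt hz l
  rw [hc, norm_zero] at h2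
  have h3 := mesh_lower hs h0 h1
  have h4 := rr_lt s m
  linarith only [h2, h3, h4]

/-- `ρ` -/
noncomputable def rho (s m x : ℕ) : ℝ := if x = 2 * s + 1 then rr s m else 1

lemma norm_zzt {m : ℕ} {z : ℂ} (hz : ‖z - 1‖ = rr s m) {x : ℕ} (h0 : 1 ≤ x)
    (h1 : x ≤ 4 * s + 1) :
    ww s x * (1 - 1 / (2 * s + 1)) * rho s m x ≤ ‖1 - z ^ 2 * tt s ^ x‖ := by
  have hr := rr_pos s m
  have hr1 := rr_le_one s m
  have hr2 := rr_le s m
  have hn := n_ge_one s
  have hq : (0 : ℝ) ≤ 1 / (2 * s + 1) := by positivity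
  have hz1 : ‖z + 1‖ ≤ 3 := by
    have e1 : z + 1 = (z - 1) + 2 := by ring
    rw [e1]
    have := norm_add_le (z - 1) (2 : ℂ)
    rw [hz] at this
    have h2 : ‖(2 : ℂ)‖ = 2 := by simp
    linarith only [hr1, this, h2]
  by_cases hx : x = 2 * s + 1
  · unfold ww rho
    rw [if_pos hx, if_pos hx, hx, (tt_prim s).pow_eq_one, mul_one]
    have e1 : 1 - z ^ 2 = -((z - 1) * (z + 1)) := by ring
    rw [e1, norm_neg, norm_mul, hz]
    have h2 : 1 ≤ ‖z + 1‖ := by
      have e2 : z + 1 = 2 - (1 - z) := by ring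
      rw [e2]
      have := norm_sub_norm_le (2 : ℂ) (1 - z)
      have h3 : ‖(2 : ℂ)‖ = 2 := by simp
      rw [norm_sub_rev 1 z, hz] at this
      linarith only [hr1, this, h3]
    calc 1 * (1 - 1 / (2 * s + 1)) * rr s m ≤ rr s m := by nlinarith only [hr, hq]
      _ ≤ rr s m * ‖z + 1‖ := by nlinarith only [hr, h2]
  · have h2 := mesh_lower' hs h0 h1 hx
    unfold ww rho
    rw [if_neg hx, if_neg hx, mul_one]
    have e1 : 1 - z ^ 2 * tt s ^ x = (1 - tt s ^ x) - (z - 1) * (z + 1) * tt s ^ x := by ring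
    rw [e1]
    have h3 := norm_sub_norm_le (1 - tt s ^ x) ((z - 1) * (z + 1) * tt s ^ x)
    have h4 : ‖(z - 1) * (z + 1) * tt s ^ x‖ ≤ 3 * rr s m := by
      rw [norm_mul, norm_mul, norm_pow, norm_tt, one_pow, mul_one, hz]
      nlinarith only [hr, hz1]
    have h5 : 3 * rr s m ≤ 1 / (2 * s + 1) * ‖1 - tt s ^ x‖ := by
      have h6 : 1 / (2 * s + 1) * (4 / (2 * s + 1)) ≤ 1 / (2 * s + 1) * ‖1 - tt s ^ x‖ :=
        mul_le_mul_of_nonneg_left h2 hq
      have h7 : 1 / (2 * s + 1 : ℝ) * (4 / (2 * s + 1)) = 4 * (1 / (2 * s + 1) ^ 2) := by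
        field_simp
      rw [h7] at h6
      linarith only [hr, hr2, h6]
    linarith only [h3, h4, h5]

omit hs in
lemma prod_erase_split {j i k : ℕ} (hji : j ≤ i) (hik : i ≤ k) (f : ℕ → ℝ) :
    ∏ l ∈ (Icc j k).erase i, f l = (∏ l ∈ Ico j i, f l) * ∏ l ∈ Ico (i + 1) (k + 1), f l := by
  rw [← Finset.prod_union]
  · congr 1
    ext x
    simp only [Finset.mem_erase, Finset.mem_Icc, Finset.mem_union, Finset.mem_Ico]
    omega
  · rw [Finset.disjoint_left]
    intro x hx hx2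
    rw [Finset.mem_Ico] at hx hx2
    omega

omit hs in
lemma prod_qf_left {j i : ℕ} (hji : j ≤ i) :
    ∏ l ∈ Ico j i, ‖1 - tt s ^ ((i - l) + (l - i))‖ = ‖qf (tt s) (i - j)‖ := by
  rw [Finset.prod_Ico_eq_prod_range, ← Finset.prod_range_reflect]
  unfold qf
  rw [norm_prod]
  apply Finset.prod_congr rfl
  intro x hx
  rw [mem_range] at hx
  congr 3
  omega

omit hs in
lemma prod_qf_right {i k : ℕ} (hik : i ≤ k) :
    ∏ l ∈ Ico (i + 1) (k + 1), ‖1 - tt s ^ ((i - l) + (l - i))‖ = ‖qf (tt s) (k - i)‖ := by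
  rw [Finset.prod_Ico_eq_prod_range, show k + 1 - (i + 1) = k - i by omega]
  unfold qf
  rw [norm_prod]
  apply Finset.prod_congr rfl
  intro x hx
  congr 3
  omega

lemma prod_ww {i a b : ℕ} (hab : a ≤ b) (hib : i + b ≤ 4 * s + 1) :
    ∏ l ∈ Ico a b, ww s (i + l + 1) = Real.exp (SS (hh s) (i + b) - SS (hh s) (i + a)) := by
  obtain ⟨d, rfl⟩ : ∃ d, b = a + d := ⟨b - a, by omega⟩
  induction d with
  | zero => simp
  | succ d ih =>
    rw [← Nat.add_assoc, Finset.prod_Ico_succ_top (by omega), ih (by omega) (by omega),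
      ← exp_ff hs (by omega) (by omega), ← Real.exp_add]
    congr 1
    rw [show i + (a + d + 1) = (i + (a + d)) + 1 by ring, SS_succ]
    push_cast
    ring

/-- lower bound of the denominators -/
lemma den_lower {m : ℕ} {z : ℂ} (hz : ‖z - 1‖ = rr s m) {j i k : ℕ} (hji : j ≤ i) (hik : i ≤ k)
    (hk : k ≤ 2 * s) :
    Real.exp (SS (hh s) (i - j) + SS (hh s) (k - i) + SS (hh s) (i + k + 1) -
      SS (hh s) (i + j)) * (rr s m / (2 * Real.exp 1)) ≤
      ∏ l ∈ (Icc j k).erase i, ‖cz s (tt s) z i - cz s (tt s) z l‖ := by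
  have hr := rr_pos s m
  have hr1 := rr_le_one s m
  have hn := n_ge_one s
  set q : ℝ := 1 - 1 / (2 * s + 1) with hq
  have hq0 : 0 < q := by
    have h1 : (1 : ℝ) / (2 * s + 1) < 1 := by
      rw [div_lt_one (by positivity)]
      have : (1 : ℝ) ≤ s := by exact_mod_cast hs
      linarith only [this]
    rw [hq]; linarith only [h1]
  have hq1 : q ≤ 1 := by
    have : (0 : ℝ) ≤ 1 / (2 * s + 1) := by positivity
    rw [hq]; linarith only [this]
  have h1 : ∏ l ∈ (Icc j k).erase i, (‖1 - tt s ^ ((i - l) + (l - i))‖ *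
      (ww s (i + l + 1) * q * rho s m (i + l + 1))) ≤
      ∏ l ∈ (Icc j k).erase i, ‖cz s (tt s) z i - cz s (tt s) z l‖ := by
    apply Finset.prod_le_prod
    · intro l hl
      rw [Finset.mem_erase, Finset.mem_Icc] at hl
      have h2 := (ww_pos hs (x := i + l + 1) (by omega) (by omega)).le
      have h3 : 0 ≤ rho s m (i + l + 1) := by
        unfold rho
        split_ifs
        · exact hr.le
        · exact zero_le_one
      positivity
    · intro l hl
      rw [Finset.mem_erase, Finset.mem_Icc] at hl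
      rw [norm_cz (norm_tt s)]
      apply mul_le_mul_of_nonneg_left _ (norm_nonneg _)
      exact norm_zzt hs hz (by omega) (by omega)
  refine le_trans ?_ h1
  rw [Finset.prod_mul_distrib, Finset.prod_mul_distrib, Finset.prod_mul_distrib,
    Finset.prod_const]
  -- the four factors
  have f1 : ∏ l ∈ (Icc j k).erase i, ‖1 - tt s ^ ((i - l) + (l - i))‖ =
      Real.exp (SS (hh s) (i - j) + SS (hh s) (k - i)) := by
    rw [prod_erase_split hji hik, prod_qf_left hji, prod_qf_right hik,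
      norm_qf_eq (by omega), norm_qf_eq (by omega), ← Real.exp_add]
  have f2 : Real.exp (SS (hh s) (i + k + 1) - SS (hh s) (i + j)) / 2 ≤
      ∏ l ∈ (Icc j k).erase i, ww s (i + l + 1) := by
    rw [prod_erase_split hji hik, prod_ww hs hji (by omega), prod_ww hs (by omega) (by omega),
      ← Real.exp_add]
    have e1 : SS (hh s) (i + (i + 1)) = SS (hh s) (i + i) + ff ((i + i + 1 : ℕ) * hh s) := by
      rw [show i + (i + 1) = (i + i) + 1 by ring, SS_succ]
      push_cast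
      rfl
    rw [e1, div_le_iff₀ two_pos]
    have e2 : Real.exp (SS (hh s) (i + i) - SS (hh s) (i + j) + (SS (hh s) (i + (k + 1)) -
        (SS (hh s) (i + i) + ff ((i + i + 1 : ℕ) * hh s)))) * 2 =
        Real.exp (SS (hh s) (i + k + 1) - SS (hh s) (i + j)) *
          (2 * Real.exp (-ff ((i + i + 1 : ℕ) * hh s))) := by
      rw [mul_comm (2 : ℝ), ← mul_assoc, ← Real.exp_add]
      congr 2
      rw [show i + (k + 1) = i + k + 1 by ring]
      ring
    rw [e2]
    have e3 : 1 ≤ 2 * Real.exp (-ff ((i + i + 1 : ℕ) * hh s)) := by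
      have h5 := ff_le ((i + i + 1 : ℕ) * hh s)
      have h6 : Real.exp (-Real.log 2) ≤ Real.exp (-ff ((i + i + 1 : ℕ) * hh s)) :=
        Real.exp_le_exp.mpr (by linarith only [h5])
      rw [Real.exp_neg, Real.exp_log two_pos] at h6
      linarith only [h6]
    exact le_mul_of_one_le_right (Real.exp_pos _).le e3
  have f3 : (Real.exp 1)⁻¹ ≤ q ^ ((Icc j k).erase i).card := by
    have hcard : ((Icc j k).erase i).card ≤ 2 * s := by
      rw [Finset.card_erase_of_mem (Finset.mem_Icc.mpr ⟨hji, hik⟩), Nat.card_Icc]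
      omega
    have h5 : q ^ (2 * s) ≤ q ^ ((Icc j k).erase i).card :=
      pow_le_pow_of_le_one hq0.le hq1 hcard
    refine le_trans ?_ h5
    have hs0 : (0 : ℝ) < 2 * s := by
      have : (1 : ℝ) ≤ s := by exact_mod_cast hs
      linarith only [this]
    have e1 : q = (1 + 1 / (2 * s : ℝ))⁻¹ := by
      rw [hq]
      field_simp
      ring
    have e2 : (1 + 1 / (2 * s : ℝ)) ^ (2 * s) ≤ Real.exp 1 := by
      have h6 : (1 + 1 / (2 * s : ℝ)) ≤ Real.exp (1 / (2 * s)) := by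
        have := Real.add_one_le_exp (1 / (2 * s : ℝ))
        linarith only [this]
      have h7 := pow_le_pow_left₀ (by positivity) h6 (2 * s)
      rw [← Real.exp_nat_mul] at h7
      have e3 : ((2 * s : ℕ) : ℝ) * (1 / (2 * s)) = 1 := by
        push_cast
        field_simp
      rwa [e3] at h7
    rw [e1, inv_pow]
    exact inv_anti₀ (by positivity) e2
  have f4 : rr s m ≤ ∏ l ∈ (Icc j k).erase i, rho s m (i + l + 1) := by
    have e1 : ∏ l ∈ (Icc j k).erase i, rho s m (i + l + 1) =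
        ∏ l ∈ (Icc j k).erase i, (if l = 2 * s - i then rr s m else 1) := by
      apply Finset.prod_congr rfl
      intro l hl
      unfold rho
      by_cases h5 : l = 2 * s - i
      · rw [if_pos h5, if_pos (by omega)]
      · rw [if_neg h5, if_neg (by omega)]
    rw [e1, Finset.prod_ite_eq']
    split_ifs
    · exact le_rfl
    · exact hr1
  rw [f1]
  have g1 : 0 < Real.exp (SS (hh s) (i - j) + SS (hh s) (k - i)) := Real.exp_pos _
  have g2 : 0 < Real.exp (SS (hh s) (i + k + 1) - SS (hh s) (i + j)) := Real.exp_pos _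
  have g3 : 0 < (Real.exp 1)⁻¹ := by positivity
  calc Real.exp (SS (hh s) (i - j) + SS (hh s) (k - i) + SS (hh s) (i + k + 1) -
        SS (hh s) (i + j)) * (rr s m / (2 * Real.exp 1))
      = Real.exp (SS (hh s) (i - j) + SS (hh s) (k - i)) *
        ((Real.exp (SS (hh s) (i + k + 1) - SS (hh s) (i + j)) / 2) * (Real.exp 1)⁻¹ *
          rr s m) := by
        have e1 : SS (hh s) (i - j) + SS (hh s) (k - i) + SS (hh s) (i + k + 1) -
          SS (hh s) (i + j) = (SS (hh s) (i - j) + SS (hh s) (k - i)) +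
            (SS (hh s) (i + k + 1) - SS (hh s) (i + j)) := by ring
        rw [e1, Real.exp_add]
        field_simp
    _ ≤ Real.exp (SS (hh s) (i - j) + SS (hh s) (k - i)) *
        ((∏ l ∈ (Icc j k).erase i, ww s (i + l + 1)) * q ^ ((Icc j k).erase i).card *
          ∏ l ∈ (Icc j k).erase i, rho s m (i + l + 1)) := by
        apply mul_le_mul_of_nonneg_left _ g1.le
        apply mul_le_mul _ f4 hr.le
        · refine mul_nonneg ?_ (pow_nonneg hq0.le _)
          exact le_trans (by positivity) f2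
        · exact mul_le_mul f2 f3 g3.le (le_trans (by positivity) f2)

end

end Pool.Agent.Work.MP_b30479_gtS.TB

end

section

/-!
# The maximum principle
-/

namespace Pool.Agent.Work.MP_b30479_gtS.TB

open Finset Pool.Agent.Work.MP_b30479_gtS.Lob

section
variable {s : ℕ} (hs : 1 ≤ s)
include hs

omit hs in
lemma diff_gz {z : ℂ} (hz : ∀ l, 1 ≤ l → l ≤ 2 * s → 1 - z * tt s ^ l ≠ 0) {j k : ℕ}
    (hk : k ≤ 2 * s) : DifferentiableAt ℂ (fun z => gz s (tt s) z j k) z := by
  unfold gz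
  by_cases hjk : j ≤ k
  · simp only [if_pos hjk]
    apply DifferentiableAt.div
    · fun_prop
    · apply DifferentiableAt.mul _ (differentiableAt_const _)
      unfold pz
      apply DifferentiableAt.fun_finsetProd
      intro l _
      fun_prop
    · apply mul_ne_zero
      · unfold pz
        rw [Finset.prod_ne_zero_iff]
        intro l hl
        rw [Finset.mem_Ico] at hl
        exact hz _ (by omega) (by omega)
      · exact qf_ne_zero (tt_prim s) (by omega)
  · simp only [if_neg hjk]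
    exact differentiableAt_const _

omit hs in
lemma diff_Gm {z : ℂ} (hz : ∀ l, 1 ≤ l → l ≤ 2 * s → 1 - z * tt s ^ l ≠ 0) (m : ℕ) {j k : ℕ}
    (hk : k ≤ 2 * s) : DifferentiableAt ℂ (fun z => Gm s (tt s) z m j k) z := by
  induction m generalizing k with
  | zero =>
    simp only [Gm]
    exact differentiableAt_const _
  | succ m ih =>
    simp only [Gm]
    apply DifferentiableAt.fun_sum
    intro l hl
    rw [mem_range] at hl
    exact (ih (by omega)).mul (diff_gz hz hk)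

omit hs in
lemma norm_gz_diag (z : ℂ) (i : ℕ) : ‖gz s (tt s) z i i‖ = ‖z‖ ^ i := by
  unfold gz pz
  rw [if_pos le_rfl, Nat.sub_self, Finset.Ico_self, Finset.prod_empty, qf_zero]
  simp only [mul_one, div_one, norm_mul, norm_pow, norm_tt, one_pow, norm_neg, norm_one, one_mul]

lemma theta_le {m : ℕ} {z : ℂ} (hz : ‖z - 1‖ = rr s m) {i : ℕ} (hi : i ≤ 2 * s) :
    ‖gz s (tt s) z i i ^ m‖ ≤ Real.exp 1 := by
  have hr := rr_pos s m
  rw [norm_pow, norm_gz_diag, ← pow_mul]
  have h1 : ‖z‖ ≤ 1 + rr s m := by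
    have e1 : z = 1 + (z - 1) := by ring
    calc ‖z‖ = ‖1 + (z - 1)‖ := by rw [← e1]
      _ ≤ ‖(1 : ℂ)‖ + ‖z - 1‖ := norm_add_le _ _
      _ = 1 + rr s m := by rw [hz, norm_one]
  have h2 : ‖z‖ ≤ Real.exp (rr s m) := by
    have := Real.add_one_le_exp (rr s m)
    linarith only [h1, this]
  have h3 := pow_le_pow_left₀ (norm_nonneg z) h2 (i * m)
  rw [← Real.exp_nat_mul] at h3
  refine h3.trans (Real.exp_le_exp.mpr ?_)
  unfold rr
  rw [mul_one_div, div_le_one (by positivity)]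
  push_cast
  have h4 : (i : ℝ) ≤ 2 * s + 1 := by
    have : (i : ℝ) ≤ ((2 * s : ℕ) : ℝ) := by exact_mod_cast hi
    push_cast at this
    linarith only [this]
  have h5 := n_ge_one s
  have h6 : (0 : ℝ) ≤ m := Nat.cast_nonneg m
  have h7 : (i : ℝ) * m ≤ (2 * s + 1) * (m + 1) := by
    have h8 : (0 : ℝ) ≤ i := Nat.cast_nonneg i
    nlinarith only [h4]
  have h8 : (2 * s + 1 : ℝ) * (m + 1) ≤ (2 * s + 1) ^ 2 * (m + 1) := by
    apply mul_le_mul_of_nonneg_right _ (by linarith only [])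
    nlinarith only []
  linarith only [h7, h8]

lemma cz_ne {m : ℕ} {z : ℂ} (hz : ‖z - 1‖ = rr s m) : ∀ i ≤ 2 * s, ∀ l ≤ 2 * s, i ≠ l →
    cz s (tt s) z i ≠ cz s (tt s) z l := by
  intro i hi l hl hne hc
  have h1 : ‖cz s (tt s) z i - cz s (tt s) z l‖ = 0 := by rw [hc, sub_self, norm_zero]
  rw [norm_cz (norm_tt s)] at h1
  have h2 : 0 < ‖1 - tt s ^ ((i - l) + (l - i))‖ := by
    have h3 := mesh_lower hs (x := (i - l) + (l - i)) (by omega) (by omega)
    have h4 : (0 : ℝ) < 4 / (2 * s + 1) := by positivity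
    linarith only [h3, h4]
  have h3 : 0 < ‖1 - z ^ 2 * tt s ^ (i + l + 1)‖ := by
    have h4 := norm_zzt hs hz (x := i + l + 1) (by omega) (by omega)
    have h5 := ww_pos hs (x := i + l + 1) (by omega) (by omega)
    have h6 : 0 < rho s m (i + l + 1) := by
      unfold rho
      split_ifs
      · exact rr_pos s m
      · exact one_pos
    have h7 : (0 : ℝ) < 1 - 1 / (2 * s + 1) := by
      have h1 : (1 : ℝ) / (2 * s + 1) < 1 := by
        rw [div_lt_one (by positivity)]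
        have : (1 : ℝ) ≤ s := by exact_mod_cast hs
        linarith only [this]
      linarith only [h1]
    have h8 : 0 < ww s (i + l + 1) * (1 - 1 / (2 * s + 1)) * rho s m (i + l + 1) := by positivity
    linarith only [h4, h8]
  have := mul_pos h2 h3
  linarith only [h1, this]

/-- bound of the powers on the circle -/
lemma Gm_circle {m : ℕ} {z : ℂ} (hz : ‖z - 1‖ = rr s m) {j k : ℕ} (hjk : j ≤ k)
    (hk : k ≤ 2 * s) : ‖Gm s (tt s) z m j k‖ ≤
    (2 * Real.exp 1 ^ 2 / rr s m) * ∑ i ∈ Icc j k, Real.exp (-(SS (hh s) (i - j) +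
      SS (hh s) (k - i) + SS (hh s) (i + k + 1) - SS (hh s) (i + j))) := by
  have hr := rr_pos s m
  obtain ⟨d, rfl⟩ : ∃ d, k = j + d := ⟨k - j, by omega⟩
  rw [Gm_eq_dd (tt_prim s) (ne_zt hs hz.le) (cz_ne hs hz) m d j hk]
  unfold dd
  rw [Finset.mul_sum]
  refine (norm_sum_le _ _).trans (Finset.sum_le_sum ?_)
  intro i hi
  rw [Finset.mem_Icc] at hi
  rw [norm_div, norm_prod]
  have h1 := theta_le hs hz (i := i) (by omega)
  have h2 := den_lower hs hz hi.1 hi.2 hk
  have h3 : 0 < Real.exp (SS (hh s) (i - j) + SS (hh s) (j + d - i) + SS (hh s) (i + (j + d) + 1) -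
      SS (hh s) (i + j)) * (rr s m / (2 * Real.exp 1)) := by positivity
  refine (div_le_div₀ (Real.exp_pos _).le h1 h3 h2).trans (le_of_eq ?_)
  rw [Real.exp_neg]
  field_simp

/-- bound of the powers at `z = 1` -/
lemma Gm_bound (m : ℕ) {j k : ℕ} (hjk : j ≤ k)
    (hk : k ≤ 2 * s) : ‖Gm s (tt s) 1 m j k‖ ≤
    (2 * Real.exp 1 ^ 2 / rr s m) * ∑ i ∈ Icc j k, Real.exp (-(SS (hh s) (i - j) +
      SS (hh s) (k - i) + SS (hh s) (i + k + 1) - SS (hh s) (i + j))) := by
  have hr := rr_pos s m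
  refine Complex.norm_le_of_forall_mem_frontier_norm_le (f := fun z : ℂ => Gm s (tt s) z m j k)
    (U := Metric.ball (1 : ℂ) (rr s m)) Metric.isBounded_ball ?_ ?_ ?_
  · apply DifferentiableOn.diffContOnCl
    intro z hz
    have hz2 : z ∈ Metric.closedBall (1 : ℂ) (rr s m) := Metric.closure_ball_subset_closedBall hz
    rw [Metric.mem_closedBall, dist_eq_norm] at hz2
    exact (diff_Gm (ne_zt hs hz2) m hk).differentiableWithinAt
  · intro z hz
    rw [frontier_ball _ hr.ne', mem_sphere_iff_norm] at hz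
    exact Gm_circle hs hz hjk hk
  · exact subset_closure (Metric.mem_ball_self hr)

/-- polynomial factor -/
noncomputable def PP (s m : ℕ) : ℝ := (6 * (2 * s + 1) ^ 2) ^ 11 * (m + 1)

lemma entry_bound_aux (m : ℕ) {j k : ℕ} (hjk : j ≤ k) (hk : k ≤ 2 * s) {C : ℝ}
    (hC : ∀ i, j ≤ i → i ≤ k → LF (i * hh s + j * hh s) - LF (i * hh s - j * hh s) -
      2 * LF (j * hh s) ≤ C) :
    ‖Gm s (tt s) 1 m j k‖ * ‖qf (tt s) k‖ ^ 2 ≤
      (PP s m / (2 * s + 1) * Real.exp ((C + -4 * LF (Real.pi / 4)) / hh s)) * ‖qf (tt s) j‖ ^ 2 := by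
  have hr := rr_pos s m
  have hp := hh_pos s
  have hn := n_ge_one s
  set n : ℝ := 2 * s + 1 with hndef
  have h1 := Gm_bound hs m hjk hk
  have pj : 0 < ‖qf (tt s) j‖ := norm_qf_pos (tt_prim s) (by omega)
  rw [← div_le_iff₀ (by positivity)]
  have e1 : ‖Gm s (tt s) 1 m j k‖ * ‖qf (tt s) k‖ ^ 2 / ‖qf (tt s) j‖ ^ 2 ≤
      (2 * Real.exp 1 ^ 2 / rr s m) * ∑ i ∈ Icc j k, Real.exp (2 * SS (hh s) k -
        2 * SS (hh s) j - SS (hh s) (i - j) - SS (hh s) (k - i) -
      SS (hh s) (i + k + 1) + SS (hh s) (i + j)) := by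
    rw [norm_qf_eq hk, norm_qf_eq (show j ≤ 2 * s by omega), mul_div_assoc, ← div_pow,
      ← Real.exp_sub, ← Real.exp_nat_mul]
    refine (mul_le_mul_of_nonneg_right h1 (Real.exp_pos _).le).trans (le_of_eq ?_)
    rw [mul_assoc, Finset.sum_mul]
    congr 1
    apply Finset.sum_congr rfl
    intro i _
    rw [← Real.exp_add]
    congr 1
    push_cast
    ring
  refine e1.trans ?_
  have e2 : ∀ i ∈ Icc j k, Real.exp (2 * SS (hh s) k -
        2 * SS (hh s) j - SS (hh s) (i - j) - SS (hh s) (k - i) -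
      SS (hh s) (i + k + 1) + SS (hh s) (i + j)) ≤
      (2 * Real.exp 1 * n ^ 2) ^ 9 * Real.exp ((C + -4 * LF (Real.pi / 4)) / hh s) := by
    intro i hi
    rw [Finset.mem_Icc] at hi
    have h2 := E_le hs hi.1 hi.2 hk
    have h3 := hC i hi.1 hi.2
    have e3 : 2 * Real.exp 1 * n ^ 2 = Real.exp (1 + Real.log 2 + 2 * Real.log n) := by
      rw [Real.exp_add, Real.exp_add, Real.exp_log (by norm_num), two_mul (Real.log n),
        Real.exp_add, Real.exp_log (by linarith)]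
      ring
    rw [e3, ← Real.exp_nat_mul, ← Real.exp_add]
    apply Real.exp_le_exp.mpr
    rw [← sub_le_iff_le_add', le_div_iff₀ hp]
    push_cast
    rw [← hndef] at h2
    nlinarith only [h2, h3]
  have e4 := Finset.sum_le_sum e2
  rw [Finset.sum_const, nsmul_eq_mul] at e4
  have hcard : (((Icc j k).card : ℕ) : ℝ) ≤ n := by
    rw [Nat.card_Icc]
    have : ((k + 1 - j : ℕ) : ℝ) ≤ ((2 * s + 1 : ℕ) : ℝ) := by
      exact_mod_cast (show k + 1 - j ≤ 2 * s + 1 by omega)
    push_cast at this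
    exact this
  set X : ℝ := Real.exp ((C + -4 * LF (Real.pi / 4)) / hh s) with hX
  have hX0 : 0 < X := Real.exp_pos _
  have e5 : (((Icc j k).card : ℕ) : ℝ) * ((2 * Real.exp 1 * n ^ 2) ^ 9 * X) ≤
      n * ((2 * Real.exp 1 * n ^ 2) ^ 9 * X) :=
    mul_le_mul_of_nonneg_right hcard (by positivity)
  have e6 : 2 * Real.exp 1 ^ 2 / rr s m = 2 * Real.exp 1 ^ 2 * (n ^ 2 * (m + 1)) := by
    unfold rr
    rw [← hndef]
    field_simp
  refine (mul_le_mul_of_nonneg_left (e4.trans e5) (by positivity)).trans ?_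
  rw [e6]
  unfold PP
  rw [← hndef]
  have h4 := two_e_le
  have h5 : (0 : ℝ) < Real.exp 1 := Real.exp_pos 1
  have h6 : (2 * Real.exp 1) ^ 11 ≤ 6 ^ 11 := pow_le_pow_left₀ (by positivity) h4 11
  have hm0 : (0 : ℝ) ≤ m := Nat.cast_nonneg m
  calc 2 * Real.exp 1 ^ 2 * (n ^ 2 * (m + 1)) * (n * ((2 * Real.exp 1 * n ^ 2) ^ 9 * X))
      = ((2 * Real.exp 1) ^ 11 / 2) * n ^ 21 * (m + 1) * X := by ring
    _ ≤ 6 ^ 11 * n ^ 21 * (m + 1) * X := by
        apply mul_le_mul_of_nonneg_right _ hX0.le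
        apply mul_le_mul_of_nonneg_right _ (by linarith only [])
        apply mul_le_mul_of_nonneg_right _ (by positivity)
        have : 0 < (2 * Real.exp 1) ^ 11 := by positivity
        linarith only [h6]
    _ = (6 * n ^ 2) ^ 11 * (m + 1) / n * X := by
        field_simp

/-- the volume of the regular ideal octahedron -/
noncomputable def v8 : ℝ := -8 * LF (Real.pi / 4)

omit hs in
lemma angle_le {i : ℕ} (hi : i ≤ 2 * s) : (i : ℝ) * hh s ≤ Real.pi := by
  rw [← hh_nat s]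
  apply mul_le_mul_of_nonneg_right _ (hh_pos s).le
  exact_mod_cast (show i ≤ 2 * s + 1 by omega)

lemma entry_bound (m : ℕ) {j k : ℕ} (hj : j ≤ 2 * s) (hk : k ≤ 2 * s) :
    ‖Gm s (tt s) 1 m j k‖ * ‖qf (tt s) k‖ ^ 2 ≤
      (PP s m / (2 * s + 1) * Real.exp (v8 / hh s)) * ‖qf (tt s) j‖ ^ 2 := by
  have hp := hh_pos s
  have hPP : 0 ≤ PP s m := by unfold PP; positivity
  by_cases hjk : j ≤ k
  · have h1 := entry_bound_aux hs m hjk hk (C := -4 * LF (Real.pi / 4)) (fun i h1 h2 =>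
      Q_le (by positivity) (angle_le (by omega)) (by positivity) (angle_le hj))
    have e1 : -4 * LF (Real.pi / 4) + -4 * LF (Real.pi / 4) = v8 := by unfold v8; ring
    rwa [e1] at h1
  · rw [Gm_lt (by omega), norm_zero, zero_mul]
    positivity

lemma entry_bound_zero (m : ℕ) {k : ℕ} (hk : k ≤ 2 * s) :
    ‖Gm s (tt s) 1 m 0 k‖ * ‖qf (tt s) k‖ ^ 2 ≤
      PP s m / (2 * s + 1) * Real.exp (v8 / 2 / hh s) := by
  have h1 := entry_bound_aux hs m (Nat.zero_le k) hk (C := 0) (fun i h1 h2 => by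
    simp only [Nat.cast_zero, zero_mul, add_zero, sub_zero, LF_zero, mul_zero, sub_self, le_refl])
  rw [qf_zero, norm_one, one_pow, mul_one] at h1
  have e1 : 0 + -4 * LF (Real.pi / 4) = v8 / 2 := by unfold v8; ring
  rwa [e1] at h1

end

end Pool.Agent.Work.MP_b30479_gtS.TB

end
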